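import Pool.Agent.Lib.BCH.KApi

/-! The index map `K1 Q → K0 (J⁺)` of an extension and exactness at `K0 (J⁺)`. -/

set_option linter.unusedSectionVars false

noncomputable section

open Matrix Function BCK Filter Topology

namespace Pool.Agent.Lib.BCH

variable {J A Q : Type}

section Alg

variable [NonUnitalRing J] [Module ℝ J] [IsScalarTower ℝ J J] [SMulCommClass ℝ J J]
  [NonUnitalRing A] [Module ℝ A] [IsScalarTower ℝ A A] [SMulCommClass ℝ A A]
  [NonUnitalRing Q] [Module ℝ Q] [IsScalarTower ℝ Q Q] [SMulCommClass ℝ Q Q]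

theorem unitMap_inr (φ : J →ₙₐ[ℝ] A) (x : J) :
    unitMap φ (x : Unitization ℝ J) = (φ x : Unitization ℝ A) := by
  simp [unitMap]

theorem unitMap_apply (φ : J →ₙₐ[ℝ] A) (x : Unitization ℝ J) :
    unitMap φ x = algebraMap ℝ _ x.fst + (φ x.snd : Unitization ℝ A) := by
  simp [unitMap]

theorem unitMap_fst (φ : J →ₙₐ[ℝ] A) (x : Unitization ℝ J) : (unitMap φ x).fst = x.fst := by
  simp [unitMap_apply, Unitization.algebraMap_eq_inl]

theorem unitMap_snd (φ : J →ₙₐ[ℝ] A) (x : Unitization ℝ J) : (unitMap φ x).snd = φ x.snd := by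
  simp [unitMap_apply, Unitization.algebraMap_eq_inl]

theorem unitMap_injective {φ : J →ₙₐ[ℝ] A} (h : Injective φ) : Injective (unitMap φ) :=
  fun x y hxy => Unitization.ext (by rw [← unitMap_fst φ x, hxy, unitMap_fst])
    (h (by rw [← unitMap_snd, hxy, unitMap_snd]))

namespace Bd

variable {ι κ μ : Type}

/-- The scalar matrix over `Q⁺` of a real matrix. -/
abbrev sc (Q : Type) [NonUnitalRing Q] [Module ℝ Q] [IsScalarTower ℝ Q Q] [SMulCommClass ℝ Q Q]
    (c : Matrix ι κ ℝ) : Matrix ι κ (Unitization ℝ Q) := c.map (algebraMap ℝ (Unitization ℝ Q))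

/-- The matrix `1 + a` over `Q⁺`. -/
def U [DecidableEq ι] (a : Matrix ι ι Q) : Matrix ι ι (Unitization ℝ Q) :=
  1 + a.map Unitization.inr

theorem U_zero [DecidableEq ι] : U (0 : Matrix ι ι Q) = 1 := by
  simp [U, Matrix.map_zero _ (Unitization.inr_zero ℝ)]

theorem U_snd [DecidableEq ι] (a : Matrix ι ι Q) : (U a).map (fun x => x.snd) = a := by
  ext i j
  by_cases h : i = j <;> simp [U, one_apply, h]

theorem U_fst [DecidableEq ι] (a : Matrix ι ι Q) : (U a).map (Unitization.fstHom ℝ Q) = 1 := by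
  ext i j
  by_cases h : i = j <;> simp [U, one_apply, h]

theorem U_inj [DecidableEq ι] {a b : Matrix ι ι Q} (h : U a = U b) : a = b := by
  rw [← U_snd a, h, U_snd]

theorem U_of_fst [DecidableEq ι] {x : Matrix ι ι (Unitization ℝ Q)}
    (h : x.map (Unitization.fstHom ℝ Q) = 1) : U (x.map fun y => y.snd) = x := by
  ext i j
  · have := congrFun (congrFun h i) j
    by_cases h : i = j <;> simpa [U, one_apply, h, eq_comm] using this
  · by_cases h : i = j <;> simp [U, one_apply, h]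

theorem U_mul [Fintype ι] [DecidableEq ι] (a b : Matrix ι ι Q) :
    U a * U b = U (a + b + a * b) := by
  have h : (a * b).map (Unitization.inr : Q → Unitization ℝ Q) =
      a.map Unitization.inr * b.map Unitization.inr :=
    Matrix.map_mul (f := Unitization.inrNonUnitalAlgHom ℝ Q)
  simp only [U, Matrix.map_add _ (Unitization.inr_add ℝ), h]
  noncomm_ring

theorem U_map [DecidableEq ι] (φ : A →ₙₐ[ℝ] Q) (a : Matrix ι ι A) :
    (U a).map (unitMap φ) = U (a.map φ) := by
  ext1 i j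
  by_cases h : i = j <;> simp [U, one_apply, h, unitMap_inr]

theorem quasi_iff [Fintype ι] [DecidableEq ι] {a : Matrix ι ι Q} :
    IsQuasiregular a ↔ ∃ v, U a * v = 1 ∧ v * U a = 1 := by
  rw [isQuasiregular_iff]
  constructor
  · rintro ⟨b, h1, h2⟩
    exact ⟨U b, by rw [U_mul, add_comm a b, h1, U_zero], by rw [U_mul, add_comm b a, h2, U_zero]⟩
  · rintro ⟨v, h1, h2⟩
    have h3 : v.map (Unitization.fstHom ℝ Q) = 1 := by
      have := congrArg (fun x => x.map (Unitization.fstHom ℝ Q)) h1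
      simp only [Matrix.map_mul, U_fst, Matrix.one_mul] at this
      rw [this, Matrix.map_one _ (map_zero _) (map_one _)]
    rw [← U_of_fst h3, U_mul, ← U_zero] at h1 h2
    exact ⟨_, by rw [add_comm _ a]; exact U_inj h1, by rw [add_comm a]; exact U_inj h2⟩

theorem U_qinv {k : ℕ} (a : GLq Q k) : U a.1 * U (qinv a) = 1 ∧ U (qinv a) * U a.1 = 1 := by
  obtain ⟨h1, h2⟩ : qinv a + a.1 + a.1 * qinv a = 0 ∧ a.1 + qinv a + qinv a * a.1 = 0 :=
    (isQuasiregular_iff.1 a.2).choose_spec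
  exact ⟨by rw [U_mul, add_comm a.1, h1, U_zero], by rw [U_mul, add_comm _ a.1, h2, U_zero]⟩

variable (E : Ext J A Q)

theorem up_map {k : ℕ} (a : Matrix (Fin k) (Fin k) Q) : (E.up a).map (unitMap E.π) = U a := by
  have h : E.up a = U (a.map (surjInv E.surj)) := rfl
  rw [h, U_map, Matrix.map_map]
  congr 1
  ext i j
  exact surjInv_eq E.surj _

/-- Pulling a matrix over `A⁺` back to `J⁺`. -/
abbrev pull (x : Matrix ι κ (Unitization ℝ A)) : Matrix ι κ (Unitization ℝ J) :=
  x.map (invFun (unitMap E.ι))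

theorem pull_map (x : Matrix ι κ (Unitization ℝ J)) : pull E (x.map (unitMap E.ι)) = x := by
  ext1 i j
  exact leftInverse_invFun (unitMap_injective E.inj) _

theorem map_pull {x : Matrix ι κ (Unitization ℝ A)} {c : Matrix ι κ ℝ}
    (h : x.map (unitMap E.π) = sc Q c) : (pull E x).map (unitMap E.ι) = x := by
  ext1 i j
  refine invFun_eq (f := unitMap E.ι) ?_
  have h1 := congrArg (fun y : Unitization ℝ Q => y.snd) (congrFun (congrFun h i) j)
  simp only [map_apply, unitMap_snd, Unitization.algebraMap_eq_inl, Unitization.snd_inl] at h1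
  obtain ⟨y, hy⟩ := (E.exact _).1 h1
  exact ⟨Unitization.inl (x i j).fst + Unitization.inr y,
    Unitization.ext (by simp [unitMap_fst]) (by simp [unitMap_snd, hy])⟩

theorem map_map_sc (x : Matrix ι κ (Unitization ℝ J)) :
    (x.map (unitMap E.ι)).map (unitMap E.π) = sc Q (x.map (Unitization.fstHom ℝ J)) := by
  ext i j
  · simp [unitMap_fst, Unitization.algebraMap_eq_inl]
  · simp [unitMap_snd, Unitization.algebraMap_eq_inl, E.exact.apply_apply_eq_zero]

variable [Fintype ι] [Fintype κ] [Fintype μ] [DecidableEq ι]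

/-- `α`, `β` are the first column of a lift of `diag (u, ·)` and the first row of its inverse. -/
def Lift (u v : Matrix ι ι (Unitization ℝ Q)) (α : Matrix κ ι (Unitization ℝ A))
    (β : Matrix ι κ (Unitization ℝ A)) : Prop :=
  β * α = 1 ∧ ∃ (s : Matrix κ ι ℝ) (t : Matrix ι κ ℝ),
    α.map (unitMap E.π) = sc Q s * u ∧ β.map (unitMap E.π) = v * sc Q t

variable {E} {u v : Matrix ι ι (Unitization ℝ Q)} {α : Matrix κ ι (Unitization ℝ A)}
  {β : Matrix ι κ (Unitization ℝ A)} {α' : Matrix μ ι (Unitization ℝ A)}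
  {β' : Matrix ι μ (Unitization ℝ A)}

theorem Lift.map_pull (h : Lift E u v α β) (h' : Lift E u v α' β') (huv : u * v = 1) :
    (pull E (α * β')).map (unitMap E.ι) = α * β' := by
  obtain ⟨-, s, -, hs, -⟩ := h
  obtain ⟨-, -, t, -, ht⟩ := h'
  refine Bd.map_pull E (c := s * t) ?_
  rw [Matrix.map_mul, hs, ht, Matrix.mul_assoc, ← Matrix.mul_assoc u, huv, Matrix.one_mul,
    ← Matrix.map_mul]

theorem Lift.mul {ν : Type} [Fintype ν] {α'' : Matrix ν ι (Unitization ℝ A)}
    {β'' : Matrix ι ν (Unitization ℝ A)} (h : Lift E u v α β) (h' : Lift E u v α' β')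
    (h'' : Lift E u v α'' β'') (huv : u * v = 1) :
    pull E (α * β') * pull E (α' * β'') = pull E (α * β'') := by
  refine Matrix.map_injective (unitMap_injective E.inj) ?_
  dsimp only
  rw [Matrix.map_mul, h.map_pull h' huv, h'.map_pull h'' huv, h.map_pull h'' huv,
    Matrix.mul_assoc, ← Matrix.mul_assoc β', h'.1, Matrix.one_mul]

theorem Lift.idem (h : Lift E u v α β) (huv : u * v = 1) :
    pull E (α * β) * pull E (α * β) = pull E (α * β) := h.mul h h huv

/-- Independence of the lift. -/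
theorem Lift.cls_eq (h : Lift E u v α β) (h' : Lift E u v α' β') (huv : u * v = 1) :
    cls (pull E (α * β)) = cls (pull E (α' * β')) :=
  cls_mvn (h.idem huv) (h'.idem huv) _ _ (h.mul h' h huv) (h'.mul h h' huv)

theorem cls_p10 (R : Type) [Ring R] : cls (p10 R ι) = cls (1 : Matrix ι ι R) := by
  rw [p10, cls_fromBlocks (one_mul 1) (mul_zero 0), cls_zero, add_zero]

variable (E)

theorem exists_lft {k : ℕ} (a : GLq Q k) :
    ∃ (α : Matrix (Fin k ⊕ Fin k) (Fin k) (Unitization ℝ A))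
      (β : Matrix (Fin k) (Fin k ⊕ Fin k) (Unitization ℝ A)), Lift E (U a.1) (U (qinv a)) α β ∧
      E.indexOf a = cls (pull E (α * β)) - cls (1 : Matrix (Fin k) (Fin k) (Unitization ℝ J)) := by
  obtain ⟨h1, h2⟩ := U_qinv a
  have hu := up_map E a.1
  have hv := up_map E (qinv a)
  refine ⟨fromRows (E.up a.1 + E.up a.1 - E.up a.1 * E.up (qinv a) * E.up a.1)
    (1 - E.up (qinv a) * E.up a.1), fromCols (E.up (qinv a)) (1 - E.up (qinv a) * E.up a.1),
    ⟨?_, fromRows 1 0, fromCols 1 0, ?_, ?_⟩, ?_⟩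
  · rw [fromCols_mul_fromRows]
    noncomm_ring
  · rw [sc, fromRows_map, fromRows_map, fromRows_mul, Matrix.map_sub _ (map_sub _),
      Matrix.map_sub _ (map_sub _), Matrix.map_add _ (map_add _), Matrix.map_mul, Matrix.map_mul,
      Matrix.map_mul, hu, hv, h1, h2, Matrix.map_one _ (map_zero _) (map_one _),
      Matrix.map_one _ (map_zero _) (map_one _), Matrix.map_zero _ (map_zero _)]
    simp
  · rw [sc, fromCols_map, fromCols_map, mul_fromCols, Matrix.map_sub _ (map_sub _),
      Matrix.map_mul, hu, hv, h2, Matrix.map_one _ (map_zero _) (map_one _),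
      Matrix.map_one _ (map_zero _) (map_one _), Matrix.map_zero _ (map_zero _)]
    simp
  · rw [Ext.indexOf, cls_p10, fromRows_mul_fromCols]
    simp [Wm, Wi, p10, fromBlocks_multiply]

variable {E}

/-- The index class may be computed with any lift. -/
theorem indexOf_eq {k : ℕ} (a : GLq Q k) {v : Matrix (Fin k) (Fin k) (Unitization ℝ Q)}
    {α : Matrix κ (Fin k) (Unitization ℝ A)} {β : Matrix (Fin k) κ (Unitization ℝ A)}
    (h : Lift E (U a.1) v α β) (hv : U a.1 * v = 1) :
    E.indexOf a = cls (pull E (α * β)) - cls (1 : Matrix (Fin k) (Fin k) (Unitization ℝ J)) := by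
  obtain ⟨α', β', h1, h2⟩ := exists_lft E a
  obtain rfl : v = U (qinv a) := by
    rw [← Matrix.one_mul v, ← (U_qinv a).2, Matrix.mul_assoc, hv, Matrix.mul_one]
  rw [h2, h1.cls_eq h hv]

theorem indexOf_zero {k : ℕ} (a : GLq Q k) (h : a.1 = 0) : E.indexOf a = 0 := by
  have h1 : ∀ {R S F : Type} [Ring R] [Ring S] [FunLike F R S] [RingHomClass F R S] (f : F),
      (1 : Matrix (Fin k) (Fin k) R).map f = 1 := fun f => Matrix.map_one _ (map_zero _) (map_one _)
  rw [indexOf_eq a (v := 1) (α := 1) (β := 1) ⟨one_mul 1, 1, 1, by simp [h, U_zero, h1],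
    by simp [h1]⟩ (by rw [h, U_zero, one_mul]), one_mul, ← h1 (unitMap E.ι), pull_map, sub_self]

theorem U_bsum {k l : ℕ} (a : Matrix (Fin k) (Fin k) Q) (b : Matrix (Fin l) (Fin l) Q) :
    U (bsum a b) = (fromBlocks (U a) 0 0 (U b)).submatrix finSumFinEquiv.symm
      finSumFinEquiv.symm := by
  have h : U (bsum a b) = (U (fromBlocks a 0 0 b)).submatrix finSumFinEquiv.symm
      finSumFinEquiv.symm := by
    ext1 i j
    simp [U, bsum, one_apply]
  rw [h, U, ← fromBlocks_one, fromBlocks_map, fromBlocks_add]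
  simp [U, Matrix.map_zero _ (Unitization.inr_zero ℝ)]

theorem indexOf_bsum {k l : ℕ} (a : GLq Q k) (b : GLq Q l) (d : GLq Q (k + l))
    (h : d.1 = bsum a.1 b.1) : E.indexOf d = E.indexOf a + E.indexOf b := by
  obtain ⟨α, β, h1, h2⟩ := exists_lft E a
  obtain ⟨α', β', h3, h4⟩ := exists_lft E b
  have i1 := h1.idem (U_qinv a).1
  have i3 := h3.idem (U_qinv b).1
  obtain ⟨e1, s, t, hs, ht⟩ := h1
  obtain ⟨e3, s', t', hs', ht'⟩ := h3
  rw [indexOf_eq d (v := (fromBlocks (U (qinv a)) 0 0 (U (qinv b))).submatrix finSumFinEquiv.symm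
      finSumFinEquiv.symm) (α := (fromBlocks α 0 0 α').submatrix id finSumFinEquiv.symm)
      (β := (fromBlocks β 0 0 β').submatrix finSumFinEquiv.symm id)
      ⟨?_, (fromBlocks s 0 0 s').submatrix id finSumFinEquiv.symm,
        (fromBlocks t 0 0 t').submatrix finSumFinEquiv.symm id, ?_, ?_⟩ ?_,
    submatrix_mul_equiv, submatrix_id_id, h2, h4, cls_one_add]
  · have h0 : invFun (unitMap E.ι) 0 = 0 := by
      rw [← map_zero (unitMap E.ι)]; exact leftInverse_invFun (unitMap_injective E.inj) _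
    have : pull E (fromBlocks α 0 0 α' * fromBlocks β 0 0 β') =
        fromBlocks (pull E (α * β)) 0 0 (pull E (α' * β')) := by
      simp [fromBlocks_multiply, pull, fromBlocks_map, Matrix.map_zero _ h0]
    rw [this, cls_fromBlocks i1 i3]
    abel
  · rw [← submatrix_mul _ _ _ _ _ bijective_id]
    simp [fromBlocks_multiply, e1, e3]
  · rw [h, U_bsum, sc, ← submatrix_map, ← submatrix_map, submatrix_mul_equiv]
    simp [fromBlocks_multiply, fromBlocks_map, hs, hs']
  · rw [sc, ← submatrix_map, ← submatrix_map, submatrix_mul_equiv]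
    simp [fromBlocks_multiply, fromBlocks_map, ht, ht']
  · rw [h, U_bsum, submatrix_mul_equiv]
    simp [fromBlocks_multiply, (U_qinv a).1, (U_qinv b).1]

/-- Multiplying by the image of an invertible matrix does not change the index. -/
theorem indexOf_mul {k : ℕ} (a b : GLq Q k) (w : Matrix (Fin k) (Fin k) A) (hw : IsQuasiregular w)
    (h : U b.1 = U a.1 * U (w.map E.π)) : E.indexOf b = E.indexOf a := by
  obtain ⟨α, β, ⟨e1, s, t, hs, ht⟩, h2⟩ := exists_lft E a
  obtain ⟨x, hx1, hx2⟩ := quasi_iff.1 hw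
  have h3 : U (w.map E.π) * x.map (unitMap E.π) = 1 := by
    rw [← U_map, ← Matrix.map_mul, hx1, Matrix.map_one _ (map_zero _) (map_one _)]
  rw [indexOf_eq b (v := x.map (unitMap E.π) * U (qinv a)) (α := α * U w) (β := x * β)
    ⟨?_, s, t, ?_, ?_⟩ ?_, h2, Matrix.mul_assoc, ← Matrix.mul_assoc (U w), hx1, Matrix.one_mul]
  · rw [Matrix.mul_assoc, ← Matrix.mul_assoc β, e1, Matrix.one_mul, hx2]
  · rw [Matrix.map_mul, hs, h, U_map, Matrix.mul_assoc]
  · rw [Matrix.map_mul, ht, Matrix.mul_assoc]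
  · rw [h, Matrix.mul_assoc, ← Matrix.mul_assoc (U (w.map _)), h3, Matrix.one_mul, (U_qinv a).1]

end Bd

open Bd

/-- The index class dies in `K0 (A⁺)`. -/
theorem Ext.map_indexOf (E : Ext J A Q) {k : ℕ} (a : GLq Q k) :
    K0.map (unitMap E.ι : Unitization ℝ J →ₙ+* Unitization ℝ A) (E.indexOf a) = 0 := by
  obtain ⟨α, β, h1, h2⟩ := exists_lft E a
  have h3 := h1.map_pull h1 (U_qinv a).1
  rw [h2, map_sub, map_cls _ (h1.idem (U_qinv a).1), map_cls _ (one_mul 1), sub_eq_zero]
  change cls ((pull E (α * β)).map (unitMap E.ι)) = cls ((1 : Matrix _ _ _).map (unitMap E.ι))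
  rw [h3, Matrix.map_one _ (map_zero _) (map_one _)]
  refine cls_mvn ?_ (one_mul 1) α β rfl h1.1
  rw [Matrix.mul_assoc, ← Matrix.mul_assoc β, h1.1, Matrix.one_mul]

/-- A class that dies in `K0 (A⁺)` lies in `K0r J`. -/
theorem mem_K0r_of_map (φ : J →ₙₐ[ℝ] A) {x : K0 (Unitization ℝ J)}
    (hx : K0.map (unitMap φ : Unitization ℝ J →ₙ+* Unitization ℝ A) x = 0) : x ∈ K0r J := by
  have h := map_map (unitMap φ : Unitization ℝ J →ₙ+* Unitization ℝ A)
    (Unitization.fstHom ℝ A : Unitization ℝ A →ₙ+* ℝ) x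
  rw [hx, map_zero] at h
  rw [K0r, AddMonoidHom.mem_ker, h]
  exact map_congr (fun r => (unitMap_fst φ r).symm) x

theorem Ext.indexOf_mem (E : Ext J A Q) {k : ℕ} (a : GLq Q k) : E.indexOf a ∈ K0r J :=
  mem_K0r_of_map E.ι (E.map_indexOf a)

/-- Exactness: a class that dies in `K0 (A⁺)` is the index class of one invertible matrix. -/
theorem Ext.exists_indexOf (E : Ext J A Q) {x : K0 (Unitization ℝ J)}
    (hx : K0.map (unitMap E.ι : Unitization ℝ J →ₙ+* Unitization ℝ A) x = 0) :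
    ∃ (k : ℕ) (a : GLq Q k), E.indexOf a = x := by
  obtain ⟨k, l, e, he, rfl⟩ := x.exists_sub_one
  have h1 : ∀ {R S F n : Type} [Ring R] [Ring S] [FunLike F R S] [RingHomClass F R S] (f : F)
      [DecidableEq n], (1 : Matrix n n R).map f = 1 :=
    fun f _ => Matrix.map_one _ (map_zero _) (map_one _)
  rw [map_sub, map_cls _ he, map_cls _ (one_mul 1), sub_eq_zero] at hx
  change cls (e.map (unitMap E.ι)) = cls ((1 : Matrix _ _ _).map (unitMap E.ι)) at hx
  rw [h1] at hx
  obtain ⟨m, x, y, -, -, hxy, hyx⟩ := stable (by rw [← Matrix.map_mul, he]) (one_mul 1) hx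
  obtain ⟨α, β, hα, hβ⟩ : ∃ (α : Matrix (Fin k ⊕ Fin m) (Fin (l + m)) (Unitization ℝ A))
      (β : Matrix (Fin (l + m)) (Fin k ⊕ Fin m) (Unitization ℝ A)),
      α * β = (fromBlocks e 0 0 1).map (unitMap E.ι) ∧ β * α = 1 :=
    ⟨x.submatrix id finSumFinEquiv.symm, y.submatrix finSumFinEquiv.symm id,
      by rw [submatrix_mul_equiv, hxy]; simp [fromBlocks_map],
      by rw [← submatrix_mul _ _ _ _ _ bijective_id, hyx]; simp⟩
  set s := α.map (Unitization.fstHom ℝ A) with hs
  set t := β.map (Unitization.fstHom ℝ A) with ht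
  set a := α.map (unitMap E.π) with ha
  set b := β.map (unitMap E.π) with hb
  have hts : sc Q t * sc Q s = 1 := by rw [← Matrix.map_mul, ← Matrix.map_mul, hβ, h1, h1]
  have hba : b * a = 1 := by rw [← Matrix.map_mul, hβ, h1]
  have hab : a * b = sc Q s * sc Q t := by
    rw [← Matrix.map_mul, ← Matrix.map_mul, ← Matrix.map_mul, hα, map_map_sc, Matrix.map_map]
    congr 1
    ext1 i j
    exact (unitMap_fst _ _).symm
  have hu : U ((sc Q t * a).map fun y => y.snd) = sc Q t * a := by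
    refine U_of_fst ?_
    have e1 : (sc Q t).map (Unitization.fstHom ℝ Q) = t := by
      ext i j; simp [Unitization.algebraMap_eq_inl]
    have e2 : a.map (Unitization.fstHom ℝ Q) = s := by
      ext i j; simp [ha, hs, unitMap_fst]
    rw [Matrix.map_mul, e1, e2, ← Matrix.map_mul, hβ, h1]
  have huv : sc Q t * a * (b * sc Q s) = 1 := by
    rw [Matrix.mul_assoc, ← Matrix.mul_assoc a, hab, ← Matrix.mul_assoc, ← Matrix.mul_assoc, hts,
      Matrix.one_mul, hts]
  have hvu : b * sc Q s * (sc Q t * a) = 1 := by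
    rw [Matrix.mul_assoc, ← Matrix.mul_assoc (sc Q s), ← hab, Matrix.mul_assoc, hba,
      Matrix.mul_one, hba]
  refine ⟨l + m, ⟨_, quasi_iff.2 ⟨b * sc Q s, hu.symm ▸ huv, hu.symm ▸ hvu⟩⟩, ?_⟩
  rw [indexOf_eq _ (v := b * sc Q s) (α := α) (β := β) ⟨hβ, s, t, ?_, ?_⟩ (hu.symm ▸ huv), hα,
    pull_map, cls_fromBlocks he (one_mul 1), cls_one_add]
  · abel
  · rw [hu, ← Matrix.mul_assoc, ← hab, Matrix.mul_assoc, hba, Matrix.mul_one]
  · rw [Matrix.mul_assoc, ← hab, ← Matrix.mul_assoc, hba, Matrix.one_mul]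

end Alg

section Top

variable [NonUnitalRing J] [Module ℝ J] [IsScalarTower ℝ J J] [SMulCommClass ℝ J J]
  [NonUnitalNormedRing A] [NormedSpace ℝ A] [IsScalarTower ℝ A A] [SMulCommClass ℝ A A]
  [CompleteSpace A]

open Bd

/-- Small matrices over a Banach algebra are quasiregular. -/
theorem eventually_quasi {ι : Type} [Fintype ι] [DecidableEq ι] :
    ∀ᶠ w in 𝓝 (0 : Matrix ι ι A), IsQuasiregular w := by
  let φ := (WithLp.unitizationAlgEquiv (𝕜 := ℝ) (A := A) ℝ)
  have hc : Tendsto (fun w : Matrix ι ι A => (U w).map φ.symm) (𝓝 0) (𝓝 1) := by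
    refine Continuous.tendsto' ?_ _ _ (by rw [U_zero, Matrix.map_one _ (map_zero _) (map_one _)])
    refine continuous_matrix fun i j => ?_
    have h : (fun w : Matrix ι ι A => (U w).map φ.symm i j) = fun w =>
        φ.symm ((1 : Matrix ι ι _) i j) + WithLp.toLp 1 (Unitization.inr (w i j)) :=
      funext fun w => map_add φ.symm _ _
    rw [h]
    exact continuous_const.add ((WithLp.unitization_isometry_inr (𝕜 := ℝ) (A := A)).continuous.comp
      (continuous_id.matrix_elem i j))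
  refine (hc.eventually eventually_unit).mono fun w ⟨u, hu, _⟩ => ?_
  have h1 : U w = (u : Matrix ι ι _).map φ := by
    rw [hu]; ext1 i j; exact (φ.apply_symm_apply _).symm
  have h2 : (1 : Matrix ι ι _).map φ = 1 := Matrix.map_one _ (map_zero φ) (map_one φ)
  exact quasi_iff.2 ⟨(u⁻¹).val.map φ, by rw [h1, ← Matrix.map_mul, u.mul_inv, h2],
    by rw [h1, ← Matrix.map_mul, u.inv_mul, h2]⟩

section Open

variable [NonUnitalRing Q] [Module ℝ Q] [IsScalarTower ℝ Q Q] [SMulCommClass ℝ Q Q]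
  [TopologicalSpace Q] [IsTopologicalRing Q]

theorem Ext.isLocallyConstant_indexOf (E : Ext J A Q) (hπ : IsOpenMap E.π) (k : ℕ) :
    IsLocallyConstant fun a : GLq Q k => E.indexOf a := by
  refine (IsLocallyConstant.iff_eventually_eq _).2 fun a => ?_
  have ho : IsOpenMap fun w : Matrix (Fin k) (Fin k) A => w.map E.π :=
    IsOpenMap.piMap (fun _ => IsOpenMap.piMap (fun _ => hπ) (by simp)) (by simp)
  have h1 := ho.image_mem_nhds (eventually_quasi (A := A) (ι := Fin k))
  have hc : Tendsto (fun b : GLq Q k => qinv a + b.1 + qinv a * b.1) (𝓝 a)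
      (𝓝 ((0 : Matrix (Fin k) (Fin k) A).map E.π)) := by
    refine Continuous.tendsto' (by fun_prop) _ _ (U_inj ?_)
    rw [← U_mul, (U_qinv a).2, Matrix.map_zero _ (map_zero _), U_zero]
  refine (hc.eventually h1).mono fun b ⟨w, hw, h⟩ => indexOf_mul a b w hw ?_
  dsimp only at h
  rw [h, ← U_mul, ← Matrix.mul_assoc, (U_qinv a).1, Matrix.one_mul]

theorem Ext.indexOf_joined (E : Ext J A Q) (hπ : IsOpenMap E.π) {k : ℕ} {a b : GLq Q k}
    (h : Joined a b) : E.indexOf a = E.indexOf b := by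
  obtain ⟨γ⟩ := h
  simpa using ((E.isLocallyConstant_indexOf hπ k).comp_continuous
    γ.continuous).apply_eq_of_preconnectedSpace 0 1

/-- The index map of an extension whose quotient map is open. -/
def Ext.index (E : Ext J A Q) (hπ : IsOpenMap E.π) : K1 Q →+ K0 (Unitization ℝ J) :=
  K1.lift (fun _ a => E.indexOf a) (fun _ _ _ h => E.indexOf_joined hπ h)
    (fun _ a h => indexOf_zero a h) (fun _ _ a b d h => indexOf_bsum a b d h)

theorem Ext.index_mk (E : Ext J A Q) (hπ : IsOpenMap E.π) {k : ℕ} (a : GLq Q k) :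
    E.index hπ (K1.mk a) = E.indexOf a :=
  FreeAbelianGroup.lift_apply_of (fun a : Σ k, GLq Q k => E.indexOf a.2) ⟨k, a⟩

/-- Exactness of `K1 Q → K0 (J⁺) → K0 (A⁺)`. -/
theorem Ext.range_index (E : Ext J A Q) (hπ : IsOpenMap E.π) : (E.index hπ).range =
    (K0.map (unitMap E.ι : Unitization ℝ J →ₙ+* Unitization ℝ A)).ker := by
  refine le_antisymm ?_ fun x hx => ?_
  · rintro _ ⟨y, rfl⟩
    obtain ⟨z, rfl⟩ := QuotientAddGroup.mk_surjective y
    induction z using FreeAbelianGroup.induction_on with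
    | zero => exact (map_zero (E.index hπ)).symm ▸ zero_mem _
    | of a => exact (E.index_mk hπ a.2).symm ▸ E.map_indexOf a.2
    | neg a h => exact (map_neg (E.index hπ) (K1.mk a.2)).symm ▸ neg_mem h
    | add x y hx hy =>
      exact (map_add (E.index hπ) (QuotientAddGroup.mk x) (QuotientAddGroup.mk y)).symm ▸
        add_mem hx hy
  · obtain ⟨k, a, h⟩ := E.exists_indexOf hx
    exact ⟨K1.mk a, (E.index_mk hπ a).trans h⟩

/-- If `K0r J → K0 (A⁺)` vanishes, the index map has range exactly `K0r J`. -/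
theorem Ext.range_index_eq (E : Ext J A Q) (hπ : IsOpenMap E.π)
    (h : ∀ x ∈ K0r J, K0.map (unitMap E.ι : Unitization ℝ J →ₙ+* Unitization ℝ A) x = 0) :
    (E.index hπ).range = K0r J := by
  rw [E.range_index hπ]
  exact le_antisymm (fun _ hx => mem_K0r_of_map E.ι hx) h

end Open

/-- A continuous quotient map of Banach algebras is open. -/
theorem Ext.isOpenMap [NonUnitalNormedRing Q] [NormedSpace ℝ Q] [IsScalarTower ℝ Q Q]
    [SMulCommClass ℝ Q Q] [CompleteSpace Q] (E : Ext J A Q) (hπ : Continuous E.π) :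
    IsOpenMap E.π :=
  ContinuousLinearMap.isOpenMap
    (⟨⟨⟨E.π, map_add E.π⟩, map_smul E.π⟩, hπ⟩ : A →L[ℝ] Q) E.surj

end Top

end Pool.Agent.Lib.BCH
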