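import Pool.Agent.Lib.BCH.RoeDefs

/-! Basic properties of the Roe algebras, rectangular versions. -/

set_option linter.unusedSectionVars false

noncomputable section

open scoped ZeroAtInfty ENNReal
open Filter Topology

namespace Pool.Agent.Lib.BCH

section Entry

variable {Z Z₁ Z₂ Z₃ : Type}

theorem ite_cg {P Q : Prop} {dP : Decidable P} {dQ : Decidable Q} (h : P ↔ Q) {a b : ℝ} :
    @ite ℝ P dP a b = @ite ℝ Q dQ a b := if_congr h rfl rfl

open Classical in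
/-- The basis vector. -/
def dl (b : Z) : H Z := lp.single 2 b 1

open Classical in
theorem dl_apply (b a : Z) : dl b a = if a = b then 1 else 0 := by
  simp [dl, lp.single_apply, Pi.single_apply]

theorem entry_eq (T : H Z₂ →L[ℝ] H Z₁) (a : Z₁) (b : Z₂) : entry T a b = T (dl b) a := rfl

theorem hasSum_dl (ξ : H Z) : HasSum (fun b => ξ b • dl b) ξ := by
  classical
  convert lp.hasSum_single (p := 2) (by simp) ξ using 2 with b
  refine lp.ext (funext fun a => ?_)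
  by_cases h : a = b
  · subst h; simp [dl_apply]
  · simp [dl_apply, h, lp.single_apply]

theorem hasSum_apply (T : H Z₂ →L[ℝ] H Z₁) (ξ : H Z₂) (a : Z₁) :
    HasSum (fun b => entry T a b * ξ b) (T ξ a) := by
  have := ((lp.evalCLM ℝ (fun _ : Z₁ => ℝ) 2 a).comp T).hasSum (hasSum_dl ξ)
  simp only [map_smul, smul_eq_mul] at this
  simp only [mul_comm (entry T a _)]
  exact this

theorem entry_ext {S T : H Z₂ →L[ℝ] H Z₁} (h : ∀ a b, entry S a b = entry T a b) : S = T :=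
  ContinuousLinearMap.ext fun ξ => lp.ext (funext fun a =>
    (hasSum_apply S ξ a).unique (by simpa only [h] using hasSum_apply T ξ a))

theorem hasSum_entry_comp (S : H Z₂ →L[ℝ] H Z₁) (T : H Z₃ →L[ℝ] H Z₂) (a : Z₁) (c : Z₃) :
    HasSum (fun b => entry S a b * entry T b c) (entry (S.comp T) a c) :=
  hasSum_apply S (T (dl c)) a

theorem hasSum_entry_mul (S T : Op Z) (a c : Z) :
    HasSum (fun b => entry S a b * entry T b c) (entry (S * T) a c) := hasSum_entry_comp S T a c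

@[simp] theorem entry_add (S T : H Z₂ →L[ℝ] H Z₁) (a : Z₁) (b : Z₂) :
    entry (S + T) a b = entry S a b + entry T a b := rfl

@[simp] theorem entry_sub (S T : H Z₂ →L[ℝ] H Z₁) (a : Z₁) (b : Z₂) :
    entry (S - T) a b = entry S a b - entry T a b := rfl

@[simp] theorem entry_neg (S : H Z₂ →L[ℝ] H Z₁) (a : Z₁) (b : Z₂) :
    entry (-S) a b = -entry S a b := rfl

@[simp] theorem entry_smul (c : ℝ) (T : H Z₂ →L[ℝ] H Z₁) (a : Z₁) (b : Z₂) :
    entry (c • T) a b = c * entry T a b := rfl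

@[simp] theorem entry_zero (a : Z₁) (b : Z₂) : entry (0 : H Z₂ →L[ℝ] H Z₁) a b = 0 := rfl

open Classical in
theorem entry_one (a b : Z) : entry (1 : Op Z) a b = if a = b then 1 else 0 := dl_apply b a

open Classical in
theorem entry_id (a b : Z) : entry (ContinuousLinearMap.id ℝ (H Z)) a b = if a = b then 1 else 0 :=
  dl_apply b a

theorem norm_dl (b : Z) : ‖dl b‖ = 1 := by
  classical
  simp [dl, lp.norm_single]

theorem abs_entry_le (T : H Z₂ →L[ℝ] H Z₁) (a : Z₁) (b : Z₂) : |entry T a b| ≤ ‖T‖ :=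
  (lp.norm_apply_le_norm (by simp) (T (dl b)) a).trans (by simpa [norm_dl] using T.le_opNorm (dl b))

/-- A matrix coefficient as a continuous linear functional. -/
def entryL (a : Z₁) (b : Z₂) : (H Z₂ →L[ℝ] H Z₁) →L[ℝ] ℝ :=
  LinearMap.mkContinuous ⟨⟨fun T => entry T a b, fun _ _ => rfl⟩, fun _ _ => rfl⟩ 1 fun T => by
    simpa using abs_entry_le T a b

theorem continuous_entry (a : Z₁) (b : Z₂) :
    Continuous fun T : H Z₂ →L[ℝ] H Z₁ => entry T a b := (entryL a b).continuous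

theorem entry_sum {ι : Type*} (s : Finset ι) (T : ι → H Z₂ →L[ℝ] H Z₁) (a : Z₁) (b : Z₂) :
    entry (∑ i ∈ s, T i) a b = ∑ i ∈ s, entry (T i) a b := map_sum (entryL a b) T s

theorem inner_dl (a : Z) (ξ : H Z) : inner ℝ (dl a) ξ = ξ a := by
  classical
  simp [dl, lp.inner_single_left]

theorem entry_adjoint (T : H Z₂ →L[ℝ] H Z₁) (a : Z₁) (b : Z₂) :
    entry (ContinuousLinearMap.adjoint T) b a = entry T a b := by
  rw [entry_eq, ← inner_dl, ContinuousLinearMap.adjoint_inner_right, real_inner_comm, inner_dl,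
    entry_eq]

@[simp] theorem mulOp_apply (f : Z → ℝ) (C : ℝ) (hf : ∀ z, |f z| ≤ C) (ξ : H Z) (z : Z) :
    mulOp f C hf ξ z = f z * ξ z := rfl

open Classical in
theorem entry_mulOp (f : Z → ℝ) (C : ℝ) (hf : ∀ z, |f z| ≤ C) (a b : Z) :
    entry (mulOp f C hf) a b = if a = b then f a else 0 := by
  simp [entry_eq, dl_apply]

theorem norm_mulOp_le (f : Z → ℝ) (C : ℝ) (hf : ∀ z, |f z| ≤ C) {D : ℝ} (h0 : 0 ≤ D)
    (hD : ∀ z, |f z| ≤ D) : ‖mulOp f C hf‖ ≤ D :=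
  (LinearMap.mkContinuous_norm_le _ (abs_nonneg D) _ : ‖mulOp f D hD‖ ≤ |D|).trans
    (abs_of_nonneg h0).le

theorem entry_mulOp_comp (f : Z₁ → ℝ) (C : ℝ) (hf : ∀ z, |f z| ≤ C) (T : H Z₂ →L[ℝ] H Z₁)
    (a : Z₁) (b : Z₂) : entry ((mulOp f C hf).comp T) a b = f a * entry T a b := rfl

theorem entry_comp_mulOp (f : Z₂ → ℝ) (C : ℝ) (hf : ∀ z, |f z| ≤ C) (T : H Z₂ →L[ℝ] H Z₁)
    (a : Z₁) (b : Z₂) : entry (T.comp (mulOp f C hf)) a b = entry T a b * f b := by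
  have : mulOp f C hf (dl b) = f b • dl b := lp.ext (funext fun z => by
    by_cases h : z = b
    · subst h; simp
    · simp [dl_apply, h])
  simp [entry_eq, this, mul_comm]

theorem adjoint_mulOp (f : Z → ℝ) (C : ℝ) (hf : ∀ z, |f z| ≤ C) :
    ContinuousLinearMap.adjoint (mulOp f C hf) = mulOp f C hf :=
  entry_ext fun a b => by
    rw [entry_adjoint, entry_mulOp, entry_mulOp]
    by_cases h : a = b
    · subst h; rfl
    · rw [if_neg h, if_neg (Ne.symm h)]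

/-- Compact operators as a predicate on continuous linear maps. -/
abbrev Cpt (T : H Z₂ →L[ℝ] H Z₁) : Prop := IsCompactOperator T

theorem Cpt.zero : Cpt (0 : H Z₂ →L[ℝ] H Z₁) := isCompactOperator_zero

theorem Cpt.add {S T : H Z₂ →L[ℝ] H Z₁} (hS : Cpt S) (hT : Cpt T) : Cpt (S + T) :=
  IsCompactOperator.add hS hT

theorem Cpt.sub {S T : H Z₂ →L[ℝ] H Z₁} (hS : Cpt S) (hT : Cpt T) : Cpt (S - T) :=
  IsCompactOperator.sub hS hT

theorem Cpt.neg {S : H Z₂ →L[ℝ] H Z₁} (hS : Cpt S) : Cpt (-S) := IsCompactOperator.neg hS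

theorem Cpt.smul {S : H Z₂ →L[ℝ] H Z₁} (hS : Cpt S) (c : ℝ) : Cpt (c • S) :=
  IsCompactOperator.smul hS c

theorem Cpt.comp_left {T : H Z₃ →L[ℝ] H Z₂} (hT : Cpt T) (S : H Z₂ →L[ℝ] H Z₁) :
    Cpt (S.comp T) := IsCompactOperator.clm_comp hT S

theorem Cpt.comp_right {S : H Z₂ →L[ℝ] H Z₁} (hS : Cpt S) (T : H Z₃ →L[ℝ] H Z₂) :
    Cpt (S.comp T) := IsCompactOperator.comp_clm hS T

theorem Cpt.sum {ι : Type*} (s : Finset ι) (T : ι → H Z₂ →L[ℝ] H Z₁) (h : ∀ i ∈ s, Cpt (T i)) :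
    Cpt (∑ i ∈ s, T i) :=
  Finset.sum_induction T Cpt (fun _ _ => Cpt.add) Cpt.zero h

theorem isClosed_cpt : IsClosed {T : H Z₂ →L[ℝ] H Z₁ | Cpt T} :=
  isClosed_setOfPred_isCompactOperator

theorem Cpt.of_approx {T : H Z₂ →L[ℝ] H Z₁} (h : ∀ ε > 0, ∃ S, Cpt S ∧ ‖T - S‖ ≤ ε) : Cpt T := by
  refine isClosed_cpt.closure_subset (Metric.mem_closure_iff.2 fun ε hε => ?_)
  obtain ⟨S, hS, h'⟩ := h (ε / 2) (half_pos hε)
  exact ⟨S, hS, by rw [dist_eq_norm]; linarith⟩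

/-- The rank one projection on a basis vector. -/
def rk (z : Z) : Op Z := (lp.evalCLM ℝ (fun _ : Z => ℝ) 2 z).smulRight (dl z)

theorem cpt_rk (z : Z) : Cpt (rk z) := by
  have := isCompactOperator_of_locallyCompactSpace_dom (lp.evalCLM ℝ (fun _ : Z => ℝ) 2 z)
  exact this.clm_comp (ContinuousLinearMap.toSpanSingleton ℝ (dl z))

theorem cpt_mulOp_of_finite (f : Z → ℝ) (C : ℝ) (hf : ∀ z, |f z| ≤ C) (h : {z | f z ≠ 0}.Finite) :
    Cpt (mulOp f C hf) := by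
  classical
  have : mulOp f C hf = ∑ z ∈ h.toFinset, f z • rk z := by
    refine entry_ext fun a b => ?_
    rw [entry_mulOp, entry_sum]
    have e : ∀ z, entry (f z • rk z) a b = if z = a then (if a = b then f a else 0) else 0 := by
      intro z
      have : entry (rk z) a b = dl b z * dl z a := rfl
      rw [entry_smul, this, dl_apply, dl_apply]
      by_cases h1 : z = a
      · subst h1; simp
      · simp [h1, Ne.symm h1]
    simp only [e, Finset.sum_ite_eq', Set.Finite.mem_toFinset, Set.mem_ofPred_eq]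
    by_cases h1 : f a = 0 <;> simp [h1]
  rw [this]
  exact Cpt.sum _ _ fun z _ => (cpt_rk z).smul _

/-- Multiplication by a function tending to zero is compact. -/
theorem cpt_mulOp (f : Z → ℝ) (C : ℝ) (hf : ∀ z, |f z| ≤ C)
    (h : ∀ ε > 0, {z | ε ≤ |f z|}.Finite) : Cpt (mulOp f C hf) := by
  classical
  refine Cpt.of_approx fun ε hε => ?_
  have h1 : ∀ z, |if ε ≤ |f z| then f z else 0| ≤ C := fun z => by
    split_ifs
    · exact hf z
    · simpa using (abs_nonneg _).trans (hf z)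
  have h2 : ∀ z, |if ε ≤ |f z| then 0 else f z| ≤ ε := fun z => by
    split_ifs with h'
    · simpa using hε.le
    · exact (not_le.1 h').le
  refine ⟨mulOp _ C h1, cpt_mulOp_of_finite _ _ _ ((h ε hε).subset fun z hz => ?_), ?_⟩
  · by_contra h'
    exact hz (if_neg h')
  · have : mulOp f C hf - mulOp _ C h1 = mulOp _ ε h2 := entry_ext fun a b => by
      rw [entry_sub, entry_mulOp, entry_mulOp, entry_mulOp]
      split_ifs <;> simp
    rw [this]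
    exact norm_mulOp_le _ _ _ hε.le h2

/-- An operator with finitely many nonzero rows is compact. -/
theorem cpt_of_rows {T : H Z₂ →L[ℝ] H Z₁} {s : Set Z₁} (hs : s.Finite)
    (h : ∀ a ∉ s, ∀ b, entry T a b = 0) : Cpt T := by
  classical
  have h1 : ∀ z, |if z ∈ s then (1 : ℝ) else 0| ≤ 1 := fun z => by split_ifs <;> simp
  have : T = (mulOp _ 1 h1).comp T := entry_ext fun a b => by
    rw [entry_mulOp_comp]
    split_ifs with h'
    · simp
    · simp [h a h' b]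
  rw [this]
  exact (cpt_mulOp_of_finite _ _ _ (hs.subset fun z hz => by
    by_contra h'
    exact hz (if_neg h'))).comp_right _

/-- An operator with finitely many nonzero columns is compact. -/
theorem cpt_of_cols {T : H Z₂ →L[ℝ] H Z₁} {s : Set Z₂} (hs : s.Finite)
    (h : ∀ b ∉ s, ∀ a, entry T a b = 0) : Cpt T := by
  classical
  have h1 : ∀ z, |if z ∈ s then (1 : ℝ) else 0| ≤ 1 := fun z => by split_ifs <;> simp
  have : T = T.comp (mulOp _ 1 h1) := entry_ext fun a b => by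
    rw [entry_comp_mulOp]
    split_ifs with h'
    · simp
    · simp [h b h' a]
  rw [this]
  exact (cpt_mulOp_of_finite _ _ _ (hs.subset fun z hz => by
    by_contra h'
    exact hz (if_neg h'))).comp_left _

end Entry

section Rect

variable (Γ : Type) {X Z Z₁ Z₂ Z₃ Z₄ : Type} [Group Γ] [MetricSpace X]
  [MulAction Γ Z] [MulAction Γ Z₁] [MulAction Γ Z₂] [MulAction Γ Z₃] [MulAction Γ Z₄]

/-- Invariance of a rectangular operator. -/
def InvR (T : H Z₂ →L[ℝ] H Z₁) : Prop :=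
  ∀ (g : Γ) (a : Z₁) (b : Z₂), entry T (g • a) (g • b) = entry T a b

/-- Propagation at most `r`. -/
def PropLE (p₁ : Z₁ → X) (p₂ : Z₂ → X) (T : H Z₂ →L[ℝ] H Z₁) (r : ℝ) : Prop :=
  ∀ a b, r < dist (p₁ a) (p₂ b) → entry T a b = 0

/-- Finite propagation of a rectangular operator. -/
def FinR (p₁ : Z₁ → X) (p₂ : Z₂ → X) (T : H Z₂ →L[ℝ] H Z₁) : Prop := ∃ r, PropLE p₁ p₂ T r

/-- Pseudolocality of a rectangular operator. -/
def PsR (p₁ : Z₁ → X) (p₂ : Z₂ → X) (T : H Z₂ →L[ℝ] H Z₁) : Prop :=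
  ∀ φ : C₀(X, ℝ), Cpt (T.comp (rep p₂ φ) - (rep p₁ φ).comp T)

/-- Local compactness of a rectangular operator. -/
def LcR (p₁ : Z₁ → X) (p₂ : Z₂ → X) (T : H Z₂ →L[ℝ] H Z₁) : Prop :=
  ∀ φ : C₀(X, ℝ), Cpt (T.comp (rep p₂ φ)) ∧ Cpt ((rep p₁ φ).comp T)

variable {Γ} {p : Z → X} {p₁ : Z₁ → X} {p₂ : Z₂ → X} {p₃ : Z₃ → X} {p₄ : Z₄ → X}

theorem entry_rep_comp (φ : C₀(X, ℝ)) (T : H Z₂ →L[ℝ] H Z₁) (a : Z₁) (b : Z₂) :
    entry ((rep p₁ φ).comp T) a b = φ (p₁ a) * entry T a b := rfl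

theorem entry_comp_rep (φ : C₀(X, ℝ)) (T : H Z₂ →L[ℝ] H Z₁) (a : Z₁) (b : Z₂) :
    entry (T.comp (rep p₂ φ)) a b = entry T a b * φ (p₂ b) := entry_comp_mulOp _ _ _ _ _ _

theorem InvR.comp {S : H Z₂ →L[ℝ] H Z₁} {T : H Z₃ →L[ℝ] H Z₂} (hS : InvR Γ S) (hT : InvR Γ T) :
    InvR Γ (S.comp T) := fun g a c => by
  refine (hasSum_entry_comp S T (g • a) (g • c)).unique ?_
  rw [← (MulAction.toPerm g).hasSum_iff]
  convert hasSum_entry_comp S T a c using 2 with b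
  simp [hS g a b, hT g b c]

theorem InvR.adjoint {T : H Z₂ →L[ℝ] H Z₁} (hT : InvR Γ T) :
    InvR Γ (ContinuousLinearMap.adjoint T) := fun g a b => by
  rw [entry_adjoint, entry_adjoint, hT]

theorem isClosed_invR : IsClosed {T : H Z₂ →L[ℝ] H Z₁ | InvR Γ T} := by
  simp only [InvR, Set.ofPred_forall]
  exact isClosed_iInter fun g => isClosed_iInter fun a => isClosed_iInter fun b =>
    isClosed_eq (continuous_entry _ _) (continuous_entry _ _)

theorem PropLE.mono {T : H Z₂ →L[ℝ] H Z₁} {r s : ℝ} (h : PropLE p₁ p₂ T r) (hrs : r ≤ s) :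
    PropLE p₁ p₂ T s := fun a b h' => h a b (hrs.trans_lt h')

theorem PropLE.comp {S : H Z₂ →L[ℝ] H Z₁} {T : H Z₃ →L[ℝ] H Z₂} {r s : ℝ}
    (hS : PropLE p₁ p₂ S r) (hT : PropLE p₂ p₃ T s) : PropLE p₁ p₃ (S.comp T) (r + s) :=
  fun a c h => by
    refine (hasSum_entry_comp S T a c).unique ?_
    convert hasSum_zero using 2 with b
    by_cases h1 : r < dist (p₁ a) (p₂ b)
    · simp [hS a b h1]
    · have := dist_triangle (p₁ a) (p₂ b) (p₃ c)
      simp [hT b c (by linarith [not_lt.1 h1])]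

theorem PropLE.add {S T : H Z₂ →L[ℝ] H Z₁} {r : ℝ} (hS : PropLE p₁ p₂ S r)
    (hT : PropLE p₁ p₂ T r) : PropLE p₁ p₂ (S + T) r := fun a b h => by simp [hS a b h, hT a b h]

theorem PropLE.adjoint {T : H Z₂ →L[ℝ] H Z₁} {r : ℝ} (hT : PropLE p₁ p₂ T r) :
    PropLE p₂ p₁ (ContinuousLinearMap.adjoint T) r := fun a b h => by
  rw [entry_adjoint, hT _ _ (by rwa [dist_comm])]

theorem FinR.comp {S : H Z₂ →L[ℝ] H Z₁} {T : H Z₃ →L[ℝ] H Z₂} (hS : FinR p₁ p₂ S)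
    (hT : FinR p₂ p₃ T) : FinR p₁ p₃ (S.comp T) :=
  let ⟨_, h⟩ := hS; let ⟨_, h'⟩ := hT; ⟨_, h.comp h'⟩

theorem FinR.add {S T : H Z₂ →L[ℝ] H Z₁} (hS : FinR p₁ p₂ S) (hT : FinR p₁ p₂ T) :
    FinR p₁ p₂ (S + T) :=
  let ⟨r, h⟩ := hS; let ⟨s, h'⟩ := hT
  ⟨max r s, (h.mono (le_max_left _ _)).add (h'.mono (le_max_right _ _))⟩

theorem PsR.comp {S : H Z₂ →L[ℝ] H Z₁} {T : H Z₃ →L[ℝ] H Z₂} (hS : PsR p₁ p₂ S)
    (hT : PsR p₂ p₃ T) : PsR p₁ p₃ (S.comp T) := fun φ => by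
  convert ((hT φ).comp_left S).add ((hS φ).comp_right T) using 1
  ext1 ξ
  simp

theorem LcR.psR {T : H Z₂ →L[ℝ] H Z₁} (h : LcR p₁ p₂ T) : PsR p₁ p₂ T := fun φ =>
  (h φ).1.sub (h φ).2

theorem PsR.comp_lc {S : H Z₂ →L[ℝ] H Z₁} {T : H Z₃ →L[ℝ] H Z₂} (hS : PsR p₁ p₂ S)
    (hT : LcR p₂ p₃ T) : LcR p₁ p₃ (S.comp T) := fun φ => by
  refine ⟨(hT φ).1.comp_left S, ?_⟩
  convert ((hT φ).2.comp_left S).sub ((hS φ).comp_right T) using 1
  ext1 ξ
  simp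

theorem LcR.comp_ps {S : H Z₂ →L[ℝ] H Z₁} {T : H Z₃ →L[ℝ] H Z₂} (hS : LcR p₁ p₂ S)
    (hT : PsR p₂ p₃ T) : LcR p₁ p₃ (S.comp T) := fun φ => by
  refine ⟨?_, (hS φ).2.comp_right T⟩
  convert ((hT φ).comp_left S).add ((hS φ).1.comp_right T) using 1
  ext1 ξ
  simp

theorem isClosed_psR : IsClosed {T : H Z₂ →L[ℝ] H Z₁ | PsR p₁ p₂ T} := by
  simp only [PsR, Set.ofPred_forall]
  exact isClosed_iInter fun φ => isClosed_cpt.preimage (f := fun T : H Z₂ →L[ℝ] H Z₁ =>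
    T.comp (rep p₂ φ) - (rep p₁ φ).comp T) (by fun_prop)

theorem isClosed_lcR : IsClosed {T : H Z₂ →L[ℝ] H Z₁ | LcR p₁ p₂ T} := by
  simp only [LcR, Set.ofPred_forall]
  exact isClosed_iInter fun φ => IsClosed.inter
    (isClosed_cpt.preimage (f := fun T : H Z₂ →L[ℝ] H Z₁ => T.comp (rep p₂ φ)) (by fun_prop))
    (isClosed_cpt.preimage (f := fun T : H Z₂ →L[ℝ] H Z₁ => (rep p₁ φ).comp T) (by fun_prop))

variable (Γ p₁ p₂) in
/-- Invariant pseudolocal operators of finite propagation. -/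
def D0 : Submodule ℝ (H Z₂ →L[ℝ] H Z₁) where
  carrier := {T | InvR Γ T ∧ FinR p₁ p₂ T ∧ PsR p₁ p₂ T}
  zero_mem' := ⟨fun _ _ _ => rfl, ⟨0, fun _ _ _ => rfl⟩, fun φ => by simpa using Cpt.zero⟩
  add_mem' := fun {S T} hS hT => ⟨fun g a b => by simp [hS.1 g a b, hT.1 g a b],
    hS.2.1.add hT.2.1, fun φ => by
      convert (hS.2.2 φ).add (hT.2.2 φ) using 1
      ext1 ξ
      simp only [sub_apply, add_apply, ContinuousLinearMap.comp_apply, map_add]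
      abel⟩
  smul_mem' := fun c T hT => ⟨fun g a b => by simp [hT.1 g a b],
    let ⟨r, h⟩ := hT.2.1; ⟨r, fun a b h' => by simp [h a b h']⟩, fun φ => by
      convert (hT.2.2 φ).smul c using 1
      ext1 ξ
      simp [smul_sub]⟩

variable (Γ p₁ p₂) in
/-- Invariant locally compact operators of finite propagation. -/
def C0 : Submodule ℝ (H Z₂ →L[ℝ] H Z₁) where
  carrier := {T | InvR Γ T ∧ FinR p₁ p₂ T ∧ LcR p₁ p₂ T}
  zero_mem' := ⟨fun _ _ _ => rfl, ⟨0, fun _ _ _ => rfl⟩, fun φ => by simpa using Cpt.zero⟩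
  add_mem' := fun {S T} hS hT => ⟨fun g a b => by simp [hS.1 g a b, hT.1 g a b],
    hS.2.1.add hT.2.1, fun φ => ⟨by
      rw [ContinuousLinearMap.add_comp]; exact (hS.2.2 φ).1.add (hT.2.2 φ).1, by
      rw [ContinuousLinearMap.comp_add]; exact (hS.2.2 φ).2.add (hT.2.2 φ).2⟩⟩
  smul_mem' := fun c T hT => ⟨fun g a b => by simp [hT.1 g a b],
    let ⟨r, h⟩ := hT.2.1; ⟨r, fun a b h' => by simp [h a b h']⟩, fun φ => ⟨by
      rw [ContinuousLinearMap.smul_comp]; exact (hT.2.2 φ).1.smul c, by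
      rw [ContinuousLinearMap.comp_smul]; exact (hT.2.2 φ).2.smul c⟩⟩

variable (Γ p₁ p₂) in
/-- The rectangular version of `Dstar`. -/
def DR : Submodule ℝ (H Z₂ →L[ℝ] H Z₁) := (D0 Γ p₁ p₂).topologicalClosure

variable (Γ p₁ p₂) in
/-- The rectangular version of `Cstar`. -/
def CR : Submodule ℝ (H Z₂ →L[ℝ] H Z₁) := (C0 Γ p₁ p₂).topologicalClosure

theorem mem_D0 {T : H Z₂ →L[ℝ] H Z₁} :
    T ∈ D0 Γ p₁ p₂ ↔ InvR Γ T ∧ FinR p₁ p₂ T ∧ PsR p₁ p₂ T := Iff.rfl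

theorem mem_C0 {T : H Z₂ →L[ℝ] H Z₁} :
    T ∈ C0 Γ p₁ p₂ ↔ InvR Γ T ∧ FinR p₁ p₂ T ∧ LcR p₁ p₂ T := Iff.rfl

theorem mem_DR {T : H Z₂ →L[ℝ] H Z₁} :
    T ∈ DR Γ p₁ p₂ ↔ T ∈ closure (D0 Γ p₁ p₂ : Set (H Z₂ →L[ℝ] H Z₁)) := Iff.rfl

theorem mem_CR {T : H Z₂ →L[ℝ] H Z₁} :
    T ∈ CR Γ p₁ p₂ ↔ T ∈ closure (C0 Γ p₁ p₂ : Set (H Z₂ →L[ℝ] H Z₁)) := Iff.rfl

theorem isClosed_DR : IsClosed (DR Γ p₁ p₂ : Set (H Z₂ →L[ℝ] H Z₁)) := isClosed_closure

theorem isClosed_CR : IsClosed (CR Γ p₁ p₂ : Set (H Z₂ →L[ℝ] H Z₁)) := isClosed_closure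

theorem D0_le_DR : D0 Γ p₁ p₂ ≤ DR Γ p₁ p₂ := fun _ h => subset_closure h

theorem C0_le_CR : C0 Γ p₁ p₂ ≤ CR Γ p₁ p₂ := fun _ h => subset_closure h

theorem C0_le_D0 : C0 Γ p₁ p₂ ≤ D0 Γ p₁ p₂ := fun _ h => ⟨h.1, h.2.1, h.2.2.psR⟩

theorem CR_le_DR : CR Γ p₁ p₂ ≤ DR Γ p₁ p₂ := fun _ h => closure_mono C0_le_D0 h

theorem D0_comp {S : H Z₂ →L[ℝ] H Z₁} {T : H Z₃ →L[ℝ] H Z₂} (hS : S ∈ D0 Γ p₁ p₂)
    (hT : T ∈ D0 Γ p₂ p₃) : S.comp T ∈ D0 Γ p₁ p₃ :=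
  ⟨hS.1.comp hT.1, hS.2.1.comp hT.2.1, hS.2.2.comp hT.2.2⟩

theorem D0_comp_C0 {S : H Z₂ →L[ℝ] H Z₁} {T : H Z₃ →L[ℝ] H Z₂} (hS : S ∈ D0 Γ p₁ p₂)
    (hT : T ∈ C0 Γ p₂ p₃) : S.comp T ∈ C0 Γ p₁ p₃ :=
  ⟨hS.1.comp hT.1, hS.2.1.comp hT.2.1, hS.2.2.comp_lc hT.2.2⟩

theorem C0_comp_D0 {S : H Z₂ →L[ℝ] H Z₁} {T : H Z₃ →L[ℝ] H Z₂} (hS : S ∈ C0 Γ p₁ p₂)
    (hT : T ∈ D0 Γ p₂ p₃) : S.comp T ∈ C0 Γ p₁ p₃ :=
  ⟨hS.1.comp hT.1, hS.2.1.comp hT.2.1, hS.2.2.comp_ps hT.2.2⟩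

theorem continuous_comp₂ : Continuous (Function.uncurry
    fun (S : H Z₂ →L[ℝ] H Z₁) (T : H Z₃ →L[ℝ] H Z₂) => S.comp T) :=
  continuous_fst.clm_comp continuous_snd

theorem DR_comp {S : H Z₂ →L[ℝ] H Z₁} {T : H Z₃ →L[ℝ] H Z₂} (hS : S ∈ DR Γ p₁ p₂)
    (hT : T ∈ DR Γ p₂ p₃) : S.comp T ∈ DR Γ p₁ p₃ :=
  map_mem_closure₂ continuous_comp₂ hS hT fun _ h _ h' => D0_comp h h'

theorem DR_comp_CR {S : H Z₂ →L[ℝ] H Z₁} {T : H Z₃ →L[ℝ] H Z₂} (hS : S ∈ DR Γ p₁ p₂)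
    (hT : T ∈ CR Γ p₂ p₃) : S.comp T ∈ CR Γ p₁ p₃ :=
  map_mem_closure₂ continuous_comp₂ hS hT fun _ h _ h' => D0_comp_C0 h h'

theorem CR_comp_DR {S : H Z₂ →L[ℝ] H Z₁} {T : H Z₃ →L[ℝ] H Z₂} (hS : S ∈ CR Γ p₁ p₂)
    (hT : T ∈ DR Γ p₂ p₃) : S.comp T ∈ CR Γ p₁ p₃ :=
  map_mem_closure₂ continuous_comp₂ hS hT fun _ h _ h' => C0_comp_D0 h h'

theorem invR_of_DR {T : H Z₂ →L[ℝ] H Z₁} (h : T ∈ DR Γ p₁ p₂) : InvR Γ T :=
  closure_minimal (fun _ h => h.1) isClosed_invR h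

theorem psR_of_DR {T : H Z₂ →L[ℝ] H Z₁} (h : T ∈ DR Γ p₁ p₂) : PsR p₁ p₂ T :=
  closure_minimal (fun _ h => h.2.2) isClosed_psR h

theorem lcR_of_CR {T : H Z₂ →L[ℝ] H Z₁} (h : T ∈ CR Γ p₁ p₂) : LcR p₁ p₂ T :=
  closure_minimal (fun _ h => h.2.2) isClosed_lcR h

theorem one_mem_D0 : (1 : Op Z) ∈ D0 Γ p p :=
  ⟨fun g a b => by
    rw [entry_one, entry_one]
    exact ite_cg (smul_left_cancel_iff g), ⟨0, fun a b h => by
    rw [entry_one, if_neg]
    rintro rfl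
    simp at h⟩, fun φ => by
      convert Cpt.zero (Z₁ := Z) (Z₂ := Z) using 1
      ext1 ξ
      simp⟩

theorem mem_Dstar_iff {T : Op Z} : T ∈ Dstar Γ p ↔ T ∈ DR Γ p p := by
  let A : Subalgebra ℝ (Op Z) := (D0 Γ p p).toSubalgebra one_mem_D0 fun _ _ => D0_comp
  have : Algebra.adjoin ℝ {T | Invariant Γ T ∧ FinProp p T ∧ Pseudolocal p T} = A :=
    Algebra.adjoin_eq A
  rw [Dstar, this]
  rfl

theorem mem_Cstar_iff {T : Op Z} : T ∈ Cstar Γ p ↔ T ∈ CR Γ p p := by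
  let A : NonUnitalSubalgebra ℝ (Op Z) :=
    (C0 Γ p p).toNonUnitalSubalgebra fun _ _ h h' => C0_comp_D0 h (C0_le_D0 h')
  have : NonUnitalAlgebra.adjoin ℝ {T | Invariant Γ T ∧ FinProp p T ∧ LocCompact p T} = A :=
    NonUnitalAlgebra.adjoin_eq A
  rw [Cstar, this]
  rfl

theorem isClosed_Dstar : IsClosed (Dstar Γ p : Set (Op Z)) := isClosed_closure

theorem isClosed_Cstar : IsClosed (Cstar Γ p : Set (Op Z)) := isClosed_closure

theorem Dstar_of_Cstar {T : Op Z} (h : T ∈ Cstar Γ p) : T ∈ Dstar Γ p :=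
  mem_Dstar_iff.2 (CR_le_DR (mem_Cstar_iff.1 h))

theorem Cstar_mul_left {S T : Op Z} (hS : S ∈ Dstar Γ p) (hT : T ∈ Cstar Γ p) :
    S * T ∈ Cstar Γ p := mem_Cstar_iff.2 (DR_comp_CR (mem_Dstar_iff.1 hS) (mem_Cstar_iff.1 hT))

theorem Cstar_mul_right {S T : Op Z} (hS : S ∈ Cstar Γ p) (hT : T ∈ Dstar Γ p) :
    S * T ∈ Cstar Γ p := mem_Cstar_iff.2 (CR_comp_DR (mem_Cstar_iff.1 hS) (mem_Dstar_iff.1 hT))

theorem conj_mem_Dstar {W : H Z₂ →L[ℝ] H Z₁} {W' : H Z₁ →L[ℝ] H Z₂} (hW : W ∈ DR Γ p₁ p₂)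
    (hW' : W' ∈ DR Γ p₂ p₁) {T : Op Z₂} (hT : T ∈ Dstar Γ p₂) :
    W.comp (T.comp W') ∈ Dstar Γ p₁ :=
  mem_Dstar_iff.2 (DR_comp hW (DR_comp (mem_Dstar_iff.1 hT) hW'))

theorem conj_mem_Cstar {W : H Z₂ →L[ℝ] H Z₁} {W' : H Z₁ →L[ℝ] H Z₂} (hW : W ∈ DR Γ p₁ p₂)
    (hW' : W' ∈ DR Γ p₂ p₁) {T : Op Z₂} (hT : T ∈ Cstar Γ p₂) :
    W.comp (T.comp W') ∈ Cstar Γ p₁ :=
  mem_Cstar_iff.2 (DR_comp_CR hW (CR_comp_DR (mem_Cstar_iff.1 hT) hW'))

/-- Conjugation by an isometry-like pair as a homomorphism between the algebras `Dstar`. -/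
def conjHom {W : H Z₂ →L[ℝ] H Z₁} {W' : H Z₁ →L[ℝ] H Z₂} (hW : W ∈ DR Γ p₁ p₂)
    (hW' : W' ∈ DR Γ p₂ p₁) (h : W'.comp W = 1) : Dstar Γ p₂ →ₙₐ[ℝ] Dstar Γ p₁ where
  toFun T := ⟨W.comp (T.1.comp W'), conj_mem_Dstar hW hW' T.2⟩
  map_smul' c T := Subtype.ext (by ext1 ξ; simp)
  map_zero' := Subtype.ext (by ext1 ξ; simp)
  map_add' S T := Subtype.ext (by ext1 ξ; simp)
  map_mul' S T := Subtype.ext (by
    ext1 ξ
    have : ∀ η, W' (W η) = η := fun η => congrArg (fun A : Op Z₂ => A η) h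
    simp [this])

theorem conjHom_coe {W : H Z₂ →L[ℝ] H Z₁} {W' : H Z₁ →L[ℝ] H Z₂} (hW : W ∈ DR Γ p₁ p₂)
    (hW' : W' ∈ DR Γ p₂ p₁) (h : W'.comp W = 1) (T : Dstar Γ p₂) :
    (conjHom hW hW' h T : Op Z₁) = W.comp (T.1.comp W') := rfl

theorem continuous_conjHom {W : H Z₂ →L[ℝ] H Z₁} {W' : H Z₁ →L[ℝ] H Z₂} (hW : W ∈ DR Γ p₁ p₂)
    (hW' : W' ∈ DR Γ p₂ p₁) (h : W'.comp W = 1) : Continuous (conjHom hW hW' h) :=
  Continuous.subtype_mk (f := fun T : Dstar Γ p₂ => W.comp (T.1.comp W')) (by fun_prop) _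

/-- An invariant operator of propagation zero lies in `D0`. -/
theorem mem_D0_of_prop_zero {T : H Z₂ →L[ℝ] H Z₁} (hi : InvR Γ T)
    (h : ∀ a b, p₁ a ≠ p₂ b → entry T a b = 0) : T ∈ D0 Γ p₁ p₂ := by
  refine ⟨hi, ⟨0, fun a b h' => h a b (dist_pos.1 h')⟩, fun φ => ?_⟩
  convert Cpt.zero (Z₁ := Z₁) (Z₂ := Z₂) using 1
  refine entry_ext fun a b => ?_
  rw [entry_sub, entry_comp_rep, entry_rep_comp]
  by_cases h' : p₁ a = p₂ b
  · simp [h', mul_comm]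
  · simp [h a b h']

theorem entry_ne_zero_of_mem {T : H Z₂ →L[ℝ] H Z₁} : T ≠ 0 → ∃ a b, entry T a b ≠ 0 := fun h => by
  by_contra h'
  push Not at h'
  exact h (entry_ext h')

/-- Uniform continuity and decay of a function vanishing at infinity. -/
theorem c0_control (φ : C₀(X, ℝ)) {ε : ℝ} (hε : 0 < ε) : ∃ δ > 0, ∃ B : Set X,
    Bornology.IsBounded B ∧ ∀ x y, ε ≤ |φ x - φ y| → δ ≤ dist x y ∧ (x ∈ B ∨ y ∈ B) := by
  obtain ⟨δ, hδ, h⟩ := Metric.uniformContinuous_iff.1 (ZeroAtInftyContinuousMap.uniformContinuous φ)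
    ε hε
  have := (φ.zero_at_infty'.eventually (Metric.ball_mem_nhds 0 (half_pos hε)))
  obtain ⟨K, hK, hK'⟩ := Filter.mem_cocompact.1 this
  refine ⟨δ, hδ, K, hK.isBounded, fun x y hxy => ⟨?_, ?_⟩⟩
  · by_contra h'
    have := h (not_le.1 h')
    rw [Real.dist_eq] at this
    linarith
  · by_contra h'
    push Not at h'
    have h1 : |φ x| < ε / 2 := by simpa using hK' h'.1
    have h2 : |φ y| < ε / 2 := by simpa using hK' h'.2
    have := abs_sub (φ x) (φ y)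
    linarith

theorem c0_small (φ : C₀(X, ℝ)) {ε : ℝ} (hε : 0 < ε) : ∃ B : Set X,
    Bornology.IsBounded B ∧ ∀ x, ε ≤ |φ x| → x ∈ B := by
  have := (φ.zero_at_infty'.eventually (Metric.ball_mem_nhds 0 hε))
  obtain ⟨K, hK, hK'⟩ := Filter.mem_cocompact.1 this
  refine ⟨K, hK.isBounded, fun x hx => ?_⟩
  by_contra h'
  have h1 : |φ x| < ε := by simpa using hK' h'
  linarith

end Rect

section Res

variable {Z Z₁ Z₂ Z₃ : Type}

theorem memℓp_res {j : Z₂ → Z} (hj : Function.Injective j) (ξ : H Z) :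
    Memℓp (fun b => ξ (j b)) 2 :=
  memℓp_gen (((lp.memℓp ξ).summable (by norm_num)).comp_injective hj)

/-- Pull back along an injective map. -/
def res (j : Z₂ → Z) (hj : Function.Injective j) : H Z →L[ℝ] H Z₂ :=
  LinearMap.mkContinuous
    ⟨⟨fun ξ => ⟨fun b => ξ (j b), memℓp_res hj ξ⟩, fun _ _ => rfl⟩, fun _ _ => rfl⟩ 1 fun ξ => by
    classical
    rw [one_mul]
    refine lp.norm_le_of_forall_sum_le (by norm_num) (norm_nonneg ξ) fun s => ?_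
    refine le_trans (le_of_eq ?_) (lp.sum_rpow_le_norm_rpow (by norm_num) ξ (s.map ⟨j, hj⟩))
    rw [Finset.sum_map]
    rfl

@[simp] theorem res_apply (j : Z₂ → Z) (hj : Function.Injective j) (ξ : H Z) (b : Z₂) :
    res j hj ξ b = ξ (j b) := rfl

theorem norm_res_le (j : Z₂ → Z) (hj : Function.Injective j) : ‖res j hj‖ ≤ 1 :=
  LinearMap.mkContinuous_norm_le _ zero_le_one _

/-- Extension by zero along an injective map. -/
def iso (j : Z₂ → Z) (hj : Function.Injective j) : H Z₂ →L[ℝ] H Z :=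
  ContinuousLinearMap.adjoint (res j hj)

theorem norm_iso_le (j : Z₂ → Z) (hj : Function.Injective j) : ‖iso j hj‖ ≤ 1 := by
  rw [iso, LinearIsometryEquiv.norm_map]
  exact norm_res_le j hj

open Classical in
theorem entry_res (j : Z₂ → Z) (hj : Function.Injective j) (b : Z₂) (a : Z) :
    entry (res j hj) b a = if j b = a then 1 else 0 := dl_apply a (j b)

open Classical in
theorem entry_iso (j : Z₂ → Z) (hj : Function.Injective j) (a : Z) (b : Z₂) :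
    entry (iso j hj) a b = if j b = a then 1 else 0 := by
  rw [iso, entry_adjoint, entry_res]

theorem iso_dl (j : Z₂ → Z) (hj : Function.Injective j) (b : Z₂) : iso j hj (dl b) = dl (j b) :=
  lp.ext (funext fun a => by
    rw [← entry_eq, entry_iso, dl_apply]
    exact ite_cg eq_comm)

theorem entry_res_comp (j : Z₂ → Z) (hj : Function.Injective j) (T : H Z₁ →L[ℝ] H Z) (b : Z₂)
    (c : Z₁) : entry ((res j hj).comp T) b c = entry T (j b) c := rfl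

theorem entry_comp_iso (j : Z₂ → Z) (hj : Function.Injective j) (T : H Z →L[ℝ] H Z₁) (c : Z₁)
    (b : Z₂) : entry (T.comp (iso j hj)) c b = entry T c (j b) := by
  rw [entry_eq, ContinuousLinearMap.comp_apply, iso_dl, entry_eq]

theorem res_comp_iso (j : Z₂ → Z) (hj : Function.Injective j) : (res j hj).comp (iso j hj) = 1 :=
  entry_ext fun a b => by
    rw [entry_comp_iso, entry_res, entry_one]
    exact ite_cg hj.eq_iff

theorem iso_apply (j : Z₂ → Z) (hj : Function.Injective j) (ξ : H Z₂) (b : Z₂) :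
    iso j hj ξ (j b) = ξ b :=
  congrArg (fun A : Op Z₂ => A ξ b) (res_comp_iso j hj)

theorem iso_apply_of_not_mem (j : Z₂ → Z) (hj : Function.Injective j) (ξ : H Z₂) {a : Z}
    (ha : a ∉ Set.range j) : iso j hj ξ a = 0 := by
  refine (hasSum_apply (iso j hj) ξ a).unique ?_
  convert hasSum_zero using 2 with b
  rw [entry_iso, if_neg fun h => ha ⟨b, h⟩, zero_mul]

theorem entry_iso_comp (j : Z₂ → Z) (hj : Function.Injective j) (T : H Z₁ →L[ℝ] H Z₂) (b : Z₂)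
    (c : Z₁) : entry ((iso j hj).comp T) (j b) c = entry T b c := iso_apply j hj _ b

theorem entry_iso_comp_of_not_mem (j : Z₂ → Z) (hj : Function.Injective j) (T : H Z₁ →L[ℝ] H Z₂)
    {a : Z} (ha : a ∉ Set.range j) (c : Z₁) : entry ((iso j hj).comp T) a c = 0 :=
  iso_apply_of_not_mem j hj _ ha

theorem res_dl (j : Z₂ → Z) (hj : Function.Injective j) (b : Z₂) : res j hj (dl (j b)) = dl b := by
  rw [← iso_dl j hj]
  exact congrArg (fun A : Op Z₂ => A (dl b)) (res_comp_iso j hj)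

theorem res_dl_of_not_mem (j : Z₂ → Z) (hj : Function.Injective j) {a : Z} (ha : a ∉ Set.range j) :
    res j hj (dl a) = 0 :=
  lp.ext (funext fun b => by
    rw [res_apply, dl_apply, if_neg fun h => ha ⟨b, h⟩]
    rfl)

theorem entry_comp_res (j : Z₂ → Z) (hj : Function.Injective j) (T : H Z₂ →L[ℝ] H Z₁) (c : Z₁)
    (b : Z₂) : entry (T.comp (res j hj)) c (j b) = entry T c b := by
  rw [entry_eq, ContinuousLinearMap.comp_apply, res_dl, entry_eq]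

theorem entry_comp_res_of_not_mem (j : Z₂ → Z) (hj : Function.Injective j) (T : H Z₂ →L[ℝ] H Z₁)
    (c : Z₁) {a : Z} (ha : a ∉ Set.range j) : entry (T.comp (res j hj)) c a = 0 := by
  rw [entry_eq, ContinuousLinearMap.comp_apply, res_dl_of_not_mem j hj ha, map_zero]
  rfl

theorem res_comp_res (j : Z₂ → Z₁) (hj : Function.Injective j) (k : Z₁ → Z)
    (hk : Function.Injective k) : (res j hj).comp (res k hk) = res (k ∘ j) (hk.comp hj) := rfl

theorem iso_comp_iso (j : Z₂ → Z₁) (hj : Function.Injective j) (k : Z₁ → Z)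
    (hk : Function.Injective k) : (iso k hk).comp (iso j hj) = iso (k ∘ j) (hk.comp hj) :=
  entry_ext fun a b => by rw [entry_comp_iso, entry_iso, entry_iso]; rfl

/-- Injections with disjoint ranges give orthogonal isometries. -/
theorem res_comp_iso_of_disjoint (j : Z₂ → Z) (hj : Function.Injective j) (k : Z₁ → Z)
    (hk : Function.Injective k) (h : ∀ b c, j b ≠ k c) : (res j hj).comp (iso k hk) = 0 :=
  entry_ext fun a b => by rw [entry_comp_iso, entry_res, if_neg (h a b), entry_zero]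

open Classical in
theorem entry_iso_comp_res (j : Z₂ → Z) (hj : Function.Injective j) (a a' : Z) :
    entry ((iso j hj).comp (res j hj)) a a' = if a = a' ∧ a ∈ Set.range j then 1 else 0 := by
  by_cases h : a ∈ Set.range j
  · obtain ⟨b, rfl⟩ := h
    rw [entry_iso_comp, entry_res]
    simp
  · rw [entry_iso_comp_of_not_mem j hj _ h, if_neg fun h' => h h'.2]

theorem iso_comp_res_of_surj (j : Z₂ → Z) (hj : Function.Injective j)
    (hs : Function.Surjective j) : (iso j hj).comp (res j hj) = 1 :=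
  entry_ext fun a a' => by
    rw [entry_iso_comp_res, entry_one]
    exact ite_cg (and_iff_left (hs a))

/-- A weighted injection. -/
def wop (j : Z₂ → Z) (hj : Function.Injective j) (s : Z₂ → ℝ) (C : ℝ) (hs : ∀ b, |s b| ≤ C) :
    H Z₂ →L[ℝ] H Z := (iso j hj).comp (mulOp s C hs)

open Classical in
theorem entry_wop (j : Z₂ → Z) (hj : Function.Injective j) (s : Z₂ → ℝ) (C : ℝ)
    (hs : ∀ b, |s b| ≤ C) (a : Z) (b : Z₂) :
    entry (wop j hj s C hs) a b = if j b = a then s b else 0 := by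
  rw [wop, entry_comp_mulOp, entry_iso]
  split_ifs <;> simp

variable {Γ X : Type} [Group Γ] [MetricSpace X] [MulAction Γ Z] [MulAction Γ Z₁] [MulAction Γ Z₂]
  {p : Z → X} {p₁ : Z₁ → X} {p₂ : Z₂ → X}

/-- The displacement of `j` is bounded and tends to zero at infinity over bounded sets. -/
structure Slow (p : Z → X) (p₂ : Z₂ → X) (j : Z₂ → Z) : Prop where
  bdd : ∃ r, ∀ b, dist (p (j b)) (p₂ b) ≤ r
  fin : ∀ ε > 0, ∀ B : Set X, Bornology.IsBounded B →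
    {b | p₂ b ∈ B ∧ ε ≤ dist (p (j b)) (p₂ b)}.Finite

theorem Slow.fin_c0 {j : Z₂ → Z} (h : Slow p p₂ j) (φ : C₀(X, ℝ)) {ε : ℝ} (hε : 0 < ε) :
    {b | ε ≤ |φ (p (j b)) - φ (p₂ b)|}.Finite := by
  obtain ⟨δ, hδ, B, hB, hc⟩ := c0_control φ hε
  obtain ⟨r, hr⟩ := h.bdd
  refine (h.fin δ hδ _ (hB.cthickening (δ := max r 0))).subset fun b hb => ⟨?_, (hc _ _ hb).1⟩
  rcases (hc _ _ hb).2 with h1 | h1
  · exact Metric.mem_cthickening_of_dist_le _ _ _ _ h1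
      (by rw [dist_comm]; exact (hr b).trans (le_max_left _ _))
  · exact Metric.self_subset_cthickening _ h1

theorem mulOp_mem_D0 (s : Z → ℝ) (C : ℝ) (hs : ∀ b, |s b| ≤ C) (hi : ∀ (g : Γ) b, s (g • b) = s b) :
    mulOp s C hs ∈ D0 Γ p p :=
  mem_D0_of_prop_zero (fun g a b => by
    rw [entry_mulOp, entry_mulOp, hi]
    exact ite_cg (smul_left_cancel_iff g)) fun a b h => by
    rw [entry_mulOp, if_neg]
    rintro rfl
    exact h rfl

/-- Key lemma, first half. -/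
theorem res_mem_D0 {j : Z₂ → Z} (hj : Function.Injective j) (he : ∀ (g : Γ) b, j (g • b) = g • j b)
    (h : Slow p p₂ j) : res j hj ∈ D0 Γ p₂ p := by
  refine ⟨fun g b a => ?_, ?_, fun φ => ?_⟩
  · rw [entry_res, entry_res, he]
    exact ite_cg (smul_left_cancel_iff g)
  · obtain ⟨r, hr⟩ := h.bdd
    refine ⟨r, fun b a h' => ?_⟩
    rw [entry_res, if_neg]
    rintro rfl
    exact h'.not_ge (by rw [dist_comm]; exact hr b)
  · have hb : ∀ b, |φ (p (j b)) - φ (p₂ b)| ≤ ‖φ‖ + ‖φ‖ := fun b =>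
      (abs_sub _ _).trans (add_le_add (φ.toBCF.norm_coe_le_norm _) (φ.toBCF.norm_coe_le_norm _))
    convert (cpt_mulOp _ _ hb fun ε hε => h.fin_c0 φ hε).comp_right (res j hj) using 1
    refine entry_ext fun b a => ?_
    rw [entry_sub, entry_comp_rep, entry_rep_comp, entry_mulOp_comp, entry_res]
    split_ifs with h'
    · simp [h']
    · simp

/-- Key lemma, second half. -/
theorem iso_mem_D0 {j : Z₂ → Z} (hj : Function.Injective j) (he : ∀ (g : Γ) b, j (g • b) = g • j b)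
    (h : Slow p p₂ j) : iso j hj ∈ D0 Γ p p₂ := by
  obtain ⟨h1, ⟨r, h2⟩, -⟩ := res_mem_D0 hj he h
  refine ⟨h1.adjoint, ⟨r, h2.adjoint⟩, fun φ => ?_⟩
  have hb : ∀ b, |φ (p (j b)) - φ (p₂ b)| ≤ ‖φ‖ + ‖φ‖ := fun b =>
    (abs_sub _ _).trans (add_le_add (φ.toBCF.norm_coe_le_norm _) (φ.toBCF.norm_coe_le_norm _))
  convert ((cpt_mulOp _ _ hb fun ε hε => h.fin_c0 φ hε).comp_left (iso j hj)).neg using 1
  refine entry_ext fun a b => ?_
  rw [entry_sub, entry_comp_rep, entry_rep_comp, entry_neg, entry_comp_mulOp, entry_iso]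
  split_ifs with h'
  · simp [h']
  · simp

theorem wop_mem_D0 {j : Z₂ → Z} (hj : Function.Injective j) (he : ∀ (g : Γ) b, j (g • b) = g • j b)
    (h : Slow p p₂ j) (s : Z₂ → ℝ) (C : ℝ) (hs : ∀ b, |s b| ≤ C)
    (hi : ∀ (g : Γ) b, s (g • b) = s b) : wop j hj s C hs ∈ D0 Γ p p₂ :=
  D0_comp (iso_mem_D0 hj he h) (mulOp_mem_D0 s C hs hi)

/-- If the source is locally finite, bounded displacement is enough. -/
theorem Slow.of_finite {j : Z₂ → Z} (hr : ∃ r, ∀ b, dist (p (j b)) (p₂ b) ≤ r)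
    (h : ∀ B : Set X, Bornology.IsBounded B → {b | p₂ b ∈ B}.Finite) : Slow p p₂ j :=
  ⟨hr, fun _ _ B hB => (h B hB).subset fun _ hb => hb.1⟩

/-- Over a locally finite source every invariant operator of finite propagation is locally
compact. -/
theorem mem_C0_of_finite_right {T : H Z₂ →L[ℝ] H Z} (hi : InvR Γ T) (hf : FinR p p₂ T)
    (h : ∀ B : Set X, Bornology.IsBounded B → {b | p₂ b ∈ B}.Finite) : T ∈ C0 Γ p p₂ := by
  have hc : ∀ φ : C₀(X, ℝ), Cpt (rep p₂ φ) := fun φ => cpt_mulOp _ _ _ fun ε hε => by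
    obtain ⟨B, hB, h'⟩ := c0_small φ hε
    exact (h B hB).subset fun b hb => h' _ hb
  refine ⟨hi, hf, fun φ => ⟨(hc φ).comp_left T, Cpt.of_approx fun ε hε => ?_⟩⟩
  classical
  obtain ⟨r, hr⟩ := hf
  have hη : 0 < ε / (‖T‖ + 1) := by positivity
  obtain ⟨B, hB, h'⟩ := c0_small φ hη
  have h1 : ∀ z, |if p z ∈ B then φ (p z) else 0| ≤ ‖φ‖ := fun z => by
    split_ifs
    · exact φ.toBCF.norm_coe_le_norm _
    · simp
  have h2 : ∀ z, |if p z ∈ B then 0 else φ (p z)| ≤ ε / (‖T‖ + 1) := fun z => by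
    split_ifs with h''
    · simpa using hη.le
    · exact (not_le.1 fun h3 => h'' (h' _ h3)).le
  refine ⟨(mulOp _ _ h1).comp T, cpt_of_cols (h _ (hB.cthickening (δ := max r 0)))
    fun b hb a => ?_, ?_⟩
  · rw [entry_mulOp_comp]
    split_ifs with h3
    · rw [hr a b, mul_zero]
      by_contra h4
      exact hb (Metric.mem_cthickening_of_dist_le _ _ _ _ h3
        (by rw [dist_comm]; exact (not_lt.1 h4).trans (le_max_left _ _)))
    · simp
  · have : (rep p φ).comp T - (mulOp _ _ h1).comp T = (mulOp _ _ h2).comp T :=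
      entry_ext fun a b => by
        rw [entry_sub, entry_rep_comp, entry_mulOp_comp, entry_mulOp_comp]
        split_ifs <;> simp
    rw [this]
    refine (ContinuousLinearMap.opNorm_comp_le _ _).trans ?_
    refine (mul_le_mul_of_nonneg_right (norm_mulOp_le _ _ _ hη.le h2) (norm_nonneg _)).trans ?_
    rw [div_mul_eq_mul_div, div_le_iff₀ (by positivity)]
    nlinarith

end Res

end Pool.Agent.Lib.BCH
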