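import Pool.Agent.Lib.BCH.Blue2
import Pool.Agent.Lib.BCH.Roe46

/-! Compression of the Roe algebra to finitely many orbits. -/

set_option linter.unusedSectionVars false

noncomputable section

open Filter Topology BCK BCO
open scoped ZeroAtInfty

namespace Pool.Agent.Lib.BCH.RED

theorem unif {E E' Λ : Type*} [NormedAddCommGroup E] [NormedAddCommGroup E'] {l : Filter Λ}
    {f : Λ → E → E'} (hf : ∀ F x y, ‖f F x - f F y‖ ≤ 2 * ‖x - y‖) {K : Set E}
    (hK : IsCompact K) (h : ∀ x ∈ K, Tendsto (fun F => f F x) l (𝓝 0)) {ε : ℝ} (hε : 0 < ε) :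
    ∀ᶠ F in l, ∀ x ∈ K, ‖f F x‖ ≤ ε := by
  refine hK.induction_on (p := fun s => ∀ᶠ F in l, ∀ x ∈ s, ‖f F x‖ ≤ ε) (by simp)
    (fun s t hst ht => ht.mono fun F h x hx => h x (hst hx))
    (fun s t hs ht => (hs.and ht).mono fun F h x hx => hx.elim (h.1 x) (h.2 x))
    fun x hx => ⟨Metric.ball x (ε / 4),
      mem_nhdsWithin_of_mem_nhds (Metric.ball_mem_nhds x (by positivity)), ?_⟩
  filter_upwards [Metric.tendsto_nhds.1 (h x hx) (ε / 2) (by positivity)] with F hF y hy
  rw [dist_zero_right] at hF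
  rw [Metric.mem_ball, dist_eq_norm] at hy
  have h1 := hf F y x
  have h2 := norm_add_le (f F y - f F x) (f F x)
  rw [sub_add_cancel] at h2
  linarith

variable {Z Z₂ Q : Type}

theorem hasSum_sq (ξ : H Z) : HasSum (fun a => ξ a ^ 2) (‖ξ‖ ^ 2) := by
  have := lp.hasSum_norm (p := 2) (by norm_num) ξ
  simpa using this

theorem norm_le_sq (ξ : H Z) {C : ℝ} (hC : 0 ≤ C) (h : ∀ s : Finset Z, ∑ a ∈ s, ξ a ^ 2 ≤ C ^ 2) :
    ‖ξ‖ ≤ C :=
  (pow_le_pow_iff_left₀ (norm_nonneg _) hC two_ne_zero).1 (hasSum_le_of_sum_le (hasSum_sq ξ) h)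

open Classical in
/-- The projection on the coordinates in `s`. -/
def ind (s : Set Z) : Op Z :=
  mulOp (fun a => if a ∈ s then 1 else 0) 1 fun a => by split_ifs <;> simp

open Classical in
theorem ind_apply (s : Set Z) (ξ : H Z) (a : Z) : ind s ξ a = if a ∈ s then ξ a else 0 := by
  change (if a ∈ s then (1 : ℝ) else 0) * ξ a = _
  split_ifs <;> simp

theorem norm_ind_le (s : Set Z) : ‖ind s‖ ≤ 1 :=
  norm_mulOp_le _ _ _ zero_le_one fun a => by split_ifs <;> simp

open Classical in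
theorem entry_ind_comp (s : Set Z) (T : H Z₂ →L[ℝ] H Z) (a : Z) (b : Z₂) :
    entry ((ind s).comp T) a b = if a ∈ s then entry T a b else 0 := ind_apply s _ a

open Classical in
theorem entry_comp_ind (s : Set Z) (T : H Z →L[ℝ] H Z₂) (a : Z₂) (b : Z) :
    entry (T.comp (ind s)) a b = if b ∈ s then entry T a b else 0 := by
  rw [ind, entry_comp_mulOp]
  split_ifs <;> simp

theorem adjoint_ind (s : Set Z) : ContinuousLinearMap.adjoint (ind s) = ind s :=
  adjoint_mulOp _ _ _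

theorem ind_compl (s : Set Z) : ind sᶜ = 1 - ind s :=
  ContinuousLinearMap.ext fun ξ => lp.ext (funext fun a => by
    change ind sᶜ ξ a = ξ a - ind s ξ a
    rw [ind_apply, ind_apply]
    by_cases h : a ∈ s <;> simp [h])

theorem tendsto_ind (m : Z → Q) (ξ : H Z) :
    Tendsto (fun F : Finset Q => ind {a | m a ∈ F}ᶜ ξ) atTop (𝓝 0) := by
  classical
  refine Metric.tendsto_nhds.2 fun ε hε => ?_
  obtain ⟨s, hs⟩ := (Metric.tendsto_nhds.1 (hasSum_dl ξ) ε hε).exists
  filter_upwards [eventually_ge_atTop (s.image m)] with F hF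
  have h0 : ind {a | m a ∈ F}ᶜ (∑ b ∈ s, ξ b • dl b) = 0 := by
    rw [map_sum]
    refine Finset.sum_eq_zero fun b hb => lp.ext (funext fun a => ?_)
    rw [ind_apply]
    split_ifs with h
    · have : a ≠ b := by
        rintro rfl
        exact h (hF (Finset.mem_image_of_mem m hb))
      simp [dl_apply, this]
    · rfl
  rw [dist_zero_right, ← sub_zero (ind _ ξ), ← h0, ← map_sub]
  rw [dist_comm, dist_eq_norm] at hs
  exact (((ind _).le_opNorm _).trans
    (mul_le_of_le_one_left (norm_nonneg _) (norm_ind_le _))).trans_lt hs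

theorem tendsto_cpt (m : Z → Q) {K : H Z₂ →L[ℝ] H Z} (hK : Cpt K) :
    Tendsto (fun F : Finset Q => ‖(ind {a | m a ∈ F}ᶜ).comp K‖) atTop (𝓝 0) := by
  refine Metric.tendsto_nhds.2 fun ε hε => ?_
  have h1 := IsCompactOperator.isCompact_closure_image_closedBall (f := (K : H Z₂ →ₗ[ℝ] H Z)) hK 1
  filter_upwards [unif (l := atTop) (f := fun (F : Finset Q) ξ => ind {a | m a ∈ F}ᶜ ξ)
    (fun F x y => by
      rw [← map_sub]
      refine ((ind _).le_opNorm _).trans (mul_le_mul_of_nonneg_right ?_ (norm_nonneg _))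
      exact (norm_ind_le _).trans one_le_two) h1 (fun x _ => tendsto_ind m x) (half_pos hε)]
    with F hF
  rw [dist_zero_right, norm_norm]
  refine lt_of_le_of_lt (ContinuousLinearMap.opNorm_le_of_unit_norm (half_pos hε).le
    fun x hx => hF _ (subset_closure ⟨x, by simp [hx], rfl⟩)) (half_lt_self hε)

theorem cpt_adj {K : H Z₂ →L[ℝ] H Z} (hK : Cpt K) : Cpt (ContinuousLinearMap.adjoint K) := by
  refine (isClosed_cpt (Z₁ := Z₂) (Z₂ := Z)).mem_of_tendsto (b := atTop)
    (x := ContinuousLinearMap.adjoint K) (f := fun F : Finset Z =>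
    (ContinuousLinearMap.adjoint K).comp (ind {a | id a ∈ F})) ?_
    (Eventually.of_forall fun F => cpt_of_cols F.finite_toSet fun b hb a => ?_)
  · refine tendsto_iff_norm_sub_tendsto_zero.2 ((tendsto_cpt id hK).congr fun F => ?_)
    rw [← LinearIsometryEquiv.norm_map ContinuousLinearMap.adjoint,
      ContinuousLinearMap.adjoint_comp, adjoint_ind, ind_compl, ← norm_neg]
    congr 1
    ext1 ξ
    simp
  · rw [entry_comp_ind, if_neg]
    exact hb

variable {Γ X : Type} [Group Γ] [MetricSpace X] [MulAction Γ X] [IsIsometricSMul Γ X]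
  [MulAction Γ Z]

theorem norm_le_of_inv {A : Op Z} (hA : InvR Γ A) (ρ : Z → Γ) (hρ : ∀ g a, ρ (g • a) = g * ρ a)
    (S : Finset Γ) (hS : ∀ a b, ρ a = 1 → ρ b ∉ S → entry A a b = 0) :
    ‖A‖ ≤ S.card * ‖(ind {a | ρ a = 1}).comp A‖ := by
  classical
  set ε := ‖(ind {a | ρ a = 1}).comp A‖ with hε
  refine A.opNorm_le_bound (by positivity) fun ξ => norm_le_sq _ (by positivity) fun s => ?_
  let η : Γ → H Z := fun g => ind {b | ρ b ∈ S} (res (g • ·) (MulAction.injective g) ξ)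
  have h1 : ∀ g a, ρ a = 1 → A ξ (g • a) = (ind {a | ρ a = 1}).comp A (η g) a := fun g a ha => by
    rw [ContinuousLinearMap.comp_apply, ind_apply, if_pos (show a ∈ {a | ρ a = 1} from ha)]
    refine (hasSum_apply A ξ (g • a)).unique ?_
    rw [← (MulAction.toPerm g).hasSum_iff]
    convert hasSum_apply A (η g) a using 2 with b
    simp only [Function.comp_apply, MulAction.toPerm_apply, η, ind_apply, res_apply, hA g a b]
    split_ifs with h
    · rfl
    · rw [hS a b ha h]; simp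
  have h2 : ∀ g, ∑ a ∈ s with ρ a = g, A ξ a ^ 2 ≤ ε ^ 2 * ‖η g‖ ^ 2 := fun g => by
    have h3 := sum_le_hasSum ((s.filter fun a => ρ a = g).map (MulAction.toPerm g⁻¹).toEmbedding)
      (fun a _ => sq_nonneg _) (hasSum_sq ((ind {a | ρ a = 1}).comp A (η g)))
    rw [Finset.sum_map] at h3
    refine (le_of_eq (Finset.sum_congr rfl fun a ha => ?_)).trans (h3.trans ?_)
    · rw [← h1 g _ (by simp [hρ, (Finset.mem_filter.1 ha).2])]
      simp
    · rw [← mul_pow]
      exact pow_le_pow_left₀ (norm_nonneg _) (ContinuousLinearMap.le_opNorm _ _) 2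
  have h4 : ∑ g ∈ s.image ρ, ‖η g‖ ^ 2 ≤ S.card * ‖ξ‖ ^ 2 := by
    have h5 : ∀ g, HasSum (fun b => if g⁻¹ * ρ b ∈ S then ξ b ^ 2 else 0) (‖η g‖ ^ 2) := fun g => by
      rw [← (MulAction.toPerm g).hasSum_iff]
      convert hasSum_sq (η g) using 2 with b
      simp only [Function.comp_apply, MulAction.toPerm_apply, η, ind_apply, res_apply, hρ,
        inv_mul_cancel_left, Set.mem_ofPred_eq]
      split_ifs <;> simp
    refine hasSum_le (fun b => ?_) (hasSum_sum fun g _ => h5 g) ((hasSum_sq ξ).mul_left _)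
    rw [← Finset.sum_filter, Finset.sum_const, nsmul_eq_mul]
    refine mul_le_mul_of_nonneg_right (Nat.cast_le.2 ?_) (sq_nonneg _)
    refine Finset.card_le_card_of_injOn (fun g => g⁻¹ * ρ b)
      (fun g hg => (Finset.mem_filter.1 hg).2) fun g _ g' _ h => ?_
    simpa using h
  rw [← Finset.sum_fiberwise_of_maps_to (t := s.image ρ) (g := ρ)
    fun a ha => Finset.mem_image_of_mem ρ ha]
  refine (Finset.sum_le_sum fun g _ => h2 g).trans ?_
  rw [← Finset.mul_sum]
  refine (mul_le_mul_of_nonneg_left h4 (sq_nonneg _)).trans ?_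
  have h6 : (S.card : ℝ) ≤ (S.card : ℝ) ^ 2 := by exact_mod_cast Nat.le_self_pow two_ne_zero _
  nlinarith [mul_nonneg (sq_nonneg ε) (sq_nonneg ‖ξ‖)]

/-- A bounded fundamental domain. -/
structure Fund (Γ : Type) [Group Γ] [MulAction Γ X] [MulAction Γ Z] (o : X) (pos : Z → X)
    (m : Z → Q) (rp : Q → Z) (ρ : Z → Γ) (D : ℝ) : Prop where
  free : ∀ (g : Γ) (z : Z), g • z = z → g = 1
  eqv : ∀ (g : Γ) (z : Z), pos (g • z) = g • pos z
  proper : ∀ R : ℝ, {g : Γ | dist o (g • o) ≤ R}.Finite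
  m_smul : ∀ (g : Γ) a, m (g • a) = m a
  m_rp : ∀ q, m (rp q) = q
  rho : ∀ a, ρ a • rp (m a) = a
  bd : ∀ q, dist (pos (rp q)) o ≤ D

variable {o : X} {pos : Z → X} {m : Z → Q} {rp : Q → Z} {ρ : Z → Γ} {D : ℝ}

theorem Fund.inj (h : Fund Γ o pos m rp ρ D) (w : Z) :
    Function.Injective fun k : Γ => k • w := fun k k' hk => by
  have h1 := h.free (k'⁻¹ * k) w (by rw [mul_smul, show k • w = k' • w from hk, inv_smul_smul])
  exact (inv_mul_eq_one.1 h1).symm

theorem Fund.rho_smul (h : Fund Γ o pos m rp ρ D) (g : Γ) (a : Z) : ρ (g • a) = g * ρ a :=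
  h.inj (rp (m a)) (by
    change ρ (g • a) • rp (m a) = (g * ρ a) • rp (m a)
    rw [mul_smul, h.rho, ← h.m_smul g a, h.rho])

theorem Fund.near (h : Fund Γ o pos m rp ρ D) (a : Z) : dist (pos a) (ρ a • o) ≤ D := by
  conv_lhs => rw [← h.rho a, h.eqv, h.rho_smul]
  have h1 : ρ (rp (m a)) = 1 := h.free _ (rp (m a)) (by
    have := h.rho (rp (m a))
    rwa [h.m_rp] at this)
  rw [h1, mul_one, dist_smul]
  exact h.bd _

theorem exists_fund (hG : Geom Γ o) (hA : IsAmple Γ pos) :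
    ∃ (Q : Type) (m : Z → Q) (rp : Q → Z) (ρ : Z → Γ) (D : ℝ), Fund Γ o pos m rp ρ D := by
  obtain ⟨D, hD⟩ := hG.cocpt
  choose g hg using hD
  let m : Z → MulAction.orbitRel.Quotient Γ Z := Quotient.mk''
  have hm : ∀ (k : Γ) a, m (k • a) = m a := fun k a => Quotient.sound' ⟨k, rfl⟩
  let rp : MulAction.orbitRel.Quotient Γ Z → Z := fun q => (g (pos q.out))⁻¹ • q.out
  have hr : ∀ q, m (rp q) = q := fun q => (hm _ _).trans q.out_eq'
  have h1 : ∀ a, ∃ k : Γ, k • rp (m a) = a := fun a => (Quotient.exact' (hr (m a)).symm :)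
  choose ρ hρ using h1
  refine ⟨_, m, rp, ρ, D, hA.free, hA.equivariant, hG.proper, hm, hr, hρ, fun q => ?_⟩
  rw [hA.equivariant, ← dist_smul (g (pos q.out)), smul_inv_smul]
  exact hg _

theorem Fund.left (h : Fund Γ o pos m rp ρ D) {T : Op Z} (hi : InvR Γ T) (hf : FinR pos pos T)
    (hc : Cpt ((ind {a | ρ a = 1}).comp T)) :
    Tendsto (fun F : Finset Q => ‖(ind {a | m a ∈ F}ᶜ).comp T‖) atTop (𝓝 0) := by
  obtain ⟨r, hr⟩ := hf
  have h1 := (tendsto_cpt m hc).const_mul ((h.proper (D + r + D)).toFinset.card : ℝ)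
  rw [mul_zero] at h1
  refine squeeze_zero (fun _ => norm_nonneg _) (fun F => ?_) h1
  have h2 : (ind {a | m a ∈ F}ᶜ).comp ((ind {a | ρ a = 1}).comp T) =
      (ind {a | ρ a = 1}).comp ((ind {a | m a ∈ F}ᶜ).comp T) := entry_ext fun a b => by
    simp only [entry_ind_comp]
    split_ifs <;> rfl
  rw [h2]
  refine norm_le_of_inv (fun g a b => ?_) ρ h.rho_smul _ fun a b ha hb => ?_
  · rw [entry_ind_comp, entry_ind_comp, hi g a b]
    exact ite_cg (by simp [h.m_smul])
  · rw [entry_ind_comp, hr a b, ite_self]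
    by_contra h3
    refine hb ((h.proper _).mem_toFinset.2 ?_)
    have h4 := h.near a
    rw [ha, one_smul, dist_comm] at h4
    have h5 := dist_triangle4 o (pos a) (pos b) (ρ b • o)
    have h6 := h.near b
    change dist o (ρ b • o) ≤ D + r + D
    linarith [not_lt.1 h3]

theorem exists_bump [ProperSpace X] (o : X) (D : ℝ) :
    ∃ φ : C₀(X, ℝ), ∀ x, dist x o ≤ D → φ x = 1 := by
  refine ⟨⟨⟨fun x => max (min 1 (D + 1 - dist x o)) 0, by fun_prop⟩, ?_⟩, fun x hx => ?_⟩
  · refine tendsto_const_nhds.congr' (Filter.mem_cocompact.2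
      ⟨Metric.closedBall o (D + 1), isCompact_closedBall _ _, fun x hx => ?_⟩)
    have h1 : D + 1 < dist x o := by simpa using hx
    exact (max_eq_right ((min_le_right _ _).trans (by linarith))).symm
  · change max (min 1 (D + 1 - dist x o)) 0 = 1
    rw [min_eq_left (by linarith), max_eq_left zero_le_one]

theorem Fund.tendsto_C0 [ProperSpace X] (h : Fund Γ o pos m rp ρ D) {T : Op Z}
    (hT : T ∈ C0 Γ pos pos) : Tendsto (fun F : Finset Q =>
      ind {a | m a ∈ F} * T * ind {a | m a ∈ F}) atTop (𝓝 T) := by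
  obtain ⟨φ, hφ⟩ := exists_bump o D
  have h0 : ∀ a, a ∈ {a | ρ a = 1} → φ (pos a) = 1 := fun a ha => hφ _ (by
    have := h.near a
    rwa [show ρ a = 1 from ha, one_smul] at this)
  have h1 := h.left hT.1 hT.2.1 (by
    convert (hT.2.2 φ).2.comp_left (ind {a | ρ a = 1}) using 1
    refine entry_ext fun a b => ?_
    rw [entry_ind_comp, entry_ind_comp, entry_rep_comp]
    split_ifs with ha
    · rw [h0 a ha, one_mul]
    · rfl)
  have h2 := h.left hT.1.adjoint (let ⟨r, hr⟩ := hT.2.1; ⟨r, hr.adjoint⟩) (by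
    convert cpt_adj ((hT.2.2 φ).1.comp_right (ind {a | ρ a = 1})) using 1
    refine entry_ext fun a b => ?_
    rw [entry_ind_comp, entry_adjoint, entry_adjoint, entry_comp_ind, entry_comp_rep]
    split_ifs with ha
    · rw [h0 a ha, mul_one]
    · rfl)
  have h3 := h1.add h2
  rw [add_zero] at h3
  refine tendsto_iff_norm_sub_tendsto_zero.2 (squeeze_zero (fun _ => norm_nonneg _)
    (fun F => ?_) h3)
  rw [← LinearIsometryEquiv.norm_map ContinuousLinearMap.adjoint
    ((ind _).comp (ContinuousLinearMap.adjoint T)), ContinuousLinearMap.adjoint_comp, adjoint_ind,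
    ContinuousLinearMap.adjoint_adjoint, ind_compl]
  set P := ind {a | m a ∈ F}
  change _ ≤ ‖(1 - P) * T‖ + ‖T * (1 - P)‖
  have h4 : P * T * P - T = -((1 - P) * T * P + T * (1 - P)) := by noncomm_ring
  rw [h4, norm_neg]
  refine (norm_add_le _ _).trans (add_le_add ((norm_mul_le _ _).trans ?_) le_rfl)
  exact mul_le_of_le_one_right (norm_nonneg _) (norm_ind_le _)

theorem norm_cut_le (s : Set Z) (x : Op Z) : ‖ind s * x * ind s‖ ≤ ‖x‖ :=
  ((norm_mul_le _ _).trans (mul_le_of_le_one_right (norm_nonneg _) (norm_ind_le _))).trans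
    ((norm_mul_le _ _).trans (mul_le_of_le_one_left (norm_nonneg _) (norm_ind_le _)))

theorem Fund.tendsto_Cstar [ProperSpace X] (h : Fund Γ o pos m rp ρ D) {T : Op Z}
    (hT : T ∈ Cstar Γ pos) : Tendsto (fun F : Finset Q =>
      ind {a | m a ∈ F} * T * ind {a | m a ∈ F}) atTop (𝓝 T) := by
  classical
  refine tendsto_of_approx (f := fun (F : Finset Q) x => ind {a | m a ∈ F} * x * ind {a | m a ∈ F})
    (fun F x y => ?_) fun ε hε => ?_
  · rw [← sub_mul, ← mul_sub]
    exact norm_cut_le _ _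
  · obtain ⟨S, h1, h2⟩ := Metric.mem_closure_iff.1 (mem_CR.1 (mem_Cstar_iff.1 hT)) ε hε
    exact ⟨S, by rw [← dist_eq_norm]; exact h2.le, h.tendsto_C0 h1⟩

end Pool.Agent.Lib.BCH.RED
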