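import Pool.Agent.Lib.BCH.Blue2

/-! The weighted unconditional completion of the group algebra. -/

noncomputable section

open Finset BCO UniformSpace

namespace Pool.Agent.Lib.BCH

namespace AS

variable {Γ : Type} [Group Γ]

theorem conv_mono (s : Finset Γ) (c c' : Γ → ℝ) (h : ∀ g ∈ s, |c g| ≤ c' g) :
    ‖conv s c‖ ≤ ‖conv s c'‖ := by
  have e : conv s c = ∑ g ∈ s, tw g (c g • (1 : ℝ →L[ℝ] ℝ)) :=
    sum_congr rfl fun g _ => by rw [tw_smul, tw_id]
  rw [e]
  refine norm_sum_tw_le s _ c' fun g hg => ?_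
  rw [norm_smul, norm_one, mul_one]
  exact h g hg

/-- The regular representation. -/
abbrev reg : MonoidAlgebra ℝ Γ →ₐ[ℝ] V Γ ℝ →L[ℝ] V Γ ℝ := piA (1 : Γ →* ℝ →L[ℝ] ℝ)

/-- The weighted absolute value. -/
def ab (ω : Γ → ℝ) (f : MonoidAlgebra ℝ Γ) : MonoidAlgebra ℝ Γ :=
  MonoidAlgebra.ofCoeff (Finsupp.onFinset f.coeff.support (fun g => |f.coeff g| * ω g)
    fun g hg => Finsupp.mem_support_iff.2 fun h => hg (by simp [h]))

theorem ab_apply (ω : Γ → ℝ) (f : MonoidAlgebra ℝ Γ) (g : Γ) :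
    (ab ω f).coeff g = |f.coeff g| * ω g := rfl

theorem ab_support (ω : Γ → ℝ) (f : MonoidAlgebra ℝ Γ) :
    (ab ω f).coeff.support ⊆ f.coeff.support := fun g hg =>
  Finsupp.mem_support_iff.2 fun h => Finsupp.mem_support_iff.1 hg (by simp [ab_apply, h])

/-- The norm. -/
def N (ω : Γ → ℝ) (f : MonoidAlgebra ℝ Γ) : ℝ := ‖reg (ab ω f)‖

theorem N_eq (ω : Γ → ℝ) (f : MonoidAlgebra ℝ Γ) {s : Finset Γ} (hs : f.coeff.support ⊆ s) :
    N ω f = ‖conv s fun g => |f.coeff g| * ω g‖ := by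
  rw [N, piA_one_eq _ ((ab_support ω f).trans hs)]
  rfl

theorem N_le {ω : Γ → ℝ} (h0 : ∀ g, 0 ≤ ω g) (f h : MonoidAlgebra ℝ Γ)
    (H : ∀ g, |f.coeff g| * ω g ≤ h.coeff g) : N ω f ≤ ‖reg h‖ := by
  classical
  rw [N_eq ω f (s := f.coeff.support ∪ h.coeff.support) subset_union_left,
    piA_one_eq h (s := f.coeff.support ∪ h.coeff.support) subset_union_right]
  exact conv_mono _ _ _ fun g _ => by
    rw [abs_of_nonneg (mul_nonneg (abs_nonneg _) (h0 g))]; exact H g

theorem N_add {ω : Γ → ℝ} (h0 : ∀ g, 0 ≤ ω g) (f f' : MonoidAlgebra ℝ Γ) :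
    N ω (f + f') ≤ N ω f + N ω f' := by
  refine (N_le h0 _ (ab ω f + ab ω f') fun g => ?_).trans ?_
  · change |f.coeff g + f'.coeff g| * ω g ≤ |f.coeff g| * ω g + |f'.coeff g| * ω g
    rw [← add_mul]
    exact mul_le_mul_of_nonneg_right (abs_add_le _ _) (h0 g)
  · rw [map_add]; exact norm_add_le _ _

theorem N_smul {ω : Γ → ℝ} (h0 : ∀ g, 0 ≤ ω g) (r : ℝ) (f : MonoidAlgebra ℝ Γ) :
    N ω (r • f) ≤ ‖r‖ * N ω f := by
  refine (N_le h0 _ (‖r‖ • ab ω f) fun g => ?_).trans ?_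
  · change |r * f.coeff g| * ω g ≤ ‖r‖ * (|f.coeff g| * ω g)
    rw [abs_mul, mul_assoc, Real.norm_eq_abs]
  · rw [map_smul, norm_smul, norm_norm]; exact le_rfl

theorem N_mul {ω : Γ → ℝ} (h0 : ∀ g, 0 ≤ ω g) (hm : ∀ g g', ω (g * g') ≤ ω g * ω g')
    (f f' : MonoidAlgebra ℝ Γ) : N ω (f * f') ≤ N ω f * N ω f' := by
  refine (N_le h0 _ (ab ω f * ab ω f') fun x => ?_).trans ?_
  · rw [MonoidAlgebra.coeff_mul_apply_left, MonoidAlgebra.coeff_mul_apply_left,
      Finsupp.sum_of_support_subset _ (ab_support ω f) _ (by simp), Finsupp.sum]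
    refine (mul_le_mul_of_nonneg_right (abs_sum_le_sum_abs _ _) (h0 x)).trans ?_
    rw [sum_mul]
    refine sum_le_sum fun g _ => ?_
    rw [ab_apply, ab_apply, abs_mul, mul_mul_mul_comm]
    refine mul_le_mul_of_nonneg_left ?_ (by positivity)
    simpa using hm g (g⁻¹ * x)
  · rw [map_mul]; exact norm_mul_le _ _

/-- The weight. -/
structure Wt (Γ : Type) [Group Γ] where
  /-- The weight function. -/
  ω : Γ → ℝ
  nn : ∀ g, 0 ≤ ω g
  sub : ∀ g g', ω (g * g') ≤ ω g * ω g'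

/-- The norm as a ring seminorm. -/
def sn (w : Wt Γ) : RingSeminorm (MonoidAlgebra ℝ Γ) where
  toFun := N w.ω
  map_zero' := by
    rw [N_eq w.ω 0 (s := ∅) (by simp)]
    simp [conv]
  add_le' := N_add w.nn
  neg' f := by
    have e : ab w.ω (-f) = ab w.ω f := by
      ext g
      change |-f.coeff g| * _ = |f.coeff g| * _
      rw [abs_neg]
    rw [N, e, N]
  mul_le' := N_mul w.nn w.sub

/-- The group algebra with the weighted norm. -/
def W (_ : Wt Γ) : Type := MonoidAlgebra ℝ Γ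

instance (w : Wt Γ) : SeminormedRing (W w) := (sn w).toSeminormedRing

instance (w : Wt Γ) : NormedAlgebra ℝ (W w) where
  __ : Algebra ℝ (W w) := inferInstanceAs (Algebra ℝ (MonoidAlgebra ℝ Γ))
  norm_smul_le := N_smul w.nn

instance (w : Wt Γ) : NormedAlgebra ℝ (Completion (W w)) where
  norm_smul_le := norm_smul_le

/-- The map from the group algebra to the completion. -/
def io (w : Wt Γ) : MonoidAlgebra ℝ Γ →ₗ[ℝ] Completion (W w) :=
  (Completion.toComplₗᵢ : W w →ₗᵢ[ℝ] Completion (W w)).toLinearMap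

theorem io_norm (w : Wt Γ) (f : MonoidAlgebra ℝ Γ) : ‖io w f‖ = N w.ω f :=
  Completion.norm_coe (E := W w) f

theorem io_mul (w : Wt Γ) (f f' : MonoidAlgebra ℝ Γ) : io w (f * f') = io w f * io w f' :=
  Completion.coe_mul (α := W w) f f'

theorem io_one (w : Wt Γ) : io w 1 = 1 := Completion.coe_one (W w)

theorem io_dense (w : Wt Γ) : DenseRange (io w) := Completion.denseRange_coe (α := W w)

theorem coeff_sum (s : Finset Γ) (f : Γ → ℝ) :
    (∑ g ∈ s, f g • MonoidAlgebra.single g (1 : ℝ)).coeff.support ⊆ s ∧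
      ∀ x ∈ s, (∑ g ∈ s, f g • MonoidAlgebra.single g (1 : ℝ)).coeff x = f x := by
  classical
  have h : ∀ x, (∑ g ∈ s, f g • MonoidAlgebra.single g (1 : ℝ)).coeff x =
      if x ∈ s then f x else 0 := fun x => by
    simp [MonoidAlgebra.coeff_sum, Finsupp.finsetSum_apply, Finsupp.single_apply]
  refine ⟨fun x hx => ?_, fun x hx => by rw [h, if_pos hx]⟩
  by_contra h1
  exact Finsupp.mem_support_iff.1 hx (by rw [h, if_neg h1])

theorem isAS (w : Wt Γ) : IsAS w.ω fun g => io w (MonoidAlgebra.single g 1) where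
  one := io_one w
  mul g g' := by rw [← io_mul, MonoidAlgebra.single_mul_single, one_mul]
  dense S hS h a := by
    refine (io_dense w).induction_on a hS fun f => ?_
    induction f using MonoidAlgebra.induction_linear with
    | zero => rw [map_zero]; exact S.zero_mem
    | add x y hx hy => rw [map_add]; exact S.add_mem hx hy
    | single g r =>
      have : MonoidAlgebra.single g r = r • MonoidAlgebra.single g (1 : ℝ) := by simp
      rw [this, map_smul]
      exact S.smul_mem r (h g)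
  norm_eq s f := by
    have e : ∑ g ∈ s, f g • io w (MonoidAlgebra.single g 1) =
        io w (∑ g ∈ s, f g • MonoidAlgebra.single g (1 : ℝ)) := by
      rw [map_sum]
      exact sum_congr rfl fun g _ => (map_smul _ _ _).symm
    rw [e, io_norm, N_eq _ _ (coeff_sum s f).1]
    congr 1
    exact sum_congr rfl fun g hg => by beta_reduce; rw [(coeff_sum s f).2 g hg]
  lift B _ _ _ ρ hρ hb := by
    let φ : MonoidAlgebra ℝ Γ →ₙₐ[ℝ] B := MonoidAlgebra.liftMagma ℝ ⟨ρ, hρ⟩
    let φ' : MonoidAlgebra ℝ Γ →ₗ[ℝ] B := ⟨⟨φ, map_add φ⟩, map_smul φ⟩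
    have hφ : ∀ f, ‖φ' f‖ ≤ 1 * ‖io w f‖ := fun f => by
      rw [one_mul, io_norm, N_eq _ f subset_rfl]
      exact hb f.coeff.support f.coeff
    let Ψ := φ'.extendOfNorm (io w)
    have h1 : ∀ f, Ψ (io w f) = φ f := LinearMap.extendOfNorm_eq (io_dense w) ⟨1, hφ⟩
    refine ⟨{ toFun := Ψ, map_smul' := map_smul Ψ, map_zero' := map_zero Ψ,
              map_add' := map_add Ψ, map_mul' := fun a b => ?_ }, Ψ.continuous, fun a => ?_,
      fun g => ?_⟩
    · refine (io_dense w).induction_on₂ (p := fun a b => Ψ (a * b) = Ψ a * Ψ b) ?_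
        (fun f f' => ?_) a b
      · exact isClosed_eq (by fun_prop) (by fun_prop)
      · rw [← io_mul, h1, h1, h1, map_mul]
    · exact (LinearMap.norm_extendOfNorm_apply_le (io_dense w) 1 hφ a).trans_eq (one_mul _)
    · refine (h1 _).trans ?_
      simp [φ]

end AS

theorem stAS : St_AS := fun Γ _ ω h1 hm =>
  let w : AS.Wt Γ := ⟨ω, fun g => zero_le_one.trans (h1 g), hm⟩
  ⟨Completion (AS.W w), inferInstance, inferInstance, inferInstance, _, AS.isAS w⟩

end Pool.Agent.Lib.BCH
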