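import Pool.Agent.Lib.BCH.Bd60

/-! The boundary map `K1 Q → K0r J` of an extension of Banach algebras. -/

noncomputable section

open Function

namespace Pool.Agent.Lib.BCH

variable {J A Q : Type}
  [NonUnitalRing J] [Module ℝ J] [IsScalarTower ℝ J J] [SMulCommClass ℝ J J]
  [NonUnitalNormedRing A] [NormedSpace ℝ A] [IsScalarTower ℝ A A] [SMulCommClass ℝ A A]
  [CompleteSpace A]
  [NonUnitalNormedRing Q] [NormedSpace ℝ Q] [IsScalarTower ℝ Q Q] [SMulCommClass ℝ Q Q]
  [CompleteSpace Q]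

/-- The boundary map: the additive map sending the class of an invertible matrix to its index
class. -/
def Ext.bdry (E : Ext J A Q) (hπ : Continuous E.π) : K1 Q →+ K0r J :=
  K1.lift (fun _ a => ⟨E.indexOf a, E.indexOf_mem a⟩)
    (fun _ _ _ h => Subtype.ext (E.indexOf_joined (E.isOpenMap hπ) h))
    (fun _ a h => Subtype.ext (Bd.indexOf_zero a h))
    (fun _ _ a b d h => Subtype.ext (Bd.indexOf_bsum a b d h))

theorem Ext.bdry_mk (E : Ext J A Q) (hπ : Continuous E.π) {k : ℕ} (a : GLq Q k) :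
    E.bdry hπ (K1.mk a) = ⟨E.indexOf a, E.indexOf_mem a⟩ :=
  FreeAbelianGroup.lift_apply_of
    (fun a : Σ k, GLq Q k => (⟨E.indexOf a.2, E.indexOf_mem a.2⟩ : K0r J)) ⟨k, a⟩

/-- Every class that dies in `K0 (A⁺)` is a boundary. -/
theorem Ext.exists_bdry (E : Ext J A Q) (hπ : Continuous E.π) (x : K0r J)
    (hx : K0.map (unitMap E.ι : Unitization ℝ J →ₙ+* Unitization ℝ A) x.1 = 0) :
    ∃ y, E.bdry hπ y = x := by
  obtain ⟨k, a, h⟩ := E.exists_indexOf hx
  exact ⟨K1.mk a, (E.bdry_mk hπ a).trans (Subtype.ext h)⟩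

/-- If `K0r J → K0 (A⁺)` vanishes, the boundary map is onto. -/
theorem Ext.bdry_surjective (E : Ext J A Q) (hπ : Continuous E.π)
    (h : ∀ x ∈ K0r J, K0.map (unitMap E.ι : Unitization ℝ J →ₙ+* Unitization ℝ A) x = 0) :
    Surjective (E.bdry hπ) := fun x => E.exists_bdry hπ x (h x.1 x.2)

end Pool.Agent.Lib.BCH
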