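import Pool.Agent.Lib.BCH.KDefs

/-! The short exact sequence `0 → C₀(ℝⁿ, J) → C₀(ℝⁿ, A) → C₀(ℝⁿ, Q) → 0`. -/

set_option linter.unusedSectionVars false

noncomputable section

open Function Filter Topology
open scoped ZeroAtInfty

namespace Pool.Agent.Lib.BCH

theorem surj_of_approx {E F : Type} [NormedAddCommGroup E] [NormedAddCommGroup F]
    [CompleteSpace E] (f : E →+ F) (hf : Continuous f) (C : ℝ) (hC : 0 ≤ C)
    (h : ∀ y, ∃ x, ‖x‖ ≤ C * ‖y‖ ∧ ‖y - f x‖ ≤ ‖y‖ / 2) : Surjective f := by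
  choose g hg1 hg2 using h
  intro y
  let r : F → F := fun z => z - f (g z)
  have hn : ∀ n : ℕ, ‖r^[n] y‖ ≤ ‖y‖ * (1 / 2) ^ n := by
    intro n
    induction n with
    | zero => simp
    | succ n ih =>
      rw [iterate_succ_apply', pow_succ]
      have := hg2 (r^[n] y)
      change ‖r^[n] y - f (g (r^[n] y))‖ ≤ _
      linarith
  have hs : Summable fun n : ℕ => g (r^[n] y) := by
    refine Summable.of_norm_bounded (g := fun n : ℕ => C * ‖y‖ * (1 / 2) ^ n)
      (summable_geometric_two.mul_left _) fun n => (hg1 _).trans ?_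
    rw [mul_assoc]
    exact mul_le_mul_of_nonneg_left (hn n) hC
  have hp : ∀ n : ℕ, f (∑ i ∈ Finset.range n, g (r^[i] y)) = y - r^[n] y := by
    intro n
    induction n with
    | zero => simp
    | succ n ih =>
      rw [Finset.sum_range_succ, map_add, ih, iterate_succ_apply']
      change _ = y - (r^[n] y - f (g (r^[n] y)))
      abel
  have h0 : Tendsto (fun n : ℕ => r^[n] y) atTop (𝓝 0) := by
    refine squeeze_zero_norm hn ?_
    simpa using (tendsto_pow_atTop_nhds_zero_of_lt_one (r := (1 / 2 : ℝ)) (by norm_num)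
      (by norm_num)).const_mul ‖y‖
  refine ⟨∑' n, g (r^[n] y), tendsto_nhds_unique
    ((hf.tendsto _).comp hs.hasSum.tendsto_sum_nat) ?_⟩
  simpa [comp_def, -map_sum, hp] using h0.const_sub y

variable {J A Q : Type}
  [NonUnitalNormedRing J] [NormedSpace ℝ J] [IsScalarTower ℝ J J] [SMulCommClass ℝ J J]
  [NonUnitalNormedRing A] [NormedSpace ℝ A] [IsScalarTower ℝ A A] [SMulCommClass ℝ A A]
  [NonUnitalNormedRing Q] [NormedSpace ℝ Q] [IsScalarTower ℝ Q Q] [SMulCommClass ℝ Q Q]

/-- Composition with a continuous homomorphism `φ : J → A`, as a map `C₀(X, J) → C₀(X, A)`. -/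
def postC0 (X : Type) [TopologicalSpace X] (φ : J →ₙₐ[ℝ] A) (h : Continuous φ) :
    C₀(X, J) →ₙₐ[ℝ] C₀(X, A) where
  toFun f := ⟨⟨fun x => φ (f x), h.comp (map_continuous f)⟩, by
    simpa [comp_def] using (h.tendsto 0).comp (zero_at_infty f)⟩
  map_smul' c f := ZeroAtInftyContinuousMap.ext fun x => map_smul φ c (f x)
  map_zero' := ZeroAtInftyContinuousMap.ext fun _ => map_zero φ
  map_add' f g := ZeroAtInftyContinuousMap.ext fun x => map_add φ (f x) (g x)
  map_mul' f g := ZeroAtInftyContinuousMap.ext fun x => map_mul φ (f x) (g x)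

section Post

variable {X : Type} [TopologicalSpace X]

@[simp] theorem postC0_apply (φ : J →ₙₐ[ℝ] A) (h : Continuous φ) (f : C₀(X, J)) (x : X) :
    postC0 X φ h f x = φ (f x) := rfl

omit [NormedSpace ℝ J] [IsScalarTower ℝ J J] [SMulCommClass ℝ J J] in
theorem c0_norm_le (f : C₀(X, J)) {C : ℝ} (hC : 0 ≤ C) (h : ∀ x, ‖f x‖ ≤ C) : ‖f‖ ≤ C :=
  (BoundedContinuousFunction.norm_le (f := f.toBCF) hC).2 h

omit [NormedSpace ℝ J] [IsScalarTower ℝ J J] [SMulCommClass ℝ J J] in
theorem c0_apply_le (f : C₀(X, J)) (x : X) : ‖f x‖ ≤ ‖f‖ := f.toBCF.norm_coe_le_norm x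

/-- A continuous homomorphism as a bounded linear map. -/
def homL (φ : J →ₙₐ[ℝ] A) (h : Continuous φ) : J →L[ℝ] A where
  toFun := φ
  map_add' := map_add φ
  map_smul' := map_smul φ
  cont := h

theorem norm_postC0_le (φ : J →ₙₐ[ℝ] A) (h : Continuous φ) (f : C₀(X, J)) :
    ‖postC0 X φ h f‖ ≤ ‖homL φ h‖ * ‖f‖ :=
  c0_norm_le _ (by positivity) fun x => ((homL φ h).le_opNorm (f x)).trans
    (mul_le_mul_of_nonneg_left (c0_apply_le f x) (norm_nonneg _))

theorem continuous_postC0 (φ : J →ₙₐ[ℝ] A) (h : Continuous φ) : Continuous (postC0 X φ h) :=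
  AddMonoidHomClass.continuous_of_bound _ _ (norm_postC0_le φ h)

theorem isometry_postC0 (φ : J →ₙₐ[ℝ] A) (h : Isometry φ) :
    Isometry (postC0 X φ h.continuous) := by
  have hn : ∀ a, ‖φ a‖ = ‖a‖ := h.norm_map_of_map_zero (map_zero φ)
  refine AddMonoidHomClass.isometry_of_norm _ fun f => le_antisymm
    (c0_norm_le _ (norm_nonneg _) fun x => ?_) (c0_norm_le _ (norm_nonneg _) fun x => ?_)
  · rw [postC0_apply, hn]
    exact c0_apply_le f x
  · rw [← hn]
    exact c0_apply_le (postC0 X φ h.continuous f) x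

theorem exact_postC0 (ι : J →ₙₐ[ℝ] A) (π : A →ₙₐ[ℝ] Q) (hi : Isometry ι) (hp : Continuous π)
    (he : Exact ι π) : Exact (postC0 X ι hi.continuous) (postC0 X π hp) := by
  intro f
  constructor
  · intro hf
    have h1 : ∀ x, ∃ a, ι a = f x := fun x => (he (f x)).1 (DFunLike.congr_fun hf x)
    choose g hg using h1
    have h2 : (ι : J → A) ∘ g = f := funext hg
    refine ⟨⟨⟨g, hi.isEmbedding.continuous_iff.2 (h2 ▸ map_continuous f)⟩, ?_⟩,
      ZeroAtInftyContinuousMap.ext hg⟩
    refine hi.isEmbedding.tendsto_nhds_iff.2 ?_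
    change Tendsto ((ι : J → A) ∘ g) _ _
    rw [map_zero, h2]
    exact zero_at_infty f
  · rintro ⟨g, rfl⟩
    exact ZeroAtInftyContinuousMap.ext fun x => (he _).2 ⟨g x, rfl⟩

theorem surj_postC0 [NormalSpace X] [ParacompactSpace X] [CompleteSpace A] [CompleteSpace Q]
    (π : A →ₙₐ[ℝ] Q) (hp : Continuous π) (hs : Surjective π) : Surjective (postC0 X π hp) := by
  obtain ⟨C, hC, hpre⟩ := (homL π hp).exists_preimage_norm_le hs
  refine surj_of_approx (postC0 X π hp : C₀(X, A) →+ C₀(X, Q)) (continuous_postC0 π hp) (2 * C)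
    (by positivity) fun g => ?_
  rcases (norm_nonneg g).eq_or_lt with h0 | h0
  · exact ⟨0, by simp [← h0], by simp [← h0]⟩
  have hg := map_continuous g
  obtain ⟨f, hf⟩ := exists_continuous_forall_mem_convex_of_local_const
    (t := fun x => Metric.closedBall (0 : A) (2 * C * ‖g x‖) ∩
      homL π hp ⁻¹' Metric.closedBall (g x) (‖g‖ / 2))
    (fun x => (convex_closedBall _ _).inter
      ((convex_closedBall _ _).linear_preimage (homL π hp : A →ₗ[ℝ] Q))) fun x => by
      by_cases hx : ‖g x‖ < ‖g‖ / 2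
      · refine ⟨0, (hg.norm.continuousAt.eventually_lt continuousAt_const hx).mono
          fun y hy => ⟨Metric.mem_closedBall_self (by positivity), ?_⟩⟩
        simpa using hy.le
      · obtain ⟨a, ha, ha'⟩ := hpre (g x)
        have h1 : ∀ᶠ y in 𝓝 x, ‖g x‖ / 2 < ‖g y‖ :=
          continuousAt_const.eventually_lt hg.norm.continuousAt (by
            change ‖g x‖ / 2 < ‖g x‖
            linarith)
        have h2 : ∀ᶠ y in 𝓝 x, dist (g x) (g y) < ‖g‖ / 2 :=
          (continuous_const.dist hg).continuousAt.eventually_lt continuousAt_const (by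
            simpa using h0)
        refine ⟨a, (h1.and h2).mono fun y hy => ⟨?_, ?_⟩⟩
        · rw [mem_closedBall_zero_iff]
          nlinarith [hy.1]
        · rw [Set.mem_preimage, ha]
          exact hy.2.le
  have h1 : ∀ x, ‖f x‖ ≤ 2 * C * ‖g x‖ := fun x => mem_closedBall_zero_iff.1 (hf x).1
  refine ⟨⟨f, squeeze_zero_norm h1 ?_⟩, c0_norm_le _ (by positivity) fun x => (h1 x).trans
    (mul_le_mul_of_nonneg_left (c0_apply_le g x) (by positivity)),
    c0_norm_le _ (by positivity) fun x => ?_⟩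
  · simpa using (zero_at_infty g).norm.const_mul (2 * C)
  · exact mem_closedBall_iff_norm'.1 (hf x).2

end Post

variable [CompleteSpace A] [CompleteSpace Q]

/-- The extension `0 → C₀(ℝⁿ, J) → C₀(ℝⁿ, A) → C₀(ℝⁿ, Q) → 0` given by composition. -/
def Ext.susp (E : Ext J A Q) (hi : Isometry E.ι) (hp : Continuous E.π) (n : ℕ) :
    Ext C₀(EuclideanSpace ℝ (Fin n), J) C₀(EuclideanSpace ℝ (Fin n), A)
      C₀(EuclideanSpace ℝ (Fin n), Q) where
  ι := postC0 _ E.ι hi.continuous
  π := postC0 _ E.π hp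
  inj := (isometry_postC0 E.ι hi).injective
  exact := exact_postC0 E.ι E.π hi hp E.exact
  surj := surj_postC0 E.π hp E.surj

variable (E : Ext J A Q) (hi : Isometry E.ι) (hp : Continuous E.π) (n : ℕ)

@[simp] theorem Ext.susp_iota_apply (f : C₀(EuclideanSpace ℝ (Fin n), J))
    (x : EuclideanSpace ℝ (Fin n)) : (E.susp hi hp n).ι f x = E.ι (f x) := rfl

@[simp] theorem Ext.susp_pi_apply (f : C₀(EuclideanSpace ℝ (Fin n), A))
    (x : EuclideanSpace ℝ (Fin n)) : (E.susp hi hp n).π f x = E.π (f x) := rfl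

theorem Ext.isometry_susp_iota : Isometry (E.susp hi hp n).ι := isometry_postC0 E.ι hi

theorem Ext.continuous_susp_pi : Continuous (E.susp hi hp n).π := continuous_postC0 E.π hp

end Pool.Agent.Lib.BCH
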