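import Pool.Agent.Lib.BCH.ExtDefs
import Pool.Agent.Lib.BCH.Bd60b
import Pool.Agent.Lib.BCH.Susp

/-! The real assembly map in the form of Higson and Roe. -/

noncomputable section

open scoped ZeroAtInfty

namespace Pool.Agent.Lib.BCH

section

variable {J A : Type} [NonUnitalRing J] [Module ℝ J] [IsScalarTower ℝ J J] [SMulCommClass ℝ J J]
  [NonUnitalRing A] [Module ℝ A] [IsScalarTower ℝ A A] [SMulCommClass ℝ A A]

theorem map_mem_K0r (φ : J →ₙₐ[ℝ] A) {x : K0 (Unitization ℝ J)} (hx : x ∈ K0r J) :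
    K0.map (unitMap φ : Unitization ℝ J →ₙ+* Unitization ℝ A) x ∈ K0r A := by
  refine (map_map _ _ x).trans ((map_congr (fun r => ?_) x).trans hx)
  exact unitMap_fst φ r

/-- The map on `K0` of algebras without unit induced by a homomorphism. -/
def K0r.map (φ : J →ₙₐ[ℝ] A) (x : K0r J) : K0r A :=
  ⟨K0.map (unitMap φ : Unitization ℝ J →ₙ+* Unitization ℝ A) x.1, map_mem_K0r φ x.2⟩

end

section

variable (n : ℕ) (J A Q : Type)
  [NonUnitalNormedRing J] [NormedSpace ℝ J] [IsScalarTower ℝ J J] [SMulCommClass ℝ J J]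
  [NonUnitalNormedRing A] [NormedSpace ℝ A] [IsScalarTower ℝ A A] [SMulCommClass ℝ A A]
  [NonUnitalNormedRing Q] [NormedSpace ℝ Q] [IsScalarTower ℝ Q Q] [SMulCommClass ℝ Q Q]

/-- `KO_n (A) = K0 (C₀(ℝⁿ, A))`. -/
abbrev KO : Type := K0r C₀(EuclideanSpace ℝ (Fin n), A)

/-- `KO_(n+1) (A) = K1 (C₀(ℝⁿ, A))`. -/
abbrev KOsucc : Type := K1 C₀(EuclideanSpace ℝ (Fin n), A)

variable {J A Q}

/-- The map on `KO_n` induced by a continuous homomorphism. -/
def KO.map (φ : J →ₙₐ[ℝ] A) (h : Continuous φ) : KO n J → KO n A :=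
  K0r.map (postC0 (EuclideanSpace ℝ (Fin n)) φ h)

/-- The boundary map `KO_(n+1) (Q) → KO_n (J)` of an extension of Banach algebras. -/
def Ext.boundary [CompleteSpace A] [CompleteSpace Q] (E : Ext J A Q) (hi : Isometry E.ι)
    (hp : Continuous E.π) : KOsucc n Q →+ KO n J :=
  (E.susp hi hp n).bdry (E.continuous_susp_pi hi hp n)

end

variable (Γ : Type) {X Z : Type} [Group Γ] [MetricSpace X] [MulAction Γ Z]

instance (pos : Z → X) : NormedSpace ℝ (Cstar Γ pos) where
  norm_smul_le r T := norm_smul_le r T.1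

/-- The assembly map: the boundary map `KO_(n+1) (D*(X)^Γ / C*(X)^Γ) → KO_n (C*(X)^Γ)`. -/
def assembly (pos : Z → X) (n : ℕ) :
    KOsucc n (Dstar Γ pos ⧸ Cid Γ pos) →+ KO n (Cstar Γ pos) :=
  (roeExt Γ pos).boundary n (roeExt_isometry Γ pos) (roeExt_continuous Γ pos)

open Classical in
/-- The real reduced group algebra: the closed algebra generated by the left translations. -/
def Cred : Subalgebra ℝ (Op Γ) :=
  (Algebra.adjoin ℝ
    {T | ∃ g : Γ, ∀ a b, entry T a b = if a = g * b then 1 else 0}).topologicalClosure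

variable {Γ} in
/-- `T'` is the operator `T` on `ℓ²(Γ)` moved to the orbit of `z`, and zero elsewhere. -/
def IsCorner (z : Z) (T : Op Γ) (T' : Op Z) : Prop :=
  (∀ k k' : Γ, entry T' (k⁻¹ • z) (k'⁻¹ • z) = entry T k k') ∧
    ∀ a b : Z, a ∉ MulAction.orbit Γ z ∨ b ∉ MulAction.orbit Γ z → entry T' a b = 0

/-- The corner embedding of the reduced group algebra in `C*(X)^Γ` along the orbit of `z` exists
and induces a bijection on `KO_n`. -/
def CornerIso (pos : Z → X) (z : Z) (n : ℕ) : Prop :=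
  ∃ (θ : Cred Γ →ₙₐ[ℝ] Cstar Γ pos) (hθ : Continuous θ), (∀ T, IsCorner z T.1 (θ T).1) ∧
    Function.Bijective (KO.map n θ hθ)

end Pool.Agent.Lib.BCH
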