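import Pool.Agent.Lib.BCH.Blue3
import Pool.Agent.Lib.BCH.Defs

/-! Blueprint: stability. -/

namespace Pool.Agent.Lib.BCH

/-- The corner embedding induces a bijection on `KO_n`. -/
def St_MOR : Prop :=
  ∀ (Γ X Z : Type) [Group Γ] [MetricSpace X] [ProperSpace X] [MulAction Γ X]
    [IsIsometricSMul Γ X] [MulAction Γ Z] (o : X) (pos : Z → X) (z : Z) (n : ℕ), Geom Γ o →
    IsAmple Γ pos → CornerIso Γ pos z n

end Pool.Agent.Lib.BCH
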