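import Pool.Agent.Lib.BCH.Blue2
import Pool.Agent.Lib.BCH.Roe46

/-! The class of the reduced group algebra vanishes in `D*`. -/

noncomputable section

open Filter Topology Finset BCK BCO

namespace Pool.Agent.Lib.BCH

open Pool.Agent.Lib.BCC (E ms cj dgl)

namespace CR

theorem dense_eq {Γ A B : Type} [Group Γ] [NormedRing A] [NormedAlgebra ℝ A]
    [NormedAddCommGroup B] [NormedSpace ℝ B] {ω : Γ → ℝ} {δ : Γ → A} (hA : IsAS ω δ)
    (f g : A →ₗ[ℝ] B) (hf : Continuous f) (hg : Continuous g) (h : ∀ k, f (δ k) = g (δ k))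
    (a : A) : f a = g a :=
  hA.dense (LinearMap.eqLocus f g) (isClosed_eq hf hg) h a

/-- The linear map underlying a homomorphism. -/
def lin {A B : Type} [NormedRing A] [NormedAlgebra ℝ A] [NormedRing B] [NormedAlgebra ℝ B]
    (Φ : A →ₙₐ[ℝ] B) : A →ₗ[ℝ] B where
  toFun := Φ
  map_add' := map_add Φ
  map_smul' := map_smul Φ

theorem orth {Γ A B : Type} [Group Γ] [NormedRing A] [NormedAlgebra ℝ A] [NormedRing B]
    [NormedAlgebra ℝ B] {ω : Γ → ℝ} {δ : Γ → A} (hA : IsAS ω δ) (Φ Ψ : A →ₙₐ[ℝ] B)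
    (hΦ : Continuous Φ) (hΨ : Continuous Ψ) (h : ∀ k l, Φ (δ k) * Ψ (δ l) = 0) (a b : A) :
    Φ a * Ψ b = 0 := by
  have h1 : ∀ k b, Φ (δ k) * Ψ b = 0 := fun k =>
    dense_eq hA (LinearMap.mulLeft ℝ (Φ (δ k)) ∘ₗ lin Ψ) 0 (continuous_const.mul hΨ)
      continuous_const (h k)
  exact dense_eq hA (LinearMap.mulRight ℝ (Ψ b) ∘ₗ lin Φ) 0 (hΦ.mul continuous_const)
    continuous_const (fun k => h1 k b) a

theorem isCor_unique {Γ Z : Type} [Group Γ] [MulAction Γ Z] {z : Z} {T : Op Γ} {S S' : Op Z}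
    (h : IsCor z T S) (h' : IsCor z T S') : S = S' := entry_ext fun a b => by
  by_cases hab : a ∉ MulAction.orbit Γ z ∨ b ∉ MulAction.orbit Γ z
  · rw [h.2 a b hab, h'.2 a b hab]
  · push Not at hab
    obtain ⟨⟨k, rfl⟩, ⟨l, rfl⟩⟩ := hab
    have h1 := h.1 k⁻¹ l⁻¹
    have h2 := h'.1 k⁻¹ l⁻¹
    simp only [inv_inv] at h1 h2
    exact h1.trans h2.symm

variable {Γ X : Type} [Group Γ] [MetricSpace X] [MulAction Γ X] [IsIsometricSMul Γ X] {o : X}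

omit [IsIsometricSMul Γ X] in
theorem col_pi (c : BCC.CD Γ X o) (v : c.Δ → ℝ) (g : Γ) (σ : c.Δ) :
    BCC.col (c.π g * dgl v) σ = Finsupp.single (g • σ) (v σ * c.sg g σ) := by
  rw [BCC.col_mul, BCC.col_dgl, BCC.apply_single, c.π_col, Finsupp.smul_single, smul_eq_mul]

omit [IsIsometricSMul Γ X] in
theorem pi_comm (c : BCC.CD Γ X o) {v : c.Δ → ℝ} (hv : ∀ (g : Γ) σ, v (g • σ) = v σ) (g : Γ) :
    dgl v * c.π g = c.π g * dgl v := BCC.ext_col fun σ => by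
  rw [col_pi, BCC.col_mul, c.π_col, BCC.apply_single, BCC.col_dgl, hv, Finsupp.smul_single,
    smul_eq_mul, mul_comm]

omit [IsIsometricSMul Γ X] in
theorem pi_mul (c : BCC.CD Γ X o) {u v : c.Δ → ℝ} (hu : ∀ (g : Γ) σ, u (g • σ) = u σ) (g k : Γ) :
    c.π g * dgl u * (c.π k * dgl v) = c.π (g * k) * dgl fun σ => u σ * v σ := by
  rw [mul_assoc, ← mul_assoc (dgl u), pi_comm c hu, mul_assoc, BCC.dgl_mul, map_mul, mul_assoc]

omit [IsIsometricSMul Γ X] in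
theorem isPerm (c : BCC.CD Γ X o) {v : c.Δ → ℝ} (h : ∀ σ, v σ = 0 ∨ v σ = 1)
    (hv : ∀ (g : Γ) σ, v (g • σ) = v σ) : IsPerm fun g : Γ => c.π g * dgl v := by
  refine ⟨fun g k => ?_, fun g => ⟨MulAction.toPerm g, fun σ => v σ * c.sg g σ, fun σ => ?_,
    col_pi c v g⟩⟩
  · have h2 : (fun σ => v σ * v σ) = v := funext fun σ => by rcases h σ with h | h <;> simp [h]
    rw [pi_mul c hv, h2]
  · rcases h σ with h | h <;> rcases c.sg_sq g σ with h' | h' <;> simp [h, h']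

omit [IsIsometricSMul Γ X] in
theorem disp (c : BCC.CD Γ X o) (v : c.Δ → ℝ) (g : Γ) : Disp c.p g (c.π g * dgl v) := by
  have key : ∀ σ τ, BCC.col (c.π g * dgl v) σ τ ≠ 0 → τ = g • σ := fun σ τ h => by
    rw [col_pi] at h
    exact (Finsupp.mem_support_single _ _ _).1 (Finsupp.mem_support_iff.2 h) |>.1
  refine ⟨⟨dist o (g • o), fun σ τ h => key σ τ h ▸ c.p_smul g σ⟩, fun ε hε => ?_⟩
  refine (c.w_fin (8 * c.R * dist o (g • o) / ε)).subset fun σ hσ => ?_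
  by_contra h
  refine hσ fun τ hτ => ?_
  rw [key σ τ hτ]
  have h1 := c.p_far g σ
  have h2 : 8 * c.R * dist o (g • o) < ε * c.w σ := by
    rw [mul_comm ε]; exact (div_lt_iff₀ hε).1 (not_le.1 h)
  have h3 : 0 < c.w σ := by
    have : 0 ≤ 8 * c.R * dist o (g • o) := by have := c.R_pos; positivity
    exact (mul_pos_iff_of_pos_left hε).1 (this.trans_lt h2)
  exact le_of_mul_le_mul_right (h1.trans h2.le) h3

theorem om_mul (s : ℝ) (hs : 0 < s) (g k : Γ) : om o s (g * k) ≤ om o s g * om o s k := by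
  rw [om, om, om, ← Real.exp_add, ← mul_add]
  refine Real.exp_le_exp.2 (mul_le_mul_of_nonneg_left ?_ hs.le)
  rw [mul_smul, ← dist_smul g o (k • o)]
  exact dist_triangle _ _ _

omit [IsIsometricSMul Γ X] in
theorem one_le_om (s : ℝ) (hs : 0 < s) (g : Γ) : 1 ≤ om o s g :=
  Real.one_le_exp (mul_nonneg hs.le dist_nonneg)

open Classical in
theorem entry_lam (g a b : Γ) : entry (lam g : Op Γ) a b = if a = g * b then 1 else 0 := by
  rw [entry_eq, lam_apply, dl_apply]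
  exact ite_cg inv_mul_eq_iff_eq_mul

theorem exists_lam {A : Type} [NormedRing A] [NormedAlgebra ℝ A] {ω : Γ → ℝ} {δ : Γ → A}
    (hω : ∀ g, 1 ≤ ω g) (hA : IsAS ω δ) :
    ∃ Λ : A →ₙₐ[ℝ] Cr Γ, Continuous Λ ∧ ∀ g, (Λ (δ g) : Op Γ) = lam g := by
  obtain ⟨Λ, h1, -, h2⟩ := hA.lift (Cr Γ)
    (fun g => ⟨lam g, Subalgebra.le_topologicalClosure _ (Algebra.subset_adjoin ⟨g, rfl⟩)⟩)
    (fun g k => Subtype.ext (op_ext fun ξ x => by simp [mul_assoc])) fun s f => by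
      have h := norm_sum_tw_le s (fun g => f g • (1 : ℝ →L[ℝ] ℝ)) (fun g => |f g| * ω g)
        fun g _ => by
          rw [norm_smul, norm_one, mul_one, Real.norm_eq_abs]
          exact le_mul_of_one_le_right (abs_nonneg _) (hω g)
      simp only [tw_smul, tw_id] at h
      refine le_trans (le_of_eq ?_) h
      refine congrArg (norm : Op Γ → ℝ) ?_
      simp
  exact ⟨Λ, h1, fun g => by rw [h2]⟩

open Classical in
omit [IsIsometricSMul Γ X] in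
theorem isCor_nil (c : BCC.CD Γ X o) (g : Γ) {y : Op (Tw c.Δ Γ)}
    (hy : IsTw2 g (c.π g * dgl fun σ => if σ = c.nil then 1 else 0) y) :
    IsCor (Z := Tw c.Δ Γ) (c.nil, 1) (lam g) y := by
  have horb : ∀ (σ : c.Δ) (k : Γ), ((σ, k) : Tw c.Δ Γ) ∉ MulAction.orbit Γ
      (show Tw c.Δ Γ from (c.nil, 1)) → σ ≠ c.nil := fun σ k h h' =>
    h ⟨k⁻¹, Prod.ext h'.symm (by change 1 * k⁻¹⁻¹ = k; simp)⟩
  refine ⟨fun k l => ?_, fun a b h => ?_⟩
  · have h := hy c.nil c.nil (1 * k⁻¹⁻¹) (1 * l⁻¹⁻¹)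
    refine h.trans ?_
    rw [entry_lam, col_pi, c.smul_nil, c.sg_nil]
    simp
  · refine (hy a.1 b.1 a.2 b.2).trans ?_
    rw [col_pi]
    by_cases hb : b.1 = c.nil
    · have ha : a.1 ≠ c.nil := horb a.1 a.2 (h.resolve_right fun h' => horb b.1 b.2 h' hb)
      rw [hb, c.smul_nil, Finsupp.single_eq_of_ne ha, ite_self]
    · simp [hb]

end CR

open CR in
theorem stCR (hAS : St_AS) (hS : St_SDK) (hC : BCC.St_CD) (hR : St_REP) (hT : St_TW)
    (hE : St_END) (hW : St_SW) : St_CR := by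
  classical
  intro Γ X Z _ _ _ _ _ _ o pos hG hSD hZ
  obtain ⟨c⟩ := hC Γ X hG.cn o hG.proper hG.cocpt
  obtain ⟨θ', hθ', z, hcor, hsw⟩ := hW Γ X Z o c pos hG hZ
  refine ⟨z, fun Y _ _ θ hθ hθc => AddMonoidHom.ext fun x => ?_⟩
  obtain ⟨s, hs, hx⟩ := hS Γ X Y o hSD x
  have hω : ∀ g : Γ, 1 ≤ om o s g := one_le_om s hs
  obtain ⟨A, _, _, _, δ, hA⟩ := hAS Γ (om o s) hω (om_mul s hs)
  obtain ⟨Λ, hΛ, hΛδ⟩ := exists_lam hω hA
  obtain ⟨x, rfl⟩ := hx A δ hA Λ hΛ hΛδ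
  obtain ⟨-, tu, -, ta, tm, -⟩ := hT Γ c.Δ X o hG.proper
  have rep : ∀ v : c.Δ → ℝ, (∀ σ, v σ = 0 ∨ v σ = 1) → (∀ (g : Γ) σ, v (g • σ) = v σ) →
      ∃ Φ : A →ₙₐ[ℝ] Dstar Γ (posT Γ c.p), Continuous Φ ∧
        ∀ γ, IsTw2 γ (c.π γ * dgl v) (Φ (δ γ)).1 := fun v h hv =>
    let ⟨Φ, h1, _, h2⟩ := hR Γ c.Δ X A o _ δ c.p _ hG.proper hω hA (isPerm c h hv) (disp c v)
    ⟨Φ, h1, h2⟩
  have hnil : ∀ (g : Γ) (σ : c.Δ), g • σ = c.nil ↔ σ = c.nil := fun g σ => by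
    rw [← c.deg_zero, c.deg_smul, c.deg_zero]
  have he : ∀ (g : Γ) σ, evn c (g • σ) = evn c σ := fun g σ => by rw [evn, evn, c.deg_smul]
  have he0 : evn c c.nil = 1 := by rw [evn, (c.deg_zero _).2 rfl]; simp
  have he1 : ∀ σ, evn c σ = 0 ∨ evn c σ = 1 := fun σ => by unfold evn; split_ifs <;> simp
  set n : c.Δ → ℝ := fun σ => if σ = c.nil then 1 else 0 with hn
  set r : c.Δ → ℝ := fun σ => if σ = c.nil then 0 else evn c σ with hr
  have hn' : ∀ (g : Γ) σ, n (g • σ) = n σ := fun g σ => by simp only [hn, hnil]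
  have hr' : ∀ (g : Γ) σ, r (g • σ) = r σ := fun g σ => by simp only [hr, hnil, he]
  have hr1 : ∀ σ, r σ = 0 ∨ r σ = 1 := fun σ => by
    by_cases h : σ = c.nil
    · simp [hr, h]
    · simpa [hr, h] using he1 σ
  have ho1 : ∀ σ, 1 - evn c σ = 0 ∨ 1 - evn c σ = 1 := fun σ => by
    rcases he1 σ with h | h <;> simp [h]
  obtain ⟨Φe, ce, ie⟩ := rep (evn c) he1 he
  obtain ⟨Φo, co, io⟩ := rep (fun σ => 1 - evn c σ) ho1 fun g σ => by rw [he]
  obtain ⟨Φn, cn, jn⟩ := rep n (fun σ => by by_cases h : σ = c.nil <;> simp [hn, h]) hn'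
  obtain ⟨Φr, cr, ir⟩ := rep r hr1 hr'
  have z0 : ∀ γ : Γ, IsTw2 γ (c.π γ * dgl fun _ => 0) (0 : Op (Tw c.Δ Γ)) := fun γ a b g k => by
    rw [col_pi]; simp
  have o1 : ∀ a b, Φn a * Φr b = 0 := orth hA Φn Φr cn cr fun k l => Subtype.ext (by
    have h := tm _ _ _ _ _ _ (jn k) (ir l)
    rw [pi_mul c hn'] at h
    have h2 : (fun σ => n σ * r σ) = fun _ => 0 := funext fun σ => by
      by_cases h : σ = c.nil <;> simp [hn, hr, h]
    rw [h2] at h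
    exact tu _ _ _ _ h (z0 _))
  have o2 : ∀ a b, Φr a * Φn b = 0 := orth hA Φr Φn cr cn fun k l => Subtype.ext (by
    have h := tm _ _ _ _ _ _ (ir k) (jn l)
    rw [pi_mul c hr'] at h
    have h2 : (fun σ => r σ * n σ) = fun _ => 0 := funext fun σ => by
      by_cases h : σ = c.nil <;> simp [hn, hr, h]
    rw [h2] at h
    exact tu _ _ _ _ h (z0 _))
  have s1 : ∀ a, Φe a = Φn a + Φr a := dense_eq hA (lin Φe) (lin Φn + lin Φr) ce (cn.add cr)
    fun k => Subtype.ext (by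
      refine tu _ _ _ _ (ie k) ?_
      have h := (ta _ _ _ _ _ 0 (jn k) (ir k)).1
      have h2 : c.π k * dgl n + c.π k * dgl r = c.π k * dgl (evn c) := BCC.ext_col fun σ => by
        rw [BCC.col_add, col_pi, col_pi, col_pi, ← Finsupp.single_add, ← add_mul]
        by_cases h : σ = c.nil <;> simp [hn, hr, h, he0]
      rwa [h2] at h)
  have s2 : kap0 Y Φe ce x = kap0 Y Φn cn x + kap0 Y Φr cr x :=
    map_eq_add (fun f => ContinuousMap.ext fun y => s1 (f y))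
      (fun f g => ContinuousMap.ext fun y => o1 (f y) (g y))
      (fun f g => ContinuousMap.ext fun y => o2 (f y) (g y)) x
  have s3 : ∀ a, θ (Λ a) = θ' (Φn a) := dense_eq hA (lin θ ∘ₗ lin Λ) (lin θ' ∘ₗ lin Φn)
    (hθ.comp hΛ) (hθ'.comp cn) fun k => Subtype.ext
      (isCor_unique (hΛδ k ▸ hθc (Λ (δ k))) (hcor _ _ (isCor_nil c k (jn k))))
  have s4 : kap0 Y θ hθ (kap0 Y Λ hΛ x) = kap0 Y θ' hθ' (kap0 Y Φn cn x) := by
    rw [kap0, kap0, kap0, kap0, map_map, map_map]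
    exact map_congr (fun f => ContinuousMap.ext fun y => s3 (f y)) x
  have s5 := DFunLike.congr_fun
    (hsw Y A _ δ r hω hA hr1 (by simp [hr]) hr' Φr cr ir) x
  have s6 := DFunLike.congr_fun (hsw Y A _ δ (fun σ => 1 - evn c σ) hω hA ho1 (by simp [he0])
    (fun g σ => by rw [he]) Φo co io) x
  have s7 := hE Γ X Y A o c s δ hG.proper hs hA Φe Φo ce co ie io
  rw [AddMonoidHom.comp_apply, AddMonoidHom.zero_apply] at s5 s6
  rw [← s7, s2, map_add, s5, add_zero] at s6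
  rw [s4, s6, AddMonoidHom.zero_apply]

end Pool.Agent.Lib.BCH
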