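import Pool.Agent.Lib.BCH.Blue2
import Pool.Agent.Lib.BCH.Roe46

/-! Representations of the weighted completion in `D*`. -/

noncomputable section

open Finset BCO

namespace Pool.Agent.Lib.BCH

open Pool.Agent.Lib.BCC (E ms)

namespace REP

variable {Γ I : Type} [Group Γ]

/-- The slice of a vector over `k`. -/
def sl (k : Γ) : H (Tw I Γ) →L[ℝ] H I :=
  res (fun a => ((a, k) : Tw I Γ)) fun _ _ h => congrArg Prod.fst h

omit [Group Γ] in
theorem hasSum_sl (ξ : H (Tw I Γ)) :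
    HasSum (fun k : Γ => ‖sl k ξ‖ ^ (2 : ENNReal).toReal) (‖ξ‖ ^ (2 : ENNReal).toReal) := by
  have h1 := lp.hasSum_norm (p := 2) (by norm_num) ξ
  have h2 := ((Equiv.prodComm Γ I).hasSum_iff
    (f := fun z : I × Γ => ‖ξ z‖ ^ (2 : ENNReal).toReal)).2 h1
  exact h2.prod_fiberwise fun k => lp.hasSum_norm (p := 2) (by norm_num) (sl k ξ)

/-- A vector on `I × Γ` as a family of vectors on `I`. -/
def cur (ξ : H (Tw I Γ)) : V Γ (H I) := ⟨fun k => sl k ξ, memℓp_gen (hasSum_sl ξ).summable⟩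

omit [Group Γ] in
theorem norm_cur (ξ : H (Tw I Γ)) : ‖cur ξ‖ = ‖ξ‖ := by
  have h := (lp.hasSum_norm (p := 2) (by norm_num) (cur ξ)).unique (hasSum_sl ξ)
  exact (Real.rpow_left_inj (norm_nonneg _) (norm_nonneg _) (by norm_num)).1 h

theorem apply_eq {γ : Γ} {T : E I} {y : Op (Tw I Γ)} (hy : IsTw2 γ T y) {α : I ≃ I} {v : I → ℝ}
    (hT : ∀ a, BCC.col T a = Finsupp.single (α a) (v a)) (ξ : H (Tw I Γ)) (a : I) (k : Γ) :
    y ξ ((a, k) : Tw I Γ) = v (α.symm a) * ξ ((α.symm a, γ⁻¹ * k) : Tw I Γ) := by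
  classical
  refine (hasSum_apply y ξ _).unique ?_
  have h0 : entry y ((a, k) : Tw I Γ) ((α.symm a, γ⁻¹ * k) : Tw I Γ) = v (α.symm a) := by
    rw [hy, if_pos (by simp), hT]
    simp
  rw [← h0]
  refine hasSum_single (f := fun b : Tw I Γ => entry y ((a, k) : Tw I Γ) b * ξ b)
    ((α.symm a, γ⁻¹ * k) : Tw I Γ) ?_
  rintro ⟨b, k'⟩ hb
  rw [hy]
  split_ifs with h
  · have hba : α b ≠ a := fun e => hb (by
      rw [← e, h]
      exact Prod.ext (by simp) (by simp))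
    rw [hT, Finsupp.single_eq_of_ne hba.symm, zero_mul]
  · exact zero_mul _

theorem norm_sl_le {γ : Γ} {T : E I} {y : Op (Tw I Γ)} (hy : IsTw2 γ T y) {α : I ≃ I}
    {v : I → ℝ} (hv : ∀ a, |v a| ≤ 1) (hT : ∀ a, BCC.col T a = Finsupp.single (α a) (v a))
    (ξ : H (Tw I Γ)) (k : Γ) : ‖sl k (y ξ)‖ ≤ ‖sl (γ⁻¹ * k) ξ‖ := by
  have h1 : sl k (y ξ) = res α.symm α.symm.injective (mulOp v 1 hv (sl (γ⁻¹ * k) ξ)) :=
    lp.ext (funext fun a => apply_eq hy hT ξ a k)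
  rw [h1]
  refine (ContinuousLinearMap.le_of_opNorm_le _ (norm_res_le _ _) _).trans ?_
  rw [one_mul]
  refine (ContinuousLinearMap.le_of_opNorm_le _ (norm_mulOp_le v 1 hv zero_le_one hv) _).trans ?_
  rw [one_mul]

/-- The unconditional bound for a representation by weighted permutation matrices. -/
theorem norm_sum_le_conv {ρ : Γ → E I} (hρ : IsPerm ρ) {y : Γ → Op (Tw I Γ)}
    (hy : ∀ γ, IsTw2 γ (ρ γ) (y γ)) (s : Finset Γ) (f c : Γ → ℝ) (h : ∀ g ∈ s, |f g| ≤ c g) :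
    ‖∑ g ∈ s, f g • y g‖ ≤ ‖conv s c‖ := by
  refine ContinuousLinearMap.opNorm_le_bound _ (norm_nonneg _) fun ξ => ?_
  rw [← norm_cur, ← norm_cur ξ, ← lp.norm_toNorm (x := cur ξ)]
  refine le_trans (lp.norm_mono (by norm_num) fun k => ?_)
    ((conv s c).le_opNorm (lp.toNorm (cur ξ)))
  rw [conv_apply]
  change ‖sl k ((∑ g ∈ s, f g • y g) ξ)‖ ≤ _
  rw [_root_.sum_apply, map_sum]
  refine (norm_sum_le _ _).trans (le_trans (sum_le_sum fun g hg => ?_) (le_abs_self _))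
  obtain ⟨α, v, hv, hT⟩ := hρ.2 g
  rw [_root_.smul_apply, map_smul, norm_smul, Real.norm_eq_abs]
  exact mul_le_mul (h g hg) (norm_sl_le (hy g) hv hT ξ k) (norm_nonneg _)
    ((abs_nonneg _).trans (h g hg))

theorem bnd {ρ : Γ → E I} (hρ : IsPerm ρ) (g : Γ) : Bnd (ρ g) := by
  obtain ⟨α, v, hv, hT⟩ := hρ.2 g
  refine ⟨1, 1, fun σ => ?_, fun τ => ⟨{α.symm τ}, (card_singleton _).le, fun σ hσ => ?_⟩⟩
  · rw [hT, BCC.ms_eq_nm, BCC.nm_single, mul_one]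
    exact hv σ
  · rw [hT] at hσ
    rw [mem_singleton, (Finsupp.single_apply_ne_zero.1 hσ).1, Equiv.symm_apply_apply]

end REP

theorem stREP (hT : St_TW) : St_REP := by
  intro Γ I X A _ _ _ _ _ _ _ o ω δ c ρ hp hω hA hρ hD
  obtain ⟨h1, h2, -, -, h5, h6⟩ := hT Γ I X o hp
  choose y hy using fun γ => h1 γ (ρ γ) (REP.bnd hρ γ)
  obtain ⟨Φ, hc, hn, hΦ⟩ := hA.lift (Dstar Γ (posT Γ c))
    (fun γ => ⟨y γ, h6 c γ _ _ (REP.bnd hρ γ) (hD γ) (hy γ)⟩)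
    (fun g g' => Subtype.ext (h2 (g * g') (ρ (g * g')) _ _ (hy _)
      (by rw [hρ.1]; exact h5 _ _ _ _ _ _ (hy g) (hy g'))))
    (fun s f => by
      refine le_trans (le_of_eq ?_) (REP.norm_sum_le_conv hρ hy s f _ fun g _ =>
        le_mul_of_one_le_right (abs_nonneg _) (hω g))
      change ‖(Dstar Γ (posT Γ c)).val _‖ = _
      rw [map_sum]
      rfl)
  exact ⟨Φ, hc, hn, fun γ => by rw [hΦ]; exact hy γ⟩

end Pool.Agent.Lib.BCH
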