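import Pool.Agent.Lib.BCH.Ker24
import Pool.Agent.Lib.BCH.REP

/-! The even and the odd part of the representation have the same class. -/

noncomputable section

open Filter Topology Finset BCK BCO BCA BCR

namespace Pool.Agent.Lib.BCH

open Pool.Agent.Lib.BCC (E ms cj dgl)

namespace END

section Alg

variable {R S : Type} [Ring R] [Ring S] {ι κ μ ν : Type} [Fintype ι] [Fintype κ] [Fintype μ]
  [Fintype ν] [DecidableEq ν]

/-- A matrix of matrices as one matrix. -/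
def flat (x : Matrix ι κ (Matrix ν ν R)) : Matrix (ι × ν) (κ × ν) R :=
  Matrix.of fun a b => x a.1 b.1 a.2 b.2

omit [Fintype ι] [Fintype μ] [DecidableEq ν] in
theorem flat_mul (x : Matrix ι κ (Matrix ν ν R)) (y : Matrix κ μ (Matrix ν ν R)) :
    flat (x * y) = flat x * flat y := by
  ext a b
  simp [flat, Matrix.mul_apply, Fintype.sum_prod_type, Matrix.sum_apply]

omit [DecidableEq ν] in
theorem flat_idem {e : Matrix ι ι (Matrix ν ν R)} (he : e * e = e) : flat e * flat e = flat e := by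
  rw [← flat_mul, he]

/-- Flattening on `K0`. -/
def fl : K0 (Matrix ν ν R) →+ K0 R :=
  K0.lift (fun _ e => cls (flat e.1))
    (fun _ _ e f x y h h' => cls_mvn (flat_idem e.2) (flat_idem f.2) (flat x) (flat y)
      (by rw [← flat_mul, h]) (by rw [← flat_mul, h']))
    (fun k l e f g h => by
      rw [← cls_fromBlocks (flat_idem e.2) (flat_idem f.2), h, ← cls_submatrix_equiv _
        ((Equiv.sumProdDistrib _ _ ν).symm.trans (finSumFinEquiv.prodCongr (Equiv.refl ν)))]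
      congr 1
      ext (⟨i, a⟩ | ⟨i, a⟩) (⟨j, b⟩ | ⟨j, b⟩) <;> simp [flat, bsum])

theorem fl_cls {e : Matrix ι ι (Matrix ν ν R)} (he : e * e = e) : fl (cls e) = cls (flat e) := by
  rw [cls_of_idem he, fl, K0.lift_mk]
  exact cls_submatrix_equiv (flat e) ((Fintype.equivFin ι).symm.prodCongr (Equiv.refl ν))

/-- The one by one matrix. -/
def one1 (a : R) : Matrix Unit Unit R := Matrix.of fun _ _ => a

theorem one1_mul (a b : R) : one1 a * one1 b = one1 (a * b) := by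
  ext i j
  simp [one1, Matrix.mul_apply]

theorem one1_idem {a : R} (ha : a * a = a) : one1 a * one1 a = one1 a := by rw [one1_mul, ha]

theorem fl_one1 {e : Matrix ν ν R} (he : e * e = e) : fl (cls (one1 e)) = cls e := by
  rw [fl_cls (one1_idem he)]
  exact cls_submatrix_equiv e (Equiv.punitProd ν)

theorem cls_ee {a b : R} (ha : a * a = a) (hb : b * b = b) :
    cls (ee a b) = cls (one1 a) + cls (one1 (1 - b)) := by
  have h3 : (1 - b) * (1 - b) = 1 - b := by rw [mul_sub, sub_mul, sub_mul, hb]; simp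
  rw [ee, cls_conj (dg_idem ha hb) _ _ (rr_sq hb), ← cls_fromBlocks (one1_idem ha) (one1_idem h3),
    ← cls_submatrix_equiv _ (Equiv.boolEquivPUnitSumPUnit.symm.trans finTwoEquiv.symm)]
  congr 1
  ext (i | i) (j | j) <;> rfl

theorem cls_eq_of_ee {P ε T : R} (hP : P * P = P) (hε : ε * ε = ε) (hc : ε * P = P * ε)
    (hT : Odd ε T) (h2 : T * T = 1)
    (h : cls (ee (P * ε) (T * P * T * ε)) = cls (!![1, 0; 0, 0] : Matrix (Fin 2) (Fin 2) R)) :
    cls (one1 (P * ε)) = cls (one1 (P * (1 - ε))) := by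
  have hb := conj_idem hP hε hc hT h2
  rw [← ee_self hb, cls_ee (ev_idem hP hε hc) hb, cls_ee hb hb] at h
  rw [add_right_cancel h, conj_eq hT, ← one1_mul, ← one1_mul]
  refine cls_conj (one1_idem (od_idem hP hε hc)) _ _ ?_
  rw [one1_mul, h2]
  ext i j
  rfl

theorem ee_map (f : R →ₙ+* S) (h1 : f 1 = 1) (a b : R) : (ee a b).map f = ee (f a) (f b) := by
  rw [ee, ee, Matrix.map_mul, Matrix.map_mul]
  congr 1
  · congr 1 <;> ext i j <;> fin_cases i <;> fin_cases j <;> simp [rr, h1]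
  · ext i j; fin_cases i <;> fin_cases j <;> simp [rr, h1]

theorem e11_map [Algebra ℝ R] : (!![1, 0; 0, 0] : Matrix (Fin 2) (Fin 2) ℝ).map (algebraMap ℝ R) =
    !![1, 0; 0, 0] := by
  ext i j; fin_cases i <;> fin_cases j <;> simp

end Alg

section FFs

variable {ν Y B B' : Type} [Fintype ν] [DecidableEq ν] [TopologicalSpace Y] [CompactSpace Y]
  [NormedRing B] [NormedRing B']

omit [Fintype ν] [DecidableEq ν] [CompactSpace Y] in
theorem ff_ext {M N : FF ν Y B} (h : ∀ i j y, M i j y = N i j y) : M = N :=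
  Matrix.ext fun i j => ContinuousMap.ext (h i j)

theorem mul_ap (M N : FF ν Y B) (i j : ν) (y : Y) :
    (M * N) i j y = ∑ k, M i k y * N k j y := by
  change (∑ k, M i k * N k j) y = _
  simp

theorem sub_ap (M N : FF ν Y B) (i j : ν) (y : Y) : (M - N) i j y = M i j y - N i j y := rfl

theorem map_ap (φ : B →ₙ+* B') (hφ : Continuous φ) (M : FF ν Y B) (i j : ν) (y : Y) :
    FF.map ν Y φ hφ M i j y = φ (M i j y) := rfl

theorem const_ap (x : B) (i j : ν) (y : Y) : FF.const ν Y x i j y = if i = j then x else 0 := by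
  change (Matrix.diagonal (fun _ => ContinuousMap.const Y x) i j) y = _
  rw [Matrix.diagonal_apply]
  split_ifs <;> rfl

theorem mul_const_ap (M : FF ν Y B) (x : B) (i j : ν) (y : Y) :
    (M * FF.const ν Y x) i j y = M i j y * x := by
  simp [mul_ap, const_ap]

theorem const_mul_ap (M : FF ν Y B) (x : B) (i j : ν) (y : Y) :
    (FF.const ν Y x * M) i j y = x * M i j y := by
  simp [mul_ap, const_ap]

theorem map_const (φ : B →ₙ+* B') (hφ : Continuous φ) (x : B) :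
    FF.map ν Y φ hφ (FF.const ν Y x) = FF.const ν Y (φ x) := ff_ext fun i j y => by
  rw [map_ap, const_ap, const_ap]
  split_ifs <;> simp

theorem ff_map_one (φ : B →ₙ+* B') (hφ : Continuous φ) (h1 : φ 1 = 1) :
    FF.map ν Y φ hφ 1 = 1 := by
  rw [← map_one (FF.const ν Y), map_const, h1, map_one]

variable (ν Y) in
/-- The ideal of the elements with values in an ideal. -/
def ffI (I : TwoSidedIdeal B) : TwoSidedIdeal (FF ν Y B) :=
  TwoSidedIdeal.mk' (FF.set ν Y (I : Set B)) (fun _ _ _ => I.zero_mem)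
    (fun hx hy i j y => I.add_mem (hx i j y) (hy i j y)) (fun hx i j y => I.neg_mem (hx i j y))
    (fun {_ _} hy i j y => by
      rw [mul_ap]; exact sum_mem (S := I) fun k _ => I.mul_mem_left _ _ (hy k j y))
    fun {_ _} hx i j y => by
      rw [mul_ap]; exact sum_mem (S := I) fun k _ => I.mul_mem_right _ _ (hx i k y)

theorem mem_ffI {I : TwoSidedIdeal B} {M : FF ν Y B} : M ∈ ffI ν Y I ↔ ∀ i j y, M i j y ∈ I :=
  TwoSidedIdeal.mem_mk' _ _ _ _ _ _ _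

end FFs

section Chain

variable {Γ X : Type} [Group Γ] [MetricSpace X] [MulAction Γ X] {o : X} (c : BCC.CD Γ X o)

theorem disp_keep {T : E c.Δ} (h : ∀ σ τ, BCC.col T σ τ ≠ 0 → c.p τ = c.p σ) :
    Disp c.p (1 : Γ) T :=
  ⟨⟨0, fun σ τ e => by rw [one_smul, h σ τ e, dist_self]⟩,
    fun ε hε => Eventually.of_forall fun σ τ e => by rw [one_smul, h σ τ e, dist_self]; exact hε.le⟩

theorem disp_pi (g : Γ) : Disp c.p g (c.π g) := by
  have key : ∀ σ τ, BCC.col (c.π g) σ τ ≠ 0 → τ = g • σ := fun σ τ e => by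
    rw [c.π_col] at e
    exact (Finsupp.single_apply_ne_zero.1 e).1
  refine ⟨⟨_, fun σ τ e => key σ τ e ▸ c.p_smul g σ⟩, fun ε hε => ?_⟩
  refine eventually_cofinite.2 ((c.w_fin (8 * c.R * dist o (g • o) / ε)).subset fun σ hσ => ?_)
  by_contra h
  refine hσ fun τ e => ?_
  rw [key σ τ e]
  have h1 : 8 * c.R * dist o (g • o) < c.w σ * ε := (div_lt_iff₀ hε).1 (not_le.1 h)
  have h2 := c.p_far g σ
  have h3 : 0 ≤ c.w σ := c.w_eq σ ▸ dist_nonneg
  by_contra h4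
  nlinarith [not_le.1 h4]

theorem isPerm_pi : IsPerm fun g => c.π g :=
  ⟨fun g g' => map_mul c.π g g', fun g => ⟨MulAction.toPerm g, c.sg g,
    fun a => (abs_sg c g a).le, c.π_col g⟩⟩

theorem small_F (g : Γ) : Small ((c.h + c.i) * c.π g - c.π g * (c.h + c.i)) := by
  have : (c.h + c.i) * c.π g - c.π g * (c.h + c.i) =
      (c.h * c.π g - c.π g * c.h) + (c.i * c.π g - c.π g * c.i) := by noncomm_ring
  rw [this]
  exact small_add (c.h_comm g) (c.i_comm g)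

theorem F_sq : (c.h + c.i) * (c.h + c.i) = 1 := by
  have : (c.h + c.i) * (c.h + c.i) = c.h * c.h + c.i * c.i + (c.i * c.h + c.h * c.i) := by
    noncomm_ring
  rw [this, c.h_sq, c.i_sq, c.ih]
  simp

theorem F_odd : dgl (evn c) * (c.h + c.i) = (c.h + c.i) * (1 - dgl (evn c)) := by
  rw [mul_add, add_mul, evn_odd c fun σ τ e => Or.inr (c.h_sup σ τ e).1,
    evn_odd c fun σ τ e => Or.inl (c.i_sup σ τ e).1]

theorem F_keep (σ τ : c.Δ) (e : BCC.col (c.h + c.i) σ τ ≠ 0) : c.p τ = c.p σ := by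
  by_cases h : BCC.col c.h σ τ = 0
  · refine (c.i_sup σ τ fun h' => e ?_).2
    rw [BCC.col_add, Finsupp.add_apply, h, h', add_zero]
  · exact (c.h_sup σ τ h).2

theorem evn_keep (σ τ : c.Δ) (e : BCC.col (dgl (evn c)) σ τ ≠ 0) : c.p τ = c.p σ := by
  rw [BCC.col_dgl] at e
  rw [(Finsupp.single_apply_ne_zero.1 e).1]

theorem evn_pi0 (g : Γ) : dgl (evn c) * c.π g = c.π g * dgl (evn c) := by
  simpa only [BCC.cj_at_zero] using evn_pi c 0 g

end Chain

section Tw1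

variable {Γ S : Type} [Group Γ] {γ γ' : Γ} {T T' : E S} {x y : Op1 Γ S}

theorem tw1_unique (hx : IsTw1 γ T x) (hy : IsTw1 γ T y) : x = y :=
  (IsTw1.eq hx).2.trans (IsTw1.eq hy).2.symm

theorem tw1_one : IsTw1 (1 : Γ) (1 : E S) 1 := by
  have := isTw1_ext (1 : Γ) (Bd.one (S := S) (p := 1))
  rwa [ext_one, tw_one, show amp Γ (1 : E1 S →L[ℝ] E1 S) = 1 from op_ext fun _ _ => rfl] at this

theorem tw1_mul (hx : IsTw1 γ T x) (hy : IsTw1 γ' T' y) : IsTw1 (γ * γ') (T * T') (x * y) := by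
  obtain ⟨h1, rfl⟩ := IsTw1.eq hx
  obtain ⟨h2, rfl⟩ := IsTw1.eq hy
  rw [tw_mul, ← ext_mul h1 h2]
  exact isTw1_ext _ (h1.mul h2)

theorem tw1_sub (hx : IsTw1 γ T x) (hy : IsTw1 γ T' y) : IsTw1 γ (T - T') (x - y) := by
  obtain ⟨h1, rfl⟩ := IsTw1.eq hx
  obtain ⟨h2, rfl⟩ := IsTw1.eq hy
  rw [← tw_sub, ← ext_sub h1 h2]
  exact isTw1_ext _ (h1.sub h2)

end Tw1

theorem eq_of_dense {Γ A D : Type} [Group Γ] [NormedRing A] [NormedAlgebra ℝ A] [NormedRing D]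
    [NormedAlgebra ℝ D] {ω : Γ → ℝ} {δ : Γ → A} (hA : IsAS ω δ) (f : A →ₗ[ℝ] D)
    (hf : Continuous f) (I : Submodule ℝ D) (hI : IsClosed (I : Set D)) (h : ∀ g, f (δ g) ∈ I)
    (a : A) : f a ∈ I :=
  hA.dense (I.comap f) (hI.preimage hf) h a

/-- The abstract form of the argument. -/
theorem main {A B B₁ D Λ ν Y : Type} [NormedRing A] [NormedAlgebra ℝ A] [NormedRing B]
    [NormedAlgebra ℝ B] [CompleteSpace B] [NormedRing B₁] [NormedAlgebra ℝ B₁] [CompleteSpace B₁]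
    [NormedRing D] [NormedAlgebra ℝ D] [SemilatticeSup Λ] [Nonempty Λ] [Fintype ν] [DecidableEq ν]
    [TopologicalSpace Y] [CompactSpace Y] (hTR : St_TR) {P : Λ → B} {P₁ : Λ → B₁}
    (φ : B →ₐ[ℝ] B₁) (hφ : Continuous φ) (σ : Λ → B₁ →L[ℝ] B) (hP : IsFilt P) (hP₁ : IsFilt P₁)
    (hl : ∀ b, b ∈ Loc P) (h1 : ∀ F, φ (P F) = P₁ F) (h2 : ∀ F x, φ (σ F x) = P₁ F * x * P₁ F)
    (h3 : ∀ F x, σ F (φ x) = P F * x * P F) (Θ : A →ₙ+* B) (hΘ : Continuous Θ) {ε T : B}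
    (hε : ε * ε = ε) (hc : ∀ a, ε * Θ a = Θ a * ε) (hT : Odd ε T) (hT2 : T * T = 1)
    (hK : ∀ a, T * Θ a - Θ a * T ∈ KK P) (ψ : B →ₙ+* D) (hψ : Continuous ψ) (Φ Ψ : A →ₙ+* D)
    (hΦ : Continuous Φ) (hΨ : Continuous Ψ) (e1 : ∀ a, ψ (Θ a * ε) = Φ a)
    (e2 : ∀ a, ψ (Θ a * (1 - ε)) = Ψ a) (p : FF ν Y A) (hp : p * p = p) (Θ₁ : A →ₙ+* B₁)
    (hΘ₁ : Continuous Θ₁) (e3 : ∀ a, φ (Θ a) = Θ₁ a)
    (u : (Matrix (Fin 2) (Fin 2) (FF ν Y B₁))ˣ) (hu : Ent (FF.set ν Y (KK P₁)) (u.1 - 1))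
    (hu' : Ent (FF.set ν Y (KK P₁)) ((u⁻¹).1 - 1))
    (h : ee (FF.map ν Y Θ₁ hΘ₁ p * FF.const ν Y (φ ε))
      (FF.const ν Y (φ T) * FF.map ν Y Θ₁ hΘ₁ p * FF.const ν Y (φ T) * FF.const ν Y (φ ε)) * u.1 =
        u.1 * !![1, 0; 0, 0]) :
    cls (R := C(Y, D)) (ι := ν) (FF.map ν Y Φ hΦ p) =
      cls (R := C(Y, D)) (ι := ν) (FF.map ν Y Ψ hΨ p) := by
  set Q := FF.map ν Y Θ hΘ p with hQ
  have q1 : Q * Q = Q := by rw [hQ, ← map_mul, hp]
  have q2 : FF.const ν Y ε * FF.const ν Y ε = FF.const ν Y ε := by rw [← map_mul, hε]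
  have q3 : FF.const ν Y ε * Q = Q * FF.const ν Y ε := ff_ext fun i j y => by
    rw [mul_const_ap, const_mul_ap, hQ, map_ap, hc]
  have q4 : Odd (FF.const ν Y ε) (FF.const ν Y T) := by
    have := congrArg (FF.const ν Y) hT
    rwa [map_mul, map_mul, map_sub, map_one] at this
  have q5 : FF.const ν Y T * FF.const ν Y T = 1 := by rw [← map_mul, hT2, map_one]
  have q6 : FF.const ν Y T * Q - Q * FF.const ν Y T ∈ ffI ν Y (kkIdeal hP hl) :=
    mem_ffI.2 fun i j y => by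
      rw [sub_ap, mul_const_ap, const_mul_ap, hQ, map_ap, mem_kkIdeal]
      exact hK _
  have q7 := conj_idem q1 q2 q3 q4 q5
  have q8 : FF.map ν Y (φ : B →ₙ+* B₁) hφ Q = FF.map ν Y Θ₁ hΘ₁ p := ff_ext fun i j y => e3 _
  have key := hTR B B₁ Λ ν Y (Fin 2) P P₁ φ hφ σ hP hP₁ h1 h2 h3
    (ee (Q * FF.const ν Y ε) (FF.const ν Y T * Q * FF.const ν Y T * FF.const ν Y ε))
    !![1, 0; 0, 0] u (ee_idem (ev_idem q1 q2 q3) q7)
    (by ext i j; fin_cases i <;> fin_cases j <;> simp [Matrix.mul_apply, Fin.sum_univ_two])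
    (fun i j a b y => by
      rw [e11_map]
      exact (mem_kkIdeal hP hl).1 (mem_ffI.1 (ee_sub_mem q7 (sub_conj_mem q5 q6) i j) a b y))
    hu hu' (by
      rw [e11_map, ee_map _ (ff_map_one _ hφ (map_one φ))]
      simp only [map_mul, map_const, q8]
      exact h)
  rw [e11_map] at key
  have k2 := congrArg (K0.map (FF.map ν Y ψ hψ)) (cls_eq_of_ee q1 q2 q3 q4 q5 key)
  rw [map_cls _ (one1_idem (ev_idem q1 q2 q3)), map_cls _ (one1_idem (od_idem q1 q2 q3))] at k2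
  have k3 : FF.map ν Y ψ hψ (Q * FF.const ν Y ε) = FF.map ν Y Φ hΦ p := ff_ext fun i j y => by
    rw [map_ap, mul_const_ap]
    exact e1 _
  have k4 : FF.map ν Y ψ hψ (Q * (1 - FF.const ν Y ε)) = FF.map ν Y Ψ hΨ p :=
    ff_ext fun i j y => by
      rw [← map_one (FF.const ν Y), ← map_sub, map_ap, mul_const_ap]
      exact e2 _
  have k5 : cls (one1 (FF.map ν Y Φ hΦ p)) = cls (one1 (FF.map ν Y Ψ hΨ p)) := by
    rw [← k3, ← k4]
    exact k2
  have i1 : FF.map ν Y Φ hΦ p * FF.map ν Y Φ hΦ p = FF.map ν Y Φ hΦ p := by rw [← map_mul, hp]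
  have i2 : FF.map ν Y Ψ hΨ p * FF.map ν Y Ψ hΨ p = FF.map ν Y Ψ hΨ p := by rw [← map_mul, hp]
  exact (fl_one1 (R := C(Y, D)) (ν := ν) i1).symm.trans
    ((congrArg (fl (R := C(Y, D)) (ν := ν)) k5).trans (fl_one1 (R := C(Y, D)) (ν := ν) i2))

end END

open END in
theorem stEND (hL : St_L1) (hTR : St_TR) (hK : St_KER) (hT : St_TW) (_hR : St_REP)
    (hP : St_PAIR) : St_END := by
  classical
  intro Γ X Y A _ _ _ _ _ _ _ _ _ o c s δ hp hs hA Φ Ψ hΦ hΨ eΦ eΨ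
  obtain ⟨t1, t2, t3, t4, t5, t6⟩ := hT Γ c.Δ X o hp
  obtain ⟨B, _, _, _, P, φ, ψ, σ, hF, hl, hφ, hψ, hn, h1, h2, h3, hE⟩ := hP Γ c.Δ X o c.p hp
  let Rel : Γ → E c.Δ → B → Prop := fun γ T b => IsTw1 γ T (φ b).1 ∧ IsTw2 γ T (ψ b).1
  have uq : ∀ {γ T b b'}, Rel γ T b → Rel γ T b' → b = b' := fun {γ T b b'} h h' => by
    have a1 : φ b = φ b' := Subtype.ext (tw1_unique h.1 h'.1)
    have a2 : ψ b = ψ b' := Subtype.ext (t2 _ _ _ _ h.2 h'.2)
    refine sub_eq_zero.1 (norm_le_zero_iff.1 ((hn (b - b')).trans (max_le ?_ ?_)))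
    · rw [map_sub, a1, sub_self]
      exact norm_le_zero_iff.2 rfl
    · rw [map_sub, a2, sub_self]
      exact norm_le_zero_iff.2 rfl
  have rm : ∀ {γ γ' T T' b b'}, Rel γ T b → Rel γ' T' b' → Rel (γ * γ') (T * T') (b * b') :=
    fun h h' => ⟨by rw [map_mul]; exact tw1_mul h.1 h'.1,
      by rw [map_mul]; exact t5 _ _ _ _ _ _ h.2 h'.2⟩
  have rs : ∀ {γ T T' b b'}, Rel γ T b → Rel γ T' b' → Rel γ (T - T') (b - b') :=
    fun h h' => ⟨by rw [map_sub]; exact tw1_sub h.1 h'.1,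
      by rw [map_sub]; exact (t4 _ _ _ _ _ 0 h.2 h'.2).2.1⟩
  have ml : ∀ {γ T T' b b'}, Rel 1 T b → Rel γ T' b' → Rel γ (T * T') (b * b') :=
    fun h h' => by simpa only [one_mul] using rm h h'
  have mr : ∀ {γ T T' b b'}, Rel γ T b → Rel 1 T' b' → Rel γ (T * T') (b * b') :=
    fun h h' => by simpa only [mul_one] using rm h h'
  have r1 : Rel 1 1 1 := ⟨by rw [map_one]; exact tw1_one, by rw [map_one]; exact t3⟩
  have ex : ∀ γ T, Bnd T → Disp c.p γ T → ∃ b, Rel γ T b := fun γ T hb hd => by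
    obtain ⟨y, hy⟩ := t1 γ T hb
    obtain ⟨b, b1, b2, -⟩ := hE γ T ⟨y, t6 c.p γ T y hb hd hy⟩ hb hy
    exact ⟨b, b1, by rw [b2]; exact hy⟩
  have sm : ∀ {γ T b}, Rel γ T b → Bnd T → Small T → b ∈ KK P := fun {γ T b} h hb hs => by
    obtain ⟨b', b1, b2, b3⟩ := hE γ T (ψ b) hb h.2
    rw [uq h ⟨b1, by rw [b2]; exact h.2⟩]
    exact b3 hs
  choose bg hg using fun γ => ex γ _ (bnd_pi c γ) (disp_pi c γ)
  obtain ⟨ε, hε⟩ := ex 1 _ (bnd_dgl (abs_evn c)) (disp_keep c (evn_keep c))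
  have bF := bnd_add (bnd_h c) (bnd_i c)
  obtain ⟨T, hT⟩ := ex 1 _ bF (disp_keep c (F_keep c))
  have hω : ∀ g : Γ, 1 ≤ om o s g := fun g => Real.one_le_exp (mul_nonneg hs.le dist_nonneg)
  obtain ⟨Θ, hΘ, -, eΘ⟩ := hA.lift B bg
    (fun g g' => uq (hg _) (by rw [map_mul]; exact rm (hg g) (hg g'))) fun t f => by
      have hf : ∀ g ∈ t, |f g| ≤ |f g| * om o s g := fun g _ =>
        le_mul_of_one_le_right (abs_nonneg _) (hω g)
      refine (hn _).trans (max_le ?_ ?_)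
      · refine le_trans (le_of_eq ?_) (norm_sum_tw_le t (fun g => f g • BCR.ext 1 (c.π g)) _
          fun g h => ?_)
        · change ‖(B1 Γ c.Δ).val _‖ = _
          rw [map_sum, map_sum]
          refine congrArg _ (sum_congr rfl fun g _ => ?_)
          rw [map_smul, map_smul, tw_smul, ← (IsTw1.eq (hg g).1).2]
          rfl
        · rw [norm_smul, Real.norm_eq_abs]
          refine mul_le_mul_of_nonneg_left (le_trans (norm_ext1_le zero_le_one fun a => ?_) (hω g))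
            (abs_nonneg _)
          rw [c.π_col, ms_single, abs_sg]
      · refine le_trans (le_of_eq ?_) (REP.norm_sum_le_conv (isPerm_pi c) (fun g => (hg g).2) t f
          _ hf)
        change ‖(Dstar Γ (posT Γ c.p)).val _‖ = _
        rw [map_sum, map_sum]
        refine congrArg _ (sum_congr rfl fun g _ => ?_)
        rw [map_smul, map_smul]
        rfl
  have hg' : ∀ g, Rel g (c.π g) (Θ (δ g)) := fun g => by rw [eΘ]; exact hg g
  have zero : ∀ {D : Type} [NormedRing D] [NormedAlgebra ℝ D] (f : A →ₗ[ℝ] D), Continuous f →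
      (∀ g, f (δ g) = 0) → ∀ a, f a = 0 := fun f hf h a =>
    eq_of_dense hA f hf ⊥ isClosed_singleton h a
  let L : A →ₗ[ℝ] B := (Θ : A →ₗ[ℝ] B)
  have c1 : ∀ a, ε * Θ a = Θ a * ε := fun a => sub_eq_zero.1 (zero
    ((LinearMap.mulLeft ℝ ε - LinearMap.mulRight ℝ ε).comp L)
    (by change Continuous fun a => ε * Θ a - Θ a * ε; fun_prop) (fun g => sub_eq_zero.2
      (uq (ml hε (hg' g)) (evn_pi0 c g ▸ mr (hg' g) hε))) a)
  have c2 : ∀ a, T * Θ a - Θ a * T ∈ KK P := fun a => eq_of_dense hA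
    ((LinearMap.mulLeft ℝ T - LinearMap.mulRight ℝ T).comp L)
    (by change Continuous fun a => T * Θ a - Θ a * T; fun_prop)
    { carrier := KK P
      add_mem' := KK_add
      zero_mem' := KK_zero
      smul_mem' := fun r _ h => KK_smul r h } hF.isClosed_KK
    (fun g => sm (rs (ml hT (hg' g)) (mr (hg' g) hT))
      (bnd_sub (bnd_mul bF (bnd_pi c g)) (bnd_mul (bnd_pi c g) bF)) (small_F c g)) a
  have c3 : ∀ (x : B) (U : E c.Δ) (Ω : A →ₙₐ[ℝ] Dstar Γ (posT Γ c.p)), Continuous Ω → Rel 1 U x →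
      (∀ γ, IsTw2 γ (c.π γ * U) (Ω (δ γ)).1) → ∀ a, ψ (Θ a * x) = Ω a :=
    fun x U Ω hΩ hx h a => sub_eq_zero.1 (zero
      (ψ.toLinearMap.comp ((LinearMap.mulRight ℝ x).comp L) - (Ω : A →ₗ[ℝ] _))
      (by change Continuous fun a => ψ (Θ a * x) - Ω a; fun_prop) (fun g => sub_eq_zero.2
        (Subtype.ext (t2 g _ _ _ (mr (hg' g) hx).2 (h g)))) a)
  have hε' : Rel 1 (dgl fun a => 1 - evn c a) (1 - ε) := by
    rw [← dgl_sub, BCC.dgl_one]
    exact rs r1 hε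
  refine K0.hom_ext fun k p hp2 => ?_
  let Θ₁ : A →ₙₐ[ℝ] B1 Γ c.Δ := (φ : B →ₙₐ[ℝ] B1 Γ c.Δ).comp Θ
  have hΘ₁ : Continuous Θ₁ := hφ.comp hΘ
  obtain ⟨u, u1, u2, u3⟩ := hL Γ X (Fin k) Y A o c s δ hs hA p hp2 Θ₁ hΘ₁ (φ ε) (φ T)
    (fun γ => (hg' γ).1) hε.1 hT.1
  rw [kap0, kap0, map_cls _ hp2, map_cls _ hp2]
  exact main hTR φ hφ σ hF (hK Γ c.Δ).2.2.2.2.2.2.2.1 hl h1 h2 h3 (Θ : A →ₙ+* B) hΘ
    (uq (by simpa only [mul_one, evn_idem] using rm hε hε) hε) c1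
    (uq (by simpa only [mul_one] using rm hε hT)
      (by simpa only [mul_one, ← F_odd] using rm hT (rs r1 hε)))
    (uq (by simpa only [mul_one, F_sq] using rm hT hT) r1) c2 (ψ : B →ₙ+* _) hψ _ _ hΦ hΨ
    (c3 ε _ Φ hΦ hε eΦ) (c3 _ _ Ψ hΨ hε' eΨ) p hp2 _ hΘ₁ (fun _ => rfl) u u1 u2 u3

end Pool.Agent.Lib.BCH
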