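import Pool.Agent.Lib.BCH.Blue2

/-! The homotopy of difference idempotents in an abstract Banach algebra. -/

noncomputable section

open BCK BCA

namespace Pool.Agent.Lib.BCH

namespace HOM

variable {B : Type} [NormedRing B]

/-- Similarity through a unit of `1 + M₂(I)`. -/
def Sim (I : TwoSidedIdeal B) (e f : Matrix (Fin 2) (Fin 2) B) : Prop :=
  ∃ u : (Matrix (Fin 2) (Fin 2) B)ˣ, Ent (I : Set B) (u.1 - 1) ∧ Ent (I : Set B) ((u⁻¹).1 - 1) ∧
    e * u.1 = u.1 * f

theorem ent_mul {I : TwoSidedIdeal B} {a b : Matrix (Fin 2) (Fin 2) B}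
    (ha : Ent (I : Set B) (a - 1)) (hb : Ent (I : Set B) (b - 1)) :
    Ent (I : Set B) (a * b - 1) := by
  have h : a * b - 1 = (a - 1) * b + (b - 1) := by noncomm_ring
  have h1 := (TwoSidedIdeal.mem_matrix _ _ _).2 ha
  have h2 := (TwoSidedIdeal.mem_matrix _ _ _).2 hb
  rw [h]
  exact (TwoSidedIdeal.mem_matrix _ _ _).1
    ((I.matrix (Fin 2)).add_mem ((I.matrix (Fin 2)).mul_mem_right _ _ h1) h2)

theorem Sim.trans {I : TwoSidedIdeal B} {e f g : Matrix (Fin 2) (Fin 2) B} (h : Sim I e f)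
    (h' : Sim I f g) : Sim I e g := by
  obtain ⟨u, h1, h2, h3⟩ := h
  obtain ⟨v, k1, k2, k3⟩ := h'
  refine ⟨u * v, ent_mul h1 k1, ?_, ?_⟩
  · rw [mul_inv_rev, Units.val_mul]; exact ent_mul k2 h2
  · rw [Units.val_mul, ← mul_assoc, h3, mul_assoc, k3, mul_assoc]

theorem cont_ee {X : Type} [TopologicalSpace X] {a b : X → B} (ha : Continuous a)
    (hb : Continuous b) : Continuous fun x => ee (a x) (b x) := by
  unfold ee rr
  refine Continuous.matrix_mul (Continuous.matrix_mul ?_ ?_) ?_ <;>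
    refine continuous_matrix fun i j => ?_ <;> fin_cases i <;> fin_cases j <;> simp <;> fun_prop

theorem cont_tt {X : Type} [TopologicalSpace X] {P D J : X → B} (hP : Continuous P)
    (hD : Continuous D) (hJ : Continuous J) :
    Continuous fun x => tt (D x) (jc (P x) (D x) (J x)) := by
  unfold tt jc kd jd; fun_prop

/-- The difference idempotent attached to `P` and the odd unit `T`. -/
def E (ε P T : B) : Matrix (Fin 2) (Fin 2) B := ee (P * ε) (Ring.inverse T * P * T * ε)

theorem step [CompleteSpace B] {X : Type} [TopologicalSpace X] [PreconnectedSpace X]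
    (I : TwoSidedIdeal B) {ε : B} (hε : ε * ε = ε) {P T : X → B} (hP : Continuous P)
    (hT : Continuous T) (h1 : ∀ x, P x * P x = P x) (h2 : ∀ x, ε * P x = P x * ε)
    (h3 : ∀ x, IsUnit (T x * T x)) (h4 : ∀ x, BCA.Odd ε (T x))
    (h5 : ∀ x, T x * P x - P x * T x ∈ I) (x y : X) :
    Sim I (E ε (P x) (T x)) (E ε (P y) (T y)) := by
  have hu : ∀ x, IsUnit (T x) := fun x => isUnit_mul_self_iff.1 (h3 x)
  have hi : Continuous fun x => Ring.inverse (T x) := continuous_iff_continuousAt.2 fun x => by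
    have h := NormedRing.inverse_continuousAt (hu x).unit
    exact ContinuousAt.comp (f := T) (by simpa using h) hT.continuousAt
  have hb : ∀ x, Ring.inverse (T x) * P x * T x * ε * (Ring.inverse (T x) * P x * T x * ε) =
      Ring.inverse (T x) * P x * T x * ε := fun x =>
    conj_idem (h1 x) hε (h2 x) (h4 x) (Ring.mul_inverse_cancel _ (hu x))
  have hm : ∀ x, Ent (I : Set B) (E ε (P x) (T x) - !![1, 0; 0, 0]) := fun x i j =>
    ee_sub_mem (hb x) (sub_conj_mem (Ring.inverse_mul_cancel _ (hu x)) (h5 x)) i j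
  refine path_similarM (e := fun x => E ε (P x) (T x)) (cont_ee (by fun_prop) (by fun_prop))
    (fun x => ee_idem (ev_idem (h1 x) hε (h2 x)) (hb x)) I (fun x y => ?_) x y
  have := (hm x).sub (hm y)
  rwa [sub_sub_sub_cancel_right] at this

theorem inv_of_sq {T : B} (h : T * T = 1) : Ring.inverse T = T :=
  (Ring.inverse_unit ⟨T, T, h, h⟩)

variable [NormedAlgebra ℝ B]

/-- The affine combination. -/
def af (θ : ℝ) (x y : B) : B := (1 - θ) • x + θ • y

theorem af_zero (x y : B) : af 0 x y = x := by simp [af]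

theorem af_one (x y : B) : af 1 x y = y := by simp [af]

theorem af_self (θ : ℝ) (x : B) : af θ x x = x := by rw [af, ← add_smul]; simp

theorem mul_af (θ : ℝ) (z x y : B) : z * af θ x y = af θ (z * x) (z * y) := by
  simp only [af, mul_add, mul_smul_comm]

theorem af_mul (θ : ℝ) (z x y : B) : af θ x y * z = af θ (x * z) (y * z) := by
  simp only [af, add_mul, smul_mul_assoc]

theorem af_add (θ : ℝ) (x y x' y' : B) : af θ x y + af θ x' y' = af θ (x + x') (y + y') := by
  simp only [af, smul_add]; abel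

theorem af_sub (θ : ℝ) (x y x' y' : B) : af θ x y - af θ x' y' = af θ (x - x') (y - y') := by
  simp only [af, smul_sub]; abel

theorem cont_af (x y : B) : Continuous fun θ : ℝ => af θ x y := by unfold af; fun_prop

theorem af_comm (θ : ℝ) {z x y : B} (hx : x * z = z * x) (hy : y * z = z * y) :
    af θ x y * z = z * af θ x y := by rw [af_mul, mul_af, hx, hy]

theorem af_odd (θ : ℝ) {ε x y : B} (hx : BCA.Odd ε x) (hy : BCA.Odd ε y) :
    BCA.Odd ε (af θ x y) := by
  unfold BCA.Odd at *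
  rw [af_mul, mul_af, hx, hy]

theorem af_mem (θ : ℝ) {I : TwoSidedIdeal B} {P x y : B} (hx : x * P - P * x ∈ I)
    (hy : y * P - P * y ∈ I) : af θ x y * P - P * af θ x y ∈ I := by
  rw [af_mul, mul_af, af_sub, af, Algebra.smul_def, Algebra.smul_def]
  exact I.add_mem (I.mul_mem_left _ _ hx) (I.mul_mem_left _ _ hy)

theorem af_contr (θ : ℝ) {d x y : B} (hx : d * x + x * d = 1) (hy : d * y + y * d = 1) :
    d * af θ x y + af θ x y * d = 1 := by rw [af_mul, mul_af, af_add, hx, hy, af_self]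

variable [CompleteSpace B]

/-- Change of the contraction. -/
theorem step_af (I : TwoSidedIdeal B) {ε P d x y : B} (hε : ε * ε = ε) (hP : P * P = P)
    (h2 : ε * P = P * ε) (hd : d * d = 0) (od : BCA.Odd ε d) (ox : BCA.Odd ε x)
    (oy : BCA.Odd ε y) (md : d * P - P * d ∈ I) (mx : x * P - P * x ∈ I)
    (my : y * P - P * y ∈ I) (hx : d * x + x * d = 1) (hy : d * y + y * d = 1) :
    Sim I (E ε P (tt d y)) (E ε P (tt d x)) := by
  have hc := cont_af x y
  have := step (X := ℝ) I hε (P := fun _ => P) (T := fun θ => tt d (af θ x y)) continuous_const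
    (by unfold tt; fun_prop) (fun _ => hP) (fun _ => h2)
    (fun θ => by rw [tt_sq hd (af_contr θ hx hy)]; exact isUnit_one)
    (fun θ => od.tt (af_odd θ ox oy)) (fun θ => tt_comm_mem md (af_mem θ mx my)) 1 0
  simpa only [af_zero, af_one] using this

theorem unit_af {N : B} (hN : ‖1 - N‖ < 1) {θ : ℝ} (h0 : 0 ≤ θ) (h1 : θ ≤ 1) :
    IsUnit (af θ 1 N) := by
  have h : af θ 1 N = 1 - θ • (1 - N) := by simp only [af, smul_sub, sub_smul, one_smul]; abel
  rw [h]
  refine (Units.oneSub _ ?_).isUnit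
  rw [norm_smul, Real.norm_eq_abs, abs_of_nonneg h0]
  nlinarith [norm_nonneg (1 - N)]

end HOM

open HOM in
theorem stHOM : St_HOM := by
  intro B _ _ _ I ε h i P D J _ hε cP cD cJ H h0 oh oi hh ii ih mh mi hK
  obtain ⟨p1, e1, d1, j1, oD, oJ, mD⟩ := H 1 ⟨zero_le_one, le_rfl⟩
  obtain ⟨p0, e0, d0, j0, -, -, -⟩ := H 0 ⟨le_rfl, zero_le_one⟩
  have s1 : Sim I (HOM.E ε (P 1) (tt (D 1) (jc (P 1) (D 1) (J 1)))) !![1, 0; 0, 0] := by
    have cP' : Continuous fun t : Set.Icc (0 : ℝ) 1 => P t := cP.domRestrict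
    have cD' : Continuous fun t : Set.Icc (0 : ℝ) 1 => D t := cD.domRestrict
    have cJ' : Continuous fun t : Set.Icc (0 : ℝ) 1 => J t := cJ.domRestrict
    have := step (X := Set.Icc (0 : ℝ) 1) I hε (P := fun t => P t)
      (T := fun t => tt (D t) (jc (P t) (D t) (J t))) cP' (cont_tt cP' cD' cJ')
      (fun t => (H t t.2).1) (fun t => (H t t.2).2.1)
      (fun t => by
        obtain ⟨-, -, a, b, -⟩ := H t t.2
        rw [tt_sq a (jc_contr a b)]; exact isUnit_one)
      (fun t => by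
        obtain ⟨-, a, -, -, b, c, -⟩ := H t t.2
        exact b.tt (b.jc c a))
      (fun t => by
        obtain ⟨a, -, -, b, -, -, c⟩ := H t t.2
        exact tt_comm_mem c (jc_comm_mem a b c)) ⟨1, zero_le_one, le_rfl⟩ ⟨0, le_rfl, zero_le_one⟩
    have hs := tt_sq d0 (jc_contr (P := P 0) d0 j0)
    have he : HOM.E ε (P 0) (tt (D 0) (jc (P 0) (D 0) (J 0))) = !![1, 0; 0, 0] := by
      rw [HOM.E, inv_of_sq hs, conj_of_comm hs (tt_comm h0 (jc_comm p0 j0 h0)),
        ee_self (ev_idem p0 hε e0)]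
    exact he ▸ this
  have hN : ‖1 - (D 1 * h + h * D 1)‖ < 1 := by rwa [← sub_sub]
  have uN : IsUnit (D 1 * h + h * D 1) := by
    simpa only [af_one] using unit_af hN zero_le_one le_rfl
  obtain ⟨A, a1, a2⟩ : ∃ A : B, A * (D 1 * h + h * D 1) = 1 ∧ (D 1 * h + h * D 1) * A = 1 :=
    ⟨_, Ring.inverse_mul_cancel _ uN, Ring.mul_inverse_cancel _ uN⟩
  have aD : A * D 1 = D 1 * A := inv_comm a1 a2 (anti_comm_left d1)
  have ah : A * h = h * A := inv_comm a1 a2 (anti_comm_right hh)
  have aε : ε * A = A * ε := (inv_comm a1 a2 (by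
    rw [mul_add, add_mul, oD.mul_odd oh, oh.mul_odd oD])).symm
  have mA : A * P 1 - P 1 * A ∈ I :=
    comm_inv_mem a1 a2 (comm_add_mem (comm_mul_mem mD mh) (comm_mul_mem mh mD))
  have c1 : D 1 * (h * A) + h * A * D 1 = 1 := by
    rw [mul_assoc h, aD, ← mul_assoc, ← mul_assoc, ← add_mul, a2]
  have c2 : h * (D 1 * A) + D 1 * A * h = 1 := by
    rw [mul_assoc (D 1), ah, ← mul_assoc, ← mul_assoc, ← add_mul, add_comm, a2]
  have q1 : h * A * (h * A) = 0 := by
    rw [mul_assoc, ← mul_assoc A, ah, ← mul_assoc, ← mul_assoc, hh, zero_mul, zero_mul]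
  have q2 : D 1 * A * (D 1 * A) = 0 := by
    rw [mul_assoc, ← mul_assoc A, aD, ← mul_assoc, ← mul_assoc, d1, zero_mul, zero_mul]
  have hi : h * i + i * h = 1 := by rw [add_comm, ih]
  have s2 := step_af I hε p1 e1 d1 oD (oD.jc oJ e1) (oh.mul_even aε) mD (jc_comm_mem p1 j1 mD)
    (comm_mul_mem mh mA) (jc_contr d1 j1) c1
  have s4 := step_af I hε p1 e1 hh oh (oD.mul_even aε) oi mh (comm_mul_mem mD mA) mi c2 hi
  have m1 : (1 : B) * P 1 - P 1 * 1 ∈ I := by simp
  have s3 : Sim I (HOM.E ε (P 1) (tt h (D 1 * A))) (HOM.E ε (P 1) (tt (D 1) (h * A))) := by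
    have k1 : Continuous fun t : Set.Icc (0 : ℝ) 1 => af t (1 : B) A :=
      (cont_af _ _).comp continuous_subtype_val
    have k2 : Continuous fun t : Set.Icc (0 : ℝ) 1 => af t A (1 : B) :=
      (cont_af _ _).comp continuous_subtype_val
    have := step (X := Set.Icc (0 : ℝ) 1) I hε (P := fun _ => P 1)
      (T := fun t => D 1 * af t 1 A + h * af t A 1) continuous_const (by fun_prop)
      (fun _ => p1) (fun _ => e1)
      (fun t => by
        rw [mix_sq d1 hh (af_comm _ (by simp) aD) (af_comm _ (by simp) ah) (af_comm _ aD (by simp))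
          (af_comm _ ah (by simp))
          (af_comm _ (by simp) (af_comm _ rfl (by simp)).symm), ← mul_assoc]
        have u1 : IsUnit ((D 1 * h + h * D 1) * af t 1 A) := by
          have := unit_af hN (θ := 1 - t) (by linarith [t.2.2]) (by linarith [t.2.1])
          rw [mul_af, a2, mul_one]
          rwa [af, sub_sub_cancel, add_comm] at this
        have u2 : IsUnit ((D 1 * h + h * D 1) * af t A 1) := by
          rw [mul_af, a2, mul_one]; exact unit_af hN t.2.1 t.2.2
        exact u1.mul ((Units.isUnit_units_mul uN.unit _).1 u2))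
      (fun t => (oD.mul_even (af_comm _ (by simp) aε.symm).symm).add
        (oh.mul_even (af_comm _ aε.symm (by simp)).symm))
      (fun t => comm_add_mem (comm_mul_mem mD (af_mem _ m1 mA)) (comm_mul_mem mh (af_mem _ mA m1)))
      ⟨1, zero_le_one, le_rfl⟩ ⟨0, le_rfl, zero_le_one⟩
    rw [tt_of_sq_zero c2 q2, tt_of_sq_zero c1 q1, add_comm h]
    simpa only [af_zero, af_one, mul_one] using this
  have hs := tt_sq hh hi
  have fin := s4.trans (s3.trans (s2.trans s1))
  rw [HOM.E, inv_of_sq hs, tt_of_sq_zero hi ii] at fin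
  exact fin

end Pool.Agent.Lib.BCH
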