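import Pool.Agent.Lib.BCH.Ker24

/-! The `ℓ¹` calculus. -/

noncomputable section

open Filter Topology BCO BCR

namespace Pool.Agent.Lib.BCH

namespace KER

variable {B B' Λ : Type} [NormedRing B] [NormedRing B'] [SemilatticeSup Λ] {P : Λ → B}
  {P' : Λ → B'}

/-- A continuous map compatible with the filtrations preserves `KK`. -/
theorem map_KK {φ : B → B'} (hφ : Continuous φ) (hl : ∀ F x, P' F * φ x = φ (P F * x))
    (hr : ∀ F x, φ x * P' F = φ (x * P F)) {x : B} (hx : x ∈ KK P) : φ x ∈ KK P' :=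
  ⟨by simpa only [hl, Function.comp_def] using (hφ.tendsto x).comp hx.1,
    by simpa only [hr, Function.comp_def] using (hφ.tendsto x).comp hx.2⟩

theorem map_Loc {φ : B → B'} (hφ : Continuous φ) (hl : ∀ F x, P' F * φ x = φ (P F * x))
    (hr : ∀ F x, φ x * P' F = φ (x * P F)) {x : B} (hx : x ∈ Loc P) : φ x ∈ Loc P' := fun G =>
  ⟨hr G x ▸ map_KK hφ hl hr (hx G).1, hl G x ▸ map_KK hφ hl hr (hx G).2⟩

theorem sub_KK [NormedAlgebra ℝ B] {A : Subalgebra ℝ B} {Q : Λ → A} (h : ∀ F, (Q F : B) = P F)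
    {x : A} : x ∈ KK Q ↔ x.1 ∈ KK P := by
  simp only [KK, Set.mem_ofPred_eq, tendsto_subtype_rng, Subalgebra.coe_mul, h]

variable {Γ S : Type} [Group Γ]

open Classical in
theorem tw_KK (γ : Γ) {x : E1 S →L[ℝ] E1 S} (hx : x ∈ KK (PF S 1)) :
    tw γ x ∈ KK (P1 Γ : Finset S → Op1 Γ S) :=
  map_KK (continuous_tw γ) (fun F x => by rw [P1, amp_mul_tw, prj1_eq])
    (fun F x => by rw [P1, tw_mul_amp, prj1_eq]) hx

open Classical in
theorem tw_B1 (γ : Γ) {x : E1 S →L[ℝ] E1 S} (hx : x ∈ Loc (PF S 1)) : tw γ x ∈ B1 Γ S :=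
  ⟨tw_mem γ x, map_Loc (continuous_tw γ) (fun F x => by rw [P1, amp_mul_tw, prj1_eq])
    (fun F x => by rw [P1, tw_mul_amp, prj1_eq]) hx⟩

open Classical in
theorem mem_KK' (b : B1 Γ S) :
    b ∈ KK (P1' Γ : Finset S → B1 Γ S) ↔ b.1 ∈ KK (P1 Γ : Finset S → Op1 Γ S) :=
  sub_KK fun _ => rfl

open Classical in
theorem isFilt' : IsFilt (P1' Γ : Finset S → B1 Γ S) :=
  ⟨fun F G h => ⟨Subtype.ext ((isFilt_P1 Γ S).mono F G h).1,
    Subtype.ext ((isFilt_P1 Γ S).mono F G h).2⟩, (isFilt_P1 Γ S).bd⟩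

open Classical in
theorem loc' (b : B1 Γ S) : b ∈ Loc (P1' Γ : Finset S → B1 Γ S) := fun G =>
  ⟨(mem_KK' _).2 (b.2.2 G).1, (mem_KK' _).2 (b.2.2 G).2⟩

end KER

open KER in
theorem stKER : St_KER := fun Γ S _ => by
  classical
  refine ⟨fun T C h => ⟨_, ext1_iff.2 ⟨bd1_of h, rfl⟩⟩,
    fun T C x hC h hx => (ext1_iff.1 hx).2 ▸ norm_ext1_le hC h,
    fun T x y hx hy => (ext1_iff.1 hx).2.trans (ext1_iff.1 hy).2.symm,
    ext1_iff.2 ⟨Bd.one, ext_one.symm⟩, fun T T' x y c hx hy => ?_, fun T x γ hx h => ?_,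
    fun T x γ hx h => ?_, isFilt', loc', mem_KK'⟩
  · obtain ⟨h1, rfl⟩ := ext1_iff.1 hx
    obtain ⟨h2, rfl⟩ := ext1_iff.1 hy
    exact ⟨ext1_iff.2 ⟨h1.add h2, (ext_add h1 h2).symm⟩,
      ext1_iff.2 ⟨h1.sub h2, (ext_sub h1 h2).symm⟩, ext1_iff.2 ⟨h1.smul c, (ext_smul c h1).symm⟩,
      ext1_iff.2 ⟨h1.mul h2, (ext_mul h1 h2).symm⟩⟩
  · obtain ⟨h1, rfl⟩ := ext1_iff.1 hx
    exact tw_B1 γ (mem_Loc1 h1 h)
  · obtain ⟨h1, rfl⟩ := ext1_iff.1 hx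
    exact tw_KK γ (mem_KK1 h1 h)

end Pool.Agent.Lib.BCH
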