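import Pool.Agent.Lib.BCH.Blue2

/-! The `ℓ¹` phase of the homotopy. -/

noncomputable section

open Filter Topology Finset BCK BCO BCA

namespace Pool.Agent.Lib.BCH

open Pool.Agent.Lib.BCC (E ms cj dgl nm)

namespace L1

section FFs

open scoped Matrix.Norms.Operator

variable {ν Y A B : Type} [Fintype ν] [DecidableEq ν] [TopologicalSpace Y] [CompactSpace Y]
  [NormedRing A] [NormedAlgebra ℝ A] [NormedRing B] [NormedAlgebra ℝ B]

theorem const_mul (x : B) (M : FF ν Y B) (i j : ν) (y : Y) :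
    (FF.const ν Y x * M) i j y = x * M i j y := by
  exact congrArg (fun f : C(Y, B) => f y)
    (Matrix.diagonal_mul (fun _ : ν => ContinuousMap.const Y x) M i j)

theorem mul_const (x : B) (M : FF ν Y B) (i j : ν) (y : Y) :
    (M * FF.const ν Y x) i j y = M i j y * x := by
  exact congrArg (fun f : C(Y, B) => f y)
    (Matrix.mul_diagonal (fun _ : ν => ContinuousMap.const Y x) M i j)

theorem ff_ext {M N : FF ν Y B} (h : ∀ i j y, M i j y = N i j y) : M = N :=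
  Matrix.ext fun i j => ContinuousMap.ext (h i j)

theorem mul_apply (M N : FF ν Y B) (i j : ν) (y : Y) :
    (M * N) i j y = ∑ k, M i k y * N k j y := by
  have h : (M * N) i j = ∑ k, M i k * N k j := rfl
  rw [h, ContinuousMap.sum_apply]
  rfl

variable (ν Y) in
/-- The ideal of elements with values in an ideal. -/
def idl (I : TwoSidedIdeal B) : TwoSidedIdeal (FF ν Y B) :=
  TwoSidedIdeal.mk' (FF.set ν Y (I : Set B)) (fun _ _ _ => I.zero_mem)
    (fun hx hy i j y => I.add_mem (hx i j y) (hy i j y)) (fun hx i j y => I.neg_mem (hx i j y))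
    (fun {x z} hz i j y => by
      rw [mul_apply]
      exact sum_mem (S := I) fun k _ => I.mul_mem_left _ _ (hz k j y))
    fun {x z} hx i j y => by
      rw [mul_apply]
      exact sum_mem (S := I) fun k _ => I.mul_mem_right _ _ (hx i k y)

theorem coe_idl (I : TwoSidedIdeal B) : (idl ν Y I : Set (FF ν Y B)) = FF.set ν Y (I : Set B) :=
  TwoSidedIdeal.coe_mk' _ _ _ _ _ _

theorem continuous_ev (i j : ν) : Continuous fun M : FF ν Y B => M i j :=
  continuous_id.matrix_elem i j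

theorem isClosed_set {S : Set B} (hS : IsClosed S) : IsClosed (FF.set ν Y S) := by
  have : FF.set ν Y S = ⋂ i, ⋂ j, ⋂ y, (fun M : FF ν Y B => M i j y) ⁻¹' S := by
    ext M; simp [FF.set]
  rw [this]
  exact isClosed_iInter fun i => isClosed_iInter fun j => isClosed_iInter fun y =>
    hS.preimage ((continuous_eval_const y).comp (continuous_ev i j))

theorem norm_const_le (x : B) : ‖FF.const ν Y x‖ ≤ ‖x‖ := by
  change ‖Matrix.diagonal (fun _ : ν => ContinuousMap.const Y x)‖ ≤ _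
  rw [Matrix.linfty_opNorm_diagonal]
  exact (pi_norm_le_iff_of_nonneg (norm_nonneg _)).2 fun _ =>
    (ContinuousMap.norm_le _ (norm_nonneg _)).2 fun _ => le_rfl

theorem norm_anti (x y : B) : ‖1 - FF.const ν Y x * FF.const ν Y y -
    FF.const ν Y y * FF.const ν Y x‖ ≤ ‖1 - x * y - y * x‖ := by
  simpa only [map_sub, map_mul, map_one] using norm_const_le (ν := ν) (Y := Y) (1 - x * y - y * x)

theorem continuous_const' : Continuous (FF.const ν Y : B → FF ν Y B) :=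
  AddMonoidHomClass.continuous_of_bound (FF.const ν Y) 1 fun x => by
    rw [one_mul]; exact norm_const_le x

theorem continuous_map {T : Type} [TopologicalSpace T] (Φ : T → A →ₙₐ[ℝ] B)
    (hΦ : ∀ t, Continuous (Φ t)) (hb : ∀ t a, ‖Φ t a‖ ≤ ‖a‖) (hc : ∀ a, Continuous fun t => Φ t a)
    (p : FF ν Y A) : Continuous fun t => FF.map ν Y (Φ t : A →ₙ+* B) (hΦ t) p := by
  have h : Continuous fun z : A × T => Φ z.2 z.1 :=
    continuous_prod_of_continuous_lipschitzWith _ 1 hc fun t =>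
      LipschitzWith.of_dist_le_mul fun a b => by
        rw [dist_eq_norm, dist_eq_norm, ← map_sub, NNReal.coe_one, one_mul]
        exact hb t _
  refine continuous_matrix fun i j => ContinuousMap.continuous_of_continuous_uncurry _ ?_
  exact h.comp (((p i j).continuous.comp continuous_snd).prodMk continuous_fst)

theorem comm_mem (Φ : A →ₙₐ[ℝ] B) (hΦ : Continuous Φ) (I : TwoSidedIdeal B) (x : B)
    (h : ∀ a, x * Φ a - Φ a * x ∈ I) (p : FF ν Y A) :
    FF.const ν Y x * FF.map ν Y (Φ : A →ₙ+* B) hΦ p -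
      FF.map ν Y (Φ : A →ₙ+* B) hΦ p * FF.const ν Y x ∈ idl ν Y I := by
  rw [← SetLike.mem_coe, coe_idl]
  intro i j y
  change (FF.const ν Y x * _) i j y - (_ * FF.const ν Y x) i j y ∈ _
  rw [const_mul, mul_const]
  exact h _

theorem comm_eq (Φ : A →ₙₐ[ℝ] B) (hΦ : Continuous Φ) (x : B)
    (h : ∀ a, x * Φ a = Φ a * x) (p : FF ν Y A) :
    FF.const ν Y x * FF.map ν Y (Φ : A →ₙ+* B) hΦ p =
      FF.map ν Y (Φ : A →ₙ+* B) hΦ p * FF.const ν Y x :=
  ff_ext fun i j y => by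
    rw [const_mul, mul_const]
    exact h _

theorem odd_const {ε x : B} (h : Odd ε x) : Odd (FF.const ν Y ε) (FF.const ν Y x) := by
  unfold BCA.Odd at h ⊢
  rw [← map_mul, h, map_mul, map_sub, map_one]

end FFs

theorem comm_dense {Γ A B : Type} [Group Γ] [NormedRing A] [NormedAlgebra ℝ A] [NormedRing B]
    [NormedAlgebra ℝ B] {ω : Γ → ℝ} {δ : Γ → A} (hA : IsAS ω δ) (Φ : A →ₙₐ[ℝ] B)
    (hΦ : Continuous Φ) (K : Submodule ℝ B) (hK : IsClosed (K : Set B)) (x : B)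
    (h : ∀ g, x * Φ (δ g) - Φ (δ g) * x ∈ K) (a : A) : x * Φ a - Φ a * x ∈ K := by
  refine hA.dense
    { carrier := {a | x * Φ a - Φ a * x ∈ K}
      add_mem' := fun {a b} ha hb => ?_
      zero_mem' := ?_
      smul_mem' := fun r a ha => ?_ } (hK.preimage (by fun_prop)) h a
  · have := K.add_mem ha hb
    rw [Set.mem_setOf_eq, map_add, mul_add, add_mul]
    rwa [sub_add_sub_comm] at this
  · simp
  · have := K.smul_mem r ha
    rw [Set.mem_setOf_eq, map_smul, mul_smul_comm, smul_mul_assoc]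
    rwa [smul_sub] at this

section Ex

theorem abs_mul_exp_le {a b η t x : ℝ} (hη : 0 < η) (ht : t ∈ Set.Icc (a + η) (b - η)) :
    |x| * Real.exp (t * x) ≤ (Real.exp (a * x) + Real.exp (b * x)) / η := by
  rw [le_div_iff₀ hη]
  have h1 : |x| * η ≤ Real.exp (|x| * η) := by linarith [Real.add_one_le_exp (|x| * η)]
  have h2 : |x| * Real.exp (t * x) * η ≤ Real.exp (|x| * η + t * x) := by
    rw [Real.exp_add, mul_right_comm]
    exact mul_le_mul_of_nonneg_right h1 (Real.exp_pos _).le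
  refine h2.trans ?_
  rcases le_total 0 x with h | h
  · rw [abs_of_nonneg h]
    have : x * η + t * x ≤ b * x := by nlinarith [ht.2]
    linarith [Real.exp_le_exp.2 this, Real.exp_pos (a * x)]
  · rw [abs_of_nonpos h]
    have : -x * η + t * x ≤ a * x := by nlinarith [ht.1]
    linarith [Real.exp_le_exp.2 this, Real.exp_pos (b * x)]

theorem exp_lip {a b η t t' x : ℝ} (hη : 0 < η) (ht : t ∈ Set.Icc (a + η) (b - η))
    (ht' : t' ∈ Set.Icc (a + η) (b - η)) : |Real.exp (t * x) - Real.exp (t' * x)| ≤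
      (Real.exp (a * x) + Real.exp (b * x)) / η * |t - t'| :=
  (convex_Icc (a + η) (b - η)).norm_image_sub_le_of_norm_hasDerivWithin_le
    (f := fun t => Real.exp (t * x)) (f' := fun t => Real.exp (t * x) * x)
    (fun t _ => (hasDerivAt_mul_const x).exp.hasDerivWithinAt)
    (fun t ht => by
      rw [Real.norm_eq_abs, abs_mul, abs_of_pos (Real.exp_pos _), mul_comm]
      exact abs_mul_exp_le hη ht) ht' ht

variable {S : Type} {w : S → ℝ} {T : E S}

theorem ms_le {ξ η : S →₀ ℝ} {φ : S → ℝ} (hφ : ∀ τ, 0 ≤ φ τ) (h : ∀ τ, |ξ τ| ≤ |η τ| * φ τ) :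
    ms ξ ≤ nm φ η :=
  (sum_le_sum fun τ _ => h τ).trans (BCC.sum_le_nm hφ η ξ.support)

/-- The conjugated matrix has bounded columns. -/
def Bd (w : S → ℝ) (T : E S) (t : ℝ) : Prop := ∃ A : ℝ, ∀ σ, ms (BCC.col (cj w t T) σ) ≤ A

theorem ms_diff {a b η t t' A A' : ℝ} (hη : 0 < η) (ht : t ∈ Set.Icc (a + η) (b - η))
    (ht' : t' ∈ Set.Icc (a + η) (b - η)) (hA : ∀ σ, ms (BCC.col (cj w a T) σ) ≤ A)
    (hA' : ∀ σ, ms (BCC.col (cj w b T) σ) ≤ A') (σ : S) :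
    ms (BCC.col (cj w t T - cj w t' T) σ) ≤ (A + A') / η * |t - t'| := by
  refine (ms_le (η := BCC.col T σ) (φ := fun τ => (Real.exp (a * (w τ - w σ)) +
    Real.exp (b * (w τ - w σ))) / η * |t - t'|) (fun τ => by positivity) fun τ => ?_).trans ?_
  · rw [BCC.col_sub, Finsupp.sub_apply, BCC.col_cj, BCC.col_cj, ← sub_mul, abs_mul, mul_comm]
    exact mul_le_mul_of_nonneg_left (exp_lip hη ht ht') (abs_nonneg _)
  · have h1 := hA σ
    have h2 := hA' σ
    rw [BCC.ms_col_cj, nm] at h1 h2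
    refine le_trans (le_of_eq ?_) (mul_le_mul_of_nonneg_right
      (div_le_div_of_nonneg_right (add_le_add h1 h2) hη.le) (abs_nonneg (t - t')))
    rw [nm, ← sum_add_distrib, sum_div, sum_mul]
    exact sum_congr rfl fun τ _ => by ring

theorem row_lim (hw : ∀ W : ℝ, {σ | w σ ≤ W}.Finite) {t t' : ℝ} (h : t' < t) (hb : Bd w T t')
    (τ : S) : Tendsto (fun σ => BCC.col (cj w t T) σ τ) cofinite (𝓝 0) := by
  obtain ⟨A, hA⟩ := hb
  have h1 : Tendsto w cofinite atTop := tendsto_atTop.2 fun W =>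
    (hw W).subset fun σ hσ => (not_le.1 (show ¬W ≤ w σ from hσ)).le
  have h2 : Tendsto (fun σ => Real.exp ((t - t') * (w τ - w σ)) * A) cofinite (𝓝 0) := by
    simpa only [zero_mul, Function.comp, ← sub_eq_add_neg] using (Real.tendsto_exp_atBot.comp
      ((tendsto_atBot_add_const_left _ (w τ) (tendsto_neg_atTop_atBot.comp h1)).const_mul_atBot
        (sub_pos.2 h))).mul_const A
  refine squeeze_zero_norm (fun σ => ?_) h2
  have h3 := (BCC.abs_le_ms _ τ).trans (hA σ)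
  have h4 : BCC.col (cj w t T) σ τ =
      Real.exp ((t - t') * (w τ - w σ)) * BCC.col (cj w t' T) σ τ := by
    rw [BCC.col_cj, BCC.col_cj, ← mul_assoc, ← Real.exp_add]
    congr 2
    ring
  rw [h4, Real.norm_eq_abs, abs_mul, abs_of_pos (Real.exp_pos _)]
  exact mul_le_mul_of_nonneg_left h3 (Real.exp_pos _).le

theorem dgl_comm {φ ψ : S → ℝ} (h : ∀ σ τ, BCC.col T σ τ ≠ 0 → φ τ = ψ σ) :
    dgl φ * T = T * dgl ψ := BCC.ext_col fun σ => Finsupp.ext fun τ => by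
  rw [BCC.col_mul, BCC.dgl_apply, BCC.col_mul, BCC.col_dgl, BCC.apply_single, Finsupp.smul_apply,
    smul_eq_mul]
  by_cases h0 : BCC.col T σ τ = 0
  · rw [h0, mul_zero, mul_zero]
  · rw [h σ τ h0]

theorem one_sub_dgl (φ : S → ℝ) : 1 - dgl φ = dgl fun σ => 1 - φ σ := BCC.ext_col fun σ => by
  rw [BCC.col_sub, BCC.col_one, BCC.col_dgl, BCC.col_dgl, Finsupp.single_sub]

theorem cj_sup {t : ℝ} {σ τ : S} (h : BCC.col (cj w t T) σ τ ≠ 0) : BCC.col T σ τ ≠ 0 := by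
  rw [BCC.col_cj] at h
  exact right_ne_zero_of_mul h

end Ex

section Tw

variable {Γ S : Type} [Group Γ] (hK : St_KER) {γ γ' : Γ} {T T' : E S} {x y : B1 Γ S}

include hK

theorem uniq (hx : IsTw1 γ T x.1) (hy : IsTw1 γ T y.1) : x = y := by
  obtain ⟨a, ha, h1⟩ := hx
  obtain ⟨b, hb, h2⟩ := hy
  exact Subtype.ext (by rw [h1, h2, (hK Γ S).2.2.1 T a b ha hb])

theorem tmul (hx : IsTw1 γ T x.1) (hy : IsTw1 γ' T' y.1) : IsTw1 (γ * γ') (T * T') (x * y).1 := by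
  obtain ⟨a, ha, h1⟩ := hx
  obtain ⟨b, hb, h2⟩ := hy
  exact ⟨a * b, ((hK Γ S).2.2.2.2.1 T T' a b 0 ha hb).2.2.2, by
    rw [← tw_mul, ← h1, ← h2]; rfl⟩

theorem tadd (hx : IsTw1 γ T x.1) (hy : IsTw1 γ T' y.1) : IsTw1 γ (T + T') (x + y).1 := by
  obtain ⟨a, ha, h1⟩ := hx
  obtain ⟨b, hb, h2⟩ := hy
  exact ⟨a + b, ((hK Γ S).2.2.2.2.1 T T' a b 0 ha hb).1, by rw [tw_add, ← h1, ← h2]; rfl⟩

theorem tsub (hx : IsTw1 γ T x.1) (hy : IsTw1 γ T' y.1) : IsTw1 γ (T - T') (x - y).1 := by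
  obtain ⟨a, ha, h1⟩ := hx
  obtain ⟨b, hb, h2⟩ := hy
  exact ⟨a - b, ((hK Γ S).2.2.2.2.1 T T' a b 0 ha hb).2.1, by rw [tw_sub, ← h1, ← h2]; rfl⟩

theorem tone : IsTw1 (1 : Γ) (1 : E S) (1 : B1 Γ S).1 :=
  ⟨1, (hK Γ S).2.2.2.1, op_ext fun ξ g => by simp⟩

theorem tzero : IsTw1 (1 : Γ) (0 : E S) (0 : B1 Γ S).1 := by
  simpa only [sub_self] using tsub hK (tone hK (Γ := Γ) (S := S)) (tone hK)

theorem tmul1 (hx : IsTw1 (1 : Γ) T x.1) (hy : IsTw1 γ T' y.1) : IsTw1 γ (T * T') (x * y).1 := by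
  simpa only [one_mul] using tmul hK hx hy

theorem tmul2 (hx : IsTw1 γ T x.1) (hy : IsTw1 (1 : Γ) T' y.1) : IsTw1 γ (T * T') (x * y).1 := by
  simpa only [mul_one] using tmul hK hx hy

theorem tnorm (hx : IsTw1 γ T x.1) {C : ℝ} (hC : 0 ≤ C) (h : ∀ σ, ms (BCC.col T σ) ≤ C) :
    ‖x‖ ≤ C := by
  obtain ⟨a, ha, h1⟩ := hx
  change ‖x.1‖ ≤ C
  rw [h1]
  exact (norm_tw_le _ _).trans ((hK Γ S).2.1 T C a hC h ha)

open Classical in
theorem tsmall (hx : IsTw1 γ T x.1) (h : Small T) : x ∈ KK (P1' Γ : Finset S → B1 Γ S) := by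
  obtain ⟨a, ha, h1⟩ := hx
  rw [(hK Γ S).2.2.2.2.2.2.2.2.2, h1]
  exact (hK Γ S).2.2.2.2.2.2.1 T a γ ha h

theorem todd {e : E S} {ε : B1 Γ S} (hε : IsTw1 (1 : Γ) e ε.1) (hx : IsTw1 (1 : Γ) T x.1)
    (h : Odd e T) : Odd ε x :=
  uniq hK (tmul1 hK hε hx) (h ▸ tmul1 hK hx (tsub hK (tone hK) hε))

theorem fam {w : S → ℝ} (hw : ∀ W : ℝ, {σ | w σ ≤ W}.Finite) (γ : Γ) (T : E S) (a : ℝ)
    (hT : ∀ t, a < t → Bd w T t) : ∃ b : ℝ → B1 Γ S, (∀ t, a < t → ContinuousAt b t) ∧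
      ∀ t, a < t → IsTw1 γ (cj w t T) (b t).1 := by
  have h : ∀ t, ∃ b : B1 Γ S, a < t → IsTw1 γ (cj w t T) b.1 := fun t => by
    by_cases ht : a < t
    · obtain ⟨A, hA⟩ := hT t ht
      obtain ⟨x, hx⟩ := (hK Γ S).1 _ A hA
      exact ⟨⟨tw γ x, (hK Γ S).2.2.2.2.2.1 _ x γ hx
        (row_lim hw (t' := (a + t) / 2) (by linarith) (hT _ (by linarith)))⟩, fun _ => ⟨x, hx, rfl⟩⟩
    · exact ⟨0, fun h => absurd h ht⟩
  choose b hb using h
  refine ⟨b, fun t ht => ?_, hb⟩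
  have hη : 0 < (t - a) / 3 := by linarith
  obtain ⟨A, hA⟩ := hT (a + (t - a) / 3) (by linarith)
  obtain ⟨A', hA'⟩ := hT (t + 2 * ((t - a) / 3)) (by linarith)
  refine continuousAt_of_locally_lipschitz hη ((max A 0 + max A' 0) / ((t - a) / 3)) fun y hy => ?_
  rw [Real.dist_eq, abs_lt] at hy
  rw [dist_eq_norm, Real.dist_eq]
  refine tnorm hK (tsub hK (hb y (by linarith)) (hb t ht)) (by positivity)
    (ms_diff hη ⟨by linarith, by linarith⟩ ⟨by linarith, by linarith⟩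
      (fun σ => (hA σ).trans (le_max_left _ _)) fun σ => (hA' σ).trans (le_max_left _ _))

theorem lift_norm {ρ : Γ → B1 Γ S} {U : Γ → E S} {ω : Γ → ℝ} (h : ∀ g, IsTw1 g (U g) (ρ g).1)
    (h0 : ∀ g, 0 ≤ ω g) (hω : ∀ g σ, ms (BCC.col (U g) σ) ≤ ω g) (s : Finset Γ) (f : Γ → ℝ) :
    ‖∑ g ∈ s, f g • ρ g‖ ≤ ‖conv s fun g => |f g| * ω g‖ := by
  choose x hx e using h
  have h1 : (∑ g ∈ s, f g • ρ g).1 = ∑ g ∈ s, tw g (f g • x g) :=
    (map_sum (B1 Γ S).val _ _).trans (sum_congr rfl fun g _ => by rw [tw_smul, ← e g]; rfl)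
  change ‖(∑ g ∈ s, f g • ρ g).1‖ ≤ _
  rw [h1]
  refine norm_sum_tw_le _ _ _ fun g _ => ?_
  rw [norm_smul]
  exact mul_le_mul_of_nonneg_left ((hK Γ S).2.1 _ _ _ (h0 g) (hω g) (hx g)) (abs_nonneg _)

end Tw

section CD

variable {Γ X : Type} [Group Γ] [MetricSpace X] [MulAction Γ X] {o : X} (c : BCC.CD Γ X o)

theorem ms_pi (u : ℝ) (g : Γ) (σ : c.Δ) :
    ms (BCC.col (cj c.w u (c.π g)) σ) ≤ Real.exp (|u| * dist o (g • o)) := by
  rw [BCC.ms_col_cj, c.π_col, BCC.nm_single]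
  have h : |c.sg g σ| = 1 := by rcases c.sg_sq g σ with h | h <;> simp [h]
  rw [h, one_mul]
  refine Real.exp_le_exp.2 ((le_abs_self _).trans ?_)
  rw [abs_mul]
  exact mul_le_mul_of_nonneg_left (c.w_smul g σ) (abs_nonneg _)

theorem bd_d {t : ℝ} (ht : 0 < t) : Bd c.w c.d t := ⟨c.N, fun σ => by
  rw [BCC.ms_col_cj]
  refine (BCC.nm_le_of (c := 1) fun τ hτ => Real.exp_le_one_iff.2 ?_).trans (by
    rw [one_mul]; exact c.d_ms σ)
  exact mul_nonpos_of_nonneg_of_nonpos ht.le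
    (sub_nonpos.2 (c.d_sup σ τ (Finsupp.mem_support_iff.1 hτ)).2)⟩

theorem cj_h (t : ℝ) : cj c.w t c.h = c.h :=
  BCC.cj_of_eq (fun σ τ h => by rw [c.w_eq, c.w_eq, (c.h_sup σ τ h).2]) t

theorem cj_i (t : ℝ) : cj c.w t c.i = c.i :=
  BCC.cj_of_eq (fun σ τ h => by rw [c.w_eq, c.w_eq, (c.i_sup σ τ h).2]) t

theorem odd_of {T : E c.Δ}
    (h : ∀ σ τ, BCC.col T σ τ ≠ 0 → c.deg τ + 1 = c.deg σ ∨ c.deg τ = c.deg σ + 1) :
    Odd (dgl (evn c)) T := by
  unfold BCA.Odd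
  rw [one_sub_dgl]
  refine dgl_comm fun σ τ h0 => ?_
  unfold evn
  rcases h σ τ h0 with h1 | h1
  · by_cases h2 : Even (c.deg τ) <;> simp [← h1, Nat.even_add_one, h2]
  · by_cases h2 : Even (c.deg σ) <;> simp [h1, Nat.even_add_one, h2]

theorem evn_sq : dgl (evn c) * dgl (evn c) = dgl (evn c) := by
  rw [BCC.dgl_mul]
  congr 1
  ext σ
  unfold evn
  split_ifs <;> simp

theorem evn_pi (u : ℝ) (g : Γ) :
    dgl (evn c) * cj c.w u (c.π g) = cj c.w u (c.π g) * dgl (evn c) :=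
  dgl_comm fun σ τ h => by
    have h1 := cj_sup h
    rw [c.π_col] at h1
    rw [(Finsupp.single_apply_ne_zero.1 h1).1, evn, evn, c.deg_smul]

end CD

theorem exists_par {s t₀ : ℝ} (hs : 0 < s) (ht : 0 < t₀) : ∃ u τ : ℝ → ℝ, Continuous u ∧
    Continuous τ ∧ u 0 = s ∧ τ 0 = s ∧ u 1 = 0 ∧ τ 1 = t₀ ∧ (∀ t, 0 ≤ u t ∧ u t ≤ s) ∧
      ∀ t, 0 < τ t := by
  have h : ∀ t : ℝ, 0 ≤ max 0 (min t 1) ∧ max 0 (min t 1) ≤ 1 := fun t =>
    ⟨le_max_left _ _, max_le zero_le_one (min_le_right _ _)⟩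
  refine ⟨fun t => s * (1 - max 0 (min t 1)), fun t => s * (1 - max 0 (min t 1)) +
    t₀ * max 0 (min t 1), by fun_prop, by fun_prop, by simp, by simp, by simp, by simp,
    fun t => ⟨by nlinarith [h t], by nlinarith [h t]⟩, fun t => ?_⟩
  rcases le_total s t₀ with h1 | h1 <;> nlinarith [h t]

end L1

open L1 in
theorem stL1 (hH : St_HOM) (hK : St_KER) : St_L1 := by
  intro Γ X ν Y A _ _ _ _ _ _ _ _ _ _ _ o c s δ hs hA p hp Φ hΦ ε F hΦδ hε hF
  classical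
  obtain ⟨t₀, ht₀, hKt⟩ := c.K_ms (1 / 2) (by norm_num)
  obtain ⟨u, τ, huc, hτc, hu0, hτ0, hu1, hτ1, hu, hτ⟩ := exists_par hs ht₀
  have hu' : ∀ t, -1 < u t := fun t => by linarith [(hu t).1]
  choose ρ hρc hρ using fun g => fam hK c.w_fin g (c.π g) (-1) fun t _ => ⟨_, ms_pi c t g⟩
  obtain ⟨D, hDc, hD⟩ := fam hK c.w_fin (1 : Γ) c.d 0 fun t ht => bd_d c ht
  obtain ⟨J, hJc, hJ⟩ := fam hK c.w_fin (1 : Γ) c.J 0 c.J_ms
  obtain ⟨h, hh⟩ : ∃ h : B1 Γ c.Δ, IsTw1 1 c.h h.1 := by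
    obtain ⟨h, -, hh⟩ := fam hK c.w_fin (1 : Γ) c.h (-1) fun t _ =>
      ⟨c.N, by rw [cj_h]; exact c.h_ms⟩
    exact ⟨h 0, cj_h c 0 ▸ hh 0 (by norm_num)⟩
  obtain ⟨i, hi⟩ : ∃ i : B1 Γ c.Δ, IsTw1 1 c.i i.1 := by
    obtain ⟨h, -, hh⟩ := fam hK c.w_fin (1 : Γ) c.i (-1) fun t _ =>
      ⟨c.N, by rw [cj_i]; exact c.i_ms⟩
    exact ⟨h 0, cj_i c 0 ▸ hh 0 (by norm_num)⟩
  choose Ψ hΨc hΨn hΨ using fun t => hA.lift (B1 Γ c.Δ) (fun g => ρ g (u t))
    (fun g g' => uniq hK (hρ _ _ (hu' t)) (by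
      rw [map_mul, BCC.cj_mul]; exact tmul hK (hρ _ _ (hu' t)) (hρ _ _ (hu' t))))
    (lift_norm hK (fun g => hρ g _ (hu' t)) (fun g => (Real.exp_pos _).le) fun g σ =>
      (ms_pi c _ g σ).trans (Real.exp_le_exp.2 (mul_le_mul_of_nonneg_right
        (by rw [abs_of_nonneg (hu t).1]; exact (hu t).2) dist_nonneg)))
  have hΨδ : ∀ t g, IsTw1 g (cj c.w (u t) (c.π g)) (Ψ t (δ g)).1 := fun t g => by
    rw [hΨ]; exact hρ g _ (hu' t)
  have hΨ1 : Ψ 1 = Φ := by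
    refine NonUnitalAlgHom.ext (hA.dense
      { carrier := {a | Ψ 1 a = Φ a}
        add_mem' := fun {a b} ha hb => by rw [Set.mem_setOf_eq, map_add, map_add, ha, hb]
        zero_mem' := by simp
        smul_mem' := fun r a ha => by rw [Set.mem_setOf_eq, map_smul, map_smul, ha] }
      (isClosed_eq (hΨc 1) hΦ) fun g => uniq hK (hΨδ 1 g) ?_)
    rw [hu1, BCC.cj_at_zero]
    exact hΦδ g
  have hΨt : ∀ a, Continuous fun t => Ψ t a := by
    refine hA.dense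
      { carrier := {a | Continuous fun t => Ψ t a}
        add_mem' := fun {a b} ha hb => by
          simp only [Set.mem_setOf_eq, map_add]; exact Continuous.add ha hb
        zero_mem' := by simpa only [Set.mem_setOf_eq, map_zero] using continuous_const
        smul_mem' := fun r a ha => by
          simp only [Set.mem_setOf_eq, map_smul]; exact Continuous.const_smul ha r } ?_ fun g => ?_
    · refine isClosed_of_closure_subset fun a ha => continuous_of_uniform_approx_of_continuous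
        fun U hU => ?_
      obtain ⟨η, hη, hU⟩ := Metric.mem_uniformity_dist.1 hU
      obtain ⟨b, hb, hab⟩ := Metric.mem_closure_iff.1 ha η hη
      refine ⟨_, hb, fun t => hU ?_⟩
      rw [dist_eq_norm, ← map_sub]
      exact (hΨn t _).trans_lt (by rwa [← dist_eq_norm])
    · change Continuous fun t => Ψ t (δ g)
      simp only [hΨ]
      exact continuous_iff_continuousAt.2 fun t => (hρc g _ (hu' t)).comp huc.continuousAt
  obtain ⟨hP, hl, -⟩ := (hK Γ c.Δ).2.2.2.2.2.2.2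
  let I := kkIdeal hP hl
  have hI : (I : Set (B1 Γ c.Δ)) = KK (P1' Γ) := Set.ext fun _ => mem_kkIdeal hP hl
  have hc : ∀ (t : ℝ) {T : E c.Δ} {x : B1 Γ c.Δ}, IsTw1 1 T x.1 →
      (∀ g, Small (T * cj c.w (u t) (c.π g) - cj c.w (u t) (c.π g) * T)) →
      ∀ a, x * Ψ t a - Ψ t a * x ∈ I := fun t T x hx h1 a =>
    (mem_kkIdeal hP hl).2 (comm_dense hA (Ψ t) (hΨc t)
      { carrier := KK (P1' Γ)
        add_mem' := KK_add
        zero_mem' := KK_zero
        smul_mem' := fun r _ => KK_smul r } hP.isClosed_KK x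
      (fun g => tsmall hK (tsub hK (tmul1 hK hx (hΨδ t g)) (tmul2 hK (hΨδ t g) hx)) (h1 g)) a)
  have he : ∀ (t : ℝ) {T : E c.Δ} {x : B1 Γ c.Δ}, IsTw1 1 T x.1 →
      (∀ g, T * cj c.w (u t) (c.π g) = cj c.w (u t) (c.π g) * T) →
      ∀ a, x * Ψ t a = Ψ t a * x := fun t T x hx h1 a =>
    sub_eq_zero.1 ((Submodule.mem_bot ℝ).1 (comm_dense hA (Ψ t) (hΨc t) ⊥ isClosed_singleton x
      (fun g => (Submodule.mem_bot ℝ).2 (sub_eq_zero.2 (uniq hK (tmul1 hK hx (hΨδ t g))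
        (h1 g ▸ tmul2 hK (hΨδ t g) hx)))) a))
  have hDt := fun t => hD _ (hτ t)
  have hJt := fun t => hJ _ (hτ t)
  obtain ⟨v, h1, h2, h3⟩ := hH (FF ν Y (B1 Γ c.Δ)) (idl ν Y I) (FF.const ν Y ε) (FF.const ν Y h)
    (FF.const ν Y i) (fun t => FF.map ν Y (Ψ t : A →ₙ+* B1 Γ c.Δ) (hΨc t) p)
    (fun t => FF.const ν Y (D (τ t))) (fun t => FF.const ν Y (J (τ t)))
    (by rw [coe_idl, hI]; exact isClosed_set hP.isClosed_KK)
    (by rw [← map_mul, uniq hK (tmul1 hK hε hε) (by rw [evn_sq]; exact hε)])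
    (continuous_map Ψ hΨc hΨn hΨt p).continuousOn
    (continuous_const'.comp (continuous_iff_continuousAt.2 fun t =>
      (hDc _ (hτ t)).comp hτc.continuousAt)).continuousOn
    (continuous_const'.comp (continuous_iff_continuousAt.2 fun t =>
      (hJc _ (hτ t)).comp hτc.continuousAt)).continuousOn
    (fun t _ => ⟨by rw [← map_mul, hp], comm_eq _ _ _ (he t hε (evn_pi c _)) p, by
      rw [← map_mul, uniq hK (tmul1 hK (hDt t) (hDt t))
        (by rw [← BCC.cj_mul, c.d_sq, BCC.cj_zero]; exact tzero hK), map_zero], by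
      rw [← map_mul, ← map_mul, ← map_add,
        uniq hK (tadd hK (tmul1 hK (hDt t) (hJt t)) (tmul1 hK (hJt t) (hDt t)))
        (by rw [← BCC.cj_mul, ← BCC.cj_mul, ← BCC.cj_add, c.dJ, BCC.cj_one]; exact tone hK),
        map_one],
      odd_const (todd hK hε (hDt t) (odd_of c fun σ τ h => .inl (c.d_sup σ τ (cj_sup h)).1)),
      odd_const (todd hK hε (hJt t) (odd_of c fun σ τ h => .inr (c.J_sup σ τ (cj_sup h)))),
      comm_mem _ _ _ _ (hc t (hDt t) (c.d_comm _ (hτ t) _)) p⟩)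
    (comm_eq _ _ _ (he 0 (hDt 0) fun g => by
      rw [hu0, hτ0, ← BCC.cj_mul, ← BCC.cj_mul, c.π_d]) p)
    (odd_const (todd hK hε hh (odd_of c fun σ τ h => .inr (c.h_sup σ τ h).1)))
    (odd_const (todd hK hε hi (odd_of c fun σ τ h => .inl (c.i_sup σ τ h).1)))
    (by rw [← map_mul, uniq hK (tmul1 hK hh hh) (by rw [c.h_sq]; exact tzero hK), map_zero])
    (by rw [← map_mul, uniq hK (tmul1 hK hi hi) (by rw [c.i_sq]; exact tzero hK), map_zero])
    (by rw [← map_mul, ← map_mul, ← map_add, uniq hK (tadd hK (tmul1 hK hi hh) (tmul1 hK hh hi))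
      (by rw [c.ih]; exact tone hK), map_one])
    (comm_mem _ _ _ _ (hc 1 hh fun g => by rw [hu1, BCC.cj_at_zero]; exact c.h_comm g) p)
    (comm_mem _ _ _ _ (hc 1 hi fun g => by rw [hu1, BCC.cj_at_zero]; exact c.i_comm g) p)
    (by
      refine ((norm_anti _ _).trans (tnorm hK (tsub hK (tsub hK (tone hK) (tmul1 hK (hDt 1) hh))
        (tmul1 hK hh (hDt 1))) (C := 1 / 2) (by norm_num) fun σ => ?_)).trans_lt (by norm_num)
      have := hKt t₀ le_rfl σ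
      rwa [BCC.cj_sub, BCC.cj_sub, BCC.cj_mul, BCC.cj_mul, BCC.cj_one, cj_h, ← hτ1] at this)
  rw [coe_idl, hI] at h1 h2
  refine ⟨v, h1, h2, ?_⟩
  subst hΨ1
  rwa [← map_add, uniq hK (tadd hK hh hi) hF] at h3

end Pool.Agent.Lib.BCH
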