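import Pool.Agent.Lib.BCH.REDa

/-! Reduction of the vanishing theorem to the reduced group algebra. -/

set_option linter.unusedSectionVars false
set_option linter.unusedVariables false

noncomputable section

open Filter Topology BCK BCO
open scoped ZeroAtInfty

namespace Pool.Agent.Lib.BCH.RED

/-- The group with the right translation action. -/
def RG (Γ : Type) : Type := Γ

instance {Γ : Type} [Group Γ] : MulAction Γ (RG Γ) where
  smul g (k : Γ) := (k * g⁻¹ : Γ)
  one_smul (k : Γ) := show k * 1⁻¹ = k by simp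
  mul_smul g g' (k : Γ) := show k * (g * g')⁻¹ = k * g'⁻¹ * g⁻¹ by simp [mul_assoc]

variable {Γ X Z Q : Type} [Group Γ] [MetricSpace X] [MulAction Γ X] [IsIsometricSMul Γ X]
  [MulAction Γ Z] {o : X} {pos : Z → X} {m : Z → Q} {rp : Q → Z} {ρ : Z → Γ} {D : ℝ}

/-- The position of a group element. -/
def pG (Γ : Type) [Group Γ] [MulAction Γ X] (o : X) : RG Γ → X := fun k : Γ => k⁻¹ • o

open Classical in
theorem entry_lam (g k k' : Γ) : entry (lam g : Op Γ) k k' = if g = k * k'⁻¹ then 1 else 0 := by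
  rw [entry_eq]
  change dl k' (g⁻¹ * k) = _
  rw [dl_apply]
  exact ite_cg ⟨fun h => by rw [← h]; group, fun h => by rw [h]; group⟩

theorem fin_pG (hp : ∀ R : ℝ, {g : Γ | dist o (g • o) ≤ R}.Finite) (B : Set X)
    (hB : Bornology.IsBounded B) : {k : RG Γ | pG Γ o k ∈ B}.Finite := by
  obtain ⟨R, hR⟩ := hB.subset_closedBall o
  refine ((hp R).preimage (inv_injective (G := Γ)).injOn).subset fun k hk => ?_
  have := hR hk
  rwa [Metric.mem_closedBall, dist_comm] at this

theorem dist_pG (o : X) (k k' : Γ) :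
    dist (pG Γ o k) (pG Γ o k') = dist o ((k * k'⁻¹) • o) := by
  change dist (k⁻¹ • o) (k'⁻¹ • o) = _
  rw [← dist_smul k, smul_inv_smul, mul_smul]

theorem isClosed_Cr : IsClosed (Cr Γ : Set (Op Γ)) := Subalgebra.isClosed_topologicalClosure _

theorem lam_mem (g : Γ) : (lam g : Op Γ) ∈ Cr Γ :=
  Subalgebra.le_topologicalClosure _ (Algebra.subset_adjoin ⟨g, rfl⟩)

theorem mem_Cr_of0 (hp : ∀ R : ℝ, {g : Γ | dist o (g • o) ≤ R}.Finite) (T : Op Γ) (r : ℝ)
    (hi : ∀ g k k' : Γ, entry T (k * g⁻¹) (k' * g⁻¹) = entry T k k')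
    (hr : ∀ k k' : Γ, r < dist o ((k * k'⁻¹) • o) → entry T k k' = 0) : T ∈ Cr Γ := by
  classical
  have h1 : T = ∑ g ∈ (hp r).toFinset, entry T g 1 • (lam g : Op Γ) :=
    entry_ext fun k k' => by
      have h2 : entry T k k' = entry T (k * k'⁻¹) 1 := by
        rw [← hi k' k k', mul_inv_cancel]
      rw [entry_sum]
      simp only [entry_smul, entry_lam, mul_ite, mul_one, mul_zero, Finset.sum_ite_eq']
      split_ifs with h3
      · exact h2
      · exact hr k k' (not_le.1 fun h4 => h3 ((hp r).mem_toFinset.2 h4))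
  rw [h1]
  exact sum_mem fun g _ => (Cr Γ).smul_mem (lam_mem g) _

theorem mem_Cr_of (hp : ∀ R : ℝ, {g : Γ | dist o (g • o) ≤ R}.Finite) {T : Op (RG Γ)}
    (hT : T ∈ DR Γ (pG Γ o) (pG Γ o)) : (T : Op Γ) ∈ Cr Γ := by
  refine closure_minimal (s := (D0 Γ (pG Γ o) (pG Γ o) : Set (Op (RG Γ))))
    (t := (Cr Γ : Set (Op Γ))) (fun T hT => ?_) (isClosed_Cr (Γ := Γ)) hT
  obtain ⟨hi, ⟨r, hr⟩, -⟩ := hT
  exact mem_Cr_of0 (Γ := Γ) hp T r hi fun (k k' : Γ) hk =>
    hr k k' (hk.trans_eq (dist_pG (Γ := Γ) o k k').symm)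

theorem Cr_le (hp : ∀ R : ℝ, {g : Γ | dist o (g • o) ≤ R}.Finite) {T : Op Γ} (hT : T ∈ Cr Γ) :
    (T : Op (RG Γ)) ∈ DR Γ (pG Γ o) (pG Γ o) := by
  refine mem_Dstar_iff.1 (Subalgebra.topologicalClosure_minimal
    (t := Dstar Γ (pG Γ o)) (Algebra.adjoin_le ?_) isClosed_Dstar hT)
  rintro _ ⟨g, rfl⟩
  refine mem_Dstar_iff.2 (D0_le_DR (C0_le_D0 (mem_C0_of_finite_right
    (fun h (k k' : Γ) => ?_) ⟨dist o (g • o), fun (k k' : Γ) hk => ?_⟩ (fin_pG hp))))
  · refine (entry_lam g _ _).trans (Eq.trans (ite_cg ?_) (entry_lam g k k').symm)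
    change g = k * h⁻¹ * (k' * h⁻¹)⁻¹ ↔ _
    simp [mul_assoc]
  · refine (entry_lam g k k').trans (if_neg fun h => ?_)
    rw [dist_pG, ← h] at hk
    exact hk.false

/-- The parametrization of an orbit. -/
def jw (Γ : Type) [Group Γ] [MulAction Γ Z] (w : Z) : RG Γ → Z := fun k : Γ => k⁻¹ • w

theorem Fund.jinj (h : Fund Γ o pos m rp ρ D) (w : Z) : Function.Injective (jw Γ w) :=
  (h.inj w).comp (inv_injective (G := Γ))

theorem jw_smul (w : Z) (g : Γ) : ∀ k : RG Γ, jw Γ w (g • k) = g • jw Γ w k := fun k : Γ =>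
  show (k * g⁻¹)⁻¹ • w = g • k⁻¹ • w by simp [mul_smul]

theorem Fund.slow (h : Fund Γ o pos m rp ρ D) (w : Z) : Slow pos (pG Γ o) (jw Γ w) :=
  Slow.of_finite ⟨dist (pos w) o, fun k : Γ => by
    change dist (pos (k⁻¹ • w)) (k⁻¹ • o) ≤ _
    rw [h.eqv, dist_smul]⟩ (fin_pG h.proper)

/-- The isometry onto an orbit. -/
def Fund.V (h : Fund Γ o pos m rp ρ D) (w : Z) : H (RG Γ) →L[ℝ] H Z := iso _ (h.jinj w)

/-- The restriction to an orbit. -/
def Fund.W (h : Fund Γ o pos m rp ρ D) (w : Z) : H Z →L[ℝ] H (RG Γ) := res _ (h.jinj w)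

theorem Fund.V_mem (h : Fund Γ o pos m rp ρ D) (w : Z) : h.V w ∈ DR Γ pos (pG Γ o) :=
  D0_le_DR (iso_mem_D0 _ (jw_smul w) (h.slow w))

theorem Fund.W_mem (h : Fund Γ o pos m rp ρ D) (w : Z) : h.W w ∈ DR Γ (pG Γ o) pos :=
  D0_le_DR (res_mem_D0 _ (jw_smul w) (h.slow w))

theorem Fund.WV (h : Fund Γ o pos m rp ρ D) (w : Z) (ξ : H (RG Γ)) : h.W w (h.V w ξ) = ξ :=
  congrArg (fun A : Op (RG Γ) => A ξ) (res_comp_iso _ (h.jinj w))

/-- The corner embedding of the reduced group algebra. -/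
def Fund.th (h : Fund Γ o pos m rp ρ D) (z : Z) : Cr Γ →ₙₐ[ℝ] Dstar Γ pos where
  toFun T := ⟨(h.V z).comp ((T.1 : Op (RG Γ)).comp (h.W z)), mem_Dstar_iff.2
    (DR_comp (h.V_mem z) (DR_comp (Z₂ := RG Γ) (Z₁ := RG Γ) (Cr_le h.proper T.2) (h.W_mem z)))⟩
  map_smul' c T := Subtype.ext (ContinuousLinearMap.ext fun ξ => map_smul (h.V z) c _)
  map_zero' := Subtype.ext (ContinuousLinearMap.ext fun ξ => map_zero (h.V z))
  map_add' S T := Subtype.ext (ContinuousLinearMap.ext fun ξ => map_add (h.V z) _ _)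
  map_mul' S T := Subtype.ext (ContinuousLinearMap.ext fun ξ =>
    congrArg (fun η => h.V z (S.1 η)) (h.WV z _).symm)

theorem Fund.cont_th (h : Fund Γ o pos m rp ρ D) (z : Z) : Continuous (h.th z) :=
  Continuous.subtype_mk (f := fun T : Cr Γ => (h.V z).comp ((T.1 : Op (RG Γ)).comp (h.W z)))
    (continuous_const.clm_comp (continuous_subtype_val.clm_comp continuous_const)) _

theorem Fund.cor_th (h : Fund Γ o pos m rp ρ D) (z : Z) (T : Cr Γ) :
    IsCor z T.1 (h.th z T).1 := by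
  refine ⟨fun k k' => (entry_iso_comp _ (h.jinj z) _ k _).trans
    (entry_comp_res _ (h.jinj z) _ _ k'), fun a b hab => ?_⟩
  have h1 : ∀ a, a ∉ MulAction.orbit Γ z → a ∉ Set.range (jw Γ z) := fun a ha ⟨k, hk⟩ =>
    ha ⟨_, hk⟩
  rcases hab with h2 | h2
  · exact entry_iso_comp_of_not_mem _ (h.jinj z) _ (h1 a h2) _
  · exact entry_comp_res_of_not_mem _ (h.jinj z) ((h.V z).comp (T.1 : Op (RG Γ))) a (h1 b h2)

theorem Fund.inj_th (h : Fund Γ o pos m rp ρ D) (z : Z) : Function.Injective (h.th z) :=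
  fun S T hST => Subtype.ext (entry_ext fun k k' => by
    rw [← (h.cor_th z S).1, ← (h.cor_th z T).1, hST])

/-- The matrix unit between two orbits. -/
def Fund.U (h : Fund Γ o pos m rp ρ D) (w w' : Z) : Dstar Γ pos :=
  ⟨(h.V w).comp (h.W w'), mem_Dstar_iff.2 (DR_comp (h.V_mem w) (h.W_mem w'))⟩

/-- The block of an operator between two orbits. -/
def Fund.blk (h : Fund Γ o pos m rp ρ D) (w w' : Z) (T : Dstar Γ pos) : Cr Γ :=
  ⟨((h.W w).comp (T.1.comp (h.V w')) : Op (RG Γ)), mem_Cr_of h.proper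
    (DR_comp (h.W_mem w) (DR_comp (mem_Dstar_iff.1 T.2) (h.V_mem w')))⟩

theorem Fund.cont_blk (h : Fund Γ o pos m rp ρ D) (w w' : Z) : Continuous (h.blk w w') :=
  Continuous.subtype_mk (f := fun T : Dstar Γ pos => (h.W w).comp (T.1.comp (h.V w')))
    (continuous_const.clm_comp (continuous_subtype_val.clm_comp continuous_const)) _

theorem Fund.th_blk (h : Fund Γ o pos m rp ρ D) (z w w' : Z) (T : Dstar Γ pos) :
    h.th z (h.blk w w' T) = h.U z w * T * h.U w' z := rfl

/-- The projection on finitely many orbits. -/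
def Fund.P (h : Fund Γ o pos m rp ρ D) (F : Finset Q) : Dstar Γ pos :=
  ⟨ind {a | m a ∈ F}, mem_Dstar_iff.2 (D0_le_DR (mulOp_mem_D0 _ _ _ fun g b =>
    ite_cg (by simp [h.m_smul])))⟩

theorem Fund.P_idem (h : Fund Γ o pos m rp ρ D) (F : Finset Q) : h.P F * h.P F = h.P F :=
  Subtype.ext (ContinuousLinearMap.ext fun ξ => lp.ext (funext fun a => by
    change ind _ (ind _ ξ) a = ind _ ξ a
    simp only [ind_apply]
    split_ifs <;> rfl))

theorem Fund.sum_U (h : Fund Γ o pos m rp ρ D) (z : Z) (F : Finset Q) :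
    ∑ v ∈ F, h.U (rp v) z * h.U z (rp v) = h.P F := by
  classical
  refine Subtype.ext ?_
  rw [AddSubmonoidClass.coe_finsetSum]
  refine entry_ext fun a b => ?_
  have h1 : ∀ v, entry (h.U (rp v) z * h.U z (rp v)).1 a b =
      if v = m a then entry (1 : Op Z) a b else 0 := fun v => by
    have h2 : (h.U (rp v) z * h.U z (rp v)).1 = (h.V (rp v)).comp (h.W (rp v)) :=
      ContinuousLinearMap.ext fun ξ => congrArg (h.V (rp v)) (h.WV z _)
    have h3 : a ∈ Set.range (jw Γ (rp v)) ↔ v = m a :=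
      ⟨fun ⟨k, hk⟩ => by rw [← hk]; exact ((h.m_smul _ _).trans (h.m_rp v)).symm, fun hv => ⟨((ρ a)⁻¹ : Γ), by
        rw [hv]
        change (ρ a)⁻¹⁻¹ • rp (m a) = a
        rw [inv_inv, h.rho]⟩⟩
    rw [h2, Fund.V, Fund.W, entry_iso_comp_res, entry_one, h3]
    by_cases h4 : v = m a <;> by_cases h5 : a = b <;> simp [h4, h5]
  rw [entry_sum, Finset.sum_congr rfl fun v _ => h1 v, Finset.sum_ite_eq']
  exact ((entry_ind_comp {a | m a ∈ F} (1 : Op Z) a b).trans (ite_cg Iff.rfl)).symm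

variable {Y ι : Type} [TopologicalSpace Y] [CompactSpace Y] [Fintype ι]

theorem corner_abs {R S κ : Type} [Ring R] [Ring S] [Fintype κ] (φ : S →ₙ+* R)
    (hφ : Function.Injective φ) (h0 : K0.map φ = 0) (u w : κ → R)
    (hq : ∀ s t r, ∃ q, φ q = w s * r * u t) {p : Matrix ι ι R} (hp : p * p = p)
    (hP : ∀ i j, p i j * ∑ s, u s * w s = p i j) : cls p = 0 := by
  choose b hb using hq
  let q : Matrix (ι × κ) (ι × κ) S := fun s t => b s.2 t.2 (p s.1 t.1)
  let x : Matrix ι (ι × κ) R := fun i t => p i t.1 * u t.2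
  let y : Matrix (ι × κ) ι R := fun s j => w s.2 * p s.1 j
  have h0' : ∀ i j, ∑ k, p i k * p k j = p i j := fun i j => congrFun (congrFun hp i) j
  have h1 : x * y = p := by
    ext1 i j
    rw [Matrix.mul_apply, Fintype.sum_prod_type, ← h0']
    refine Finset.sum_congr rfl fun k _ => ?_
    conv_rhs => rw [← hP i k]
    simp only [x, y, Finset.mul_sum, Finset.sum_mul, mul_assoc]
  have h2 : y * x = q.map φ := by
    ext1 s t
    rw [Matrix.mul_apply, Matrix.map_apply, hb, ← h0', Finset.mul_sum, Finset.sum_mul]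
    simp only [x, y, mul_assoc]
  have h3 : y * p = y := by
    ext1 s j
    rw [Matrix.mul_apply]
    simp only [y, mul_assoc, ← Finset.mul_sum, h0']
  have h4 : q.map φ * q.map φ = q.map φ := by
    rw [← h2, Matrix.mul_assoc, ← Matrix.mul_assoc x, h1, ← Matrix.mul_assoc, h3]
  have h5 : q * q = q := Matrix.map_injective hφ (by simpa only [Matrix.map_mul] using h4)
  rw [cls_mvn hp h4 x y h1 h2, ← map_cls φ h5, h0]
  rfl

theorem Fund.corner (h : Fund Γ o pos m rp ρ D) {z : Z} (hz : CrVanish Γ pos z) (F : Finset Q)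
    (p : Matrix ι ι C(Y, Dstar Γ pos)) (hp : p * p = p)
    (hP : ∀ i j, p i j * ContinuousMap.const Y (h.P F) = p i j) : cls p = 0 := by
  refine corner_abs (κ := F) (cmap Y (h.th z : Cr Γ →ₙ+* Dstar Γ pos) (h.cont_th z))
    (fun a b hab => ContinuousMap.ext fun t =>
      h.inj_th z (congrArg (fun g : C(Y, Dstar Γ pos) => g t) hab))
    (hz Y (h.th z) (h.cont_th z) (h.cor_th z))
    (fun s => ContinuousMap.const Y (h.U (rp s) z)) (fun s => ContinuousMap.const Y (h.U z (rp s)))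
    (fun s t r => ⟨⟨fun y => h.blk (rp s) (rp t) (r y), (h.cont_blk _ _).comp r.continuous⟩, rfl⟩)
    hp fun i j => ?_
  conv_rhs => rw [← hP i j, ← h.sum_U z F, ← Finset.sum_coe_sort]
  congr 1
  refine ContinuousMap.ext fun t => ?_
  rw [ContinuousMap.sum_apply]
  rfl

theorem Fund.tendsto_cy [ProperSpace X] (h : Fund Γ o pos m rp ρ D) {k : C(Y, Dstar Γ pos)}
    (hk : ∀ y, (k y : Op Z) ∈ Cstar Γ pos) : Tendsto (fun F : Finset Q =>
      ContinuousMap.const Y (h.P F) * k * ContinuousMap.const Y (h.P F)) atTop (𝓝 k) := by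
  refine (Metric.tendsto_nhds (α := C(Y, Dstar Γ pos))).2 fun ε hε => ?_
  filter_upwards [unif (l := atTop) (f := fun (F : Finset Q) (x : Op Z) =>
    ind {a | m a ∈ F} * x * ind {a | m a ∈ F} - x) (fun F x y => by
      have h1 := norm_cut_le {a | m a ∈ F} (x - y)
      have h2 := norm_sub_le (ind {a | m a ∈ F} * (x - y) * ind {a | m a ∈ F}) (x - y)
      refine le_trans (le_of_eq ?_) (h2.trans (by linarith))
      congr 1
      noncomm_ring) (isCompact_range (f := fun y => (k y : Op Z))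
      (continuous_subtype_val.comp k.continuous))
    (by rintro _ ⟨y, rfl⟩; exact tendsto_sub_nhds_zero_iff.2 (h.tendsto_Cstar (hk y)))
    (half_pos hε)] with F hF
  refine lt_of_le_of_lt ((ContinuousMap.dist_le (half_pos hε).le).2 fun y => ?_)
    (half_lt_self hε)
  exact (dist_eq_norm (E := Op Z) _ _).trans_le (hF _ ⟨y, rfl⟩)

theorem split_cls {R : Type} [Ring R] [DecidableEq ι] {f P : Matrix ι ι R} (hf : f * f = f)
    (hP : P * P = P) (hc : P * f = f * P) :
    f * P * (f * P) = f * P ∧ cls f = cls (f * P) + cls (f * (1 - P)) := by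
  have h1 : ∀ A B : Matrix ι ι R, A * f = f * A → f * A * (f * B) = f * (A * B) := fun A B h => by
    rw [mul_assoc, ← mul_assoc A, h, ← mul_assoc, ← mul_assoc, hf, mul_assoc]
  have h2 : (1 - P) * f = f * (1 - P) := by rw [sub_mul, mul_sub, hc, one_mul, mul_one]
  refine ⟨by rw [h1 _ _ hc, hP], ?_⟩
  rw [← cls_add (by rw [h1 _ _ hc, hP]) (by rw [h1 _ _ h2, idem_one_sub hP])
    (by rw [h1 _ _ hc, mul_sub, hP]; simp) (by rw [h1 _ _ h2, sub_mul, hP]; simp), ← mul_add]
  simp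

theorem main_abs {B Λ : Type} [NormedRing B] [NormedAlgebra ℝ B] [CompleteSpace B] {l : Filter Λ}
    [l.NeBot] (π : Λ → B) (hπ : ∀ F, π F * π F = π F)
    (h0 : ∀ F (p : Matrix ι ι B), p * p = p → (∀ i j, p i j * π F = p i j) → cls p = 0)
    {c : Matrix ι ι ℝ} {e : Matrix ι ι B} (he : e * e = e) (hc : c * c = c)
    (hk : ∀ i j, Tendsto (fun F => π F * (e i j - c i j • 1) * π F) l (𝓝 (e i j - c i j • 1))) :
    cls e = cls (c.map fun r => (r • 1 : B)) := by
  classical
  set c' : Matrix ι ι B := c.map fun r => (r • 1 : B) with hc'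
  let P : Λ → Matrix ι ι B := fun F => Matrix.diagonal fun _ => π F
  have hP : ∀ F, P F * P F = P F := fun F => by simp only [P, Matrix.diagonal_mul_diagonal, hπ]
  have hcc : c' * c' = c' := by
    have : c' = c.map (algebraMap ℝ B) := by
      rw [hc']; congr 1; funext r; exact (Algebra.algebraMap_eq_smul_one r).symm
    rw [this, ← Matrix.map_mul, hc]
  have hcP : ∀ F, P F * c' = c' * P F := fun F => by
    ext1 i j
    simp [P, hc']
  have h1 : Tendsto (fun F => c' * (1 - P F) + P F * e * P F) l (𝓝 e) := by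
    have h2 : ∀ F, c' * (1 - P F) + P F * e * P F = c' + P F * (e - c') * P F := fun F => by
      rw [mul_sub (P F), sub_mul, hcP, mul_assoc c', hP]
      noncomm_ring
    have h3 : Tendsto (fun F => P F * (e - c') * P F) l (𝓝 (e - c')) :=
      tendsto_pi_nhds.2 fun i => tendsto_pi_nhds.2 fun j => by
        simp only [P, Matrix.mul_diagonal, Matrix.diagonal_mul]
        exact hk i j
    simpa only [h2, add_sub_cancel] using h3.const_add c'
  obtain ⟨F, -, h4, h5⟩ := (h1.eventually (eventually_kapM he (eventually_cls_eq he))).exists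
  set a := c' * (1 - P F) + P F * e * P F with ha
  have h6 : P F * (1 - P F) = 0 := by rw [mul_sub, hP, mul_one, sub_self]
  have h7 : (1 - P F) * P F = 0 := by rw [sub_mul, hP, one_mul, sub_self]
  have h8 : P F * a = a * P F := by
    rw [ha, mul_add, add_mul, ← mul_assoc, hcP, mul_assoc c', mul_assoc c', h6, h7,
      ← mul_assoc, ← mul_assoc, hP, mul_assoc _ (P F) (P F), hP]
  have h9 : a * (1 - P F) = c' * (1 - P F) := by
    rw [ha, add_mul, mul_assoc c', idem_one_sub (hP F), mul_assoc _ (P F), h6, mul_zero, add_zero]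
  have h10 : (a * a - a) * (1 - P F) = 0 := by
    have h11 : c' * (1 - P F) = (1 - P F) * c' := by rw [sub_mul, mul_sub, hcP, one_mul, mul_one]
    rw [sub_mul, mul_assoc, h9, h11, ← mul_assoc, h9, h11, mul_assoc, hcc, sub_self]
  have h12 : ∀ x : Matrix ι ι B, ∀ i j, (x * (1 - P F)) i j = x i j * (1 - π F) :=
    fun x i j => by simp [P, mul_sub]
  have h13 : (kapM a - a) * (1 - P F) = 0 := by
    ext1 i j
    rw [h12]
    refine kapM_sub_ent (LinearMap.ker (LinearMap.mulRight ℝ (1 - π F)))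
      (isClosed_eq (continuous_mul_const (1 - π F)) continuous_const) (fun i j => ?_)
      (fun i j x hx => ?_) i j
    · exact (h12 _ i j).symm.trans (congrFun (congrFun h10 i) j)
    · change a i j * x * (1 - π F) = 0
      rw [mul_assoc, show x * (1 - π F) = 0 from hx, mul_zero]
  have h14 : ∀ f : Matrix ι ι B, f * f = f → P F * f = f * P F →
      cls f = cls (f * (1 - P F)) := fun f hf hfP => by
    obtain ⟨h15, h16⟩ := split_cls hf (hP F) hfP
    rw [h16, h0 F _ h15 fun i j => ?_, zero_add]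
    simp only [P, Matrix.mul_diagonal, mul_assoc, hπ]
  rw [h5 h4, h14 _ h4 (commute_kapM h8), h14 _ hcc (hcP F), ← h9]
  congr 1
  rwa [sub_mul, sub_eq_zero] at h13

end RED

open RED in
theorem stRED : St_RED := by
  intro Γ X Z _ _ _ _ _ _ o pos z hG hA hz Y ι _ _ _ c e he hc hk
  obtain ⟨Q, m, rp, ρ, D, h⟩ := exists_fund hG hA
  exact main_abs (l := atTop) (fun F : Finset Q => ContinuousMap.const Y (h.P F))
    (fun F => ContinuousMap.ext fun _ => h.P_idem F) (h.corner hz) he hc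
    fun i j => h.tendsto_cy fun y => hk i j y

end Pool.Agent.Lib.BCH
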