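import Pool.Agent.Lib.BCH.Blue2

/-! Subexponential decay: every class over the reduced group algebra comes from a weighted
completion. -/

noncomputable section

open Filter Topology Finset BCK BCO

namespace Pool.Agent.Lib.BCH

namespace SDK

variable {Γ X Y A B : Type} [Group Γ] [MetricSpace X] [MulAction Γ X] [TopologicalSpace Y]
  [NormedRing A] [NormedAlgebra ℝ A] [NormedRing B] [NormedAlgebra ℝ B]

theorem lam_mul (g h : Γ) : (lam (g * h) : Op Γ) = lam g * lam h :=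
  op_ext fun _ _ => by simp [mul_assoc]

theorem lam_one : (lam (1 : Γ) : Op Γ) = 1 := op_ext fun _ _ => by simp

/-- The translation operators as elements of the reduced group algebra. -/
def lc (g : Γ) : Cr Γ :=
  ⟨lam g, Subalgebra.le_topologicalClosure _ (Algebra.subset_adjoin ⟨g, rfl⟩)⟩

/-- A finite combination with continuous coefficients. -/
def fc (δ : Γ → A) (S : Finset Γ) (θ : Γ → C(Y, ℝ)) : C(Y, A) :=
  ⟨fun y => ∑ g ∈ S, θ g y • δ g, by fun_prop⟩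

theorem adjoin_le {T : Op Γ} (h : T ∈ Algebra.adjoin ℝ (Set.range (lam : Γ → Op Γ))) :
    T ∈ Submodule.span ℝ (Set.range (lam : Γ → Op Γ)) := by
  induction h using Algebra.adjoin_induction with
  | mem x hx => exact Submodule.subset_span hx
  | algebraMap r =>
    rw [Algebra.algebraMap_eq_smul_one, ← lam_one]
    exact Submodule.smul_mem _ _ (Submodule.subset_span ⟨1, rfl⟩)
  | add x y _ _ hx hy => exact add_mem hx hy
  | mul x y _ _ hx hy =>
    have h := Submodule.mul_mem_mul hx hy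
    rw [Submodule.span_mul_span] at h
    refine Submodule.span_mono ?_ h
    rintro _ ⟨_, ⟨g, rfl⟩, _, ⟨g', rfl⟩, rfl⟩
    exact ⟨g * g', lam_mul g g'⟩

theorem mem_closure_fin (T : Cr Γ) :
    T ∈ closure {d : Cr Γ | ∃ l : Γ →₀ ℝ, (l.sum fun g c => c • lc g) = d} := by
  rw [closure_subtype]
  refine closure_mono (fun x hx => ?_) T.2
  obtain ⟨l, rfl⟩ := Finsupp.mem_span_range_iff_exists_finsupp.1 (adjoin_le hx)
  refine ⟨_, ⟨l, rfl⟩, ?_⟩
  simp only [Finsupp.sum, AddSubmonoidClass.coe_finsetSum]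
  rfl

theorem norm_lc (t : Finset Γ) (c : Γ → ℝ) : ‖∑ g ∈ t, c g • lc g‖ = ‖conv t c‖ := by
  change ‖((∑ g ∈ t, c g • lc g : Cr Γ) : Op Γ)‖ = _
  rw [conv, AddSubmonoidClass.coe_finsetSum]
  rfl

omit [Group Γ] in
theorem dense_fc [CompactSpace Y] {β : Γ → B}
    (hd : ∀ T : B, T ∈ closure {d : B | ∃ l : Γ →₀ ℝ, (l.sum fun g c => c • β g) = d})
    (F : C(Y, B)) : F ∈ closure {G : C(Y, B) | ∃ S θ, G = fc β S θ} := by
  classical
  refine Metric.mem_closure_iff.2 fun ε hε => ?_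
  obtain ⟨s, θ, h1, -, -, -, h2⟩ := exists_pou_approx F (fun y => hd (F y)) (half_pos hε)
  choose! l hl using h1
  refine ⟨_, ⟨s.biUnion fun d => (l d).support, fun g => ∑ d ∈ s, l d g • θ d, rfl⟩, ?_⟩
  refine lt_of_le_of_lt ((ContinuousMap.dist_le (half_pos hε).le).2 fun y => ?_) (half_lt_self hε)
  rw [dist_eq_norm]
  refine le_trans (le_of_eq (congrArg (fun z => ‖F y - z‖) ?_)) (h2 y)
  simp only [fc, ContinuousMap.coe_mk, ContinuousMap.coe_sum, Finset.sum_apply,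
    ContinuousMap.coe_smul, Pi.smul_apply, sum_smul]
  rw [sum_comm]
  refine sum_congr rfl fun d hd => ?_
  refine Eq.trans ?_ (congrArg (θ d y • ·) (hl d hd))
  rw [Finsupp.sum_of_support_subset _ (subset_biUnion_of_mem (fun d => (l d).support) hd) _
    (by simp), smul_sum]
  exact sum_congr rfl fun g _ => by rw [smul_eq_mul, smul_smul, mul_comm]

/-- The span of the ball of radius `r`. -/
def sp (o : X) (δ : Γ → A) (r : ℝ) : Submodule ℝ A :=
  Submodule.span ℝ (δ '' {g : Γ | dist o (g • o) ≤ r})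

theorem sp_mono (o : X) (δ : Γ → A) {r r' : ℝ} (h : r ≤ r') : sp o δ r ≤ sp o δ r' :=
  Submodule.span_mono (Set.image_mono fun _ hg => le_trans hg h)

theorem sp_mul [IsIsometricSMul Γ X] {o : X} {δ : Γ → A} (hδ : ∀ g g', δ (g * g') = δ g * δ g')
    {r r' : ℝ} {a b : A} (ha : a ∈ sp o δ r) (hb : b ∈ sp o δ r') : a * b ∈ sp o δ (r + r') := by
  have h := Submodule.mul_mem_mul ha hb
  rw [sp, sp, Submodule.span_mul_span] at h
  refine Submodule.span_mono ?_ h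
  rintro _ ⟨_, ⟨g, hg, rfl⟩, _, ⟨g', hg', rfl⟩, rfl⟩
  refine ⟨g * g', ?_, hδ g g'⟩
  have h1 := dist_triangle o (g • o) ((g * g') • o)
  rw [mul_smul, dist_smul] at h1
  rw [Set.mem_ofPred_eq, mul_smul]
  exact h1.trans (add_le_add hg hg')

theorem norm_le_of_sp {o : X} {δ : Γ → A} {s C : ℝ} (hs : 0 < s) (hA : IsAS (om o s) δ)
    (hC0 : 0 ≤ C) (hC : ∀ r : ℝ, 0 ≤ r → ∀ (t : Finset Γ) (c : Γ → ℝ),
      (∀ g ∈ t, dist o (g • o) ≤ r) →
      ‖conv t c‖ ≤ C * Real.exp (s * r) * √(∑ g ∈ t, c g ^ 2))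
    {β : Γ → B} (hβ : ∀ (t : Finset Γ) (c : Γ → ℝ), ‖∑ g ∈ t, c g • β g‖ = ‖conv t c‖)
    (Λ : A →ₙₐ[ℝ] B) (hΛ : ∀ g, Λ (δ g) = β g) {r : ℝ} (hr : 0 ≤ r) {a : A}
    (ha : a ∈ sp o δ r) : ‖a‖ ≤ C * Real.exp (2 * s * r) * ‖Λ a‖ := by
  obtain ⟨l, hl, rfl⟩ := (Finsupp.mem_span_image_iff_linearCombination ℝ).1 ha
  have hl' : ∀ g ∈ l.support, dist o (g • o) ≤ r := fun g hg => hl hg
  have h1 : ‖Λ (∑ g ∈ l.support, l g • δ g)‖ = ‖conv l.support l‖ := by
    rw [map_sum, ← hβ]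
    exact congrArg _ (sum_congr rfl fun g _ => by rw [map_smul, hΛ])
  rw [Finsupp.linearCombination_apply, Finsupp.sum, h1, hA.norm_eq]
  refine (hC r hr _ _ hl').trans ?_
  rw [show 2 * s * r = s * r + s * r by ring, Real.exp_add, ← mul_assoc, mul_assoc _ _ ‖_‖]
  refine mul_le_mul_of_nonneg_left ?_ (by positivity)
  refine le_trans ?_ (mul_le_mul_of_nonneg_left (l2_le_norm_conv _ _) (Real.exp_pos _).le)
  rw [← Real.sqrt_sq (Real.exp_pos (s * r)).le, ← Real.sqrt_mul (sq_nonneg _), mul_sum]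
  refine Real.sqrt_le_sqrt (sum_le_sum fun g hg => ?_)
  rw [mul_pow, sq_abs, mul_comm]
  have h2 : om o s g ≤ Real.exp (s * r) :=
    Real.exp_le_exp.2 (mul_le_mul_of_nonneg_left (hl' g hg) hs.le)
  have h3 : 0 ≤ om o s g := (Real.exp_pos _).le
  gcongr

variable {ι : Type} [Fintype ι] [DecidableEq ι]

theorem pow_sp [IsIsometricSMul Γ X] {o : X} {δ : Γ → A} (hδ : ∀ g g', δ (g * g') = δ g * δ g')
    {r : ℝ} {b : Matrix ι ι C(Y, A)} (hb : ∀ i j y, b i j y ∈ sp o δ r) (k : ℕ) :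
    ∀ i j y, (b ^ (k + 1)) i j y ∈ sp o δ ((k + 1 : ℕ) * r) := by
  induction k with
  | zero => simpa using hb
  | succ k ih =>
    intro i j y
    rw [pow_succ, Matrix.mul_apply, ContinuousMap.coe_sum, Finset.sum_apply, Nat.cast_succ (k + 1),
      add_mul, one_mul]
    exact Submodule.sum_mem _ fun m _ => sp_mul hδ (ih i m y) (hb m j y)

theorem map_pow_succ {R S : Type} [Ring R] [Ring S] (φ : R →ₙ+* S) (a : Matrix ι ι R) (k : ℕ) :
    ((a * a - a) ^ (k + 1)).map φ = (a.map φ * a.map φ - a.map φ) ^ (k + 1) := by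
  have h : (a * a - a).map φ = a.map φ * a.map φ - a.map φ := by
    rw [Matrix.map_sub _ (map_sub φ), Matrix.map_mul]
  induction k with
  | zero => simpa using h
  | succ k ih => rw [pow_succ _ (k + 1), Matrix.map_mul, ih, h, ← pow_succ]

omit [NormedAlgebra ℝ B] in
open scoped Matrix.Norms.Operator in
theorem majorant {x : Matrix ι ι B} (hx : GoodM x) :
    ∃ C θ : ℝ, 0 ≤ θ ∧ θ < 1 ∧ ∀ (k : ℕ) i j, (4 : ℝ) ^ k * ‖((x * x - x) ^ k) i j‖ ≤ C * θ ^ k := by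
  obtain ⟨C, θ, h0, h1, h⟩ := (goodM_iff.1 hx).exists_majorant
  refine ⟨C, θ, h0, h1, fun k i j => le_trans ?_ (h.self_of_nhds k)⟩
  gcongr
  exact norm_entry_le _ i j

omit [NormedAlgebra ℝ A] [NormedAlgebra ℝ B] in
theorem continuous_cmap (φ : A →ₙ+* B) (h : Continuous φ) : Continuous (cmap Y φ h) :=
  ContinuousMap.continuous_postcomp ⟨φ, h⟩

theorem lift_idem [IsIsometricSMul Γ X] [CompactSpace Y] [CompleteSpace B] (o : X)
    (hSD : SD.SubexpDecay fun r => {g : Γ | dist o (g • o) ≤ r}) {β : Γ → B}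
    (hd : ∀ T : B, T ∈ closure {d : B | ∃ l : Γ →₀ ℝ, (l.sum fun g c => c • β g) = d})
    (hβ : ∀ (t : Finset Γ) (c : Γ → ℝ), ‖∑ g ∈ t, c g • β g‖ = ‖conv t c‖)
    {e : Matrix ι ι C(Y, B)} (he : e * e = e) :
    ∀ᶠ s in 𝓝[>] (0 : ℝ), ∀ (A : Type) [NormedRing A] [NormedAlgebra ℝ A] [CompleteSpace A]
      (δ : Γ → A), IsAS (om o s) δ → ∀ (Λ : A →ₙₐ[ℝ] B) (hΛ : Continuous Λ),
      (∀ g, Λ (δ g) = β g) → ∃ x' : K0 C(Y, A), kap0 Y Λ hΛ x' = cls e := by
  have h1 : (e : ι → ι → C(Y, B)) ∈ closure (Set.pi Set.univ fun _ : ι =>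
      Set.pi Set.univ fun _ : ι => {G : C(Y, B) | ∃ S θ, G = fc β S θ}) :=
    mem_closure_pi.2 fun i _ => mem_closure_pi.2 fun j _ => dense_fc hd _
  obtain ⟨x, hx, hg, h2, h3⟩ := ((mem_closure_iff_frequently.1 h1).and_eventually
    (eventually_kapM he (eventually_cls_eq he))).exists
  choose S θ hS using fun i j => hx i trivial j trivial
  obtain ⟨r, hr0, hr⟩ : ∃ r : ℝ, 0 ≤ r ∧ ∀ i j, ∀ g ∈ S i j, dist o (g • o) ≤ r := by
    refine ⟨∑ p : ι × ι, ∑ g ∈ S p.1 p.2, dist o (g • o), by positivity, fun i j g hg => ?_⟩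
    exact (single_le_sum (f := fun g : Γ => dist o (g • o)) (fun _ _ => dist_nonneg) hg).trans
      (single_le_sum (f := fun p : ι × ι => ∑ g ∈ S p.1 p.2, dist o (g • o))
        (fun _ _ => by positivity) (mem_univ (i, j)))
  obtain ⟨C, q, hq0, hq1, hC⟩ := majorant hg
  have h4 : ∀ᶠ s in 𝓝 (0 : ℝ), Real.exp (2 * s * (r + r)) * q < 1 :=
    ContinuousAt.eventually_lt (by fun_prop) continuousAt_const (by simpa using hq1)
  filter_upwards [h4.filter_mono nhdsWithin_le_nhds, self_mem_nhdsWithin] with s hs hs0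
  intro A _ _ _ δ hA Λ hΛ hl'
  obtain ⟨K, hK0, hK⟩ := norm_conv_le hSD hs0
  set φ := cmap Y (Λ : A →ₙ+* B) hΛ with hφ
  set a : Matrix ι ι C(Y, A) := Matrix.of fun i j => fc δ (S i j) (θ i j) with ha
  have hax : a.map φ = x := by
    ext1 i j
    rw [hS i j]
    refine ContinuousMap.ext fun y => ?_
    change Λ (∑ g ∈ S i j, θ i j g y • δ g) = ∑ g ∈ S i j, θ i j g y • β g
    rw [map_sum]
    exact sum_congr rfl fun g _ => by rw [map_smul, hl']
  have has : ∀ i j y, a i j y ∈ sp o δ r := fun i j y =>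
    Submodule.sum_mem _ fun g hg => Submodule.smul_mem _ _
      (Submodule.subset_span ⟨g, hr i j g hg, rfl⟩)
  have hbs : ∀ i j y, (a * a - a) i j y ∈ sp o δ (r + r) := fun i j y => by
    rw [Matrix.sub_apply, ContinuousMap.sub_apply, Matrix.mul_apply, ContinuousMap.coe_sum,
      Finset.sum_apply]
    exact sub_mem (Submodule.sum_mem _ fun m _ => sp_mul hA.mul (has i m y) (has m j y))
      (sp_mono o δ (by linarith) (has i j y))
  have hga : GoodM a := fun i j => by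
    refine (summable_nat_add_iff 1).1 (Summable.of_nonneg_of_le (fun _ => by positivity)
      (fun k => ?_) ((summable_nat_add_iff 1).2
        ((summable_geometric_of_lt_one (by positivity) hs).mul_left (K * C))))
    have h5 : ‖((a * a - a) ^ (k + 1)) i j‖ ≤ K * Real.exp (2 * s * ((k + 1 : ℕ) * (r + r))) *
        ‖((x * x - x) ^ (k + 1)) i j‖ := by
      refine (ContinuousMap.norm_le _ (by positivity)).2 fun y => ?_
      refine (norm_le_of_sp hs0 hA hK0 hK hβ Λ hl' (by positivity)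
        (pow_sp hA.mul hbs k i j y)).trans (mul_le_mul_of_nonneg_left ?_ (by positivity))
      rw [← hax, ← map_pow_succ]
      exact ContinuousMap.norm_coe_le_norm (φ (((a * a - a) ^ (k + 1)) i j)) y
    have h6 := hC (k + 1) i j
    rw [show 2 * s * ((k + 1 : ℕ) * (r + r)) = (k + 1 : ℕ) * (2 * s * (r + r)) by ring,
      Real.exp_nat_mul] at h5
    calc _ ≤ (4 : ℝ) ^ (k + 1) * (K * Real.exp (2 * s * (r + r)) ^ (k + 1) *
          ‖((x * x - x) ^ (k + 1)) i j‖) := by gcongr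
      _ = K * Real.exp (2 * s * (r + r)) ^ (k + 1) *
          ((4 : ℝ) ^ (k + 1) * ‖((x * x - x) ^ (k + 1)) i j‖) := by ring
      _ ≤ K * Real.exp (2 * s * (r + r)) ^ (k + 1) * (C * q ^ (k + 1)) := by gcongr
      _ = _ := by rw [mul_pow]; ring
  refine ⟨cls (kapM a), ?_⟩
  rw [kap0, map_cls _ (kapM_idem hga), map_kapM φ (continuous_cmap _ hΛ) hga, hax]
  exact (h3 h2).symm

theorem lift_all [IsIsometricSMul Γ X] [CompactSpace Y] [CompleteSpace B] (o : X)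
    (hSD : SD.SubexpDecay fun r => {g : Γ | dist o (g • o) ≤ r}) {β : Γ → B}
    (hd : ∀ T : B, T ∈ closure {d : B | ∃ l : Γ →₀ ℝ, (l.sum fun g c => c • β g) = d})
    (hβ : ∀ (t : Finset Γ) (c : Γ → ℝ), ‖∑ g ∈ t, c g • β g‖ = ‖conv t c‖) (x : K0 C(Y, B)) :
    ∀ᶠ s in 𝓝[>] (0 : ℝ), ∀ (A : Type) [NormedRing A] [NormedAlgebra ℝ A] [CompleteSpace A]
      (δ : Γ → A), IsAS (om o s) δ → ∀ (Λ : A →ₙₐ[ℝ] B) (hΛ : Continuous Λ),
      (∀ g, Λ (δ g) = β g) → ∃ x' : K0 C(Y, A), kap0 Y Λ hΛ x' = x := by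
  refine K0.induction_on (P := fun x => ∀ᶠ s in 𝓝[>] (0 : ℝ), ∀ (A : Type) [NormedRing A]
    [NormedAlgebra ℝ A] [CompleteSpace A] (δ : Γ → A), IsAS (om o s) δ →
    ∀ (Λ : A →ₙₐ[ℝ] B) (hΛ : Continuous Λ), (∀ g, Λ (δ g) = β g) →
    ∃ x' : K0 C(Y, A), kap0 Y Λ hΛ x' = x) x (fun k e he => lift_idem o hSD hd hβ he)
    fun x y hx hy => ?_
  filter_upwards [hx, hy] with s h1 h2
  intro A _ _ _ δ hA Λ hΛ hl
  obtain ⟨x', hx'⟩ := h1 A δ hA Λ hΛ hl
  obtain ⟨y', hy'⟩ := h2 A δ hA Λ hΛ hl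
  exact ⟨x' - y', by rw [map_sub, hx', hy']⟩

end SDK

theorem stSDK : St_SDK := by
  intro Γ X Y _ _ _ _ _ _ o hSD x
  obtain ⟨s, h1, h2⟩ := ((SDK.lift_all o hSD SDK.mem_closure_fin SDK.norm_lc x).and
    self_mem_nhdsWithin).exists
  exact ⟨s, h2, fun A _ _ _ δ hA Λ hΛ hl => h1 A δ hA Λ hΛ fun g => Subtype.ext (hl g)⟩

end Pool.Agent.Lib.BCH
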