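import Pool.Agent.Lib.BCH.Blue3

/-! Vanishing over the sphere gives vanishing for the suspensions. -/

noncomputable section

open Matrix Function BCK Filter Topology
open scoped ZeroAtInfty OnePoint

namespace Pool.Agent.Lib.BCH

namespace SPLIT

section Alg

variable {J R : Type} [NonUnitalRing J] [Module ℝ J] [IsScalarTower ℝ J J] [SMulCommClass ℝ J J]
  [Ring R] [Algebra ℝ R]

theorem lift_apply (ψ : J →ₙₐ[ℝ] R) (u : Unitization ℝ J) :
    Unitization.lift ψ u = algebraMap ℝ R u.fst + ψ u.snd := rfl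

theorem uext (ψ : J →ₙₐ[ℝ] R) (hψ : Injective ψ) {u v : Unitization ℝ J} (h1 : u.fst = v.fst)
    (h2 : Unitization.lift ψ u = Unitization.lift ψ v) : u = v := by
  rw [lift_apply, lift_apply, h1, add_right_inj] at h2
  exact Unitization.ext h1 (hψ h2)

theorem mext {ι : Type} (ψ : J →ₙₐ[ℝ] R) (hψ : Injective ψ) {u v : Matrix ι ι (Unitization ℝ J)}
    (h1 : u.map (Unitization.fstHom ℝ J) = v.map (Unitization.fstHom ℝ J))
    (h2 : u.map (Unitization.lift ψ) = v.map (Unitization.lift ψ)) : u = v :=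
  Matrix.ext fun i j => uext ψ hψ (congrFun (congrFun h1 i) j) (congrFun (congrFun h2 i) j)

theorem mlift {ι : Type} (ψ : J →ₙₐ[ℝ] R) (s : R →ₐ[ℝ] R) (hk : ∀ r, s r = 0 → ∃ a, ψ a = r)
    (c : Matrix ι ι ℝ) (x : Matrix ι ι R) (h : x.map s = c.map (algebraMap ℝ R)) :
    ∃ u : Matrix ι ι (Unitization ℝ J), u.map (Unitization.fstHom ℝ J) = c ∧
      u.map (Unitization.lift ψ) = x := by
  have h1 : ∀ i j, ∃ a, ψ a = x i j - algebraMap ℝ R (c i j) := fun i j => hk _ (by
    have := congrFun (congrFun h i) j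
    simp only [map_apply] at this
    rw [map_sub, this, AlgHom.commutes, sub_self])
  choose a ha using h1
  refine ⟨of fun i j => Unitization.inl (c i j) + Unitization.inr (a i j), ?_, ?_⟩
  · ext i j
    simp
  · ext i j
    simp [ha]

theorem alg0 {ι : Type} [Fintype ι] (ψ : J →ₙₐ[ℝ] R) (hψ : Injective ψ) (s : R →ₐ[ℝ] R)
    (hs : ∀ a, s (ψ a) = 0) (hk : ∀ r, s r = 0 → ∃ a, ψ a = r) (hss : ∀ r, s (s r) = s r)
    (e : Matrix ι ι (Unitization ℝ J)) (he : e * e = e)
    (h : EqvIn Set.univ (e.map (Unitization.lift ψ))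
      ((e.map (Unitization.fstHom ℝ J)).map (algebraMap ℝ R))) :
    cls e = cls ((e.map (Unitization.fstHom ℝ J)).map (algebraMap ℝ (Unitization ℝ J))) := by
  obtain ⟨x, y, -, -, h1, h2⟩ := h
  set c := e.map (Unitization.fstHom ℝ J) with hc
  have hcc : c * c = c := by rw [hc, ← Matrix.map_mul, he]
  have hE : x * y * (x * y) = x * y := by rw [h1, ← Matrix.map_mul, he]
  have hG : c.map (algebraMap ℝ R) * c.map (algebraMap ℝ R) = c.map (algebraMap ℝ R) := by
    rw [← Matrix.map_mul, hcc]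
  have k1 : x.map s * y.map s = c.map (algebraMap ℝ R) := by
    rw [← Matrix.map_mul, h1]
    ext i j
    simp [hc, hs]
  have k2 : y.map s * x.map s = c.map (algebraMap ℝ R) := by
    rw [← Matrix.map_mul, h2]
    ext i j
    simp
  have kk : ∀ z : Matrix ι ι R, (z.map s).map s = z.map s := fun z => Matrix.ext fun i j => hss _
  obtain ⟨u, u1, u2⟩ := mlift ψ s hk c (x * y.map s) (by rw [Matrix.map_mul, kk, k1])
  obtain ⟨v, v1, v2⟩ := mlift ψ s hk c (x.map s * y) (by rw [Matrix.map_mul, kk, k1])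
  refine cls_mvn he (by rw [← Matrix.map_mul, hcc]) u v (mext ψ hψ ?_ ?_) (mext ψ hψ ?_ ?_)
  · rw [Matrix.map_mul, u1, v1, hcc]
  · rw [Matrix.map_mul, u2, v2, mul_assoc, ← mul_assoc (y.map s), k2, ← h2, ← h1, ← hE]
    simp only [mul_assoc]
  · rw [Matrix.map_mul, u1, v1, hcc]
    ext i j
    simp
  · rw [Matrix.map_mul, u2, v2, mul_assoc, ← mul_assoc y, h2]
    have : (c.map (algebraMap ℝ (Unitization ℝ J))).map (Unitization.lift ψ) =
        c.map (algebraMap ℝ R) := Matrix.ext fun i j => (Unitization.lift ψ).commutes _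
    rw [this, ← k2, mul_assoc, ← mul_assoc, k1, hG, k2]

theorem alg {ι : Type} [Fintype ι] (ψ : J →ₙₐ[ℝ] R) (hψ : Injective ψ) (s : R →ₐ[ℝ] R)
    (hs : ∀ a, s (ψ a) = 0) (hk : ∀ r, s r = 0 → ∃ a, ψ a = r) (hss : ∀ r, s (s r) = s r)
    (e : Matrix ι ι (Unitization ℝ J)) (he : e * e = e)
    (h : cls (e.map (Unitization.lift ψ)) =
      cls ((e.map (Unitization.fstHom ℝ J)).map (algebraMap ℝ R))) :
    cls e = cls ((e.map (Unitization.fstHom ℝ J)).map (algebraMap ℝ (Unitization ℝ J))) := by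
  have hc : e.map (Unitization.fstHom ℝ J) * e.map (Unitization.fstHom ℝ J) =
      e.map (Unitization.fstHom ℝ J) := by rw [← Matrix.map_mul, he]
  obtain ⟨m, hm⟩ := stable (by rw [← Matrix.map_mul, he]) (by rw [← Matrix.map_mul, hc]) h
  have o1 : (1 : Matrix (Fin m) (Fin m) (Unitization ℝ J)) * 1 = 1 := one_mul 1
  have h1 := alg0 ψ hψ s hs hk hss (fromBlocks e 0 0 (1 : Matrix (Fin m) (Fin m) _))
    (idem_fromBlocks he o1) (by simpa [fromBlocks_map] using hm)
  have h2 : ((fromBlocks e 0 0 (1 : Matrix (Fin m) (Fin m) _)).map (Unitization.fstHom ℝ J)).map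
      (algebraMap ℝ (Unitization ℝ J)) = fromBlocks ((e.map (Unitization.fstHom ℝ J)).map
        (algebraMap ℝ (Unitization ℝ J))) 0 0 1 := by simp [fromBlocks_map]
  rw [h2, cls_fromBlocks he o1, cls_fromBlocks (by rw [← Matrix.map_mul, hc]) o1] at h1
  exact add_right_cancel h1

end Alg

section Ana

variable (E B : Type) [TopologicalSpace E] [T2Space E] [NormedRing B] [NormedAlgebra ℝ B]

/-- Extension by zero at infinity. -/
def ext0 : C₀(E, B) →ₙₐ[ℝ] C(OnePoint E, B) where
  toFun f := OnePoint.continuousMapMk ⟨f, map_continuous f⟩ 0 (by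
    rw [coclosedCompact_eq_cocompact]
    exact zero_at_infty f)
  map_smul' c f := ContinuousMap.ext fun y => by
    induction y using OnePoint.rec with
    | infty => exact (smul_zero c).symm
    | coe y => rfl
  map_zero' := ContinuousMap.ext fun y => by
    induction y using OnePoint.rec with
    | infty => rfl
    | coe y => rfl
  map_add' f g := ContinuousMap.ext fun y => by
    induction y using OnePoint.rec with
    | infty => exact (add_zero 0).symm
    | coe y => rfl
  map_mul' f g := ContinuousMap.ext fun y => by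
    induction y using OnePoint.rec with
    | infty => exact (mul_zero 0).symm
    | coe y => rfl

/-- The constant function with the value at infinity. -/
def cinf : C(OnePoint E, B) →ₐ[ℝ] C(OnePoint E, B) where
  toFun f := ContinuousMap.const _ (f ∞)
  map_one' := rfl
  map_mul' _ _ := rfl
  map_zero' := rfl
  map_add' _ _ := rfl
  commutes' _ := rfl

theorem ana {ι : Type} [Fintype ι] (e : Matrix ι ι (Unitization ℝ C₀(E, B))) (he : e * e = e)
    (h : cls (e.map (Unitization.lift (ext0 E B))) =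
      cls ((e.map (Unitization.fstHom ℝ C₀(E, B))).map (algebraMap ℝ C(OnePoint E, B)))) :
    cls e = cls ((e.map (Unitization.fstHom ℝ C₀(E, B))).map
      (algebraMap ℝ (Unitization ℝ C₀(E, B)))) := by
  refine alg (ext0 E B) (fun f g hfg => ZeroAtInftyContinuousMap.ext fun t =>
    DFunLike.congr_fun hfg (t : OnePoint E)) (cinf E B) (fun _ => rfl) (fun r hr => ?_)
    (fun _ => rfl) e he h
  have h0 : r ∞ = 0 := DFunLike.congr_fun hr ∞
  obtain ⟨h1, h2⟩ := (OnePoint.continuous_iff r).1 (map_continuous r)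
  rw [coclosedCompact_eq_cocompact, h0] at h1
  refine ⟨⟨⟨_, h2⟩, h1⟩, ContinuousMap.ext fun y => ?_⟩
  induction y using OnePoint.rec with
  | infty => exact h0.symm
  | coe y => rfl

variable {J : Type} [NonUnitalRing J] [Module ℝ J] [IsScalarTower ℝ J J] [SMulCommClass ℝ J J]

theorem fin (ι : J →ₙₐ[ℝ] C₀(E, B))
    (hV : ∀ (k : ℕ) (c : Matrix (Fin k) (Fin k) ℝ) (a : Matrix (Fin k) (Fin k) J)
      (e : Matrix (Fin k) (Fin k) C(OnePoint E, B)), e * e = e → c * c = c →
      (∀ i j, e i j ∞ = c i j • 1) → (∀ i j (t : E), e i j t = c i j • 1 + ι (a i j) t) →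
      cls e = cls (c.map fun r => (r • 1 : C(OnePoint E, B))))
    (x : K0 (Unitization ℝ J)) (hx : x ∈ K0r J) :
    K0.map (S := Unitization ℝ C₀(E, B))
      (NonUnitalRingHomClass.toNonUnitalRingHom (unitMap ι)) x = 0 := by
  obtain ⟨k, l, e, he, rfl⟩ := x.exists_sub_one
  have hx0 := AddMonoidHom.mem_ker.1 hx
  have o1 : (1 : Matrix (Fin l) (Fin l) (Unitization ℝ J)) * 1 = 1 := one_mul 1
  rw [map_sub, map_cls _ he, map_cls _ o1, sub_eq_zero] at hx0
  rw [map_sub, map_cls _ he, map_cls _ o1, sub_eq_zero]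
  have he' : e.map (unitMap ι) * e.map (unitMap ι) = e.map (unitMap ι) := by
    rw [← Matrix.map_mul, he]
  have hc : e.map (Unitization.fstHom ℝ J) * e.map (Unitization.fstHom ℝ J) =
      e.map (Unitization.fstHom ℝ J) := by rw [← Matrix.map_mul, he]
  have hf : (e.map (unitMap ι)).map (Unitization.fstHom ℝ _) = e.map (Unitization.fstHom ℝ J) := by
    ext i j
    simp [unitMap, Algebra.algebraMap_eq_smul_one]
  have h1 := ana E B (e.map (unitMap ι)) he' (by
    rw [hf]
    refine (hV k _ (e.map fun u => u.snd) _ (by rw [← Matrix.map_mul, he']) hc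
      (fun i j => ?_) fun i j t => ?_).trans ?_
    · simp [unitMap, Algebra.algebraMap_eq_smul_one]
      rfl
    · simp [unitMap, Algebra.algebraMap_eq_smul_one]
      rfl
    · congr 1
      ext i j : 2
      simp [Algebra.algebraMap_eq_smul_one])
  rw [hf] at h1
  have h2 := congrArg (K0.map (NonUnitalRingHomClass.toNonUnitalRingHom
    (algebraMap ℝ (Unitization ℝ C₀(E, B))))) hx0
  rw [map_cls _ (idem_map he _), map_cls _ (idem_map o1 _)] at h2
  refine h1.trans (h2.trans ?_)
  congr 1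
  have a1 : (1 : Matrix (Fin l) (Fin l) (Unitization ℝ J)).map (unitMap ι) = 1 :=
    Matrix.map_one _ (map_zero _) (map_one _)
  have a2 : (1 : Matrix (Fin l) (Fin l) (Unitization ℝ J)).map (Unitization.fstHom ℝ J) = 1 :=
    Matrix.map_one _ (map_zero _) (map_one _)
  have a3 : (1 : Matrix (Fin l) (Fin l) ℝ).map (algebraMap ℝ (Unitization ℝ C₀(E, B))) = 1 :=
    Matrix.map_one _ (map_zero _) (map_one _)
  exact ((congrArg (fun z => Matrix.map z (algebraMap ℝ (Unitization ℝ C₀(E, B)))) a2).trans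
    a3).trans a1.symm

end Ana

end SPLIT

theorem stSPLIT : St_SPLIT := by
  intro Γ X Z _ _ _ pos n hV ι hι x hx
  have key := SPLIT.fin (J := C₀(EuclideanSpace ℝ (Fin n), Cstar Γ pos))
    (EuclideanSpace ℝ (Fin n)) (Dstar Γ pos) ι (fun k c a e he hc h1 h2 =>
      hV _ _ c e he hc fun i j y => by
        induction y using OnePoint.rec with
        | infty =>
          have h3 : (e i j ∞ : Op Z) = c i j • (1 : Op Z) := congrArg Subtype.val (h1 i j)
          rw [h3, sub_self]
          exact zero_mem _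
        | coe t =>
          have h3 : (e i j t : Op Z) = c i j • (1 : Op Z) + (ι (a i j) t : Op Z) :=
            congrArg Subtype.val (h2 i j t)
          rw [h3, add_sub_cancel_left, hι]
          exact (a i j t).2) x hx
  exact key

end Pool.Agent.Lib.BCH
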