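import Mathlib

/-! Ring identities for contractions of square zero elements and difference idempotents. -/

namespace BCA

variable {B : Type*} [Ring B]

/-- The part of `J` that commutes with the idempotent `P`. -/
def jd (P J : B) : B := P * J * P + (1 - P) * J * (1 - P)

/-- The defect of `jd P J` as a contraction of `d`. -/
def kd (P d J : B) : B := d * jd P J + jd P J * d - 1

/-- The corrected contraction. -/
def jc (P d J : B) : B := jd P J - J * kd P d J

/-- The involution attached to a square zero element and a contraction. -/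
def tt (d c : B) : B := d + c * d * c

/-- `x` exchanges the two halves of the grading given by the idempotent `ε`. -/
def Odd (ε x : B) : Prop := ε * x = x * (1 - ε)

variable {P d J c c' ε x y h i K A T T' a b : B} {I : TwoSidedIdeal B}

theorem kd_comm (hd : d * d = 0) : d * kd P d J = kd P d J * d := by
  have : d * kd P d J - kd P d J * d = (d * d) * jd P J - jd P J * (d * d) := by
    unfold kd; noncomm_ring
  rw [hd] at this
  exact sub_eq_zero.1 (by simpa using this)

theorem jc_contr (hd : d * d = 0) (hJ : d * J + J * d = 1) : d * jc P d J + jc P d J * d = 1 := by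
  have h1 : d * jc P d J + jc P d J * d = kd P d J + 1 - (d * J + J * d) * kd P d J +
      J * (d * kd P d J - kd P d J * d) := by
    unfold jc
    rw [show kd P d J + 1 = d * jd P J + jd P J * d by unfold kd; noncomm_ring]
    noncomm_ring
  rw [h1, hJ, kd_comm hd]
  noncomm_ring

theorem jd_comm (hP : P * P = P) : P * jd P J = jd P J * P := by
  have : P * jd P J - jd P J * P = (P * P - P) * J * P - P * J * (P * P - P) -
      (P * P - P) * J * (1 - P) + (1 - P) * J * (P * P - P) := by
    unfold jd; noncomm_ring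
  rw [hP] at this
  exact sub_eq_zero.1 (by simpa using this)

theorem kd_eq (hP : P * P = P) (hJ : d * J + J * d = 1) :
    kd P d J = (d * P - P * d) * J * P - P * J * (d * P - P * d) -
      (d * P - P * d) * J * (1 - P) + (1 - P) * J * (d * P - P * d) := by
  have : kd P d J = (d * P - P * d) * J * P - P * J * (d * P - P * d) -
      (d * P - P * d) * J * (1 - P) + (1 - P) * J * (d * P - P * d) +
      (P * (d * J + J * d) * P + (1 - P) * (d * J + J * d) * (1 - P) - 1) := by
    unfold kd jd; noncomm_ring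
  rw [this, hJ]
  have h2 : P * 1 * P + (1 - P) * 1 * (1 - P) - 1 = 2 * (P * P - P) := by noncomm_ring
  rw [h2, hP]
  simp

theorem kd_mem (hP : P * P = P) (hJ : d * J + J * d = 1) (hc : d * P - P * d ∈ I) :
    kd P d J ∈ I := by
  rw [kd_eq hP hJ]
  exact I.add_mem (I.sub_mem (I.sub_mem (I.mul_mem_right _ _ (I.mul_mem_right _ _ hc))
    (I.mul_mem_left _ _ hc)) (I.mul_mem_right _ _ (I.mul_mem_right _ _ hc))) (I.mul_mem_left _ _ hc)

theorem kd_eq_zero (hP : P * P = P) (hJ : d * J + J * d = 1) (hc : d * P = P * d) :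
    kd P d J = 0 := by
  rw [kd_eq hP hJ, hc]; simp

theorem jc_comm_mem (hP : P * P = P) (hJ : d * J + J * d = 1) (hc : d * P - P * d ∈ I) :
    jc P d J * P - P * jc P d J ∈ I := by
  have h1 := kd_mem hP hJ hc
  have : jc P d J * P - P * jc P d J = P * J * kd P d J - J * kd P d J * P -
      (P * jd P J - jd P J * P) := by
    unfold jc; noncomm_ring
  rw [this, jd_comm hP, sub_self, sub_zero]
  exact I.sub_mem (I.mul_mem_left _ _ h1) (I.mul_mem_right _ _ (I.mul_mem_left _ _ h1))

theorem jc_comm (hP : P * P = P) (hJ : d * J + J * d = 1) (hc : d * P = P * d) :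
    jc P d J * P = P * jc P d J := by
  rw [jc, kd_eq_zero hP hJ hc, mul_zero, sub_zero, jd_comm hP]

theorem tt_sq (hd : d * d = 0) (hc : d * c + c * d = 1) : tt d c * tt d c = 1 := by
  have : tt d c * tt d c = d * d + (d * c + c * d) +
      d * (d * c + c * d - 1) * c - (d * d) * c * c + c * d * (d * c + c * d - 1) -
      c * (d * d) * c + c * ((d * c + c * d - 1) * c - c * (d * c + c * d - 1)) * d * c +
      c * c * c * (d * d) * c := by
    unfold tt; noncomm_ring
  rw [this, hd, hc]
  simp

theorem tt_of_sq_zero (hc : d * c + c * d = 1) (h0 : c * c = 0) : tt d c = d + c := by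
  have : tt d c = d + c * (d * c + c * d) - (c * c) * d := by unfold tt; noncomm_ring
  rw [this, hc, h0]; simp

theorem comm_mul_mem (hx : x * P - P * x ∈ I) (hy : y * P - P * y ∈ I) :
    x * y * P - P * (x * y) ∈ I := by
  have : x * y * P - P * (x * y) = x * (y * P - P * y) + (x * P - P * x) * y := by noncomm_ring
  rw [this]
  exact I.add_mem (I.mul_mem_left _ _ hy) (I.mul_mem_right _ _ hx)

theorem comm_add_mem (hx : x * P - P * x ∈ I) (hy : y * P - P * y ∈ I) :
    (x + y) * P - P * (x + y) ∈ I := by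
  have : (x + y) * P - P * (x + y) = (x * P - P * x) + (y * P - P * y) := by noncomm_ring
  rw [this]
  exact I.add_mem hx hy

theorem comm_inv_mem (h1 : T' * T = 1) (h2 : T * T' = 1) (hx : T * P - P * T ∈ I) :
    T' * P - P * T' ∈ I := by
  have : T' * P - P * T' = -(T' * (T * P - P * T) * T') + (T' * T - 1) * P * T' -
      T' * P * (T * T' - 1) := by noncomm_ring
  rw [this, h1, h2]
  simpa using I.neg_mem (I.mul_mem_right _ T' (I.mul_mem_left T' _ hx))

theorem tt_comm_mem (hd : d * P - P * d ∈ I) (hc : c * P - P * c ∈ I) :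
    tt d c * P - P * tt d c ∈ I :=
  comm_add_mem hd (comm_mul_mem (comm_mul_mem hc hd) hc)

theorem tt_comm (hd : d * P = P * d) (hc : c * P = P * c) : tt d c * P = P * tt d c :=
  (Commute.add_left hd ((Commute.mul_left hc hd).mul_left hc)).eq

theorem Odd.symm (hx : Odd ε x) : (1 - ε) * x = x * ε := by
  rw [sub_mul, one_mul, hx]; noncomm_ring

theorem Odd.add (hx : Odd ε x) (hy : Odd ε y) : Odd ε (x + y) := by
  unfold Odd at *; rw [mul_add, add_mul, hx, hy]

theorem Odd.sub (hx : Odd ε x) (hy : Odd ε y) : Odd ε (x - y) := by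
  unfold Odd at *; rw [mul_sub, sub_mul, hx, hy]

theorem Odd.mul_even (hx : Odd ε x) (hy : ε * y = y * ε) : Odd ε (x * y) := by
  unfold Odd at *
  rw [← mul_assoc, hx, mul_assoc, mul_assoc, sub_mul, mul_sub y, hy, one_mul, mul_one]

theorem Odd.even_mul (hx : Odd ε x) (hy : ε * y = y * ε) : Odd ε (y * x) := by
  unfold Odd at *
  rw [← mul_assoc, hy, mul_assoc, hx, mul_assoc]

theorem Odd.mul_odd (hx : Odd ε x) (hy : Odd ε y) : ε * (x * y) = x * y * ε := by
  rw [← mul_assoc, hx, mul_assoc, hy.symm, mul_assoc]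

theorem Odd.jd (hJ : Odd ε J) (hP : ε * P = P * ε) : Odd ε (jd P J) := by
  have h1 : ε * (1 - P) = (1 - P) * ε := by rw [mul_sub, sub_mul, hP, mul_one, one_mul]
  exact ((hJ.even_mul hP).mul_even hP).add ((hJ.even_mul h1).mul_even h1)

theorem Odd.jc (hd : Odd ε d) (hJ : Odd ε J) (hP : ε * P = P * ε) : Odd ε (jc P d J) := by
  refine (hJ.jd hP).sub (hJ.mul_even ?_)
  rw [kd, mul_sub, sub_mul, mul_add, add_mul, hd.mul_odd (hJ.jd hP), (hJ.jd hP).mul_odd hd,
    mul_one, one_mul]

theorem Odd.tt (hd : Odd ε d) (hc : Odd ε c) : Odd ε (tt d c) :=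
  hd.add (hc.even_mul (hc.mul_odd hd))

theorem Odd.inv (hT : Odd ε T) (h1 : T' * T = 1) (h2 : T * T' = 1) : Odd ε T' := by
  unfold Odd
  calc ε * T' = T' * (T * ε) * T' := by rw [← mul_assoc T', h1, one_mul]
    _ = T' * (1 - ε) * (T * T') := by rw [← hT.symm]; noncomm_ring
    _ = T' * (1 - ε) := by rw [h2, mul_one]

/-- The square of `d * x + h * y` for `x`, `y` commuting with `d` and `h`. -/
theorem mix_sq (hd : d * d = 0) (hh : h * h = 0) (h1 : x * d = d * x) (h2 : x * h = h * x)
    (h3 : y * d = d * y) (h4 : y * h = h * y) (h5 : x * y = y * x) :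
    (d * x + h * y) * (d * x + h * y) = (d * h + h * d) * (x * y) := by
  have : (d * x + h * y) * (d * x + h * y) = (d * h + h * d) * (x * y) + (d * d) * x * x +
      (h * h) * y * y + d * (x * d - d * x) * x + d * (x * h - h * x) * y +
      h * (y * d - d * y) * x + h * (y * h - h * y) * y - h * d * (x * y - y * x) := by
    noncomm_ring
  rw [this, hd, hh, h1, h2, h3, h4, h5]
  simp

theorem anti_comm_left (hd : d * d = 0) : (d * h + h * d) * d = d * (d * h + h * d) := by
  have : (d * h + h * d) * d = d * (d * h + h * d) + h * (d * d) - (d * d) * h := by noncomm_ring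
  rw [this, hd]; simp

theorem anti_comm_right (hh : h * h = 0) : (d * h + h * d) * h = h * (d * h + h * d) := by
  rw [add_comm]; exact anti_comm_left hh

theorem inv_comm (h1 : T' * T = 1) (h2 : T * T' = 1) (hx : T * x = x * T) : T' * x = x * T' := by
  calc T' * x = T' * (x * T) * T' := by rw [mul_assoc, mul_assoc, h2, mul_one]
    _ = x * T' := by rw [← hx, ← mul_assoc, h1, one_mul]

/-! The two idempotents attached to `P`, `ε` and an odd invertible `T`. -/

theorem ev_idem (hP : P * P = P) (hε : ε * ε = ε) (hc : ε * P = P * ε) :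
    P * ε * (P * ε) = P * ε := by
  rw [mul_assoc, ← mul_assoc ε, hc, mul_assoc, hε, ← mul_assoc, hP]

theorem od_idem (hP : P * P = P) (hε : ε * ε = ε) (hc : ε * P = P * ε) :
    P * (1 - ε) * (P * (1 - ε)) = P * (1 - ε) :=
  ev_idem hP (by rw [mul_sub, sub_mul, sub_mul, hε]; simp)
    (by rw [mul_sub, sub_mul, hc, mul_one, one_mul])

theorem conj_eq (hT : Odd ε T) : T' * P * T * ε = T' * (P * (1 - ε)) * T := by
  rw [mul_assoc _ T, ← hT.symm]; noncomm_ring

theorem conj_idem (hP : P * P = P) (hε : ε * ε = ε) (hc : ε * P = P * ε) (hT : Odd ε T)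
    (h2 : T * T' = 1) : T' * P * T * ε * (T' * P * T * ε) = T' * P * T * ε := by
  rw [conj_eq hT]
  calc T' * (P * (1 - ε)) * T * (T' * (P * (1 - ε)) * T)
      = T' * (P * (1 - ε) * (T * T') * (P * (1 - ε))) * T := by noncomm_ring
    _ = _ := by rw [h2, mul_one, od_idem hP hε hc]

theorem sub_conj_mem (h1 : T' * T = 1) (hx : T * P - P * T ∈ I) :
    P * ε - T' * P * T * ε ∈ I := by
  have : P * ε - T' * P * T * ε = T' * (T * P - P * T) * ε - (T' * T - 1) * P * ε := by
    noncomm_ring
  rw [this, h1]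
  simpa using I.mul_mem_right _ ε (I.mul_mem_left T' _ hx)

theorem conj_of_comm (h1 : T' * T = 1) (hx : T * P = P * T) : T' * P * T * ε = P * ε := by
  rw [mul_assoc T', ← hx, ← mul_assoc, h1, one_mul]

/-! The difference idempotent. -/

/-- The involution exchanging `diag b (1 - b)` and `diag 1 0`. -/
def rr (b : B) : Matrix (Fin 2) (Fin 2) B := !![b, 1 - b; 1 - b, b]

/-- The difference idempotent of two idempotents. -/
def ee (a b : B) : Matrix (Fin 2) (Fin 2) B := rr b * !![a, 0; 0, 1 - b] * rr b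

theorem rr_sq (hb : b * b = b) : rr b * rr b = 1 := by
  have h1 : b * (1 - b) = 0 := by rw [mul_sub, hb]; simp
  have h2 : (1 - b) * b = 0 := by rw [sub_mul, hb]; simp
  have h3 : (1 - b) * (1 - b) = 1 - b := by rw [mul_sub, h2]; simp
  ext i j
  fin_cases i <;> fin_cases j <;> simp [rr, Matrix.mul_apply, Fin.sum_univ_two, h1, h2, h3, hb]

theorem dg_idem (ha : a * a = a) (hb : b * b = b) :
    (!![a, 0; 0, 1 - b] : Matrix (Fin 2) (Fin 2) B) * !![a, 0; 0, 1 - b] = !![a, 0; 0, 1 - b] := by
  have h3 : (1 - b) * (1 - b) = 1 - b := by rw [mul_sub, sub_mul, sub_mul, hb]; simp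
  ext i j
  fin_cases i <;> fin_cases j <;> simp [Matrix.mul_apply, Fin.sum_univ_two, h3, ha]

theorem ee_idem (ha : a * a = a) (hb : b * b = b) : ee a b * ee a b = ee a b := by
  unfold ee
  calc rr b * !![a, 0; 0, 1 - b] * rr b * (rr b * !![a, 0; 0, 1 - b] * rr b)
      = rr b * (!![a, 0; 0, 1 - b] * (rr b * rr b) * !![a, 0; 0, 1 - b]) * rr b := by
        noncomm_ring
    _ = _ := by rw [rr_sq hb, mul_one, dg_idem ha hb]

theorem ee_eq (hb : b * b = b) : ee a b = !![1, 0; 0, 0] +
    !![b * (a - b) * b, b * (a - b) * (1 - b);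
      (1 - b) * (a - b) * b, (1 - b) * (a - b) * (1 - b)] := by
  have h1 : b * (1 - b) = 0 := by rw [mul_sub, hb]; simp
  have h2 : (1 - b) * b = 0 := by rw [sub_mul, hb]; simp
  have h3 : (1 - b) * (1 - b) = 1 - b := by rw [mul_sub, h2]; simp
  ext i j
  fin_cases i <;> fin_cases j <;>
    simp [ee, rr, Matrix.mul_apply, Fin.sum_univ_two, h1, h2, h3, mul_sub b a b,
      mul_sub (1 - b) a b, hb, sub_mul (b * a) b]
  · abel

theorem ee_self (hb : b * b = b) : ee b b = !![1, 0; 0, 0] := by
  rw [ee_eq hb]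
  ext i j
  fin_cases i <;> fin_cases j <;> simp

theorem ee_sub_mem (hb : b * b = b) (h : a - b ∈ I) (i j : Fin 2) :
    (ee a b - !![1, 0; 0, 0] : Matrix (Fin 2) (Fin 2) B) i j ∈ I := by
  rw [ee_eq hb, add_sub_cancel_left]
  fin_cases i <;> fin_cases j <;> exact I.mul_mem_right _ _ (I.mul_mem_left _ _ h)

end BCA
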