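import Pool.Agent.Lib.BC.MatK

/-! Filtered Banach algebras and the functor `B ↦ M_ν(C(Y, B))`. -/

noncomputable section

open Filter Topology

namespace Pool.Agent.Lib.BCH

section Filt

variable {B Λ : Type} [NormedRing B] [NormedAlgebra ℝ B] [SemilatticeSup Λ] [Nonempty Λ]

/-- An increasing family of contractive idempotents. -/
structure IsFilt (P : Λ → B) : Prop where
  mono : ∀ F G, F ≤ G → P F * P G = P F ∧ P G * P F = P F
  bd : ∀ F, ‖P F‖ ≤ 1

/-- The elements that are limits of their compressions. -/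
def KK (P : Λ → B) : Set B :=
  {T | Tendsto (fun F => P F * T) atTop (𝓝 T) ∧ Tendsto (fun F => T * P F) atTop (𝓝 T)}

/-- The elements that multiply every `P G` into `KK P`. -/
def Loc (P : Λ → B) : Set B := {S | ∀ G, S * P G ∈ KK P ∧ P G * S ∈ KK P}

variable {P : Λ → B}

omit [NormedAlgebra ℝ B] in
theorem KK_add {S T : B} (hS : S ∈ KK P) (hT : T ∈ KK P) : S + T ∈ KK P :=
  ⟨by simpa only [mul_add] using hS.1.add hT.1, by simpa only [add_mul] using hS.2.add hT.2⟩

omit [NormedAlgebra ℝ B] in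
theorem KK_neg {S : B} (hS : S ∈ KK P) : -S ∈ KK P :=
  ⟨by simpa only [mul_neg] using hS.1.neg, by simpa only [neg_mul] using hS.2.neg⟩

omit [NormedAlgebra ℝ B] in
theorem KK_sub {S T : B} (hS : S ∈ KK P) (hT : T ∈ KK P) : S - T ∈ KK P := by
  rw [sub_eq_add_neg]; exact KK_add hS (KK_neg hT)

omit [NormedAlgebra ℝ B] in
theorem KK_zero : (0 : B) ∈ KK P := ⟨by simp, by simp⟩

theorem KK_smul (c : ℝ) {S : B} (hS : S ∈ KK P) : c • S ∈ KK P :=
  ⟨by simpa only [mul_smul_comm] using hS.1.const_smul c,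
    by simpa only [smul_mul_assoc] using hS.2.const_smul c⟩

omit [NormedAlgebra ℝ B] in
theorem tendsto_of_approx {f : Λ → B → B} (hf : ∀ F x y, ‖f F x - f F y‖ ≤ ‖x - y‖) {T : B}
    (h : ∀ ε > 0, ∃ S, ‖T - S‖ ≤ ε ∧ Tendsto (fun F => f F S) atTop (𝓝 S)) :
    Tendsto (fun F => f F T) atTop (𝓝 T) := by
  refine Metric.tendsto_nhds.2 fun ε hε => ?_
  obtain ⟨S, h1, h2⟩ := h (ε / 3) (by positivity)
  filter_upwards [Metric.tendsto_nhds.1 h2 (ε / 3) (by positivity)] with F hF
  rw [dist_eq_norm] at hF ⊢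
  have h3 := hf F T S
  have h4 : f F T - T = (f F T - f F S) + (f F S - S) - (T - S) := by abel
  rw [h4]
  linarith [norm_sub_le ((f F T - f F S) + (f F S - S)) (T - S),
    norm_add_le (f F T - f F S) (f F S - S)]

omit [NormedAlgebra ℝ B] in
theorem IsFilt.left (hP : IsFilt P) (F : Λ) (x y : B) : ‖P F * x - P F * y‖ ≤ ‖x - y‖ := by
  rw [← mul_sub]
  exact (norm_mul_le _ _).trans (mul_le_of_le_one_left (norm_nonneg _) (hP.bd F))

omit [NormedAlgebra ℝ B] in
theorem IsFilt.right (hP : IsFilt P) (F : Λ) (x y : B) : ‖x * P F - y * P F‖ ≤ ‖x - y‖ := by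
  rw [← sub_mul]
  exact (norm_mul_le _ _).trans (mul_le_of_le_one_right (norm_nonneg _) (hP.bd F))

omit [NormedAlgebra ℝ B] in
theorem IsFilt.isClosed_KK (hP : IsFilt P) : IsClosed (KK P) := by
  refine isClosed_of_closure_subset fun T hT => ?_
  have h : ∀ ε > 0, ∃ S ∈ KK P, ‖T - S‖ ≤ ε := fun ε hε => by
    obtain ⟨S, h1, h2⟩ := Metric.mem_closure_iff.1 hT ε hε
    exact ⟨S, h1, by rw [← dist_eq_norm]; exact h2.le⟩
  exact ⟨tendsto_of_approx (f := fun F x => P F * x) hP.left fun ε hε =>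
      let ⟨S, h1, h2⟩ := h ε hε; ⟨S, h2, h1.1⟩,
    tendsto_of_approx (f := fun F x => x * P F) hP.right fun ε hε =>
      let ⟨S, h1, h2⟩ := h ε hε; ⟨S, h2, h1.2⟩⟩

omit [NormedAlgebra ℝ B] in
theorem IsFilt.corner_mem (hP : IsFilt P) (F G : Λ) (x : B) : P F * x * P G ∈ KK P := by
  constructor
  · refine tendsto_const_nhds.congr' ?_
    filter_upwards [eventually_ge_atTop F] with K hK
    rw [← mul_assoc, ← mul_assoc, (hP.mono F K hK).2]
  · refine tendsto_const_nhds.congr' ?_
    filter_upwards [eventually_ge_atTop G] with K hK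
    rw [mul_assoc _ (P G), (hP.mono G K hK).1]

omit [NormedAlgebra ℝ B] in
theorem IsFilt.loc_mul (hP : IsFilt P) {S T : B} (hS : S ∈ Loc P) (hT : T ∈ KK P) :
    S * T ∈ KK P := by
  refine hP.isClosed_KK.mem_of_tendsto (b := atTop) (f := fun F => S * (P F * (T * P F))) ?_
    (Eventually.of_forall fun F => ?_)
  · refine Tendsto.const_mul S (Metric.tendsto_nhds.2 fun ε hε => ?_)
    filter_upwards [Metric.tendsto_nhds.1 hT.1 (ε / 2) (by positivity),
      Metric.tendsto_nhds.1 hT.2 (ε / 2) (by positivity)] with F h1 h2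
    rw [dist_eq_norm] at h1 h2 ⊢
    have h3 := hP.left F (T * P F) T
    have h4 : P F * (T * P F) - T = (P F * (T * P F) - P F * T) + (P F * T - T) := by abel
    rw [h4]
    linarith [norm_add_le (P F * (T * P F) - P F * T) (P F * T - T)]
  · constructor
    · simpa only [mul_assoc] using (hS F).1.1.mul_const (T * P F)
    · refine tendsto_const_nhds.congr' ?_
      filter_upwards [eventually_ge_atTop F] with K hK
      simp only [mul_assoc, (hP.mono F K hK).1]

omit [NormedAlgebra ℝ B] in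
theorem IsFilt.mul_loc (hP : IsFilt P) {S T : B} (hS : S ∈ Loc P) (hT : T ∈ KK P) :
    T * S ∈ KK P := by
  refine hP.isClosed_KK.mem_of_tendsto (b := atTop) (f := fun F => P F * (T * P F) * S) ?_
    (Eventually.of_forall fun F => ?_)
  · refine Tendsto.mul_const S (Metric.tendsto_nhds.2 fun ε hε => ?_)
    filter_upwards [Metric.tendsto_nhds.1 hT.1 (ε / 2) (by positivity),
      Metric.tendsto_nhds.1 hT.2 (ε / 2) (by positivity)] with F h1 h2
    rw [dist_eq_norm] at h1 h2 ⊢
    have h3 := hP.left F (T * P F) T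
    have h4 : P F * (T * P F) - T = (P F * (T * P F) - P F * T) + (P F * T - T) := by abel
    rw [h4]
    linarith [norm_add_le (P F * (T * P F) - P F * T) (P F * T - T)]
  · constructor
    · refine tendsto_const_nhds.congr' ?_
      filter_upwards [eventually_ge_atTop F] with K hK
      simp only [← mul_assoc, (hP.mono F K hK).2]
    · simpa only [mul_assoc] using ((hS F).2.2.const_mul T).const_mul (P F)

omit [NormedAlgebra ℝ B] in
theorem IsFilt.P_mem (hP : IsFilt P) (F : Λ) : P F ∈ KK P := by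
  simpa only [mul_one, (hP.mono F F le_rfl).1] using hP.corner_mem F F 1

omit [NormedAlgebra ℝ B] in
theorem IsFilt.KK_loc (hP : IsFilt P) {T : B} (hT : T ∈ KK P) : T ∈ Loc P := fun G => by
  have hG : P G ∈ Loc P := fun K =>
    ⟨by simpa only [mul_one] using hP.corner_mem G K 1,
      by simpa only [mul_one] using hP.corner_mem K G 1⟩
  exact ⟨hP.mul_loc hG hT, hP.loc_mul hG hT⟩

/-- `Loc P` as a subalgebra. -/
def locAlg (hP : IsFilt P) : Subalgebra ℝ B where
  carrier := Loc P
  mul_mem' {S T} hS hT G := ⟨by rw [mul_assoc]; exact hP.loc_mul hS (hT G).1,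
    by rw [← mul_assoc]; exact hP.mul_loc hT (hS G).2⟩
  add_mem' {S T} hS hT G := ⟨by rw [add_mul]; exact KK_add (hS G).1 (hT G).1,
    by rw [mul_add]; exact KK_add (hS G).2 (hT G).2⟩
  algebraMap_mem' r G := by
    rw [← Algebra.commutes, ← Algebra.smul_def]
    exact ⟨KK_smul r (hP.P_mem G), KK_smul r (hP.P_mem G)⟩

omit [NormedAlgebra ℝ B] in
theorem IsFilt.isClosed_loc (hP : IsFilt P) : IsClosed (Loc P) := by
  have : Loc P = ⋂ G, ((fun S => S * P G) ⁻¹' KK P ∩ (fun S => P G * S) ⁻¹' KK P) := by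
    ext S; simp [Loc]
  rw [this]
  exact isClosed_iInter fun G => (hP.isClosed_KK.preimage (by fun_prop)).inter
    (hP.isClosed_KK.preimage (by fun_prop))

/-- `KK P` as a two-sided ideal when every element is local. -/
def kkIdeal (hP : IsFilt P) (hl : ∀ S : B, S ∈ Loc P) : TwoSidedIdeal B :=
  TwoSidedIdeal.mk' (KK P) KK_zero KK_add KK_neg (fun {x _} hy => hP.loc_mul (hl x) hy)
    fun {_ y} hx => hP.mul_loc (hl y) hx

omit [NormedAlgebra ℝ B] in
theorem mem_kkIdeal (hP : IsFilt P) (hl : ∀ S : B, S ∈ Loc P) {x : B} :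
    x ∈ kkIdeal hP hl ↔ x ∈ KK P := TwoSidedIdeal.mem_mk' _ _ _ _ _ _ _

end Filt

section FF

open scoped Matrix.Norms.Operator

/-- The Banach algebra `M_ν(C(Y, B))`. -/
def FF (ν Y B : Type) [TopologicalSpace Y] [TopologicalSpace B] : Type := Matrix ν ν C(Y, B)

variable {ν Y B B' : Type} [Fintype ν] [DecidableEq ν] [TopologicalSpace Y] [CompactSpace Y]
  [NormedRing B] [NormedAlgebra ℝ B] [NormedRing B'] [NormedAlgebra ℝ B']

instance : NormedRing (FF ν Y B) := inferInstanceAs (NormedRing (Matrix ν ν C(Y, B)))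

instance : NormedAlgebra ℝ (FF ν Y B) := inferInstanceAs (NormedAlgebra ℝ (Matrix ν ν C(Y, B)))

instance [CompleteSpace B] : CompleteSpace (FF ν Y B) := BCK.completeM

/-- Postcomposition with a continuous homomorphism. -/
def cmap (Y : Type) [TopologicalSpace Y] (φ : B →ₙ+* B') (hφ : Continuous φ) :
    C(Y, B) →ₙ+* C(Y, B') where
  toFun f := ⟨fun y => φ (f y), hφ.comp f.continuous⟩
  map_mul' _ _ := ContinuousMap.ext fun _ => map_mul φ _ _
  map_zero' := ContinuousMap.ext fun _ => map_zero φ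
  map_add' _ _ := ContinuousMap.ext fun _ => map_add φ _ _

variable (ν Y) in
/-- The map induced by a continuous homomorphism. -/
def FF.map (φ : B →ₙ+* B') (hφ : Continuous φ) : FF ν Y B →ₙ+* FF ν Y B' where
  toFun M := Matrix.map M (cmap Y φ hφ)
  map_mul' _ _ := Matrix.map_mul
  map_zero' := Matrix.map_zero _ (map_zero _)
  map_add' _ _ := Matrix.map_add _ (map_add _) _ _

variable (ν Y) in
/-- Constant scalar matrices. -/
def FF.const : B →+* FF ν Y B :=
  (Matrix.scalar ν).comp
    { toFun := fun b => ContinuousMap.const Y b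
      map_one' := rfl
      map_mul' := fun _ _ => rfl
      map_zero' := rfl
      map_add' := fun _ _ => rfl }

variable (ν Y) in
/-- The elements all of whose values lie in `S`. -/
def FF.set (S : Set B) : Set (FF ν Y B) := {M | ∀ i j y, M i j y ∈ S}

end FF

end Pool.Agent.Lib.BCH
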