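import Pool.Agent.Lib.BCH.KDefs
import Pool.Agent.Lib.BC.MatK

/-! Basic calculus of `K0`. -/

noncomputable section

open Matrix Function BCK

namespace Pool.Agent.Lib.BCH

variable {R S T : Type} [Ring R] [Ring S] [Ring T]
variable {ι κ μ ν : Type} [Fintype ι] [Fintype κ] [Fintype μ] [Fintype ν]

/-! ### Equivalences of block sums -/

section Eqv
variable {σ : Type*} [SetLike σ R] {A : σ}

omit [Fintype ι] [Fintype κ] [Fintype μ] [Fintype ν] [Ring R] in
theorem ent_submatrix {U : Set R} {x : Matrix ι κ R} (hx : Ent U x) (a : μ → ι) (b : ν → κ) :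
    Ent U (x.submatrix a b) := fun _ _ => hx _ _

omit [Fintype ι] [Fintype κ] [Fintype μ] [Fintype ν] [Ring R] in
theorem ent_fromBlocks {U : Set R} {a : Matrix ι κ R} {b : Matrix ι ν R} {c : Matrix μ κ R}
    {d : Matrix μ ν R} (ha : Ent U a) (hb : Ent U b) (hc : Ent U c) (hd : Ent U d) :
    Ent U (fromBlocks a b c d) := by
  rintro (i | i) (j | j)
  exacts [ha i j, hb i j, hc i j, hd i j]

omit [Fintype ι] [Fintype κ] in
theorem ent_zero [AddSubgroupClass σ R] : Ent (A : Set R) (0 : Matrix ι κ R) :=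
  fun _ _ => zero_mem A

omit [Fintype ι] [Fintype κ] [Ring R] in
theorem ent_univ (x : Matrix ι κ R) : Ent Set.univ x := fun _ _ => trivial

theorem idem_fromBlocks {e : Matrix ι ι R} {f : Matrix κ κ R} (he : e * e = e) (hf : f * f = f) :
    fromBlocks e 0 0 f * fromBlocks e 0 0 f = fromBlocks e 0 0 f := by
  simp [fromBlocks_multiply, he, hf]

theorem idem_submatrix {e : Matrix ι ι R} (he : e * e = e) (s : κ ≃ ι) :
    e.submatrix s s * e.submatrix s s = e.submatrix s s := by
  rw [submatrix_mul_equiv, he]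

theorem idem_map {e : Matrix ι ι R} (he : e * e = e) (φ : R →ₙ+* S) :
    e.map φ * e.map φ = e.map φ := by rw [← Matrix.map_mul, he]

theorem idem_one_sub [DecidableEq ι] {e : Matrix ι ι R} (he : e * e = e) :
    (1 - e) * (1 - e) = 1 - e := by
  rw [mul_sub, sub_mul, sub_mul, he]; simp

theorem eqv_submatrix {U : Set R} {e : Matrix ι ι R} (he : e * e = e) (h : Ent U e) (s : κ ≃ ι) :
    EqvIn U e (e.submatrix s s) :=
  ⟨e.submatrix id s, e.submatrix s id, ent_submatrix h _ _, ent_submatrix h _ _,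
    by rw [submatrix_mul_equiv, he, submatrix_id_id],
    by rw [← submatrix_mul _ _ _ _ _ bijective_id, he]⟩

theorem eqv_fromBlocks [AddSubgroupClass σ R] {e : Matrix ι ι R} {e' : Matrix κ κ R}
    {f : Matrix μ μ R} {f' : Matrix ν ν R} (h : EqvIn (A : Set R) e e')
    (h' : EqvIn (A : Set R) f f') :
    EqvIn (A : Set R) (fromBlocks e 0 0 f) (fromBlocks e' 0 0 f') := by
  obtain ⟨x, y, hx, hy, rfl, rfl⟩ := h
  obtain ⟨z, w, hz, hw, rfl, rfl⟩ := h'
  exact ⟨fromBlocks x 0 0 z, fromBlocks y 0 0 w, ent_fromBlocks hx ent_zero ent_zero hz,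
    ent_fromBlocks hy ent_zero ent_zero hw, by simp [fromBlocks_multiply],
    by simp [fromBlocks_multiply]⟩

/-- Orthogonal idempotents: `e + f` is equivalent to the block sum. -/
theorem eqv_add {U : Set R} {e f : Matrix ι ι R} (he : e * e = e) (hf : f * f = f)
    (h1 : e * f = 0) (h2 : f * e = 0) (heU : Ent U e) (hfU : Ent U f) :
    EqvIn U (e + f) (fromBlocks e 0 0 f) := by
  refine ⟨fromCols e f, fromRows e f, ?_, ?_, ?_, ?_⟩
  · rintro i (j | j)
    exacts [heU i j, hfU i j]
  · rintro (i | i) j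
    exacts [heU i j, hfU i j]
  · rw [fromCols_mul_fromRows, he, hf]
  · rw [fromRows_mul_fromCols, he, hf, h1, h2]

end Eqv

/-! ### Classes -/

theorem cls_of_idem {e : Matrix ι ι R} (he : e * e = e) :
    cls e = K0.mk ⟨e.submatrix (Fintype.equivFin ι).symm (Fintype.equivFin ι).symm,
      idem_submatrix he _⟩ := dif_pos he

theorem cls_of_not_idem {e : Matrix ι ι R} (he : e * e ≠ e) : cls e = 0 := dif_neg he

/-- Invariance under algebraic equivalence of rectangular type. -/
theorem cls_mvn {e : Matrix ι ι R} {f : Matrix κ κ R} (he : e * e = e) (hf : f * f = f)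
    (x : Matrix ι κ R) (y : Matrix κ ι R) (h1 : x * y = e) (h2 : y * x = f) : cls e = cls f := by
  rw [cls_of_idem he, cls_of_idem hf]
  exact K0.mk_eq _ _ (x.submatrix (Fintype.equivFin ι).symm (Fintype.equivFin κ).symm)
    (y.submatrix (Fintype.equivFin κ).symm (Fintype.equivFin ι).symm)
    (by rw [submatrix_mul_equiv, h1]) (by rw [submatrix_mul_equiv, h2])

theorem cls_eqvIn {U : Set R} {e : Matrix ι ι R} {f : Matrix κ κ R} (he : e * e = e)
    (hf : f * f = f) (h : EqvIn U e f) : cls e = cls f := by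
  obtain ⟨x, y, -, -, h1, h2⟩ := h
  exact cls_mvn he hf x y h1 h2

theorem cls_submatrix_equiv (e : Matrix ι ι R) (s : κ ≃ ι) : cls (e.submatrix s s) = cls e := by
  by_cases he : e * e = e
  · exact (cls_eqvIn he (idem_submatrix he s) (eqv_submatrix he (ent_univ e) s)).symm
  · rw [cls_of_not_idem he, cls_of_not_idem]
    intro h
    have h2 := idem_submatrix h s.symm
    simp only [submatrix_submatrix, Equiv.self_comp_symm, submatrix_id_id] at h2
    exact he h2

theorem cls_reindex (e : Matrix ι ι R) (s : ι ≃ κ) : cls (reindex s s e) = cls e :=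
  cls_submatrix_equiv e s.symm

theorem cls_eq_mk {k : ℕ} (e : Idem R k) : cls e.1 = K0.mk e := by
  rw [cls_of_idem e.2]
  obtain ⟨x, y, -, -, h1, h2⟩ := eqv_submatrix e.2 (ent_univ _) (Fintype.equivFin (Fin k)).symm
  exact (K0.mk_eq _ _ x y h1 h2).symm

theorem idem_bsum {k l : ℕ} {e : Matrix (Fin k) (Fin k) R} {f : Matrix (Fin l) (Fin l) R}
    (he : e * e = e) (hf : f * f = f) : bsum e f * bsum e f = bsum e f :=
  idem_submatrix (idem_fromBlocks he hf) finSumFinEquiv.symm

theorem cls_fromBlocks {e : Matrix ι ι R} {f : Matrix κ κ R} (he : e * e = e) (hf : f * f = f) :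
    cls (fromBlocks e 0 0 f) = cls e + cls f := by
  have h1 := idem_submatrix he (Fintype.equivFin ι).symm
  have h2 := idem_submatrix hf (Fintype.equivFin κ).symm
  rw [cls_of_idem he, cls_of_idem hf, ← K0.mk_bsum _ _ ⟨_, idem_bsum h1 h2⟩ rfl, ← cls_eq_mk]
  dsimp only [bsum]
  rw [cls_reindex, ← cls_submatrix_equiv _
    (Equiv.sumCongr (Fintype.equivFin ι).symm (Fintype.equivFin κ).symm)]
  congr 1
  ext (i | i) (j | j) <;> rfl

theorem cls_bsum {k l : ℕ} {e : Matrix (Fin k) (Fin k) R} {f : Matrix (Fin l) (Fin l) R}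
    (he : e * e = e) (hf : f * f = f) : cls (bsum e f) = cls e + cls f := by
  rw [bsum, cls_reindex, cls_fromBlocks he hf]

/-- Additivity on orthogonal idempotents. -/
theorem cls_add {e f : Matrix ι ι R} (he : e * e = e) (hf : f * f = f) (h1 : e * f = 0)
    (h2 : f * e = 0) : cls (e + f) = cls e + cls f := by
  rw [← cls_fromBlocks he hf]
  refine cls_eqvIn ?_ (idem_fromBlocks he hf) (eqv_add he hf h1 h2 (ent_univ _) (ent_univ _))
  rw [add_mul, mul_add, mul_add, he, hf, h1, h2]; simp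

@[simp] theorem cls_zero : cls (0 : Matrix ι ι R) = 0 := by
  have h := cls_add (e := (0 : Matrix ι ι R)) (f := 0) (by simp) (by simp) (by simp) (by simp)
  rw [add_zero] at h
  exact left_eq_add.1 h

theorem cls_add_one_sub [DecidableEq ι] {e : Matrix ι ι R} (he : e * e = e) :
    cls e + cls (1 - e) = cls (1 : Matrix ι ι R) := by
  rw [← cls_add he (idem_one_sub he) (by rw [mul_sub, he]; simp) (by rw [sub_mul, he]; simp)]
  simp

theorem idem_of_unit [DecidableEq ι] {e f : Matrix ι ι R} (he : e * e = e) (u : (Matrix ι ι R)ˣ)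
    (h : e * u = u * f) : f * f = f := by
  refine (Units.mul_right_inj u).1 ?_
  rw [← mul_assoc, ← h, mul_assoc, ← h, ← mul_assoc, he]

/-- Invariance under similarity. -/
theorem cls_of_unit [DecidableEq ι] {e f : Matrix ι ι R} (he : e * e = e) (u : (Matrix ι ι R)ˣ)
    (h : e * u = u * f) : cls e = cls f := by
  obtain ⟨h1, h2⟩ := equiv_of_unit he u h
  exact cls_mvn he (idem_of_unit he u h) _ _ h1 h2

theorem cls_conj [DecidableEq ι] [DecidableEq κ] {e : Matrix ι ι R} (he : e * e = e)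
    (u : Matrix κ ι R) (v : Matrix ι κ R) (h : v * u = 1) : cls (u * e * v) = cls e := by
  have h1 : e * v * (u * e) = e := by
    rw [Matrix.mul_assoc, ← Matrix.mul_assoc v, h, Matrix.one_mul, he]
  have h2 : u * e * (e * v) = u * e * v := by
    rw [Matrix.mul_assoc, ← Matrix.mul_assoc e, he, Matrix.mul_assoc]
  refine (cls_mvn he ?_ (e * v) (u * e) h1 h2).symm
  rw [Matrix.mul_assoc (u * e) v, Matrix.mul_assoc u e v, ← Matrix.mul_assoc v, h, Matrix.one_mul,
    h2, Matrix.mul_assoc]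

theorem cls_one_add (k l : ℕ) : cls (1 : Matrix (Fin (k + l)) (Fin (k + l)) R) =
    cls (1 : Matrix (Fin k) (Fin k) R) + cls (1 : Matrix (Fin l) (Fin l) R) := by
  rw [← cls_bsum (one_mul 1) (one_mul 1), bsum, fromBlocks_one]; simp

theorem cls_one_eq [DecidableEq ι] :
    cls (1 : Matrix ι ι R) = cls (1 : Matrix (Fin (Fintype.card ι)) (Fin (Fintype.card ι)) R) := by
  rw [← cls_submatrix_equiv _ (Fintype.equivFin ι).symm, submatrix_one_equiv]

/-! ### Maps -/

@[simp] theorem K0.lift_mk {G : Type} [AddCommGroup G] (c : ∀ k, Idem R k → G) (h₁ h₂) {k : ℕ}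
    (e : Idem R k) : K0.lift c h₁ h₂ (K0.mk e) = c k e :=
  FreeAbelianGroup.lift_apply_of (fun e : Σ k, Idem R k => c e.1 e.2) ⟨k, e⟩

theorem K0.map_mk (φ : R →ₙ+* S) {k : ℕ} (e : Idem R k) :
    K0.map φ (K0.mk e) = K0.mk ⟨e.1.map φ, idem_map e.2 φ⟩ := K0.lift_mk _ _ _ e

theorem map_cls (φ : R →ₙ+* S) {e : Matrix ι ι R} (he : e * e = e) :
    K0.map φ (cls e) = cls (e.map φ) := by
  rw [cls_of_idem he, cls_of_idem (idem_map he φ), K0.map_mk]; rfl

theorem K0.induction_on {P : K0 R → Prop} (x : K0 R)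
    (h1 : ∀ (k : ℕ) (e : Matrix (Fin k) (Fin k) R), e * e = e → P (cls e))
    (h2 : ∀ x y, P x → P y → P (x - y)) : P x := by
  have h0 : P 0 := by simpa using h1 0 0 (by simp)
  have hn : ∀ x, P x → P (-x) := fun x hx => by simpa using h2 _ _ h0 hx
  obtain ⟨z, rfl⟩ := QuotientAddGroup.mk_surjective x
  induction z using FreeAbelianGroup.induction_on with
  | zero => exact h0
  | of e =>
    have := h1 e.1 e.2.1 e.2.2
    rw [cls_eq_mk] at this
    exact this
  | neg e h => exact hn _ h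
  | add x y hx hy =>
    have := h2 _ _ hx (hn _ hy)
    rwa [sub_neg_eq_add] at this

theorem K0.hom_ext {G : Type*} [AddGroup G] {f g : K0 R →+ G}
    (h : ∀ (k : ℕ) (e : Matrix (Fin k) (Fin k) R), e * e = e → f (cls e) = g (cls e)) : f = g :=
  AddMonoidHom.ext fun x => K0.induction_on (P := fun x => f x = g x) x h fun x y hx hy => by
    rw [map_sub, map_sub, hx, hy]

theorem K0.exists_sub (x : K0 R) : ∃ (k l : ℕ) (e : Matrix (Fin k) (Fin k) R)
    (f : Matrix (Fin l) (Fin l) R), e * e = e ∧ f * f = f ∧ x = cls e - cls f := by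
  refine K0.induction_on (P := fun x => ∃ (k l : ℕ) (e : Matrix (Fin k) (Fin k) R)
    (f : Matrix (Fin l) (Fin l) R), e * e = e ∧ f * f = f ∧ x = cls e - cls f) x
    (fun k e he => ⟨k, 0, e, 0, he, by simp, by simp⟩) ?_
  rintro _ _ ⟨k, l, e, f, he, hf, rfl⟩ ⟨k', l', e', f', he', hf', rfl⟩
  exact ⟨_, _, bsum e f', bsum f e', idem_bsum he hf', idem_bsum hf he', by
    rw [cls_bsum he hf', cls_bsum hf he']; abel⟩

theorem K0.exists_sub_one (x : K0 R) : ∃ (k l : ℕ) (e : Matrix (Fin k) (Fin k) R),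
    e * e = e ∧ x = cls e - cls (1 : Matrix (Fin l) (Fin l) R) := by
  obtain ⟨k, l, e, f, he, hf, rfl⟩ := x.exists_sub
  exact ⟨_, l, bsum e (1 - f), idem_bsum he (idem_one_sub hf), by
    rw [cls_bsum he (idem_one_sub hf), ← cls_add_one_sub hf]; abel⟩

theorem map_map (φ : R →ₙ+* S) (ψ : S →ₙ+* T) (x : K0 R) :
    K0.map ψ (K0.map φ x) = K0.map (ψ.comp φ) x := by
  have : (K0.map ψ).comp (K0.map φ) = K0.map (ψ.comp φ) := K0.hom_ext fun k e he => by
    rw [AddMonoidHom.comp_apply, map_cls _ he, map_cls _ (idem_map he φ), map_cls _ he]; rfl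
  exact DFunLike.congr_fun this x

theorem map_id (x : K0 R) : K0.map (NonUnitalRingHom.id R) x = x := by
  have : K0.map (NonUnitalRingHom.id R) = AddMonoidHom.id _ := K0.hom_ext fun k e he => by
    rw [map_cls _ he]; rfl
  exact DFunLike.congr_fun this x

theorem map_congr {φ ψ : R →ₙ+* S} (h : ∀ r, φ r = ψ r) (x : K0 R) : K0.map φ x = K0.map ψ x := by
  rw [NonUnitalRingHom.ext h]

/-- Maps related by `φ r = x r y`-type conjugation inside `S` agree on `K0`:
`φ r = v ψ r w` with `w v ψ r = ψ r`. -/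
theorem map_eq_of_conj {φ ψ : R →ₙ+* S} (v w : S) (h : ∀ r, φ r = v * ψ r * w)
    (h' : ∀ r, w * v * ψ r = ψ r) (x : K0 R) : K0.map φ x = K0.map ψ x := by
  have : K0.map φ = K0.map ψ := K0.hom_ext fun k e he => by
    rw [map_cls _ he, map_cls _ he]
    refine cls_mvn (idem_map he φ) (idem_map he ψ) (of fun i j => v * ψ (e i j))
      (of fun i j => ψ (e i j) * w) ?_ ?_
    · ext i j
      have h1 : e i j = ∑ l, e i l * e l j := by rw [← mul_apply, he]
      simp only [mul_apply, of_apply, map_apply]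
      rw [h, h1, map_sum, Finset.mul_sum, Finset.sum_mul]
      simp only [map_mul, mul_assoc]
    · ext i j
      have h1 : e i j = ∑ l, e i l * e l j := by rw [← mul_apply, he]
      simp only [mul_apply, of_apply, map_apply]
      rw [h1, map_sum]
      refine Finset.sum_congr rfl fun l _ => ?_
      rw [map_mul, mul_assoc, ← mul_assoc w, h']
  rw [this]

/-- A sum of two maps with orthogonal images induces the sum of the maps. -/
theorem map_eq_add {φ ψ χ : R →ₙ+* S} (h : ∀ r, χ r = φ r + ψ r) (h1 : ∀ r s, φ r * ψ s = 0)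
    (h2 : ∀ r s, ψ r * φ s = 0) (x : K0 R) : K0.map χ x = K0.map φ x + K0.map ψ x := by
  have : K0.map χ = K0.map φ + K0.map ψ := K0.hom_ext fun k e he => by
    rw [AddMonoidHom.add_apply, map_cls _ he, map_cls _ he, map_cls _ he,
      ← cls_add (idem_map he φ) (idem_map he ψ)]
    · congr 1; ext i j; simp [h]
    · ext i j; simp [mul_apply, h1]
    · ext i j; simp [mul_apply, h2]
  rw [this]; rfl

/-! ### Equality in `K0` is stable equivalence -/

section Stable
variable (R)

private def vset : Setoid (Σ k, Idem R k) where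
  r a b := EqvIn ((⊤ : Subring R) : Set R) a.2.1 b.2.1
  iseqv := ⟨fun a => EqvIn.refl a.2.2 fun _ _ => trivial, EqvIn.symm,
    fun {a _ c} h h' => EqvIn.trans a.2.2 c.2.2 h h'⟩

private def V : Type := Quotient (vset R)

variable {R}

private theorem ent_top {ι κ : Type} (x : Matrix ι κ R) : Ent ((⊤ : Subring R) : Set R) x :=
  fun _ _ => trivial

private theorem eqv_bsum {k l : ℕ} {e : Matrix (Fin k) (Fin k) R} {f : Matrix (Fin l) (Fin l) R}
    (he : e * e = e) (hf : f * f = f) :
    EqvIn ((⊤ : Subring R) : Set R) (fromBlocks e 0 0 f) (bsum e f) :=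
  eqv_submatrix (idem_fromBlocks he hf) (ent_top _) finSumFinEquiv.symm

private def vadd (a b : Σ k, Idem R k) : Σ k, Idem R k :=
  ⟨a.1 + b.1, bsum a.2.1 b.2.1, idem_bsum a.2.2 b.2.2⟩

private def vmk (a : Σ k, Idem R k) : V R := Quotient.mk (vset R) a

private def vplus : V R → V R → V R :=
  Quotient.map₂ (sa := vset R) (sb := vset R) (sc := vset R) vadd fun a a' h b b' h' =>
    EqvIn.trans (idem_bsum a.2.2 b.2.2) (idem_bsum a'.2.2 b'.2.2) (eqv_bsum a.2.2 b.2.2).symm
      (EqvIn.trans (idem_fromBlocks a.2.2 b.2.2) (idem_bsum a'.2.2 b'.2.2) (eqv_fromBlocks h h')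
        (eqv_bsum a'.2.2 b'.2.2))

private theorem vplus_comm (a b : V R) : vplus a b = vplus b a := by
  induction a using Quotient.inductionOn with | _ a
  induction b using Quotient.inductionOn with | _ b
  refine Quotient.sound (s := vset R) ?_
  have h := eqv_submatrix (idem_bsum a.2.2 b.2.2) (ent_top _)
    (finSumFinEquiv.symm.trans ((Equiv.sumComm _ _).trans finSumFinEquiv))
  change EqvIn _ (bsum a.2.1 b.2.1) (bsum b.2.1 a.2.1)
  convert h using 1
  ext i j
  obtain ⟨i, rfl⟩ := finSumFinEquiv.surjective i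
  obtain ⟨j, rfl⟩ := finSumFinEquiv.surjective j
  rcases i with i | i <;> rcases j with j | j <;> simp [bsum]

private theorem vplus_assoc (a b c : V R) : vplus (vplus a b) c = vplus a (vplus b c) := by
  induction a using Quotient.inductionOn with | _ a
  induction b using Quotient.inductionOn with | _ b
  induction c using Quotient.inductionOn with | _ c
  refine Quotient.sound (s := vset R) ?_
  change EqvIn _ (bsum (bsum a.2.1 b.2.1) c.2.1) (bsum a.2.1 (bsum b.2.1 c.2.1))
  have ab := idem_bsum a.2.2 b.2.2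
  have bc := idem_bsum b.2.2 c.2.2
  have i1 := idem_fromBlocks (idem_fromBlocks a.2.2 b.2.2) c.2.2
  have i2 := idem_fromBlocks a.2.2 (idem_fromBlocks b.2.2 c.2.2)
  have h1 := EqvIn.trans i1 (idem_bsum ab c.2.2)
    (eqv_fromBlocks (eqv_bsum a.2.2 b.2.2) (EqvIn.refl c.2.2 (ent_top _))) (eqv_bsum ab c.2.2)
  have h2 := EqvIn.trans i2 (idem_bsum a.2.2 bc)
    (eqv_fromBlocks (EqvIn.refl a.2.2 (ent_top _)) (eqv_bsum b.2.2 c.2.2)) (eqv_bsum a.2.2 bc)
  have h3 := eqv_submatrix i2 (ent_top _) (Equiv.sumAssoc _ _ _)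
  refine EqvIn.trans (idem_bsum ab c.2.2) (idem_bsum a.2.2 bc) h1.symm
    (EqvIn.trans i1 (idem_bsum a.2.2 bc) ?_ h2)
  convert h3.symm using 1
  ext ((i | i) | i) ((j | j) | j) <;> rfl

private theorem vplus_zero (a : V R) : vplus a (vmk ⟨0, 0, by simp⟩) = a := by
  induction a using Quotient.inductionOn with | _ a
  refine Quotient.sound (s := vset R) ?_
  change EqvIn _ (bsum a.2.1 (0 : Matrix (Fin 0) (Fin 0) R)) a.2.1
  have h := eqv_submatrix a.2.2 (ent_top _)
    ((finSumFinEquiv (n := 0)).symm.trans (Equiv.sumEmpty (Fin a.1) (Fin 0)))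
  convert h.symm using 1
  ext i j
  obtain ⟨i, rfl⟩ := finSumFinEquiv.surjective i
  obtain ⟨j, rfl⟩ := finSumFinEquiv.surjective j
  rcases i with i | i
  · rcases j with j | j
    · simp [bsum]
    · exact j.elim0
  · exact i.elim0

private instance : AddCommMonoid (V R) where
  add := vplus
  zero := vmk ⟨0, 0, by simp⟩
  add_assoc := vplus_assoc
  add_zero := vplus_zero
  zero_add a := (vplus_comm _ a).trans (vplus_zero a)
  add_comm := vplus_comm
  nsmul := @nsmulRec _ ⟨vmk ⟨0, 0, by simp⟩⟩ ⟨vplus⟩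

private theorem stable_mk {k l : ℕ} (e : Idem R k) (f : Idem R l) (h : K0.mk e = K0.mk f) :
    ∃ (m : ℕ) (g : Idem R m), EqvIn ((⊤ : Subring R) : Set R) (bsum e.1 g.1) (bsum f.1 g.1) := by
  let Φ : K0 R →+ Algebra.GrothendieckAddGroup (V R) :=
    K0.lift (fun k e => Algebra.GrothendieckAddGroup.of (vmk ⟨k, e⟩))
      (fun k l e f x y h1 h2 => congrArg _
        (Quotient.sound (s := vset R) ⟨x, y, ent_top _, ent_top _, h1, h2⟩))
      (fun k l e f g h => by
        rw [← map_add]
        obtain ⟨g, hg⟩ := g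
        dsimp only at h
        subst h
        rfl)
  have h1 : Φ (K0.mk e) = Φ (K0.mk f) := by rw [h]
  simp only [Φ, K0.lift_mk] at h1
  obtain ⟨⟨c, hc0⟩, hc⟩ := (AddLocalization.addMonoidOf (⊤ : AddSubmonoid (V R))).eq_iff_exists.1 h1
  induction c using Quotient.inductionOn with | _ c
  dsimp only at hc
  rw [add_comm, add_comm _ (vmk ⟨l, f⟩)] at hc
  exact ⟨c.1, c.2, Quotient.exact (s := vset R) hc⟩

/-- Equal classes are stably equivalent. -/
theorem stable {e : Matrix ι ι R} {f : Matrix κ κ R} (he : e * e = e) (hf : f * f = f)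
    (h : cls e = cls f) : ∃ m : ℕ, EqvIn Set.univ
      (fromBlocks e 0 0 (1 : Matrix (Fin m) (Fin m) R))
      (fromBlocks f 0 0 (1 : Matrix (Fin m) (Fin m) R)) := by
  rw [cls_of_idem he, cls_of_idem hf] at h
  obtain ⟨m, ⟨g, hg⟩, h1⟩ := stable_mk _ _ h
  dsimp only at h1
  refine ⟨m, ?_⟩
  have hg' := idem_one_sub hg
  have o1 : (1 : Matrix (Fin m) (Fin m) R) * 1 = 1 := one_mul 1
  have key : ∀ {ι : Type} [Fintype ι] {e : Matrix ι ι R}, e * e = e →
      EqvIn ((⊤ : Subring R) : Set R) (fromBlocks e 0 0 (1 : Matrix (Fin m) (Fin m) R))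
        (fromBlocks (bsum (e.submatrix (Fintype.equivFin ι).symm (Fintype.equivFin ι).symm) g) 0 0
          (1 - g)) := by
    intro ι _ e he
    have he' := idem_submatrix he (Fintype.equivFin ι).symm
    have a1 : EqvIn ((⊤ : Subring R) : Set R) (1 : Matrix (Fin m) (Fin m) R)
        (fromBlocks g 0 0 (1 - g)) := by
      have := eqv_add hg hg' (by rw [mul_sub, hg]; simp) (by rw [sub_mul, hg]; simp)
        (ent_top g) (ent_top _)
      rwa [add_sub_cancel] at this
    have a2 := eqv_fromBlocks (eqv_submatrix he (ent_top _) (Fintype.equivFin ι).symm) a1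
    have i2 := idem_fromBlocks he' (idem_fromBlocks hg hg')
    have i3 := idem_fromBlocks (idem_fromBlocks he' hg) hg'
    have i4 := idem_fromBlocks (idem_bsum he' hg) hg'
    have a3 := eqv_submatrix i2 (ent_top _) (Equiv.sumAssoc _ _ _)
    have a4 := eqv_fromBlocks (eqv_bsum he' hg) (EqvIn.refl hg' (ent_top _))
    refine EqvIn.trans (idem_fromBlocks he o1) i4 a2 (EqvIn.trans i2 i4 ?_ a4)
    convert a3 using 1
    ext ((i | i) | i) ((j | j) | j) <;> rfl
  have i1 := idem_fromBlocks (idem_bsum (idem_submatrix he (Fintype.equivFin ι).symm) hg) hg'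
  exact EqvIn.trans (A := (⊤ : Subring R)) (idem_fromBlocks he o1) (idem_fromBlocks hf o1) (key he)
    (EqvIn.trans i1 (idem_fromBlocks hf o1) (eqv_fromBlocks h1 (EqvIn.refl hg' (ent_top _)))
      (key hf).symm)

end Stable

/-! ### Matrices over matrices -/

omit [Fintype ι] [Fintype μ] in
theorem comp_mul' {n p q : Type} [Fintype p] (x : Matrix ι κ (Matrix n p R))
    (y : Matrix κ μ (Matrix p q R)) :
    comp ι κ n p R x * comp κ μ p q R y =
      comp ι μ n q R (of fun i j => ∑ l, x i l * y l j) := by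
  ext ⟨i, a⟩ ⟨j, b⟩
  simp [mul_apply, Fintype.sum_prod_type, Matrix.sum_apply]

omit [Fintype ι] [Fintype μ] in
theorem comp_mul {n : Type} [Fintype n] [DecidableEq n] (x : Matrix ι κ (Matrix n n R))
    (y : Matrix κ μ (Matrix n n R)) :
    comp ι κ n n R x * comp κ μ n n R y = comp ι μ n n R (x * y) := comp_mul' x y

/-- The map `K0 (M_n R) → K0 R` that forgets the block structure. -/
def flatten (n : Type) [Fintype n] [DecidableEq n] : K0 (Matrix n n R) →+ K0 R :=
  K0.lift (fun _ e => cls (comp _ _ n n R e.1))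
    (fun _ _ e f x y h1 h2 => cls_mvn (by rw [comp_mul, e.2]) (by rw [comp_mul, f.2])
      (comp _ _ n n R x) (comp _ _ n n R y) (by rw [comp_mul, h1]) (by rw [comp_mul, h2]))
    (fun k l e f g h => by
      rw [← cls_fromBlocks (by rw [comp_mul, e.2]) (by rw [comp_mul, f.2]), h,
        ← cls_submatrix_equiv _ ((Equiv.sumProdDistrib (Fin k) (Fin l) n).symm.trans
          (finSumFinEquiv.prodCongr (Equiv.refl n)))]
      congr 1
      ext (⟨i, a⟩ | ⟨i, a⟩) (⟨j, b⟩ | ⟨j, b⟩) <;> simp [bsum])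

theorem flatten_cls {n : Type} [Fintype n] [DecidableEq n] {e : Matrix ι ι (Matrix n n R)}
    (he : e * e = e) : flatten n (cls e) = cls (comp ι ι n n R e) := by
  rw [cls_of_idem he, flatten, K0.lift_mk,
    ← cls_submatrix_equiv (comp ι ι n n R e) ((Fintype.equivFin ι).symm.prodCongr (Equiv.refl n))]
  rfl

/-- The class of a single idempotent. -/
def cls1 (p : R) : K0 R := cls (of fun _ _ : Unit => p)

theorem flatten_cls1 {n : Type} [Fintype n] [DecidableEq n] {p : Matrix n n R} (hp : p * p = p) :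
    flatten n (cls1 p) = cls p := by
  rw [cls1, flatten_cls (by ext _ _; simp [mul_apply, hp]),
    ← cls_submatrix_equiv p (Equiv.uniqueProd n Unit)]
  rfl

/-! ### Classes over a subring -/

section Rel
variable {B : Type} [Ring B]

open Classical in
/-- The class in `K0 A` of a matrix over `B` with entries in the subring `A`. -/
def rcls (A : Subring B) (e : Matrix ι ι B) : K0 A :=
  if h : Ent (A : Set B) e then cls (of fun i j => (⟨e i j, h i j⟩ : A)) else 0

variable {A : Subring B}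

omit [Fintype ι] [Fintype κ] in
theorem exists_lift {x : Matrix ι κ B} (h : Ent (A : Set B) x) :
    ∃ x' : Matrix ι κ A, x'.map (↑) = x := ⟨of fun i j => ⟨x i j, h i j⟩, rfl⟩

omit [Fintype ι] [Fintype κ] in
theorem ent_map_val (x : Matrix ι κ A) : Ent (A : Set B) (x.map (↑)) := fun i j => (x i j).2

omit [Fintype ι] [Fintype κ] in
theorem map_val_inj {x y : Matrix ι κ A} (h : x.map ((↑) : A → B) = y.map (↑)) : x = y :=
  map_injective Subtype.val_injective h

omit [Fintype ι] [Fintype μ] in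
theorem map_val_mul (x : Matrix ι κ A) (y : Matrix κ μ A) :
    (x * y).map ((↑) : A → B) = x.map ((↑) : A → B) * y.map ((↑) : A → B) :=
  Matrix.map_mul (f := A.subtype)

theorem rcls_map_val (e : Matrix ι ι A) : rcls A (e.map (↑)) = cls e := dif_pos (ent_map_val e)

theorem idem_of_val {e : Matrix ι ι A}
    (h : e.map ((↑) : A → B) * e.map ((↑) : A → B) = e.map ((↑) : A → B)) :
    e * e = e := map_val_inj (by rw [map_val_mul, h])

theorem rcls_eq_of_EqvIn {e : Matrix ι ι B} {f : Matrix κ κ B} (he : e * e = e) (hf : f * f = f)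
    (h : EqvIn (A : Set B) e f) : rcls A e = rcls A f := by
  obtain ⟨x, y, hx, hy, h1, h2⟩ := h
  obtain ⟨x, rfl⟩ := exists_lift hx
  obtain ⟨y, rfl⟩ := exists_lift hy
  rw [← map_val_mul] at h1 h2
  subst h1 h2
  rw [rcls_map_val, rcls_map_val]
  exact cls_mvn (idem_of_val he) (idem_of_val hf) x y rfl rfl

theorem rcls_submatrix_equiv (e : Matrix ι ι B) (s : κ ≃ ι) :
    rcls A (e.submatrix s s) = rcls A e := by
  by_cases h : Ent (A : Set B) e
  · obtain ⟨e, rfl⟩ := exists_lift h
    rw [submatrix_map, rcls_map_val, rcls_map_val, cls_submatrix_equiv]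
  · rw [rcls, rcls, dif_neg h, dif_neg]
    intro h'
    exact h fun i j => by simpa using h' (s.symm i) (s.symm j)

theorem rcls_fromBlocks {e : Matrix ι ι B} {f : Matrix κ κ B} (he : e * e = e) (hf : f * f = f)
    (heA : Ent (A : Set B) e) (hfA : Ent (A : Set B) f) :
    rcls A (fromBlocks e 0 0 f) = rcls A e + rcls A f := by
  obtain ⟨e, rfl⟩ := exists_lift heA
  obtain ⟨f, rfl⟩ := exists_lift hfA
  rw [rcls_map_val, rcls_map_val, ← cls_fromBlocks (idem_of_val he) (idem_of_val hf),
    ← rcls_map_val]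
  congr 1
  ext (i | i) (j | j) <;> rfl

theorem rcls_add {e f : Matrix ι ι B} (he : e * e = e) (hf : f * f = f) (h1 : e * f = 0)
    (h2 : f * e = 0) (heA : Ent (A : Set B) e) (hfA : Ent (A : Set B) f) :
    rcls A (e + f) = rcls A e + rcls A f := by
  rw [← rcls_fromBlocks he hf heA hfA]
  refine rcls_eq_of_EqvIn ?_ (idem_fromBlocks he hf) (eqv_add he hf h1 h2 heA hfA)
  rw [add_mul, mul_add, mul_add, he, hf, h1, h2]; simp

@[simp] theorem rcls_zero : rcls A (0 : Matrix ι ι B) = 0 := by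
  have : (0 : Matrix ι ι B) = (0 : Matrix ι ι A).map (↑) := by ext; simp
  rw [this, rcls_map_val, cls_zero]

theorem rcls_one [DecidableEq ι] : rcls A (1 : Matrix ι ι B) = cls (1 : Matrix ι ι A) := by
  rw [← rcls_map_val, Matrix.map_one _ rfl rfl]

theorem rcls_add_one_sub [DecidableEq ι] {e : Matrix ι ι B} (he : e * e = e)
    (heA : Ent (A : Set B) e) : rcls A e + rcls A (1 - e) = rcls A (1 : Matrix ι ι B) := by
  rw [← rcls_add he (idem_one_sub he) (by rw [mul_sub, he]; simp) (by rw [sub_mul, he]; simp) heA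
    (ent_one.sub heA)]
  simp

theorem rcls_of_unit [DecidableEq ι] {e f : Matrix ι ι B} (he : e * e = e)
    (heA : Ent (A : Set B) e) (u : (Matrix ι ι B)ˣ) (hu : Ent (A : Set B) ((u : Matrix ι ι B) - 1))
    (hu' : Ent (A : Set B) ((↑u⁻¹ : Matrix ι ι B) - 1)) (h : e * u = u * f) :
    rcls A e = rcls A f :=
  rcls_eq_of_EqvIn he (idem_of_unit he u h) (eqvIn_of_unit he heA u hu hu' h)

/-- Image of a relative class under a homomorphism `φ` defined on `A` by the formula `ψ`. -/
theorem map_rcls (φ : A →ₙ+* S) (ψ : B → S) (h : ∀ a : A, φ a = ψ a) {e : Matrix ι ι B}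
    (he : e * e = e) (heA : Ent (A : Set B) e) : K0.map φ (rcls A e) = cls (e.map ψ) := by
  obtain ⟨e, rfl⟩ := exists_lift heA
  rw [rcls_map_val, map_cls _ (idem_of_val he)]
  congr 1
  ext i j
  exact h _

/-- Image of a relative class under a homomorphism between subrings. -/
theorem map_rcls_rcls {B' : Type} [Ring B'] {A' : Subring B'} (φ : A →ₙ+* A') (ψ : B → B')
    (h : ∀ a : A, (φ a : B') = ψ a) {e : Matrix ι ι B} (he : e * e = e)
    (heA : Ent (A : Set B) e) : K0.map φ (rcls A e) = rcls A' (e.map ψ) := by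
  obtain ⟨e, rfl⟩ := exists_lift heA
  rw [rcls_map_val, map_cls _ (idem_of_val he), ← rcls_map_val]
  congr 1
  ext i j
  exact h _

/-- Image of a class under a homomorphism into a subring. -/
theorem map_cls_rcls (φ : R →ₙ+* A) {e : Matrix ι ι R} (he : e * e = e) :
    K0.map φ (cls e) = rcls A (e.map fun r => (φ r : B)) := by
  rw [map_cls _ he, ← rcls_map_val]; rfl

theorem map_subtype_rcls {e : Matrix ι ι B} (he : e * e = e) (heA : Ent (A : Set B) e) :
    K0.map (A.subtype : A →ₙ+* B) (rcls A e) = cls e :=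
  map_rcls _ id (fun _ => rfl) he heA

theorem map_inclusion_rcls {A' : Subring B} (h : A ≤ A') {e : Matrix ι ι B} (he : e * e = e)
    (heA : Ent (A : Set B) e) :
    K0.map (Subring.inclusion h : A →ₙ+* A') (rcls A e) = rcls A' e :=
  map_rcls_rcls _ id (fun _ => rfl) he heA

theorem rcls_mono {A' : Subring B} (h : A ≤ A') {e : Matrix ι ι B} {f : Matrix κ κ B}
    (he : e * e = e) (hf : f * f = f) (heA : Ent (A : Set B) e) (hfA : Ent (A : Set B) f)
    (hef : rcls A e = rcls A f) : rcls A' e = rcls A' f := by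
  rw [← map_inclusion_rcls h he heA, ← map_inclusion_rcls h hf hfA, hef]

theorem cls_eq_of_rcls {e : Matrix ι ι B} {f : Matrix κ κ B} (he : e * e = e) (hf : f * f = f)
    (heA : Ent (A : Set B) e) (hfA : Ent (A : Set B) f) (hef : rcls A e = rcls A f) :
    cls e = cls f := by
  rw [← map_subtype_rcls he heA, ← map_subtype_rcls hf hfA, hef]

theorem rcls_stable {e : Matrix ι ι B} {f : Matrix κ κ B} (he : e * e = e) (hf : f * f = f)
    (heA : Ent (A : Set B) e) (hfA : Ent (A : Set B) f) (h : rcls A e = rcls A f) :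
    ∃ m : ℕ, EqvIn (A : Set B) (fromBlocks e 0 0 (1 : Matrix (Fin m) (Fin m) B))
      (fromBlocks f 0 0 (1 : Matrix (Fin m) (Fin m) B)) := by
  obtain ⟨e, rfl⟩ := exists_lift heA
  obtain ⟨f, rfl⟩ := exists_lift hfA
  rw [rcls_map_val, rcls_map_val] at h
  obtain ⟨m, x, y, -, -, h1, h2⟩ := stable (idem_of_val he) (idem_of_val hf) h
  refine ⟨m, x.map (↑), y.map (↑), ent_map_val _, ent_map_val _, ?_, ?_⟩
  · rw [← map_val_mul, h1, fromBlocks_map, Matrix.map_one _ rfl rfl]; rfl
  · rw [← map_val_mul, h2, fromBlocks_map, Matrix.map_one _ rfl rfl]; rfl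

theorem rcls_eq_of_stable [DecidableEq μ] {e : Matrix ι ι B} {f : Matrix κ κ B} (he : e * e = e)
    (hf : f * f = f) (heA : Ent (A : Set B) e) (hfA : Ent (A : Set B) f)
    (h : EqvIn (A : Set B) (fromBlocks e 0 0 (1 : Matrix μ μ B))
      (fromBlocks f 0 0 (1 : Matrix μ μ B))) : rcls A e = rcls A f := by
  have h1 := rcls_eq_of_EqvIn (idem_fromBlocks he (one_mul 1)) (idem_fromBlocks hf (one_mul 1)) h
  rw [rcls_fromBlocks he (one_mul 1) heA ent_one, rcls_fromBlocks hf (one_mul 1) hfA ent_one] at h1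
  exact add_right_cancel h1

theorem K0.exists_rcls (x : K0 A) : ∃ (k l : ℕ) (e : Matrix (Fin k) (Fin k) B),
    e * e = e ∧ Ent (A : Set B) e ∧ x = rcls A e - rcls A (1 : Matrix (Fin l) (Fin l) B) := by
  obtain ⟨k, l, e, he, rfl⟩ := x.exists_sub_one
  exact ⟨k, l, e.map (↑), by rw [← map_val_mul, he], ent_map_val e, by
    rw [rcls_map_val, rcls_one]⟩

end Rel

/-! ### Banach algebras -/

section Banach
variable {B : Type} [NormedRing B] [NormedAlgebra ℝ B] [CompleteSpace B] [DecidableEq ι]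
  [DecidableEq κ]

omit [NormedAlgebra ℝ B] in
/-- Homotopy invariance. -/
theorem cls_path {X : Type*} [TopologicalSpace X] [PreconnectedSpace X] {e : X → Matrix ι ι B}
    (he : Continuous e) (hi : ∀ x, e x * e x = e x) (x y : X) : cls (e x) = cls (e y) := by
  obtain ⟨u, -, -, h⟩ := path_similarM he hi ⊤ (fun _ _ _ _ => TwoSidedIdeal.mem_top _) x y
  exact cls_of_unit (hi x) u h

/-- Homotopy invariance inside a closed subalgebra. -/
theorem rcls_path {X : Type*} [TopologicalSpace X] [PreconnectedSpace X] {e : X → Matrix ι ι B}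
    (he : Continuous e) (hi : ∀ x, e x * e x = e x) (A : Subalgebra ℝ B)
    (hA : IsClosed (A : Set B)) (h : ∀ x, Ent (A : Set B) (e x)) (x y : X) :
    rcls A.toSubring (e x) = rcls A.toSubring (e y) :=
  rcls_eq_of_EqvIn (hi x) (hi y) (path_eqvIn he hi A.toNonUnitalSubalgebra hA h x y)

omit [NormedAlgebra ℝ B] in
/-- Homotopy invariance relative to an ideal `I` contained in the subring `A`. -/
theorem rcls_path_ideal {X : Type*} [TopologicalSpace X] [PreconnectedSpace X]
    {e : X → Matrix ι ι B} (he : Continuous e) (hi : ∀ x, e x * e x = e x) (I : TwoSidedIdeal B)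
    (A : Subring B) (hIA : (I : Set B) ⊆ A) (h : ∀ x y, Ent (I : Set B) (e x - e y)) (x y : X)
    (hx : Ent (A : Set B) (e x)) : rcls A (e x) = rcls A (e y) := by
  obtain ⟨u, h1, h2, h3⟩ := path_similarM he hi I h x y
  exact rcls_of_unit (hi x) hx u (h1.mono hIA) (h2.mono hIA) h3

theorem eventually_cls_eq {e : Matrix ι ι B} (he : e * e = e) :
    ∀ᶠ f in nhds e, f * f = f → cls e = cls f :=
  (eventually_similar he).mono fun _ h hf => by
    obtain ⟨u, h1, -⟩ := h hf
    exact cls_of_unit he u h1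

theorem eventually_rcls_eq {e : Matrix ι ι B} (he : e * e = e) :
    ∀ᶠ f in nhds e, f * f = f → ∀ A : Subalgebra ℝ B, IsClosed (A : Set B) →
      Ent (A : Set B) e → Ent (A : Set B) f → rcls A.toSubring e = rcls A.toSubring f :=
  (eventually_eqvIn he).mono fun _ h hf A hA h1 h2 =>
    rcls_eq_of_EqvIn he hf (h hf A.toNonUnitalSubalgebra hA h1 h2)

/-- K4, injectivity: an equality of classes over `D` already holds over a member of a directed
family of closed subalgebras whose union is dense in `D`. -/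
theorem rcls_inj_dense {τ : Type*} (A : τ → Subalgebra ℝ B) (hd : Directed (· ≤ ·) A)
    (hA : ∀ i, IsClosed (A i : Set B)) (D : Subring B)
    (hD : (D : Set B) ⊆ closure (⋃ i, (A i : Set B))) {i : τ} {e : Matrix ι ι B}
    {f : Matrix κ κ B} (he : e * e = e) (hf : f * f = f) (heA : Ent (A i : Set B) e)
    (hfA : Ent (A i : Set B) f) (heD : Ent (D : Set B) e) (hfD : Ent (D : Set B) f)
    (h : rcls D e = rcls D f) :
    ∃ j, A i ≤ A j ∧ rcls (A j).toSubring e = rcls (A j).toSubring f := by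
  obtain ⟨m, hm⟩ := rcls_stable he hf heD hfD h
  obtain ⟨j, hj, h2⟩ := inj_dense (fun i => (A i).toNonUnitalSubalgebra) (fun i j => hd i j) hA
    (i := i) (idem_fromBlocks he (one_mul 1)) (idem_fromBlocks hf (one_mul 1))
    (ent_fromBlocks heA (ent_zero (A := A i)) (ent_zero (A := A i)) (ent_one (A := A i)))
    (ent_fromBlocks hfA (ent_zero (A := A i)) (ent_zero (A := A i)) (ent_one (A := A i)))
    (hm.mono hD)
  exact ⟨j, hj, rcls_eq_of_stable he hf (heA.mono hj) (hfA.mono hj) h2⟩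

/-- K4, surjectivity. -/
theorem rcls_surj_dense {τ : Type*} [Nonempty τ] (A : τ → NonUnitalSubalgebra ℝ B)
    (hd : Directed (· ≤ ·) A) (hA : ∀ i, IsClosed (A i : Set B)) (D : NonUnitalSubalgebra ℝ B)
    (hDc : IsClosed (D : Set B)) (hAD : ∀ i, A i ≤ D)
    (hD : (D : Set B) ⊆ closure (⋃ i, (A i : Set B))) (D' : Subring B) (hDD : (D : Set B) ⊆ D')
    {e : Matrix ι ι B} (he : e * e = e) (heD : Ent (D : Set B) e) :
    ∃ i, ∃ f : Matrix ι ι B, f * f = f ∧ Ent (A i : Set B) f ∧ rcls D' e = rcls D' f := by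
  obtain ⟨i, f, h1, h2, h3⟩ := surj_dense A hd hA D hDc hAD hD he heD
  exact ⟨i, f, h1, h2, rcls_eq_of_EqvIn he h1 (h3.mono hDD)⟩

end Banach

end Pool.Agent.Lib.BCH
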