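import Pool.Agent.Lib.SD.Defs

/-! Twisted convolution operators on square summable functions with values in a Banach space. -/

set_option linter.unusedSectionVars false

noncomputable section
open Finset Filter Topology

namespace BCO

variable (G : Type) [Group G]

/-- Square summable functions on `G` with values in `E`. -/
abbrev V (E : Type) [NormedAddCommGroup E] : Type := lp (fun _ : G => E) 2

variable {G} {E F H : Type} [NormedAddCommGroup E] [NormedSpace ℝ E] [NormedAddCommGroup F]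
  [NormedSpace ℝ F] [NormedAddCommGroup H] [NormedSpace ℝ H]

omit [NormedSpace ℝ E] in
theorem memLp_shift (g : G) (ξ : V G E) : Memℓp (fun x => ξ (g⁻¹ * x)) 2 :=
  memℓp_gen (((lp.memℓp ξ).summable (by norm_num)).comp_injective (mul_right_injective g⁻¹))

/-- Left translation. -/
def shift (g : G) (ξ : V G E) : V G E := ⟨fun x => ξ (g⁻¹ * x), memLp_shift g ξ⟩

omit [NormedSpace ℝ E] in
theorem norm_shift (g : G) (ξ : V G E) : ‖shift g ξ‖ = ‖ξ‖ := by
  rw [lp.norm_eq_tsum_rpow (by norm_num), lp.norm_eq_tsum_rpow (by norm_num)]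
  congr 1
  exact (Equiv.mulLeft g⁻¹).tsum_eq fun x => ‖ξ x‖ ^ (2 : ENNReal).toReal

/-- Left translation as an operator. -/
def lam (g : G) : V G E →L[ℝ] V G E :=
  LinearMap.mkContinuous ⟨⟨shift g, fun _ _ => rfl⟩, fun _ _ => rfl⟩ 1 fun ξ => by
    rw [one_mul]; exact (norm_shift g ξ).le

@[simp] theorem lam_apply (g : G) (ξ : V G E) (x : G) : lam g ξ x = ξ (g⁻¹ * x) := rfl

theorem norm_lam_apply (g : G) (ξ : V G E) : ‖lam g ξ‖ = ‖ξ‖ := norm_shift g ξ

variable (G) in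
/-- An operator applied pointwise. -/
def amp (T : E →L[ℝ] F) : V G E →L[ℝ] V G F :=
  lp.mapCLM 2 (fun _ => T) (norm_nonneg T) fun _ => le_rfl

@[simp] theorem amp_apply (T : E →L[ℝ] F) (ξ : V G E) (x : G) : amp G T ξ x = T (ξ x) := rfl

theorem norm_amp_le (T : E →L[ℝ] F) : ‖amp G T‖ ≤ ‖T‖ := lp.norm_mapCLM_le _ _ _ _

/-- The operator `λ(g) ⊗ T`. -/
def tw (g : G) (T : E →L[ℝ] F) : V G E →L[ℝ] V G F := (amp G T).comp (lam g)

@[simp] theorem tw_apply (g : G) (T : E →L[ℝ] F) (ξ : V G E) (x : G) :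
    tw g T ξ x = T (ξ (g⁻¹ * x)) := rfl

theorem op_ext {A B : V G E →L[ℝ] V G F} (h : ∀ ξ x, A ξ x = B ξ x) : A = B :=
  ContinuousLinearMap.ext fun ξ => lp.ext (funext (h ξ))

theorem norm_tw_le (g : G) (T : E →L[ℝ] F) : ‖tw g T‖ ≤ ‖T‖ :=
  ContinuousLinearMap.opNorm_le_bound _ (norm_nonneg _) fun ξ =>
    ((amp G T).le_opNorm (lam g ξ)).trans (by
      rw [norm_lam_apply]; exact mul_le_mul_of_nonneg_right (norm_amp_le T) (norm_nonneg _))

theorem tw_one (T : E →L[ℝ] F) : tw (1 : G) T = amp G T := op_ext fun _ _ => by simp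

theorem tw_id (g : G) : tw g (1 : E →L[ℝ] E) = lam g := op_ext fun _ _ => rfl

theorem tw_comp (g h : G) (T : F →L[ℝ] H) (S : E →L[ℝ] F) :
    (tw g T).comp (tw h S) = tw (g * h) (T.comp S) := op_ext fun _ _ => by simp [mul_assoc]

theorem tw_mul (g h : G) (T S : E →L[ℝ] E) : tw g T * tw h S = tw (g * h) (T * S) :=
  tw_comp g h T S

theorem amp_comp (T : F →L[ℝ] H) (S : E →L[ℝ] F) :
    (amp G T).comp (amp G S) = amp G (T.comp S) := op_ext fun _ _ => rfl

theorem amp_comp_tw (g : G) (T : F →L[ℝ] H) (S : E →L[ℝ] F) :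
    (amp G T).comp (tw g S) = tw g (T.comp S) := op_ext fun _ _ => rfl

theorem tw_comp_amp (g : G) (T : F →L[ℝ] H) (S : E →L[ℝ] F) :
    (tw g T).comp (amp G S) = tw g (T.comp S) := op_ext fun _ _ => rfl

theorem amp_mul_tw (g : G) (T S : E →L[ℝ] E) : amp G T * tw g S = tw g (T * S) :=
  amp_comp_tw g T S

theorem tw_mul_amp (g : G) (T S : E →L[ℝ] E) : tw g T * amp G S = tw g (T * S) :=
  tw_comp_amp g T S

/-- `tw g` as a continuous linear map. -/
def twL (g : G) : (E →L[ℝ] F) →L[ℝ] V G E →L[ℝ] V G F :=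
  LinearMap.mkContinuous
    ⟨⟨tw g, fun _ _ => op_ext fun _ _ => rfl⟩, fun _ _ => op_ext fun _ _ => rfl⟩ 1 fun T => by
    rw [one_mul]; exact norm_tw_le g T

@[simp] theorem twL_apply (g : G) (T : E →L[ℝ] F) : twL g T = tw g T := rfl

theorem tw_add (g : G) (T S : E →L[ℝ] F) : tw g (T + S) = tw g T + tw g S := map_add (twL g) T S

theorem tw_sub (g : G) (T S : E →L[ℝ] F) : tw g (T - S) = tw g T - tw g S := map_sub (twL g) T S

theorem tw_smul (g : G) (c : ℝ) (T : E →L[ℝ] F) : tw g (c • T) = c • tw g T :=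
  map_smul (twL g) c T

theorem tw_zero (g : G) : tw g (0 : E →L[ℝ] F) = 0 := map_zero (twL g)

theorem continuous_tw (g : G) : Continuous (tw g : (E →L[ℝ] F) → _) := (twL g).continuous

variable (G) in
/-- `amp` as a continuous linear map. -/
def ampL : (E →L[ℝ] F) →L[ℝ] V G E →L[ℝ] V G F :=
  LinearMap.mkContinuous
    ⟨⟨amp G, fun _ _ => op_ext fun _ _ => rfl⟩, fun _ _ => op_ext fun _ _ => rfl⟩ 1 fun T => by
    rw [one_mul]; exact norm_amp_le T

@[simp] theorem ampL_apply (T : E →L[ℝ] F) : ampL G T = amp G T := rfl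

theorem continuous_amp : Continuous (amp G : (E →L[ℝ] F) → _) := (ampL G).continuous

variable (G) in
/-- `amp` as an algebra homomorphism. -/
def ampA : (E →L[ℝ] E) →ₐ[ℝ] V G E →L[ℝ] V G E :=
  AlgHom.ofLinearMap (ampL G).toLinearMap (op_ext fun _ _ => rfl)
    fun _ _ => op_ext fun _ _ => rfl

@[simp] theorem ampA_apply (T : E →L[ℝ] E) : ampA G T = amp G T := rfl

theorem sum_apply' {ι : Type*} (s : Finset ι) (A : ι → V G E →L[ℝ] V G F) (ξ : V G E) (x : G) :
    (∑ i ∈ s, A i) ξ x = ∑ i ∈ s, A i ξ x := by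
  rw [_root_.sum_apply, lp.coeFn_sum, Finset.sum_apply]

/-- The scalar convolution operator. -/
def conv (s : Finset G) (c : G → ℝ) : V G ℝ →L[ℝ] V G ℝ := ∑ g ∈ s, c g • lam g

theorem conv_apply (s : Finset G) (c : G → ℝ) (ξ : V G ℝ) (x : G) :
    conv s c ξ x = ∑ g ∈ s, c g * ξ (g⁻¹ * x) := sum_apply' _ _ _ _

/-- The unconditional bound. -/
theorem norm_sum_tw_le (s : Finset G) (T : G → E →L[ℝ] F) (c : G → ℝ)
    (h : ∀ g ∈ s, ‖T g‖ ≤ c g) : ‖∑ g ∈ s, tw g (T g)‖ ≤ ‖conv s c‖ := by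
  refine ContinuousLinearMap.opNorm_le_bound _ (norm_nonneg _) fun ξ => ?_
  rw [← lp.norm_toNorm (x := ξ)]
  refine le_trans (lp.norm_mono (by norm_num) fun x => ?_) ((conv s c).le_opNorm (lp.toNorm ξ))
  rw [sum_apply', conv_apply]
  refine (norm_sum_le _ _).trans (le_trans (sum_le_sum fun g hg => ?_) (le_abs_self _))
  exact ((T g).le_opNorm _).trans (mul_le_mul_of_nonneg_right (h g hg) (norm_nonneg _))

theorem sq_norm_eq (ξ : V G ℝ) {t : Finset G} (h : ∀ x ∉ t, ξ x = 0) :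
    ‖ξ‖ = √(∑ x ∈ t, ξ x ^ 2) := by
  have h1 := lp.norm_rpow_eq_tsum (p := 2) (by norm_num) ξ
  rw [tsum_eq_sum (s := t) fun x hx => by simp [h x hx]] at h1
  simp only [ENNReal.toReal_ofNat, Real.rpow_ofNat, Real.norm_eq_abs, sq_abs] at h1
  rw [← h1, Real.sqrt_sq (norm_nonneg _)]

/-- The `l²` norm of the coefficients is at most the operator norm. -/
theorem l2_le_norm_conv (s : Finset G) (c : G → ℝ) : √(∑ g ∈ s, c g ^ 2) ≤ ‖conv s c‖ := by
  classical
  have h1 := (conv s c).le_opNorm (lp.single 2 1 1)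
  rw [lp.norm_single (by norm_num), norm_one, mul_one] at h1
  have h2 : ∀ x, conv s c (lp.single 2 1 1) x = if x ∈ s then c x else 0 := fun x => by
    rw [conv_apply, ← Finset.sum_ite_eq' s x c]
    refine sum_congr rfl fun g _ => ?_
    rw [lp.single_apply, Pi.single_apply]
    simp [inv_mul_eq_one]
  rw [sq_norm_eq _ (t := s) fun x hx => by rw [h2, if_neg hx]] at h1
  refine le_trans (le_of_eq ?_) h1
  congr 1
  exact sum_congr rfl fun g hg => by rw [h2, if_pos hg]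

/-- A bound on finitely supported vectors bounds the operator norm. -/
theorem norm_le_of_fin (A : V G E →L[ℝ] F) {C : ℝ} (hC : 0 ≤ C)
    (h : ∀ (ξ : V G E) (t : Finset G), (∀ x ∉ t, ξ x = 0) → ‖A ξ‖ ≤ C * ‖ξ‖) : ‖A‖ ≤ C := by
  classical
  refine A.opNorm_le_bound hC fun ξ => ?_
  have h1 : Tendsto (fun t : Finset G => ∑ x ∈ t, lp.single 2 x (ξ x)) atTop (𝓝 ξ) :=
    lp.hasSum_single (by norm_num) ξ
  refine le_of_tendsto_of_tendsto' ((A.continuous.tendsto ξ).comp h1).norm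
    (h1.norm.const_mul C) fun t => h _ t fun x hx => ?_
  rw [lp.coeFn_sum, Finset.sum_apply]
  exact sum_eq_zero fun y hy => lp.single_apply_ne 2 y _ fun e => hx (e ▸ hy)

open Pool.Agent.Lib.SD in
theorem l2_eq (f : MonoidAlgebra ℂ G) (c : G → ℝ) {t : Finset G} (h : ∀ x, f.coeff x = c x)
    (ht : ∀ x ∉ t, c x = 0) : l2 f = √(∑ x ∈ t, c x ^ 2) := by
  unfold l2
  congr 1
  rw [sum_subset (s₂ := t)]
  · exact sum_congr rfl fun x _ => by rw [h]; simp
  · intro x hx
    by_contra h1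
    exact Finsupp.mem_support_iff.1 hx (by rw [h, ht x h1]; simp)
  · intro x _ hx
    simp [Finsupp.notMem_support_iff.1 hx]

open Pool.Agent.Lib.SD in
/-- Subexponential decay in terms of operator norms. -/
theorem norm_conv_le {B : ℝ → Set G} (hB : SubexpDecay B) {ε : ℝ} (hε : 0 < ε) :
    ∃ C : ℝ, 0 ≤ C ∧ ∀ r : ℝ, 0 ≤ r → ∀ (s : Finset G) (c : G → ℝ), (∀ g ∈ s, g ∈ B r) →
      ‖conv s c‖ ≤ C * Real.exp (ε * r) * √(∑ g ∈ s, c g ^ 2) := by
  classical
  obtain ⟨C, hC⟩ := hB ε hε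
  refine ⟨max C 0, le_max_right _ _, fun r hr s c hs => ?_⟩
  refine norm_le_of_fin _ (by positivity) fun ξ t ht => ?_
  let f : MonoidAlgebra ℂ G := ∑ g ∈ s, MonoidAlgebra.single g (c g : ℂ)
  let e : MonoidAlgebra ℂ G := ∑ g ∈ t, MonoidAlgebra.single g (ξ g : ℂ)
  have hf : ∀ x, f.coeff x = ((if x ∈ s then c x else 0 : ℝ) : ℂ) := fun x => by
    simp only [f, MonoidAlgebra.coeff_sum, Finsupp.finsetSum_apply, MonoidAlgebra.coeff_single,
      Finsupp.single_apply, Finset.sum_ite_eq']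
    split_ifs <;> simp
  have he : ∀ x, e.coeff x = (ξ x : ℂ) := fun x => by
    simp only [e, MonoidAlgebra.coeff_sum, Finsupp.finsetSum_apply, MonoidAlgebra.coeff_single,
      Finsupp.single_apply, Finset.sum_ite_eq']
    split_ifs with h
    · rfl
    · simp [ht x h]
  have hfe : ∀ x, (f * e).coeff x = (conv s c ξ x : ℂ) := fun x => by
    rw [conv_apply]
    simp only [f, Finset.sum_mul, MonoidAlgebra.coeff_sum, Finsupp.finsetSum_apply,
      MonoidAlgebra.coeff_single_mul_apply, he]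
    push_cast
    rfl
  have h0 : ∀ x ∉ (f * e).coeff.support, conv s c ξ x = 0 := fun x hx => by
    have := Finsupp.notMem_support_iff.1 hx
    rw [hfe] at this
    exact_mod_cast this
  have h1 := hC r hr f e fun x hx => hs x (by
    by_contra h
    exact Finsupp.mem_support_iff.1 hx (by rw [hf, if_neg h]; simp))
  rw [l2_eq _ _ hfe h0, l2_eq e _ he ht, l2_eq f _ (t := s) hf fun x hx => if_neg hx,
    ← sq_norm_eq _ h0, ← sq_norm_eq _ ht,
    sum_congr rfl fun x hx => by rw [if_pos hx]] at h1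
  refine h1.trans ?_
  gcongr
  exact le_max_left _ _

/-- The representation of the group algebra attached to a representation `ρ` on `E`. -/
def piA (ρ : G →* E →L[ℝ] E) : MonoidAlgebra ℝ G →ₐ[ℝ] V G E →L[ℝ] V G E :=
  MonoidAlgebra.lift ℝ _ G
    { toFun := fun g => tw g (ρ g)
      map_one' := by rw [map_one]; exact op_ext fun _ _ => by simp
      map_mul' := fun g h => by rw [map_mul, tw_mul] }

theorem piA_single (ρ : G →* E →L[ℝ] E) (g : G) (c : ℝ) :
    piA ρ (MonoidAlgebra.single g c) = c • tw g (ρ g) := by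
  simp [piA]

theorem piA_eq (ρ : G →* E →L[ℝ] E) (f : MonoidAlgebra ℝ G) {s : Finset G}
    (hs : f.coeff.support ⊆ s) : piA ρ f = ∑ g ∈ s, tw g (f.coeff g • ρ g) := by
  rw [piA, MonoidAlgebra.lift_apply, Finsupp.sum_of_support_subset _ hs _ (by simp)]
  exact sum_congr rfl fun g _ => (tw_smul _ _ _).symm

theorem piA_one_eq (f : MonoidAlgebra ℝ G) {s : Finset G} (hs : f.coeff.support ⊆ s) :
    piA (1 : G →* ℝ →L[ℝ] ℝ) f = conv s f.coeff := by
  rw [piA_eq _ f hs]
  exact sum_congr rfl fun g _ => by rw [tw_smul, MonoidHom.one_apply, tw_id]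

open Pool.Agent.Lib.SD in
/-- The twisted representation is controlled by the regular representation. -/
theorem norm_piA_le {B : ℝ → Set G} (hB : SubexpDecay B) {ε : ℝ} (hε : 0 < ε) :
    ∃ C : ℝ, 0 ≤ C ∧ ∀ r : ℝ, 0 ≤ r → ∀ (E : Type) [NormedAddCommGroup E] [NormedSpace ℝ E]
      (f : MonoidAlgebra ℝ G) (T : G → E →L[ℝ] E) (M : ℝ), 0 ≤ M →
      (∀ g ∈ f.coeff.support, g ∈ B r ∧ ‖T g‖ ≤ M) →
      ‖∑ g ∈ f.coeff.support, tw g (f.coeff g • T g)‖ ≤
        C * Real.exp (ε * r) * M * ‖piA (1 : G →* ℝ →L[ℝ] ℝ) f‖ := by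
  obtain ⟨C, h0, hC⟩ := norm_conv_le hB hε
  refine ⟨C, h0, fun r hr E _ _ f T M hM h => ?_⟩
  refine (norm_sum_tw_le _ _ (fun g => M * |f.coeff g|) fun g hg => ?_).trans
    ((hC r hr _ _ fun g hg => (h g hg).1).trans ?_)
  · rw [norm_smul, mul_comm]
    exact mul_le_mul_of_nonneg_right (h g hg).2 (abs_nonneg _)
  · rw [piA_one_eq f subset_rfl, mul_assoc _ M]
    refine mul_le_mul_of_nonneg_left ?_ (by positivity)
    simp only [mul_pow, sq_abs]
    rw [← mul_sum, Real.sqrt_mul (sq_nonneg M), Real.sqrt_sq hM]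
    exact mul_le_mul_of_nonneg_left (l2_le_norm_conv _ _) hM

variable (G E F) in
/-- The closed span of the operators `λ(g) ⊗ T`. -/
def RR : Submodule ℝ (V G E →L[ℝ] V G F) :=
  (Submodule.span ℝ {A | ∃ g T, A = tw g T}).topologicalClosure

theorem isClosed_RR : IsClosed (RR G E F : Set (V G E →L[ℝ] V G F)) :=
  Submodule.isClosed_topologicalClosure _

theorem tw_mem (g : G) (T : E →L[ℝ] F) : tw g T ∈ RR G E F :=
  Submodule.le_topologicalClosure _ (Submodule.subset_span ⟨g, T, rfl⟩)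

theorem amp_mem (T : E →L[ℝ] F) : amp G T ∈ RR G E F := tw_one (G := G) T ▸ tw_mem 1 T

/-- A continuous linear map sending the generators into a closed subspace sends `RR` into it. -/
theorem RR_map {W : Type*} [AddCommGroup W] [Module ℝ W] [TopologicalSpace W]
    (φ : (V G E →L[ℝ] V G F) →L[ℝ] W) (S : Submodule ℝ W) (hS : IsClosed (S : Set W))
    (h : ∀ g T, φ (tw g T) ∈ S) {A : V G E →L[ℝ] V G F} (hA : A ∈ RR G E F) : φ A ∈ S := by
  have : RR G E F ≤ S.comap φ.toLinearMap :=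
    Submodule.topologicalClosure_minimal _
      (Submodule.span_le.2 (by rintro _ ⟨g, T, rfl⟩; exact h g T)) (hS.preimage φ.continuous)
  exact this hA

theorem comp_mem {A : V G F →L[ℝ] V G H} {B : V G E →L[ℝ] V G F} (hA : A ∈ RR G F H)
    (hB : B ∈ RR G E F) : A.comp B ∈ RR G E H := by
  refine RR_map ((ContinuousLinearMap.compL ℝ (V G E) (V G F) (V G H)).flip B) (RR G E H)
    isClosed_RR (fun g T => ?_) hA
  refine RR_map (ContinuousLinearMap.compL ℝ (V G E) (V G F) (V G H) (tw g T)) (RR G E H)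
    isClosed_RR (fun h S => ?_) hB
  change (tw g T).comp (tw h S) ∈ _
  rw [tw_comp]
  exact tw_mem _ _

variable (G E) in
/-- The closed algebra spanned by the operators `λ(g) ⊗ T`. -/
def RA : Subalgebra ℝ (V G E →L[ℝ] V G E) :=
  (RR G E E).toSubalgebra (map_one (ampA G (E := E)) ▸ amp_mem 1) fun _ _ => comp_mem

theorem mem_RA {A : V G E →L[ℝ] V G E} : A ∈ RA G E ↔ A ∈ RR G E E := Iff.rfl

theorem isClosed_RA : IsClosed (RA G E : Set (V G E →L[ℝ] V G E)) := isClosed_RR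

theorem piA_mem (ρ : G →* E →L[ℝ] E) (f : MonoidAlgebra ℝ G) : piA ρ f ∈ RA G E := by
  rw [piA_eq ρ f subset_rfl]
  exact sum_mem fun g _ => tw_mem _ _

end BCO
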