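import Pool.Agent.Lib.BCH.Blue1
import Pool.Agent.Lib.BCH.Fil
import Pool.Agent.Lib.BCH.KApi
import Pool.Agent.Lib.BCH.Op24
import Pool.Agent.Lib.BCH.Alg24
import Pool.Agent.Lib.BCC.Defs

/-! Blueprint of the analytic part: definitions and statements. -/

noncomputable section

open Filter Topology Finset BCK BCO BCA
open scoped ZeroAtInfty

namespace Pool.Agent.Lib.BCH

open Pool.Agent.Lib.BCC (E ms cj dgl)

attribute [instance] BCC.CD.act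

/-! ### Abstract blocks -/

/-- The homotopy (section 5) in an abstract Banach algebra. -/
def St_HOM : Prop :=
  ∀ (B : Type) [NormedRing B] [NormedAlgebra ℝ B] [CompleteSpace B] (I : TwoSidedIdeal B)
    (ε h i : B) (P D J : ℝ → B), IsClosed (I : Set B) → ε * ε = ε →
    ContinuousOn P (Set.Icc 0 1) → ContinuousOn D (Set.Icc 0 1) → ContinuousOn J (Set.Icc 0 1) →
    (∀ t ∈ Set.Icc (0 : ℝ) 1, P t * P t = P t ∧ ε * P t = P t * ε ∧ D t * D t = 0 ∧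
      D t * J t + J t * D t = 1 ∧ Odd ε (D t) ∧ Odd ε (J t) ∧ D t * P t - P t * D t ∈ I) →
    D 0 * P 0 = P 0 * D 0 → Odd ε h → Odd ε i → h * h = 0 → i * i = 0 → i * h + h * i = 1 →
    h * P 1 - P 1 * h ∈ I → i * P 1 - P 1 * i ∈ I → ‖1 - D 1 * h - h * D 1‖ < 1 →
    ∃ u : (Matrix (Fin 2) (Fin 2) B)ˣ, Ent (I : Set B) (u.1 - 1) ∧ Ent (I : Set B) ((u⁻¹).1 - 1) ∧
      ee (P 1 * ε) ((h + i) * P 1 * (h + i) * ε) * u.1 = u.1 * !![1, 0; 0, 0]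

/-- Transfer along a homomorphism that is bijective on the finite corners (K4). -/
def St_TR : Prop :=
  ∀ (B' B Λ ν Y n : Type) [NormedRing B'] [NormedAlgebra ℝ B'] [CompleteSpace B']
    [NormedRing B] [NormedAlgebra ℝ B] [CompleteSpace B] [SemilatticeSup Λ] [Nonempty Λ]
    [Fintype ν] [DecidableEq ν] [TopologicalSpace Y] [CompactSpace Y] [Fintype n] [DecidableEq n]
    (P' : Λ → B') (P : Λ → B) (φ : B' →ₐ[ℝ] B) (hφ : Continuous φ) (σ : Λ → B →L[ℝ] B'),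
    IsFilt P' → IsFilt P → (∀ F, φ (P' F) = P F) → (∀ F x, φ (σ F x) = P F * x * P F) →
    (∀ F x, σ F (φ x) = P' F * x * P' F) →
    ∀ (e : Matrix n n (FF ν Y B')) (c : Matrix n n ℝ) (u : (Matrix n n (FF ν Y B))ˣ),
      e * e = e → c * c = c → Ent (FF.set ν Y (KK P')) (e - c.map (algebraMap ℝ (FF ν Y B'))) →
      Ent (FF.set ν Y (KK P)) (u.1 - 1) → Ent (FF.set ν Y (KK P)) ((u⁻¹).1 - 1) →
      e.map (FF.map ν Y (φ : B' →ₙ+* B) hφ) * u.1 = u.1 * c.map (algebraMap ℝ (FF ν Y B)) →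
      cls e = cls (c.map (algebraMap ℝ (FF ν Y B')))

/-- `A` is the completion of the group algebra for the norm `‖λ(|f| ω)‖`. -/
structure IsAS {Γ A : Type} [Group Γ] [NormedRing A] [NormedAlgebra ℝ A] (ω : Γ → ℝ)
    (δ : Γ → A) : Prop where
  one : δ 1 = 1
  mul : ∀ g g', δ (g * g') = δ g * δ g'
  dense : ∀ S : Submodule ℝ A, IsClosed (S : Set A) → (∀ g, δ g ∈ S) → ∀ a, a ∈ S
  norm_eq : ∀ (s : Finset Γ) (f : Γ → ℝ), ‖∑ g ∈ s, f g • δ g‖ = ‖conv s fun g => |f g| * ω g‖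
  lift : ∀ (B : Type) [NormedRing B] [NormedAlgebra ℝ B] [CompleteSpace B] (ρ : Γ → B),
    (∀ g g', ρ (g * g') = ρ g * ρ g') →
    (∀ (s : Finset Γ) (f : Γ → ℝ), ‖∑ g ∈ s, f g • ρ g‖ ≤ ‖conv s fun g => |f g| * ω g‖) →
    ∃ Φ : A →ₙₐ[ℝ] B, Continuous Φ ∧ (∀ a, ‖Φ a‖ ≤ ‖a‖) ∧ ∀ g, Φ (δ g) = ρ g

/-- Existence of the weighted unconditional completion. -/
def St_AS : Prop :=
  ∀ (Γ : Type) [Group Γ] (ω : Γ → ℝ), (∀ g, 1 ≤ ω g) → (∀ g g', ω (g * g') ≤ ω g * ω g') →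
    ∃ (A : Type) (_ : NormedRing A) (_ : NormedAlgebra ℝ A) (_ : CompleteSpace A) (δ : Γ → A),
      IsAS ω δ

/-- The map on `K0 (C(Y, ·))` induced by a continuous homomorphism. -/
def kap0 (Y : Type) [TopologicalSpace Y] {A B : Type} [NormedRing A] [NormedAlgebra ℝ A]
    [NormedRing B] [NormedAlgebra ℝ B] (Φ : A →ₙₐ[ℝ] B) (h : Continuous Φ) :
    K0 C(Y, A) →+ K0 C(Y, B) :=
  K0.map (cmap Y (Φ : A →ₙ+* B) h)

/-- The weight `exp (s d(o, g o))`. -/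
def om {Γ X : Type} [Group Γ] [MetricSpace X] [MulAction Γ X] (o : X) (s : ℝ) (g : Γ) : ℝ :=
  Real.exp (s * dist o (g • o))

/-- The reduced group algebra. -/
def Cr (Γ : Type) [Group Γ] : Subalgebra ℝ (Op Γ) :=
  (Algebra.adjoin ℝ (Set.range (lam : Γ → Op Γ))).topologicalClosure

instance (Γ : Type) [Group Γ] : CompleteSpace (Cr Γ) :=
  (Subalgebra.isClosed_topologicalClosure _).completeSpace_coe

instance {Γ X Z : Type} [Group Γ] [MetricSpace X] [MulAction Γ Z] (pos : Z → X) :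
    CompleteSpace (Dstar Γ pos) :=
  (Subalgebra.isClosed_topologicalClosure _).completeSpace_coe

/-- Subexponential decay: every class comes from a weighted completion. -/
def St_SDK : Prop :=
  ∀ (Γ X Y : Type) [Group Γ] [MetricSpace X] [MulAction Γ X] [IsIsometricSMul Γ X]
    [TopologicalSpace Y] [CompactSpace Y] (o : X),
    SD.SubexpDecay (fun r => {g : Γ | dist o (g • o) ≤ r}) → ∀ x : K0 C(Y, Cr Γ),
    ∃ s : ℝ, 0 < s ∧ ∀ (A : Type) [NormedRing A] [NormedAlgebra ℝ A] [CompleteSpace A]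
      (δ : Γ → A), IsAS (om o s) δ → ∀ (Λ : A →ₙₐ[ℝ] Cr Γ) (hΛ : Continuous Λ),
      (∀ g, (Λ (δ g) : Op Γ) = lam g) → ∃ x' : K0 C(Y, A), kap0 Y Λ hΛ x' = x

/-! ### Operators given by column finite matrices -/

/-- The space `ℓ¹(S)`. -/
abbrev E1 (S : Type) : Type := lp (fun _ : S => ℝ) 1

open Classical in
/-- `x` is the operator on `ℓ¹` with matrix `T`. -/
def Ext1 {S : Type} (T : E S) (x : E1 S →L[ℝ] E1 S) : Prop :=
  ∀ σ τ, x (lp.single 1 σ 1) τ = BCC.col T σ τ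

open Classical in
/-- The coordinate projection of `ℓ¹`. -/
def prj1 {S : Type} (F : Finset S) : E1 S →L[ℝ] E1 S :=
  lp.mapCLM 1 (fun σ => if σ ∈ F then (1 : ℝ →L[ℝ] ℝ) else 0) zero_le_one fun σ => by
    split_ifs <;> simp

open Classical in
theorem prj1_apply {S : Type} (F : Finset S) (ξ : E1 S) (σ : S) :
    prj1 F ξ σ = if σ ∈ F then ξ σ else 0 := by
  change (if σ ∈ F then (1 : ℝ →L[ℝ] ℝ) else 0) (ξ σ) = _
  split_ifs <;> rfl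

/-- Operators on `ℓ²(Γ; ℓ¹(S))`. -/
abbrev Op1 (Γ S : Type) : Type := V Γ (E1 S) →L[ℝ] V Γ (E1 S)

/-- The filtration of `Op1`. -/
def P1 (Γ : Type) {S : Type} [Group Γ] (F : Finset S) : Op1 Γ S := amp Γ (prj1 F)

open Classical in
theorem isFilt_prj1 (S : Type) : IsFilt (prj1 : Finset S → E1 S →L[ℝ] E1 S) where
  mono F G h := by
    constructor <;> refine ContinuousLinearMap.ext fun ξ => lp.ext (funext fun σ => ?_)
    · change prj1 F (prj1 G ξ) σ = prj1 F ξ σ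
      by_cases hσ : σ ∈ F <;> simp [prj1_apply, hσ, @h σ]
    · change prj1 G (prj1 F ξ) σ = prj1 F ξ σ
      by_cases hσ : σ ∈ F <;> simp [prj1_apply, hσ, @h σ]
  bd F := lp.norm_mapCLM_le _ _ _ _

open Classical in
theorem isFilt_P1 (Γ S : Type) [Group Γ] : IsFilt (P1 Γ : Finset S → Op1 Γ S) where
  mono F G h :=
    ⟨(amp_comp _ _).trans (congrArg (amp Γ) ((isFilt_prj1 S).mono F G h).1),
      (amp_comp _ _).trans (congrArg (amp Γ) ((isFilt_prj1 S).mono F G h).2)⟩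
  bd F := (norm_amp_le _).trans ((isFilt_prj1 S).bd F)

open Classical in
/-- The Banach algebra in which the homotopy takes place. -/
def B1 (Γ S : Type) [Group Γ] : Subalgebra ℝ (Op1 Γ S) := RA Γ (E1 S) ⊓ locAlg (isFilt_P1 Γ S)

open Classical in
instance (Γ S : Type) [Group Γ] : CompleteSpace (B1 Γ S) :=
  (IsClosed.inter isClosed_RA (isFilt_P1 Γ S).isClosed_loc).completeSpace_coe

open Classical in
/-- The filtration of `B1`. -/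
def P1' (Γ : Type) {S : Type} [Group Γ] (F : Finset S) : B1 Γ S :=
  ⟨P1 Γ F, amp_mem _, (isFilt_P1 Γ S).KK_loc ((isFilt_P1 Γ S).P_mem F)⟩

/-- `b` is the operator `λ(γ) ⊗ T` on `ℓ²(Γ; ℓ¹(S))`. -/
def IsTw1 {Γ S : Type} [Group Γ] (γ : Γ) (T : E S) (b : Op1 Γ S) : Prop :=
  ∃ x, Ext1 T x ∧ b = tw γ x

/-- Bounded `ℓ¹` norms of columns, boundedly many nonzero entries in each row. -/
def Bnd {S : Type} (T : E S) : Prop :=
  ∃ (C : ℝ) (M : ℕ), (∀ σ, ms (BCC.col T σ) ≤ C) ∧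
    ∀ τ, ∃ F : Finset S, F.card ≤ M ∧ ∀ σ, BCC.col T σ τ ≠ 0 → σ ∈ F

/-- The columns tend to zero. -/
def Small {S : Type} (T : E S) : Prop := Tendsto (fun σ => ms (BCC.col T σ)) cofinite (𝓝 0)

open Classical in
/-- The `ℓ¹` calculus. -/
def St_KER : Prop :=
  ∀ (Γ S : Type) [Group Γ],
    (∀ (T : E S) (C : ℝ), (∀ σ, ms (BCC.col T σ) ≤ C) → ∃ x, Ext1 T x) ∧
    (∀ (T : E S) (C : ℝ) (x), 0 ≤ C → (∀ σ, ms (BCC.col T σ) ≤ C) → Ext1 T x → ‖x‖ ≤ C) ∧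
    (∀ (T : E S) (x y), Ext1 T x → Ext1 T y → x = y) ∧ Ext1 (1 : E S) 1 ∧
    (∀ (T T' : E S) (x y) (c : ℝ), Ext1 T x → Ext1 T' y →
      Ext1 (T + T') (x + y) ∧ Ext1 (T - T') (x - y) ∧ Ext1 (c • T) (c • x) ∧
        Ext1 (T * T') (x * y)) ∧
    (∀ (T : E S) (x) (γ : Γ), Ext1 T x →
      (∀ τ, Tendsto (fun σ => BCC.col T σ τ) cofinite (𝓝 0)) → tw γ x ∈ B1 Γ S) ∧
    (∀ (T : E S) (x) (γ : Γ), Ext1 T x → Small T → tw γ x ∈ KK (P1 Γ : Finset S → Op1 Γ S)) ∧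
    IsFilt (P1' Γ : Finset S → B1 Γ S) ∧ (∀ b : B1 Γ S, b ∈ Loc (P1' Γ : Finset S → B1 Γ S)) ∧
    ∀ b : B1 Γ S, b ∈ KK (P1' Γ : Finset S → B1 Γ S) ↔ b.1 ∈ KK (P1 Γ : Finset S → Op1 Γ S)

/-- The indicator of the even degrees. -/
def evn {Γ X : Type} [Group Γ] [MetricSpace X] [MulAction Γ X] {o : X} (c : BCC.CD Γ X o)
    (σ : c.Δ) : ℝ := if Even (c.deg σ) then 1 else 0

open Classical in
/-- The `ℓ¹` phase. -/
def St_L1 : Prop :=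
  ∀ (Γ X ν Y A : Type) [Group Γ] [MetricSpace X] [MulAction Γ X] [IsIsometricSMul Γ X]
    [Fintype ν] [DecidableEq ν] [TopologicalSpace Y] [CompactSpace Y] [NormedRing A]
    [NormedAlgebra ℝ A] [CompleteSpace A] (o : X) (c : BCC.CD Γ X o) (s : ℝ) (δ : Γ → A),
    0 < s → IsAS (om o s) δ → ∀ p : FF ν Y A, p * p = p →
    ∀ (Φ : A →ₙₐ[ℝ] B1 Γ c.Δ) (hΦ : Continuous Φ) (ε F : B1 Γ c.Δ),
      (∀ γ, IsTw1 γ (c.π γ) (Φ (δ γ)).1) → IsTw1 1 (dgl (evn c)) ε.1 → IsTw1 1 (c.h + c.i) F.1 →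
      ∃ u : (Matrix (Fin 2) (Fin 2) (FF ν Y (B1 Γ c.Δ)))ˣ,
        Ent (FF.set ν Y (KK (P1' Γ : Finset c.Δ → B1 Γ c.Δ))) (u.1 - 1) ∧
        Ent (FF.set ν Y (KK (P1' Γ : Finset c.Δ → B1 Γ c.Δ))) ((u⁻¹).1 - 1) ∧
        ee (FF.map ν Y (Φ : A →ₙ+* B1 Γ c.Δ) hΦ p * FF.const ν Y ε)
          (FF.const ν Y F * FF.map ν Y (Φ : A →ₙ+* B1 Γ c.Δ) hΦ p * FF.const ν Y F *
            FF.const ν Y ε) * u.1 = u.1 * !![1, 0; 0, 0]

/-! ### The Hilbert space side -/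

/-- `I × Γ` with the right translation action. -/
def Tw (I Γ : Type) : Type := I × Γ

instance {I Γ : Type} [Group Γ] : MulAction Γ (Tw I Γ) where
  smul g z := (z.1, z.2 * g⁻¹)
  one_smul z := Prod.ext rfl (by change z.2 * 1⁻¹ = z.2; simp)
  mul_smul g g' z := Prod.ext rfl (by change z.2 * (g * g')⁻¹ = z.2 * g'⁻¹ * g⁻¹; simp [mul_assoc])

/-- The position `g⁻¹ c(a)` of `(a, g)`. -/
def posT (Γ : Type) {I X : Type} [Group Γ] [MulAction Γ X] (c : I → X) (z : Tw I Γ) : X :=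
  z.2⁻¹ • c z.1

open Classical in
/-- `y` is the operator `T ⊗ λ(γ)` on `ℓ²(I × Γ)`. -/
def IsTw2 {Γ I : Type} [Group Γ] (γ : Γ) (T : E I) (y : Op (Tw I Γ)) : Prop :=
  ∀ (a b : I) (g g' : Γ), entry y ((a, g) : Tw I Γ) ((b, g') : Tw I Γ) =
    if g = γ * g' then BCC.col T b a else 0

/-- `T` moves the position by a bounded amount that tends to zero, relative to `γ`. -/
def Disp {Γ I X : Type} [Group Γ] [MetricSpace X] [MulAction Γ X] (c : I → X) (γ : Γ)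
    (T : E I) : Prop :=
  (∃ C : ℝ, ∀ σ τ, BCC.col T σ τ ≠ 0 → dist (c τ) (γ • c σ) ≤ C) ∧
    ∀ ε : ℝ, 0 < ε → ∀ᶠ σ in cofinite, ∀ τ, BCC.col T σ τ ≠ 0 → dist (c τ) (γ • c σ) ≤ ε

/-- The `ℓ²` calculus. -/
def St_TW : Prop :=
  ∀ (Γ I X : Type) [Group Γ] [MetricSpace X] [MulAction Γ X] [IsIsometricSMul Γ X] (o : X),
    (∀ R : ℝ, {g : Γ | dist o (g • o) ≤ R}.Finite) →
    (∀ (γ : Γ) (T : E I), Bnd T → ∃ y, IsTw2 γ T y) ∧
    (∀ (γ : Γ) (T : E I) (x y), IsTw2 γ T x → IsTw2 γ T y → x = y) ∧ IsTw2 (1 : Γ) (1 : E I) 1 ∧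
    (∀ (γ : Γ) (T T' : E I) (x y) (r : ℝ), IsTw2 γ T x → IsTw2 γ T' y →
      IsTw2 γ (T + T') (x + y) ∧ IsTw2 γ (T - T') (x - y) ∧ IsTw2 γ (r • T) (r • x)) ∧
    (∀ (γ γ' : Γ) (T T' : E I) (x y), IsTw2 γ T x → IsTw2 γ' T' y →
      IsTw2 (γ * γ') (T * T') (x * y)) ∧
    (∀ (c : I → X) (γ : Γ) (T : E I) (y), Bnd T → Disp c γ T → IsTw2 γ T y →
      y ∈ Dstar Γ (posT Γ c))

/-- A representation by partial signed permutation matrices. -/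
def IsPerm {Γ I : Type} [Group Γ] (ρ : Γ → E I) : Prop :=
  (∀ g g', ρ (g * g') = ρ g * ρ g') ∧
    ∀ g, ∃ (α : I ≃ I) (v : I → ℝ), (∀ a, |v a| ≤ 1) ∧
      ∀ a, BCC.col (ρ g) a = Finsupp.single (α a) (v a)

/-- Representations of the completion in `D*`. -/
def St_REP : Prop :=
  ∀ (Γ I X A : Type) [Group Γ] [MetricSpace X] [MulAction Γ X] [IsIsometricSMul Γ X]
    [NormedRing A] [NormedAlgebra ℝ A] [CompleteSpace A] (o : X) (ω : Γ → ℝ) (δ : Γ → A)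
    (c : I → X) (ρ : Γ → E I), (∀ R : ℝ, {g : Γ | dist o (g • o) ≤ R}.Finite) →
    (∀ g, 1 ≤ ω g) → IsAS ω δ → IsPerm ρ → (∀ γ, Disp c γ (ρ γ)) →
    ∃ Φ : A →ₙₐ[ℝ] Dstar Γ (posT Γ c), Continuous Φ ∧ (∀ a, ‖Φ a‖ ≤ ‖a‖) ∧
      ∀ γ, IsTw2 γ (ρ γ) (Φ (δ γ)).1

open Classical in
/-- The algebra of compatible pairs. -/
def St_PAIR : Prop :=
  ∀ (Γ S X : Type) [Group Γ] [MetricSpace X] [MulAction Γ X] [IsIsometricSMul Γ X] (o : X)
    (c : S → X), (∀ R : ℝ, {g : Γ | dist o (g • o) ≤ R}.Finite) →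
    ∃ (B : Type) (_ : NormedRing B) (_ : NormedAlgebra ℝ B) (_ : CompleteSpace B)
      (P : Finset S → B) (φ : B →ₐ[ℝ] B1 Γ S) (ψ : B →ₐ[ℝ] Dstar Γ (posT Γ c))
      (σ : Finset S → B1 Γ S →L[ℝ] B),
      IsFilt P ∧ (∀ b, b ∈ Loc P) ∧ Continuous φ ∧ Continuous ψ ∧
      (∀ b, ‖b‖ ≤ max ‖φ b‖ ‖ψ b‖) ∧ (∀ F, φ (P F) = P1' Γ F) ∧
      (∀ F x, φ (σ F x) = P1' Γ F * x * P1' Γ F) ∧ (∀ F x, σ F (φ x) = P F * x * P F) ∧
      ∀ (γ : Γ) (T : E S) (y : Dstar Γ (posT Γ c)), Bnd T → IsTw2 γ T y.1 →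
        ∃ b : B, IsTw1 γ T (φ b).1 ∧ ψ b = y ∧ (Small T → b ∈ KK P)

/-- The even and the odd part have the same class in `D*`. -/
def St_END : Prop :=
  ∀ (Γ X Y A : Type) [Group Γ] [MetricSpace X] [MulAction Γ X] [IsIsometricSMul Γ X]
    [TopologicalSpace Y] [CompactSpace Y] [NormedRing A] [NormedAlgebra ℝ A] [CompleteSpace A]
    (o : X) (c : BCC.CD Γ X o) (s : ℝ) (δ : Γ → A),
    (∀ R : ℝ, {g : Γ | dist o (g • o) ≤ R}.Finite) → 0 < s → IsAS (om o s) δ →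
    ∀ (Φ Ψ : A →ₙₐ[ℝ] Dstar Γ (posT Γ c.p)) (hΦ : Continuous Φ) (hΨ : Continuous Ψ),
      (∀ γ, IsTw2 γ (c.π γ * dgl (evn c)) (Φ (δ γ)).1) →
      (∀ γ, IsTw2 γ (c.π γ * dgl fun σ => 1 - evn c σ) (Ψ (δ γ)).1) →
      kap0 Y Φ hΦ = kap0 Y Ψ hΨ

/-- `T'` is the operator `T` on `ℓ²(Γ)` placed on the orbit of `z`. -/
def IsCor {Γ Z : Type} [Group Γ] [MulAction Γ Z] (z : Z) (T : Op Γ) (T' : Op Z) : Prop :=
  (∀ k k' : Γ, entry T' (k⁻¹ • z) (k'⁻¹ • z) = entry T k k') ∧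
    ∀ a b : Z, a ∉ MulAction.orbit Γ z ∨ b ∉ MulAction.orbit Γ z → entry T' a b = 0

/-- The swindle and the embedding into an ample module. -/
def St_SW : Prop :=
  ∀ (Γ X Z : Type) [Group Γ] [MetricSpace X] [CompleteSpace X] [MulAction Γ X]
    [IsIsometricSMul Γ X] [MulAction Γ Z] (o : X) (c : BCC.CD Γ X o) (pos : Z → X),
    Geom Γ o → IsAmple Γ pos →
    ∃ (θ : Dstar Γ (posT Γ c.p) →ₙₐ[ℝ] Dstar Γ pos) (hθ : Continuous θ) (z : Z),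
      (∀ (T : Op Γ) (y : Dstar Γ (posT Γ c.p)), IsCor (Z := Tw c.Δ Γ) (c.nil, 1) T y.1 →
        IsCor z T (θ y).1) ∧
      ∀ (Y A : Type) [TopologicalSpace Y] [CompactSpace Y] [NormedRing A] [NormedAlgebra ℝ A]
        [CompleteSpace A] (ω : Γ → ℝ) (δ : Γ → A) (v : c.Δ → ℝ), (∀ g, 1 ≤ ω g) → IsAS ω δ →
        (∀ σ, v σ = 0 ∨ v σ = 1) → v c.nil = 0 →
        (∀ (g : Γ) σ, v (g • σ) = v σ) →
        ∀ (Φ : A →ₙₐ[ℝ] Dstar Γ (posT Γ c.p)) (hΦ : Continuous Φ),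
          (∀ γ, IsTw2 γ (c.π γ * dgl v) (Φ (δ γ)).1) →
          (kap0 Y θ hθ).comp (kap0 Y Φ hΦ) = 0

/-- The class of the reduced group algebra vanishes in `D*`. -/
def CrVanish (Γ : Type) {X Z : Type} [Group Γ] [MetricSpace X] [MulAction Γ Z] (pos : Z → X)
    (z : Z) : Prop :=
  ∀ (Y : Type) [TopologicalSpace Y] [CompactSpace Y] (θ : Cr Γ →ₙₐ[ℝ] Dstar Γ pos)
    (hθ : Continuous θ), (∀ T : Cr Γ, IsCor z T.1 (θ T).1) → kap0 Y θ hθ = 0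

/-- The core statement. -/
def St_CR : Prop :=
  ∀ (Γ X Z : Type) [Group Γ] [MetricSpace X] [CompleteSpace X] [MulAction Γ X]
    [IsIsometricSMul Γ X] [MulAction Γ Z] (o : X) (pos : Z → X), Geom Γ o →
    SD.SubexpDecay (fun r => {g : Γ | dist o (g • o) ≤ r}) → IsAmple Γ pos →
    ∃ z : Z, CrVanish Γ pos z

/-- Idempotents over `C(Y, C*)⁺` are equivalent to their scalar part over `C(Y, D*)`. -/
def Vanish (Γ : Type) {X Z : Type} [Group Γ] [MetricSpace X] [MulAction Γ Z]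
    (pos : Z → X) : Prop :=
  ∀ (Y ι : Type) [TopologicalSpace Y] [CompactSpace Y] [Fintype ι] (c : Matrix ι ι ℝ)
    (e : Matrix ι ι C(Y, Dstar Γ pos)), e * e = e → c * c = c →
    (∀ i j y, (e i j y : Op Z) - c i j • (1 : Op Z) ∈ Cstar Γ pos) →
    cls e = cls (c.map fun r => (r • 1 : C(Y, Dstar Γ pos)))

/-- Reduction to the reduced group algebra. -/
def St_RED : Prop :=
  ∀ (Γ X Z : Type) [Group Γ] [MetricSpace X] [ProperSpace X] [MulAction Γ X]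
    [IsIsometricSMul Γ X] [MulAction Γ Z] (o : X) (pos : Z → X) (z : Z), Geom Γ o →
    IsAmple Γ pos → CrVanish Γ pos z → Vanish Γ pos

end Pool.Agent.Lib.BCH
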