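import Pool.Agent.Lib.BCH.Sw46
import Pool.Agent.Lib.BCH.Blue2
import Pool.Agent.Lib.CAT0.Basic

/-! The swindle block. -/

set_option linter.unusedSectionVars false

noncomputable section

open Filter Topology Set

namespace Pool.Agent.Lib.BCH

namespace SW

/-- The action on levels. -/
@[reducible] def levAct (Γ Z : Type) [Group Γ] [MulAction Γ Z] : MulAction Γ (Z × ℕ) where
  smul g x := (g • x.1, x.2)
  one_smul x := Prod.ext (one_smul Γ x.1) rfl
  mul_smul g g' x := Prod.ext (mul_smul g g' x.1) rfl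

attribute [local instance] levAct

section Abstract

variable {Γ X Z : Type} [Group Γ] [MetricSpace X] [MulAction Γ Z] {p : Z → X} {q : Z × ℕ → X}

theorem slow_zero (h0 : ∀ a, q (a, 0) = p a) : Slow q p (lev Z 0) :=
  ⟨⟨0, fun b => by simp [lev, h0]⟩, fun ε hε B _ => finite_empty.subset fun b hb => by
    have := hb.2
    rw [lev, h0, dist_self] at this
    exact absurd this hε.not_ge⟩

/-- The inclusion at level zero. -/
def th0 (Γ : Type) [Group Γ] [MulAction Γ Z] (h0 : ∀ a, q (a, 0) = p a) :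
    Dstar Γ p →ₙₐ[ℝ] Dstar Γ q :=
  conjHom (D0_le_DR (iso_mem_D0 (lev_inj 0) (fun _ _ => rfl) (slow_zero h0)))
    (D0_le_DR (res_mem_D0 (lev_inj 0) (fun _ _ => rfl) (slow_zero h0))) (res_comp_iso _ _)

theorem continuous_th0 (h0 : ∀ a, q (a, 0) = p a) : Continuous (th0 Γ h0) :=
  continuous_conjHom _ _ _

theorem swindle (h0 : ∀ a, q (a, 0) = p a) (hup : Slow q q (up Z)) (Y : Type) {A : Type}
    [TopologicalSpace Y] [CompactSpace Y] [NormedRing A] [NormedAlgebra ℝ A]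
    (Φ : A →ₙₐ[ℝ] Dstar Γ p) (hΦ : Continuous Φ) (ha : ∀ a, ampN ℕ (Φ a).1 ∈ Dstar Γ q)
    (x : K0 C(Y, A)) : kap0 Y (th0 Γ h0) (continuous_th0 h0) (kap0 Y Φ hΦ x) = 0 := by
  let Θ : A →ₙ+* Dstar Γ q :=
    { toFun := fun a => ⟨ampN ℕ (Φ a).1, ha a⟩
      map_mul' := fun a b => Subtype.ext
        (congrArg (fun y : Dstar Γ p => ampN ℕ y.1) (map_mul Φ a b))
      map_zero' := Subtype.ext
        ((congrArg (fun y : Dstar Γ p => ampN ℕ y.1) (map_zero Φ)).trans (map_zero (ampNL ℕ)))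
      map_add' := fun a b => Subtype.ext
        (congrArg (fun y : Dstar Γ p => ampN ℕ y.1) (map_add Φ a b)) }
  have hΘ : Continuous Θ :=
    (continuous_ampN.comp (continuous_subtype_val.comp hΦ)).subtype_mk _
  let s : Dstar Γ q := ⟨shU Z, mem_Dstar_iff.2 (D0_le_DR (iso_mem_D0 up_inj (fun _ _ => rfl) hup))⟩
  let t : Dstar Γ q := ⟨shD Z, mem_Dstar_iff.2 (D0_le_DR (res_mem_D0 up_inj (fun _ _ => rfl) hup))⟩
  rw [kap0, kap0, map_map]
  exact map_swindle (cmap Y Θ hΘ) _ (ContinuousMap.const Y s) (ContinuousMap.const Y t)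
    (ContinuousMap.ext fun _ => Subtype.ext shD_mul_shU)
    (fun a => ContinuousMap.ext fun y => Subtype.ext (shU_ampN (Φ (a y)).1))
    (fun a => ContinuousMap.ext fun y => Subtype.ext (shD_ampN (Φ (a y)).1))
    (fun a => ContinuousMap.ext fun y => Subtype.ext (level_zero (Φ (a y)).1)) x

end Abstract

/-- The ratio along the segment. -/
def rt (w : ℝ) (n : ℕ) : ℝ := min 1 (n / (1 + w))

theorem rt_mem {w : ℝ} (hw : 0 ≤ w) (n : ℕ) : rt w n ∈ Icc (0 : ℝ) 1 :=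
  ⟨le_min zero_le_one (by positivity), min_le_left _ _⟩

theorem rt_zero (w : ℝ) : rt w 0 = 0 := by simp [rt]

theorem rt_one {w : ℝ} (hw : 0 ≤ w) {n : ℕ} (h : 1 + w ≤ n) : rt w n = 1 :=
  min_eq_left (by rw [le_div_iff₀ (by positivity)]; linarith)

theorem rt_succ {w : ℝ} (hw : 0 ≤ w) (n : ℕ) : |rt w (n + 1) - rt w n| ≤ 1 / (1 + w) := by
  refine (abs_min_sub_min_le_max _ _ _ _).trans (max_le (by simp; positivity) (le_of_eq ?_))
  rw [← sub_div, abs_of_nonneg (by push_cast; ring_nf; positivity)]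
  push_cast
  ring

theorem rt_le {w w' : ℝ} (hw : 0 ≤ w) (h : w ≤ w') (n : ℕ) :
    0 ≤ rt w n - rt w' n ∧ (rt w n - rt w' n) * (1 + w') ≤ w' - w := by
  have h1 : (0 : ℝ) < 1 + w := by positivity
  have h2 : (0 : ℝ) < 1 + w' := by linarith
  have hn : (0 : ℝ) ≤ n := n.cast_nonneg
  refine ⟨sub_nonneg.2 (min_le_min_left _ (div_le_div_of_nonneg_left hn h1 (by linarith))), ?_⟩
  rcases le_total (1 + w') n with h3 | h3
  · rw [rt_one hw (by linarith), rt_one (hw.trans h) h3]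
    linarith
  · have e : rt w' n * (1 + w') = n := by
      rw [rt, min_eq_right ((div_le_one h2).2 h3), div_mul_cancel₀ _ h2.ne']
    have h4 : rt w n ≤ 1 := min_le_left _ _
    have h5 : rt w n * (1 + w) ≤ n := (le_div_iff₀ h1).1 (min_le_right _ _)
    have h6 := (rt_mem hw n).1
    nlinarith

theorem rt_sub {w w' L : ℝ} (hw : 0 ≤ w) (hw' : 0 ≤ w') (h : |w' - w| ≤ L) (n : ℕ) :
    |rt w n - rt w' n| * (1 + w) ≤ L := by
  rcases le_total w w' with h1 | h1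
  · obtain ⟨h2, h3⟩ := rt_le hw h1 n
    rw [abs_of_nonneg h2]
    nlinarith [le_abs_self (w' - w)]
  · obtain ⟨h2, h3⟩ := rt_le hw' h1 n
    rw [abs_sub_comm, abs_of_nonneg h2]
    linarith [neg_abs_le (w' - w)]

section Geo

variable {Γ X : Type} [Group Γ] [MetricSpace X] [CompleteSpace X] [MulAction Γ X]
  [IsIsometricSMul Γ X] {o : X} (c : BCC.CD Γ X o) (hX : SD.HasCNMidpoints X)

open Classical in
/-- The end point of the segment. -/
def bb (σ : c.Δ) : X := if σ = c.nil then o else c.b σ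

/-- The positions at all levels. -/
def qq (s : c.Δ × ℕ) : X := CAT0.geo hX (c.p s.1) (bb c s.1) (rt (c.w s.1) s.2)

theorem w_nonneg (σ : c.Δ) : 0 ≤ c.w σ := by rw [c.w_eq]; exact dist_nonneg

theorem bb_near (σ : c.Δ) : dist (c.p σ) (bb c σ) ≤ 2 * c.R := by
  unfold bb
  split_ifs with h
  · rw [h, c.p_nil, dist_self]; linarith [c.R_pos]
  · exact c.b_near σ h

theorem bb_smul (g : Γ) {σ : c.Δ} (h : σ ≠ c.nil) : bb c (g • σ) = g • bb c σ := by
  have : g • σ ≠ c.nil := fun h' => h (by rw [← c.smul_nil g⁻¹, ← h', inv_smul_smul])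
  rw [bb, bb, if_neg h, if_neg this, c.b_smul g σ h]

theorem qq_zero (σ : c.Δ) : qq c hX (σ, 0) = c.p σ := by
  rw [qq, rt_zero]
  exact (CAT0.eq_geo hX ⟨le_rfl, zero_le_one⟩ (by simp) (by simp)).symm

theorem qq_end (σ : c.Δ) {n : ℕ} (h : 1 + c.w σ ≤ n) : qq c hX (σ, n) = bb c σ := by
  rw [qq, rt_one (w_nonneg c σ) h]
  exact (CAT0.eq_geo hX ⟨zero_le_one, le_rfl⟩ (by simp) (by simp)).symm

theorem fin_box (W : ℝ) (N : ℝ) : {s : c.Δ × ℕ | c.w s.1 ≤ W ∧ (s.2 : ℝ) < N}.Finite := by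
  obtain ⟨m, hm⟩ := exists_nat_ge N
  exact ((c.w_fin W).prod (finite_lt_nat m)).subset fun s hs =>
    ⟨hs.1, Nat.cast_lt.1 (hs.2.trans_le hm)⟩

theorem qq_succ (s : c.Δ × ℕ) :
    dist (qq c hX (s.1, s.2 + 1)) (qq c hX s) * (1 + c.w s.1) ≤ 2 * c.R := by
  have hw := w_nonneg c s.1
  rw [qq, qq, CAT0.dist_geo_geo hX _ _ (rt_mem hw _) (rt_mem hw _)]
  have h1 := (le_div_iff₀ (by positivity)).1 (rt_succ hw s.2)
  have h2 := bb_near c s.1
  have h3 : 0 ≤ dist (c.p s.1) (bb c s.1) := dist_nonneg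
  nlinarith

theorem fin_succ {ε : ℝ} (hε : 0 < ε) :
    {s : c.Δ × ℕ | ε ≤ dist (qq c hX (s.1, s.2 + 1)) (qq c hX s)}.Finite := by
  refine (fin_box c (2 * c.R / ε) (1 + 2 * c.R / ε)).subset fun s hs => ?_
  have h1 := qq_succ c hX s
  have hw := w_nonneg c s.1
  have hs' : ε ≤ dist (qq c hX (s.1, s.2 + 1)) (qq c hX s) := hs
  have h2 : c.w s.1 ≤ 2 * c.R / ε := by
    rw [le_div_iff₀ hε]
    nlinarith
  refine ⟨h2, not_le.1 fun h => ?_⟩
  rw [qq_end c hX s.1 (by push_cast; linarith), qq_end c hX s.1 (n := s.2) (by linarith),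
    dist_self] at hs'
  exact hε.not_ge hs'

theorem qq_smul (g : Γ) (s : c.Δ × ℕ) (h : s.1 ≠ c.nil) :
    dist (qq c hX (g • s.1, s.2)) (g • qq c hX s) ≤ dist (c.p (g • s.1)) (g • c.p s.1) +
      |rt (c.w s.1) s.2 - rt (c.w (g • s.1)) s.2| * (2 * c.R) := by
  have h1 := rt_mem (w_nonneg c s.1) s.2
  have h2 := rt_mem (w_nonneg c (g • s.1)) s.2
  rw [qq, qq, CAT0.smul_geo hX g _ _ h1, ← bb_smul c g h, dist_comm]
  refine (CAT0.dist_geo_two' hX _ _ _ _ h1 h2).trans ?_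
  rw [dist_self, mul_zero, add_zero, dist_comm]
  exact add_le_add (mul_le_of_le_one_left dist_nonneg (by linarith [h1.1]))
    (mul_le_mul_of_nonneg_left (bb_near c _) (abs_nonneg _))

theorem qq_smul_le (g : Γ) (s : c.Δ × ℕ) (h : s.1 ≠ c.nil) :
    dist (qq c hX (g • s.1, s.2)) (g • qq c hX s) ≤
      dist o (g • o) + dist o (g • o) * (2 * c.R) := by
  refine (qq_smul c hX g s h).trans (add_le_add (c.p_smul g _)
    (mul_le_mul_of_nonneg_right ?_ (by linarith [c.R_pos])))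
  have h1 := rt_sub (w_nonneg c s.1) (w_nonneg c (g • s.1)) (c.w_smul g s.1) s.2
  nlinarith [w_nonneg c s.1, abs_nonneg (rt (c.w s.1) s.2 - rt (c.w (g • s.1)) s.2)]

theorem fin_smul (g : Γ) {ε : ℝ} (hε : 0 < ε) : {s : c.Δ × ℕ | s.1 ≠ c.nil ∧
    ε ≤ dist (qq c hX (g • s.1, s.2)) (g • qq c hX s)}.Finite := by
  set L := dist o (g • o) with hL
  refine (fin_box c (10 * c.R * L / ε) (1 + 10 * c.R * L / ε + L)).subset fun s hs => ?_
  have hw := w_nonneg c s.1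
  have h1 := hs.2.trans (qq_smul c hX g s hs.1)
  have h2 := rt_sub hw (w_nonneg c (g • s.1)) (c.w_smul g s.1) s.2
  have h3 := c.p_far g s.1
  have h4 := abs_nonneg (rt (c.w s.1) s.2 - rt (c.w (g • s.1)) s.2)
  have hR := c.R_pos
  have h5 : c.w s.1 ≤ 10 * c.R * L / ε := by
    rw [le_div_iff₀ hε]
    have h6 := mul_le_mul_of_nonneg_right h1 hw
    have h7 : |rt (c.w s.1) s.2 - rt (c.w (g • s.1)) s.2| * c.w s.1 ≤ L := by nlinarith
    have h8 := mul_le_mul_of_nonneg_right h7 hR.le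
    nlinarith
  refine ⟨h5, not_le.1 fun h => ?_⟩
  have h6 := (abs_le.1 (c.w_smul g s.1)).2
  have h7 : 0 ≤ L := dist_nonneg
  have h8 := hs.2
  rw [qq_end c hX (g • s.1) (by linarith), qq_end c hX s.1 (n := s.2) (by linarith),
    bb_smul c g hs.1, dist_self] at h8
  exact hε.not_ge h8

/-- The positions on the amplified module. -/
def pq (x : Tw c.Δ Γ × ℕ) : X := x.1.2⁻¹ • qq c hX (x.1.1, x.2)

theorem fin_tw {I : Type} (hp : ∀ R : ℝ, {g : Γ | dist o (g • o) ≤ R}.Finite) (q : I × ℕ → X)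
    {F : Set (I × ℕ)} (hF : F.Finite) {B : Set X} (hB : Bornology.IsBounded B) :
    {x : Tw I Γ × ℕ | (x.1.1, x.2) ∈ F ∧ x.1.2⁻¹ • q (x.1.1, x.2) ∈ B}.Finite := by
  refine (hF.biUnion (t := fun s => (fun g : Γ => (((s.1, g⁻¹) : Tw I Γ), s.2)) ''
    {g : Γ | g • q s ∈ B}) fun s _ => (finite_orbit hp _ hB).image _).subset fun x hx => ?_
  exact mem_biUnion hx.1 ⟨x.1.2⁻¹, hx.2, Prod.ext (Prod.ext rfl (inv_inv x.1.2)) rfl⟩

theorem slow_up (hp : ∀ R : ℝ, {g : Γ | dist o (g • o) ≤ R}.Finite) :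
    Slow (pq c hX) (pq c hX) (up (Tw c.Δ Γ)) := by
  have e : ∀ x : Tw c.Δ Γ × ℕ, dist (pq c hX (up _ x)) (pq c hX x) =
      dist (qq c hX (x.1.1, x.2 + 1)) (qq c hX (x.1.1, x.2)) := fun x => dist_smul _ _ _
  refine ⟨⟨2 * c.R, fun x => ?_⟩, fun ε hε B hB =>
    (fin_tw hp (qq c hX) (fin_succ c hX hε) hB).subset fun x hx => ⟨?_, hx.1⟩⟩
  · rw [e]
    have h1 := qq_succ c hX (x.1.1, x.2)
    have h2 := w_nonneg c x.1.1
    have h3 : 0 ≤ dist (qq c hX (x.1.1, x.2 + 1)) (qq c hX (x.1.1, x.2)) := dist_nonneg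
    nlinarith
  · have := hx.2
    rwa [e] at this

/-- Left translation on the twisted module. -/
def tl (γ : Γ) (z : Tw c.Δ Γ) : Tw c.Δ Γ := (γ • z.1, γ * z.2)

theorem tl_inj (γ : Γ) : Function.Injective (tl c γ) := fun _ _ h =>
  Prod.ext (MulAction.injective γ (congrArg Prod.fst h :)) (mul_left_cancel (congrArg Prod.snd h :))

theorem amp_mem (hp : ∀ R : ℝ, {g : Γ | dist o (g • o) ≤ R}.Finite) (γ : Γ) (v : c.Δ → ℝ)
    (hv : ∀ σ, v σ = 0 ∨ v σ = 1) (h0 : v c.nil = 0) (y : Op (Tw c.Δ Γ))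
    (hy : IsTw2 γ (c.π γ * BCC.dgl v) y) : ampN ℕ y ∈ Dstar Γ (pq c hX) := by
  have hs : ∀ z : Tw c.Δ Γ, |c.sg γ z.1 * v z.1| ≤ 1 := fun z => by
    rcases c.sg_sq γ z.1 with h | h <;> rcases hv z.1 with h' | h' <;> simp [h, h']
  have e : y = wop (tl c γ) (tl_inj c γ) _ 1 hs := entry_ext fun a b => by
    rw [entry_wop]
    refine (hy a.1 b.1 a.2 b.2).trans ?_
    rw [BCC.col_mul, BCC.col_dgl, BCC.apply_single, c.π_col]
    by_cases h : tl c γ b = a
    · subst h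
      rw [if_pos rfl, if_pos (show (tl c γ b).2 = γ * b.2 from rfl)]
      change (v b.1 • Finsupp.single (γ • b.1) (c.sg γ b.1)) (γ • b.1) = _
      simp [mul_comm]
    · rw [if_neg h]
      split_ifs with h1
      · have : a.1 ≠ γ • b.1 := fun h2 => h (Prod.ext h2.symm h1.symm)
        simp [this]
      · rfl
  have e2 : ampN ℕ y = wop (Prod.map (tl c γ) id) ((tl_inj c γ).prodMap Function.injective_id)
      (fun x => c.sg γ x.1.1 * v x.1.1) 1 fun x => hs x.1 := by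
    rw [e, wop, ampN_comp, ampN_iso]
    rfl
  have e3 : ∀ x : Tw c.Δ Γ × ℕ, dist (pq c hX (Prod.map (tl c γ) id x)) (pq c hX x) =
      dist (qq c hX (γ • x.1.1, x.2)) (γ • qq c hX (x.1.1, x.2)) := fun x => by
    rw [← dist_smul (γ * x.1.2)⁻¹ (qq c hX _), smul_smul,
      show (γ * x.1.2)⁻¹ * γ = x.1.2⁻¹ by group]
    rfl
  have hn : ∀ σ, c.sg γ σ * v σ ≠ 0 → σ ≠ c.nil := fun σ h h' => h (by rw [h', h0, mul_zero])
  rw [e2]
  refine mem_Dstar_iff.2 (D0_le_DR (wop_mem_D0' _ (fun g x => ?_) _ _ _ (fun _ _ => rfl)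
    (r := dist o (γ • o) + dist o (γ • o) * (2 * c.R)) (fun x hx => ?_) fun ε hε B hB =>
      (fin_tw hp (qq c hX) (fin_smul c hX γ hε) hB).subset fun x hx => ⟨⟨hn _ hx.1, ?_⟩, hx.2.1⟩))
  · exact Prod.ext (Prod.ext rfl (mul_assoc γ x.1.2 g⁻¹).symm) rfl
  · rw [e3]
    exact qq_smul_le c hX γ (x.1.1, x.2) (hn _ hx)
  · have := hx.2.2
    rwa [e3] at this

end Geo

theorem isCor_conj {Γ Z Z' : Type} [Group Γ] [MulAction Γ Z] [MulAction Γ Z'] {j : Z' → Z}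
    (hj : Function.Injective j) (he : ∀ (g : Γ) b, j (g • b) = g • j b) (z : Z') (T : Op Γ)
    (y : Op Z') (h : IsCor z T y) : IsCor (j z) T ((iso j hj).comp (y.comp (res j hj))) := by
  refine ⟨fun k k' => ?_, fun a b hab => ?_⟩
  · rw [← he, ← he, entry_iso_comp, entry_comp_res, h.1]
  · by_cases ha : a ∈ range j
    · obtain ⟨a, rfl⟩ := ha
      rw [entry_iso_comp]
      by_cases hb : b ∈ range j
      · obtain ⟨b, rfl⟩ := hb
        rw [entry_comp_res]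
        refine h.2 a b (hab.imp ?_ ?_) <;> rintro h1 ⟨g, rfl⟩ <;> exact h1 ⟨g, (he g z).symm⟩
      · exact entry_comp_res_of_not_mem _ _ _ _ hb
    · exact entry_iso_comp_of_not_mem _ _ _ ha _

end SW

attribute [local instance] SW.levAct

open SW in
theorem stSW : St_SW := by
  intro Γ X Z _ _ _ _ _ _ o c pos hG hZ
  have hc : Countable c.Δ := by
    rw [← countable_univ_iff]
    refine (countable_iUnion fun n : ℕ => (c.w_fin n).countable).mono fun σ _ => ?_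
    exact mem_iUnion.2 (exists_nat_ge (c.w σ))
  obtain ⟨z, hz, -, hz1, hz2⟩ := exists_embed hZ hG.proper (qq c hG.cn) ∅
  let j : Tw c.Δ Γ × ℕ → Z := fun x => x.1.2⁻¹ • z (x.1.1, x.2)
  have hj : Function.Injective j := fun x y h => by
    have h1 := hz (x.1.1, x.2) (y.1.1, y.2) (y.1.2 * x.1.2⁻¹) (by
      rw [mul_smul]; exact smul_eq_iff_eq_inv_smul _ |>.2 h)
    exact Prod.ext (Prod.ext (congrArg Prod.fst h1.1 :) (mul_inv_eq_one.1 h1.2).symm)
      (congrArg Prod.snd h1.1 :)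
  have he : ∀ (g : Γ) x, j (g • x) = g • j x := fun g x => by
    change (x.1.2 * g⁻¹)⁻¹ • z (x.1.1, x.2) = g • x.1.2⁻¹ • z (x.1.1, x.2)
    rw [mul_inv_rev, inv_inv, mul_smul]
  have e : ∀ x, dist (pos (j x)) (pq c hG.cn x) =
      dist (pos (z (x.1.1, x.2))) (qq c hG.cn (x.1.1, x.2)) := fun x => by
    rw [hZ.equivariant]
    exact dist_smul _ _ _
  have hs : Slow pos (pq c hG.cn) j := ⟨⟨1, fun x => (e x).trans_le (hz1 _)⟩, fun ε hε B hB =>
    (fin_tw hG.proper (qq c hG.cn) (hz2 ε hε) hB).subset fun x hx =>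
      ⟨hx.2.trans_eq (e x), hx.1⟩⟩
  have h0 : ∀ a, pq c hG.cn (a, 0) = posT Γ c.p a := fun a => congrArg (a.2⁻¹ • ·) (qq_zero c _ a.1)
  let θ₁ := conjHom (D0_le_DR (iso_mem_D0 hj he hs)) (D0_le_DR (res_mem_D0 hj he hs))
    (res_comp_iso j hj)
  have h1 : Continuous θ₁ := continuous_conjHom _ _ _
  refine ⟨θ₁.comp (th0 Γ h0), h1.comp (continuous_th0 h0), j (lev _ 0 (c.nil, 1)),
    fun T y h => isCor_conj hj he _ T _ (isCor_conj (lev_inj 0) (fun _ _ => rfl) _ T _ h),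
    fun Y A _ _ _ _ _ ω δ v _ hA hv hv0 _ Φ hΦ hΦ' => AddMonoidHom.ext fun x => ?_⟩
  have ha : ∀ a, ampN ℕ (Φ a).1 ∈ Dstar Γ (pq c hG.cn) :=
    hA.dense
      { carrier := {a | ampN ℕ (Φ a).1 ∈ Dstar Γ (pq c hG.cn)}
        zero_mem' := by
          rw [mem_ofPred_eq, map_zero]
          exact (congrArg (· ∈ Dstar Γ (pq c hG.cn)) (map_zero (ampNL ℕ))).mpr (zero_mem _)
        add_mem' := fun {a b} h h' => by
          rw [mem_ofPred_eq, map_add]
          exact (Dstar Γ (pq c hG.cn)).add_mem h h'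
        smul_mem' := fun r a h => by
          rw [mem_ofPred_eq, map_smul]
          exact (Dstar Γ (pq c hG.cn)).smul_mem h r }
      (isClosed_Dstar.preimage (continuous_ampN.comp (continuous_subtype_val.comp hΦ)))
      fun γ => amp_mem c hG.cn hG.proper γ v hv hv0 _ (hΦ' γ)
  have h2 := congrArg (kap0 Y θ₁ h1) (swindle h0 (slow_up c hG.cn hG.proper) Y Φ hΦ ha x)
  rw [map_zero] at h2
  refine Eq.trans ?_ h2
  rw [AddMonoidHom.comp_apply, kap0, kap0, kap0, kap0, map_map, map_map, map_map]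
  rfl

end Pool.Agent.Lib.BCH
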