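import Pool.Agent.Lib.BCH.Blue2

/-! Transfer along a homomorphism that is bijective on the finite corners. -/

noncomputable section

open Filter Topology BCK

namespace Pool.Agent.Lib.BCH

namespace TR

section Abstract

variable {M N Λ : Type} [NormedRing M] [NormedAlgebra ℝ M] [CompleteSpace M] [NormedRing N]
  [CompleteSpace N] [SemilatticeSup Λ]

/-- The corner of an idempotent. -/
def corner (p : M) : Submodule ℝ M where
  carrier := {x | p * x = x ∧ x * p = x}
  add_mem' hx hy := ⟨by rw [mul_add, hx.1, hy.1], by rw [add_mul, hx.2, hy.2]⟩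
  zero_mem' := ⟨mul_zero _, zero_mul _⟩
  smul_mem' r _ hx := ⟨by rw [mul_smul_comm, hx.1], by rw [smul_mul_assoc, hx.2]⟩

omit [CompleteSpace M] in
theorem isClosed_corner (p : M) : IsClosed (corner p : Set M) :=
  (isClosed_eq (by fun_prop) continuous_id).inter (isClosed_eq (by fun_prop) continuous_id)

theorem abstract (Φ : M →+* N) (hΦ : Continuous Φ) (p : Λ → M)
    (hp : ∀ F G, F ≤ G → p F * p G = p F ∧ p G * p F = p F)
    (inj : ∀ G x, p G * x = x → x * p G = x → Φ x = 0 → x = 0)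
    (surj : ∀ G y, Φ (p G) * y = y → y * Φ (p G) = y → ∃ x, p G * x = x ∧ x * p G = x ∧ Φ x = y)
    {e c : M} (he : e * e = e) (hc : c * c = c) (hcp : ∀ G, c * p G = p G * c) (u : Nˣ)
    (hu : Φ e * u = u * Φ c) (h1 : ∃ᶠ a in 𝓝 (e - c), ∃ F, p F * a = a ∧ a * p F = a)
    (h2 : ∃ᶠ y in 𝓝 ((u : N) - 1), ∃ F, Φ (p F) * y = y ∧ y * Φ (p F) = y) :
    ∃ (f : M) (v w : Mˣ), e * v = v * f ∧ f * f = f ∧ f * w = w * c := by
  have hk : Tendsto (fun a : M => kap (c + a)) (𝓝 (e - c)) (𝓝 e) := by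
    have h3 : Tendsto (fun a : M => c + a) (𝓝 (e - c)) (𝓝 e) :=
      Continuous.tendsto' (by fun_prop) _ _ (by simp)
    have h4 := (continuousAt_kap (good_of_idem he)).tendsto
    rw [kap_of_idem he] at h4
    exact h4.comp h3
  have hg : ∀ᶠ a in 𝓝 (e - c), Good (c + a) :=
    (Continuous.tendsto' (f := fun a : M => c + a) (by fun_prop) _ e (by simp)).eventually
      (isOpen_good.mem_nhds (good_of_idem he))
  have hcl : ∀ᶠ a in 𝓝 (e - c), ‖(e + e - 1) * (kap (c + a) - e)‖ < 1 :=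
    hk.eventually (ContinuousAt.eventually_lt (f := fun f => ‖(e + e - 1) * (f - e)‖)
      (g := fun _ => 1) (by fun_prop) continuousAt_const (by simp))
  have hcc : Φ c * Φ c = Φ c := by rw [← map_mul, hc]
  have hW : Tendsto (fun z : M × N => Φ (kap (c + z.1)) * (1 + z.2) * Φ c +
      (1 - Φ (kap (c + z.1))) * (1 + z.2) * (1 - Φ c)) (𝓝 (e - c) ×ˢ 𝓝 ((u : N) - 1))
      (𝓝 (u : N)) := by
    have a1 : Tendsto (fun z : M × N => Φ (kap (c + z.1))) (𝓝 (e - c) ×ˢ 𝓝 ((u : N) - 1))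
        (𝓝 (Φ e)) := (hΦ.tendsto e).comp (hk.comp tendsto_fst)
    have a2 : Tendsto (fun z : M × N => 1 + z.2) (𝓝 (e - c) ×ˢ 𝓝 ((u : N) - 1)) (𝓝 (u : N)) := by
      simpa using (tendsto_snd (f := 𝓝 (e - c)) (g := 𝓝 ((u : N) - 1))).const_add 1
    have a3 := ((a1.mul a2).mul_const (Φ c)).add
      (((a1.const_sub 1).mul a2).mul_const (1 - Φ c))
    convert a3 using 2
    rw [sub_mul, one_mul, hu, mul_assoc, hcc, mul_sub, mul_one, sub_mul, mul_assoc, hcc]
    abel
  obtain ⟨P, hP, Q, hQ, hPQ⟩ := eventually_prod_iff.1 (hW.eventually (Units.nhds u))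
  obtain ⟨a, ⟨F, ha⟩, hPa, hga, hca⟩ := (h1.and_eventually (hP.and (hg.and hcl))).exists
  obtain ⟨y, ⟨G, hy⟩, hQy⟩ := (h2.and_eventually hQ).exists
  obtain ⟨W, hWe⟩ := hPQ hPa hQy
  dsimp only at hWe
  have hf := kap_idem hga
  obtain ⟨v, -, hv⟩ := exists_unit_cu he hf hca
  set q := p (F ⊔ G) with hq
  have qc : c * q = q * c := hcp _
  have ha' : a ∈ corner q :=
    ⟨by rw [← ha.1, ← mul_assoc, (hp F _ le_sup_left).2],
      by rw [← ha.2, mul_assoc, (hp F _ le_sup_left).1]⟩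
  have cl : ∀ x ∈ corner q, c * x ∈ corner q := fun x hx =>
    ⟨by rw [← mul_assoc, ← qc, mul_assoc, hx.1], by rw [mul_assoc, hx.2]⟩
  have cr : ∀ x ∈ corner q, x * c ∈ corner q := fun x hx =>
    ⟨by rw [← mul_assoc, hx.1], by rw [mul_assoc, qc, ← mul_assoc, hx.2]⟩
  have cm : ∀ x ∈ corner q, ∀ z ∈ corner q, x * z ∈ corner q := fun x hx z hz =>
    ⟨by rw [← mul_assoc, hx.1], by rw [mul_assoc, hz.2]⟩
  obtain ⟨z, hz, hzf⟩ : ∃ z ∈ corner q, kap (c + a) = c + z := by
    have b1 : kap (c + a) - (c + a) ∈ corner q := by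
      refine kap_sub_mem _ (isClosed_corner q) ?_ fun x hx => ?_
      · have : (c + a) * (c + a) - (c + a) = c * a + a * c + a * a - a := by
          rw [add_mul, mul_add, mul_add, hc]; abel
        rw [this]
        exact sub_mem (add_mem (add_mem (cl _ ha') (cr _ ha')) (cm _ ha' _ ha')) ha'
      · rw [add_mul]; exact add_mem (cl _ hx) (cm _ ha' _ hx)
    exact ⟨_, add_mem b1 ha', by abel⟩
  obtain ⟨x, hx1, hx2, rfl⟩ := surj (F ⊔ G) y
    (by rw [← hy.1, ← mul_assoc, ← map_mul, (hp G _ le_sup_right).2])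
    (by rw [← hy.2, mul_assoc, ← map_mul, (hp G _ le_sup_right).1])
  have hx : x ∈ corner q := ⟨hx1, hx2⟩
  refine ⟨kap (c + a), v, ?_⟩
  rw [hzf] at hf hWe hv ⊢
  obtain ⟨t, ht, htW⟩ : ∃ t ∈ corner q,
      (c + z) * (1 + x) * c + (1 - (c + z)) * (1 + x) * (1 - c) = 1 + t := by
    refine ⟨(c + z) * x * c + (x - (c + z) * x - (x - (c + z) * x) * c) + (z * c + z * c - z),
      ?_, ?_⟩
    · have b1 : (c + z) * x ∈ corner q := by
        rw [add_mul]; exact add_mem (cl _ hx) (cm _ hz _ hx)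
      exact add_mem (add_mem (cr _ b1) (sub_mem (sub_mem hx b1) (cr _ (sub_mem hx b1))))
        (sub_mem (add_mem (cr _ hz) (cr _ hz)) hz)
    · simp only [mul_add, add_mul, mul_sub, sub_mul, mul_one, one_mul, hc]
      abel
  have hWt : (W : N) = 1 + Φ t := by
    rw [hWe, ← map_one Φ, ← map_add, ← map_sub, ← map_sub, ← map_mul, ← map_mul, ← map_mul,
      ← map_mul, ← map_add, htW, map_add]
  have e1 : (↑W⁻¹ : N) - 1 = -(↑W⁻¹ * Φ t) := by rw [inv_sub_one, hWt, add_sub_cancel_left]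
  have e2 : (↑W⁻¹ : N) - 1 = -(Φ t * ↑W⁻¹) := by
    have : Φ t = W - 1 := by rw [hWt, add_sub_cancel_left]
    rw [this, sub_mul, Units.mul_inv]; simp
  obtain ⟨s, hs1, hs2, hs⟩ := surj (F ⊔ G) ((↑W⁻¹ : N) - 1)
    (by rw [e2, mul_neg, ← mul_assoc, ← map_mul, ht.1])
    (by rw [e1, neg_mul, mul_assoc, ← map_mul, ht.2])
  have hs' : s ∈ corner q := ⟨hs1, hs2⟩
  have hWs : (↑W⁻¹ : N) = 1 + Φ s := by rw [hs]; abel
  have i1 : (1 + t) * (1 + s) = 1 := by
    have b1 := add_mem (add_mem ht hs') (cm _ ht _ hs')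
    have b2 := inj _ _ b1.1 b1.2 (by
      have := W.mul_inv
      rw [hWt, hWs] at this
      rw [map_add, map_add, map_mul]
      calc Φ t + Φ s + Φ t * Φ s = (1 + Φ t) * (1 + Φ s) - 1 := by noncomm_ring
        _ = 0 := by rw [this, sub_self])
    calc (1 + t) * (1 + s) = 1 + (t + s + t * s) := by noncomm_ring
      _ = 1 := by rw [b2, add_zero]
  have i2 : (1 + s) * (1 + t) = 1 := by
    have b1 := add_mem (add_mem hs' ht) (cm _ hs' _ ht)
    have b2 := inj _ _ b1.1 b1.2 (by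
      have := W.inv_mul
      rw [hWt, hWs] at this
      rw [map_add, map_add, map_mul]
      calc Φ s + Φ t + Φ s * Φ t = (1 + Φ s) * (1 + Φ t) - 1 := by noncomm_ring
        _ = 0 := by rw [this, sub_self])
    calc (1 + s) * (1 + t) = 1 + (s + t + s * t) := by noncomm_ring
      _ = 1 := by rw [b2, add_zero]
  refine ⟨⟨1 + t, 1 + s, i1, i2⟩, hv, hf, ?_⟩
  change (c + z) * (1 + t) = (1 + t) * c
  rw [← htW]
  generalize c + z = f at hf
  have b1 : f * (1 - f) = 0 := by rw [mul_sub, hf]; simp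
  have b2 : (1 - c) * c = 0 := by rw [sub_mul, hc]; simp
  rw [mul_add, add_mul, mul_assoc _ (1 - c), b2, mul_assoc _ c c, hc, ← mul_assoc, ← mul_assoc, hf,
    ← mul_assoc, ← mul_assoc, b1]
  simp

end Abstract

section Concrete

variable {B Λ ν Y n : Type} [NormedRing B] [NormedAlgebra ℝ B] [SemilatticeSup Λ] [Nonempty Λ]
  [Fintype ν] [DecidableEq ν] [TopologicalSpace Y] [CompactSpace Y] [Fintype n] [DecidableEq n]
  {P : Λ → B}

omit [NormedAlgebra ℝ B] in
theorem tendsto_corner (hP : IsFilt P) {x : B} (hx : x ∈ KK P) :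
    Tendsto (fun F => P F * x * P F) atTop (𝓝 x) := by
  refine Metric.tendsto_nhds.2 fun ε hε => ?_
  filter_upwards [Metric.tendsto_nhds.1 hx.1 (ε / 2) (by positivity),
    Metric.tendsto_nhds.1 hx.2 (ε / 2) (by positivity)] with F h1 h2
  rw [dist_eq_norm] at h1 h2 ⊢
  have h3 := hP.right F (P F * x) x
  have h4 : P F * x * P F - x = (P F * x * P F - x * P F) + (x * P F - x) := by abel
  rw [h4]
  linarith [norm_add_le (P F * x * P F - x * P F) (x * P F - x)]

omit [NormedAlgebra ℝ B] in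
theorem tendsto_corner_cy (hP : IsFilt P) {g : C(Y, B)} (hg : ∀ y, g y ∈ KK P) :
    Tendsto (fun F => ContinuousMap.const Y (P F) * g * ContinuousMap.const Y (P F)) atTop
      (𝓝 g) := by
  refine Metric.tendsto_nhds.2 fun ε hε => ?_
  have h : ∀ᶠ F in atTop, ∀ y ∈ (Set.univ : Set Y), ‖P F * g y * P F - g y‖ < ε := by
    refine isCompact_univ.induction_on (p := fun s => ∀ᶠ F in atTop, ∀ y ∈ s,
      ‖P F * g y * P F - g y‖ < ε) (by simp) (fun s t hst ht => ht.mono fun F h y hy => h y (hst hy))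
      (fun s t hs ht => (hs.and ht).mono fun F h y hy => hy.elim (h.1 y) (h.2 y)) fun y _ => ?_
    refine ⟨{y' | ‖g y' - g y‖ < ε / 3}, mem_nhdsWithin_of_mem_nhds
      (ContinuousAt.eventually_lt (by fun_prop) continuousAt_const (by simpa using hε)), ?_⟩
    filter_upwards [Metric.tendsto_nhds.1 (tendsto_corner hP (hg y)) (ε / 3) (by positivity)]
      with F h1 y' (h2 : ‖g y' - g y‖ < ε / 3)
    rw [dist_eq_norm] at h1
    have h3 := (hP.right F (P F * g y') (P F * g y)).trans (hP.left F (g y') (g y))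
    have h4 : P F * g y' * P F - g y' = (P F * g y' * P F - P F * g y * P F) +
        (P F * g y * P F - g y) - (g y' - g y) := by abel
    rw [h4]
    linarith [norm_sub_le ((P F * g y' * P F - P F * g y * P F) + (P F * g y * P F - g y))
      (g y' - g y), norm_add_le (P F * g y' * P F - P F * g y * P F) (P F * g y * P F - g y)]
  filter_upwards [h] with F hF
  refine (ContinuousMap.dist_lt_iff hε).2 fun y => ?_
  rw [dist_eq_norm]
  exact hF y trivial

variable (ν Y n) in
/-- The constant scalar matrix. -/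
def sc (b : B) : Matrix n n (FF ν Y B) := Matrix.scalar n (FF.const ν Y b)

omit [NormedAlgebra ℝ B] in
theorem const_mul (b : B) (x : FF ν Y B) (i j : ν) :
    (FF.const ν Y b * x) i j = ContinuousMap.const Y b * x i j :=
  Matrix.diagonal_mul (fun _ : ν => ContinuousMap.const Y b) x i j

omit [NormedAlgebra ℝ B] in
theorem mul_const (b : B) (x : FF ν Y B) (i j : ν) :
    (x * FF.const ν Y b) i j = x i j * ContinuousMap.const Y b :=
  Matrix.mul_diagonal (fun _ : ν => ContinuousMap.const Y b) x i j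

omit [NormedAlgebra ℝ B] in
theorem sc_mul (b : B) (x : Matrix n n (FF ν Y B)) (k l : n) (i j : ν) :
    (sc ν Y n b * x) k l i j = ContinuousMap.const Y b * x k l i j := by
  rw [sc, Matrix.scalar_apply, Matrix.diagonal_mul, const_mul]

omit [NormedAlgebra ℝ B] in
theorem mul_sc (b : B) (x : Matrix n n (FF ν Y B)) (k l : n) (i j : ν) :
    (x * sc ν Y n b) k l i j = x k l i j * ContinuousMap.const Y b := by
  rw [sc, Matrix.scalar_apply, Matrix.mul_diagonal, mul_const]

omit [NormedAlgebra ℝ B] in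
theorem sc_mul_sc (a b : B) : sc ν Y n a * sc ν Y n b = sc ν Y n (a * b) := by
  rw [sc, sc, sc, ← map_mul, ← map_mul]

omit [NormedAlgebra ℝ B] [Fintype ν] [DecidableEq ν] [CompactSpace Y] [Fintype n]
  [DecidableEq n] in
theorem ext5 {x x' : Matrix n n (FF ν Y B)} (h : ∀ k l i j y, x k l i j y = x' k l i j y) :
    x = x' :=
  Matrix.ext fun k l => funext fun i => funext fun j => ContinuousMap.ext (h k l i j)

omit [NormedAlgebra ℝ B] in
theorem freq (hP : IsFilt P) {x : Matrix n n (FF ν Y B)} (hx : Ent (FF.set ν Y (KK P)) x) :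
    ∃ᶠ a in 𝓝 x, ∃ F, sc ν Y n (P F) * a = a ∧ a * sc ν Y n (P F) = a := by
  have h : Tendsto (fun F => sc ν Y n (P F) * x * sc ν Y n (P F)) atTop (𝓝 x) := by
    refine tendsto_pi_nhds.2 fun k => tendsto_pi_nhds.2 fun l => ?_
    refine (tendsto_pi_nhds (A := fun _ : ν => ν → C(Y, B))).2 fun i =>
      tendsto_pi_nhds.2 fun j => ?_
    simp only [mul_sc, sc_mul]
    exact tendsto_corner_cy hP (hx k l i j)
  refine h.frequently (Frequently.of_forall fun F => ⟨F, ?_, ?_⟩)
  · rw [← mul_assoc, ← mul_assoc, sc_mul_sc, (hP.mono F F le_rfl).1]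
  · rw [mul_assoc, sc_mul_sc, (hP.mono F F le_rfl).1]

variable {B' : Type} [NormedRing B'] [NormedAlgebra ℝ B']

omit [NormedAlgebra ℝ B] [NormedAlgebra ℝ B'] in
theorem continuous_map (φ : B' →ₙ+* B) (hφ : Continuous φ) : Continuous (FF.map ν Y φ hφ) :=
  continuous_pi (A := fun _ : ν => ν → C(Y, B)) fun i => continuous_pi fun j =>
    (ContinuousMap.continuous_postcomp ⟨φ, hφ⟩).comp
      ((continuous_apply j).comp (continuous_apply (A := fun _ : ν => ν → C(Y, B')) i))

omit [NormedAlgebra ℝ B] [NormedAlgebra ℝ B'] in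
theorem map_const (φ : B' →ₙ+* B) (hφ : Continuous φ) (b : B') :
    FF.map ν Y φ hφ (FF.const ν Y b) = FF.const ν Y (φ b) :=
  Matrix.diagonal_map (map_zero (cmap Y φ hφ))

/-- The unital homomorphism induced by `φ`. -/
def hom (φ : B' →ₐ[ℝ] B) (hφ : Continuous φ) : FF ν Y B' →+* FF ν Y B :=
  { FF.map ν Y (φ : B' →ₙ+* B) hφ with
    map_one' := by
      have := map_const (ν := ν) (Y := Y) (φ : B' →ₙ+* B) hφ 1
      rw [map_one, show (φ : B' →ₙ+* B) 1 = 1 from map_one φ, map_one (FF.const ν Y)] at this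
      exact this }

end Concrete

end TR

open scoped Matrix.Norms.Operator in
theorem stTR : St_TR := by
  intro B' B Λ ν Y n _ _ _ _ _ _ _ _ _ _ _ _ _ _ P' P φ hφ σ hP' hP h1 h2 h3 e c u he hc hec hu _ hue
  have := @completeM (FF ν Y B') _ n n _ _ _
  have := @completeM (FF ν Y B) _ n n _ _ _
  have hco : Continuous (TR.hom (ν := ν) (Y := Y) φ hφ) := TR.continuous_map _ hφ
  have hsc : ∀ F, (TR.hom φ hφ).mapMatrix (TR.sc ν Y n (P' F)) = TR.sc ν Y n (P F) := fun F => by
    rw [← h1]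
    exact (Matrix.diagonal_map (map_zero _)).trans
      (congrArg (fun b => Matrix.diagonal fun _ : n => b) (TR.map_const (φ : B' →ₙ+* B) hφ _))
  have hcm : (TR.hom φ hφ).mapMatrix (c.map (algebraMap ℝ (FF ν Y B'))) =
      c.map (algebraMap ℝ (FF ν Y B)) := by
    ext1 k l
    change TR.hom φ hφ (algebraMap ℝ _ (c k l)) = algebraMap ℝ _ (c k l)
    rw [Algebra.algebraMap_eq_smul_one, map_real_smul _ hco, map_one,
      Algebra.algebraMap_eq_smul_one]
  have hc' : c.map (algebraMap ℝ (FF ν Y B')) * c.map (algebraMap ℝ (FF ν Y B')) =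
      c.map (algebraMap ℝ (FF ν Y B')) := by rw [← Matrix.map_mul, hc]
  obtain ⟨f, v, w, a1, a2, a3⟩ := TR.abstract (TR.hom (ν := ν) (Y := Y) φ hφ).mapMatrix
    (continuous_id.matrix_map hco) (fun F => TR.sc ν Y n (P' F))
    (fun F G h => by
      rw [TR.sc_mul_sc, TR.sc_mul_sc, (hP'.mono F G h).1, (hP'.mono F G h).2]; exact ⟨rfl, rfl⟩)
    (fun G x b1 b2 b3 => TR.ext5 fun k l i j y => by
      have b4 : φ (x k l i j y) = 0 :=
        congrArg (fun z : Matrix n n (FF ν Y B) => z k l i j y) b3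
      have b5 := h3 G (x k l i j y)
      rw [b4, map_zero] at b5
      rw [← b2, ← b1, TR.mul_sc, TR.sc_mul]
      exact b5.symm)
    (fun G x b1 b2 => by
      rw [hsc] at b1 b2
      refine ⟨Matrix.of fun k l => Matrix.of fun i j =>
        ⟨fun y => P' G * σ G (x k l i j y) * P' G, by fun_prop⟩, TR.ext5 fun k l i j y => ?_,
        TR.ext5 fun k l i j y => ?_, TR.ext5 fun k l i j y => ?_⟩
      · rw [TR.sc_mul]
        change P' G * (P' G * σ G (x k l i j y) * P' G) = P' G * σ G (x k l i j y) * P' G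
        rw [← mul_assoc, ← mul_assoc, (hP'.mono G G le_rfl).1]
      · rw [TR.mul_sc]
        change P' G * σ G (x k l i j y) * P' G * P' G = P' G * σ G (x k l i j y) * P' G
        rw [mul_assoc, (hP'.mono G G le_rfl).1]
      · change φ (P' G * σ G (x k l i j y) * P' G) = x k l i j y
        have b3 : P G * x k l i j y * P G = x k l i j y := by
          conv_rhs => rw [← b2, ← b1, TR.mul_sc, TR.sc_mul]
          rfl
        rw [map_mul, map_mul, h1, h2, b3, b3])
    he hc' (fun G => by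
      ext1 k l
      rw [TR.sc, Matrix.scalar_apply, Matrix.mul_diagonal, Matrix.diagonal_mul]
      exact Algebra.commutes (c k l) (FF.const ν Y (P' G)))
    u (by rw [hcm]; exact hue) (TR.freq hP' hec) (by simp only [hsc]; exact TR.freq hP hu)
  exact (cls_of_unit he v a1).trans (cls_of_unit a2 w a3)

end Pool.Agent.Lib.BCH
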