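import Pool.Agent.Lib.BCH.Blue2
import Pool.Agent.Lib.BCH.Roe46

/-! The `ℓ²` calculus of the operators `T ⊗ λ(γ)`. -/

noncomputable section

open Filter Topology Finset
open scoped ZeroAtInfty

namespace Pool.Agent.Lib.BCH

open Pool.Agent.Lib.BCC (E ms)

namespace TW

section Schur

variable {Z₁ Z₂ : Type}

theorem sum_sq_le (ξ : H Z₂) (s : Finset Z₂) : ∑ b ∈ s, ξ b ^ 2 ≤ ‖ξ‖ ^ 2 := by
  have := lp.sum_rpow_le_norm_rpow (p := 2) (by norm_num) ξ s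
  simpa using this

theorem schur_sum (k : Z₁ → Z₂ → ℝ) (F : Z₁ → Finset Z₂) (M : ℕ) (C : ℝ) (hC : 0 ≤ C)
    (hF : ∀ a, (F a).card ≤ M) (hc : ∀ b (s : Finset Z₁), ∑ a ∈ s, |k a b| ≤ C) (ξ : H Z₂)
    (s : Finset Z₁) : ∑ a ∈ s, (∑ b ∈ F a, k a b * ξ b) ^ 2 ≤ (√M * C * ‖ξ‖) ^ 2 := by
  classical
  have h1 : ∀ a ∈ s, (∑ b ∈ F a, k a b * ξ b) ^ 2 ≤
      M * ∑ b ∈ s.biUnion F, C * |k a b| * ξ b ^ 2 := fun a ha => by
    refine sq_sum_le_card_mul_sum_sq.trans (mul_le_mul (by exact_mod_cast hF a) ?_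
      (sum_nonneg fun _ _ => sq_nonneg _) (Nat.cast_nonneg _))
    refine le_trans (sum_le_sum fun b _ => ?_) (sum_le_sum_of_subset_of_nonneg
      (subset_biUnion_of_mem F ha) fun b _ _ => by positivity)
    have h2 : |k a b| ≤ C := by simpa using hc b {a}
    rw [mul_pow, ← sq_abs (k a b), sq |k a b|]
    gcongr
  refine (sum_le_sum h1).trans ?_
  rw [← mul_sum, sum_comm, mul_pow, mul_pow, Real.sq_sqrt (Nat.cast_nonneg _), mul_assoc]
  refine mul_le_mul_of_nonneg_left ?_ (Nat.cast_nonneg _)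
  refine le_trans (sum_le_sum (g := fun b => C ^ 2 * ξ b ^ 2) fun b _ => ?_) ?_
  · rw [← sum_mul, ← mul_sum, sq C]
    gcongr
    exact hc b s
  · rw [← mul_sum]
    exact mul_le_mul_of_nonneg_left (sum_sq_le ξ _) (sq_nonneg _)

/-- The Schur test for matrices with few entries in each row. -/
theorem schur (k : Z₁ → Z₂ → ℝ) (M : ℕ) (C : ℝ) (hC : 0 ≤ C)
    (hr : ∀ a, ∃ F : Finset Z₂, F.card ≤ M ∧ ∀ b, k a b ≠ 0 → b ∈ F)
    (hc : ∀ b (s : Finset Z₁), ∑ a ∈ s, |k a b| ≤ C) :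
    ∃ T : H Z₂ →L[ℝ] H Z₁, (∀ a b, entry T a b = k a b) ∧ ‖T‖ ≤ √M * C := by
  classical
  choose F hF hk using hr
  have hm : ∀ ξ : H Z₂, Memℓp (fun a => ∑ b ∈ F a, k a b * ξ b) 2 := fun ξ =>
    memℓp_gen' (C := (√M * C * ‖ξ‖) ^ 2) fun s => by
      simpa using schur_sum k F M C hC hF hc ξ s
  let L : H Z₂ →ₗ[ℝ] H Z₁ :=
    { toFun := fun ξ => ⟨fun a => ∑ b ∈ F a, k a b * ξ b, hm ξ⟩
      map_add' := fun ξ η => lp.ext (funext fun a => by
        change ∑ b ∈ F a, k a b * (ξ b + η b) = ∑ b ∈ F a, k a b * ξ b + ∑ b ∈ F a, k a b * η b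
        simp only [mul_add, sum_add_distrib])
      map_smul' := fun c ξ => lp.ext (funext fun a => by
        change ∑ b ∈ F a, k a b * (c * ξ b) = c * ∑ b ∈ F a, k a b * ξ b
        simp only [mul_sum, mul_left_comm]) }
  have hL : ∀ ξ, ‖L ξ‖ ≤ √M * C * ‖ξ‖ := fun ξ =>
    lp.norm_le_of_forall_sum_le (by norm_num) (by positivity) fun s => by
      change ∑ a ∈ s, ‖∑ b ∈ F a, k a b * ξ b‖ ^ _ ≤ _
      simpa using schur_sum k F M C hC hF hc ξ s
  refine ⟨L.mkContinuous _ hL, fun a b => ?_, LinearMap.mkContinuous_norm_le _ (by positivity) _⟩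
  change ∑ b' ∈ F a, k a b' * dl b b' = k a b
  simp only [dl_apply, mul_ite, mul_one, mul_zero, sum_ite_eq']
  split_ifs with h
  · rfl
  · by_contra h'
    exact h (hk a b (Ne.symm h'))

theorem norm_le_schur (T : H Z₂ →L[ℝ] H Z₁) (M : ℕ) (C : ℝ) (hC : 0 ≤ C)
    (hr : ∀ a, ∃ F : Finset Z₂, F.card ≤ M ∧ ∀ b, entry T a b ≠ 0 → b ∈ F)
    (hc : ∀ b (s : Finset Z₁), ∑ a ∈ s, |entry T a b| ≤ C) : ‖T‖ ≤ √M * C := by
  obtain ⟨S, h1, h2⟩ := schur (entry T) M C hC hr hc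
  rwa [entry_ext h1] at h2

/-- A banded operator whose displacement tends to zero at infinity is pseudolocal. -/
theorem psR_of_band {X : Type} [MetricSpace X] {p₁ : Z₁ → X} {p₂ : Z₂ → X}
    (T : H Z₂ →L[ℝ] H Z₁) (M : ℕ) (C r : ℝ) (hC : 0 ≤ C)
    (hr : ∀ a, ∃ F : Finset Z₂, F.card ≤ M ∧ ∀ b, entry T a b ≠ 0 → b ∈ F)
    (hc : ∀ b (s : Finset Z₁), ∑ a ∈ s, |entry T a b| ≤ C) (hp : PropLE p₁ p₂ T r)
    (hf : ∀ δ > 0, ∀ B : Set X, Bornology.IsBounded B →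
      {b | p₂ b ∈ B ∧ ∃ a, entry T a b ≠ 0 ∧ δ ≤ dist (p₁ a) (p₂ b)}.Finite) : PsR p₁ p₂ T := by
  classical
  intro φ
  refine Cpt.of_approx fun ε hε => ?_
  have hη : 0 < ε / (√M * C + 1) := by positivity
  obtain ⟨δ, hδ, B, hB, hφ⟩ := c0_control φ hη
  have hs := hf δ hδ _ (hB.cthickening (δ := max r 0))
  set s := {b | p₂ b ∈ Metric.cthickening (max r 0) B ∧
    ∃ a, entry T a b ≠ 0 ∧ δ ≤ dist (p₁ a) (p₂ b)} with hs'
  have h1 : ∀ z, |if z ∈ s then (1 : ℝ) else 0| ≤ 1 := fun z => by split_ifs <;> simp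
  set K := T.comp (rep p₂ φ) - (rep p₁ φ).comp T with hK
  have hK' : ∀ a b, entry (K - K.comp (mulOp _ 1 h1)) a b =
      if b ∈ s then 0 else entry T a b * (φ (p₂ b) - φ (p₁ a)) := fun a b => by
    rw [entry_sub, entry_comp_mulOp, hK, entry_sub, entry_comp_rep, entry_rep_comp]
    split_ifs <;> ring
  refine ⟨K.comp (mulOp _ 1 h1), cpt_of_cols hs fun b hb a => ?_, ?_⟩
  · rw [entry_comp_mulOp, if_neg hb, mul_zero]
  · refine (norm_le_schur _ M (ε / (√M * C + 1) * C) (by positivity) (fun a => ?_)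
      fun b t => ?_).trans ?_
    · obtain ⟨F, h2, h3⟩ := hr a
      refine ⟨F, h2, fun b hb => h3 b fun h4 => hb ?_⟩
      rw [hK', h4, zero_mul, ite_self]
    · refine le_trans ?_ (mul_le_mul_of_nonneg_left (hc b t) hη.le)
      rw [mul_sum]
      refine sum_le_sum fun a _ => ?_
      rw [hK']
      split_ifs with hb
      · rw [abs_zero]
        positivity
      · by_cases h0 : entry T a b = 0
        · simp [h0]
        rw [abs_mul, mul_comm]
        refine mul_le_mul_of_nonneg_right ?_ (abs_nonneg _)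
        by_contra h2
        obtain ⟨h3, h4⟩ := hφ _ _ (not_le.1 h2).le
        refine hb ⟨?_, a, h0, by rwa [dist_comm]⟩
        rcases h4 with h4 | h4
        · exact Metric.self_subset_cthickening _ h4
        · refine Metric.mem_cthickening_of_dist_le _ _ _ _ h4 ?_
          rw [dist_comm]
          exact (not_lt.1 fun h5 => h0 (hp a b h5)).trans (le_max_left _ _)
    · rw [mul_left_comm, div_mul_eq_mul_div, div_le_iff₀ (by positivity)]
      nlinarith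

end Schur

variable {Γ I : Type} [Group Γ]

open Classical in
/-- The matrix of `T ⊗ λ(γ)`. -/
def ker (γ : Γ) (T : E I) (z w : Tw I Γ) : ℝ := if z.2 = γ * w.2 then BCC.col T w.1 z.1 else 0

theorem isTw2_iff {γ : Γ} {T : E I} {y : Op (Tw I Γ)} :
    IsTw2 γ T y ↔ ∀ z w, entry y z w = ker γ T z w :=
  ⟨fun h z w => h z.1 w.1 z.2 w.2, fun h a b g g' => h (a, g) (b, g')⟩

theorem ker_ne {γ : Γ} {T : E I} {z w : Tw I Γ} (h : ker γ T z w ≠ 0) :
    z.2 = γ * w.2 ∧ BCC.col T w.1 z.1 ≠ 0 := by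
  unfold ker at h
  split_ifs at h with h1
  · exact ⟨h1, h⟩
  · exact absurd rfl h

theorem ker_rows (γ : Γ) {T : E I} {M : ℕ}
    (h : ∀ τ, ∃ F : Finset I, F.card ≤ M ∧ ∀ σ, BCC.col T σ τ ≠ 0 → σ ∈ F) (z : Tw I Γ) :
    ∃ F : Finset (Tw I Γ), F.card ≤ M ∧ ∀ w, ker γ T z w ≠ 0 → w ∈ F := by
  classical
  obtain ⟨F, h1, h2⟩ := h z.1
  refine ⟨F.image fun σ => ((σ, γ⁻¹ * z.2) : Tw I Γ), card_image_le.trans h1, fun w hw => ?_⟩
  obtain ⟨h3, h4⟩ := ker_ne hw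
  refine mem_image.2 ⟨w.1, h2 _ h4, Prod.ext rfl ?_⟩
  change γ⁻¹ * z.2 = w.2
  rw [h3, inv_mul_cancel_left]

theorem ker_cols (γ : Γ) (T : E I) (w : Tw I Γ) (s : Finset (Tw I Γ)) :
    ∑ z ∈ s, |ker γ T z w| ≤ ms (BCC.col T w.1) := by
  classical
  have hi : Function.Injective fun τ : I => ((τ, γ * w.2) : Tw I Γ) := fun a b h =>
    congrArg Prod.fst h
  have h1 : ms (BCC.col T w.1) =
      ∑ z ∈ (BCC.col T w.1).support.map ⟨_, hi⟩, |ker γ T z w| := by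
    rw [sum_map, ms]
    exact sum_congr rfl fun τ _ => by simp [ker]
  rw [h1, ← sum_filter_ne_zero s]
  refine sum_le_sum_of_subset_of_nonneg (fun z hz => ?_) fun _ _ _ => abs_nonneg _
  obtain ⟨h3, h4⟩ := ker_ne (abs_ne_zero.1 (mem_filter.1 hz).2)
  exact mem_map.2 ⟨z.1, Finsupp.mem_support_iff.2 h4, Prod.ext rfl h3.symm⟩

theorem exists_tw (γ : Γ) (T : E I) (h : Bnd T) : ∃ y, IsTw2 γ T y := by
  obtain ⟨C, M, h1, h2⟩ := h
  obtain ⟨y, hy, -⟩ := schur (ker γ T) M (max C 0) (le_max_right _ _) (ker_rows γ h2)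
    fun w s => (ker_cols γ T w s).trans ((h1 _).trans (le_max_left _ _))
  exact ⟨y, isTw2_iff.2 hy⟩

/-- The norm of `T ⊗ λ(γ)`. -/
theorem norm_tw_le {γ : Γ} {T : E I} {y : Op (Tw I Γ)} (hy : IsTw2 γ T y) {C : ℝ} {M : ℕ}
    (hC : 0 ≤ C) (h1 : ∀ σ, ms (BCC.col T σ) ≤ C)
    (h2 : ∀ τ, ∃ F : Finset I, F.card ≤ M ∧ ∀ σ, BCC.col T σ τ ≠ 0 → σ ∈ F) : ‖y‖ ≤ √M * C := by
  have hy' := isTw2_iff.1 hy
  refine norm_le_schur y M C hC (fun z => ?_) fun w s => ?_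
  · simpa only [hy'] using ker_rows γ h2 z
  · simpa only [hy'] using (ker_cols γ T w s).trans (h1 _)

theorem tw_one : IsTw2 (1 : Γ) (1 : E I) 1 := isTw2_iff.2 fun z w => by
  classical
  rw [entry_one, ker, one_mul, BCC.col_one, Finsupp.single_apply]
  by_cases h1 : z.2 = w.2
  · rw [if_pos h1]
    exact ite_cg ⟨fun h => by rw [h], fun h => Prod.ext h.symm h1⟩
  · rw [if_neg h1, if_neg fun h => h1 (by rw [h])]

theorem tw_mul {γ γ' : Γ} {T T' : E I} {x y : Op (Tw I Γ)} (hx : IsTw2 γ T x)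
    (hy : IsTw2 γ' T' y) : IsTw2 (γ * γ') (T * T') (x * y) := by
  classical
  rw [isTw2_iff] at hx hy ⊢
  intro z w
  have hi : Function.Injective fun τ : I => ((τ, γ' * w.2) : Tw I Γ) := fun a b h =>
    congrArg Prod.fst h
  refine (hasSum_entry_mul x y z w).unique ?_
  have h1 : ker (γ * γ') (T * T') z w =
      ∑ v ∈ (BCC.col T' w.1).support.map ⟨_, hi⟩, entry x z v * entry y v w := by
    rw [sum_map]
    simp only [hx, hy, ker, Function.Embedding.coeFn_mk, if_true, mul_assoc]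
    split_ifs with h
    · rw [BCC.col_mul, BCC.apply_eq_sum, Finsupp.finsetSum_apply]
      exact sum_congr rfl fun τ _ => by rw [Finsupp.smul_apply, smul_eq_mul, mul_comm]
    · simp
  rw [h1]
  refine hasSum_sum_of_ne_finset_zero fun v hv => ?_
  by_contra h
  have h2 := right_ne_zero_of_mul h
  rw [hy] at h2
  obtain ⟨h3, h4⟩ := ker_ne h2
  exact hv (mem_map.2 ⟨v.1, Finsupp.mem_support_iff.2 h4, Prod.ext rfl h3.symm⟩)

theorem invR_tw {γ : Γ} {T : E I} {y : Op (Tw I Γ)} (hy : IsTw2 γ T y) : InvR Γ y :=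
  fun g z w => by
    classical
    rw [isTw2_iff.1 hy, isTw2_iff.1 hy, ker, ker]
    refine ite_cg ?_
    change z.2 * g⁻¹ = γ * (w.2 * g⁻¹) ↔ _
    rw [← mul_assoc, mul_left_inj]

variable {X : Type} [MetricSpace X] [MulAction Γ X] [IsIsometricSMul Γ X]

theorem dist_posT (c : I → X) {γ : Γ} {z w : Tw I Γ} (h : z.2 = γ * w.2) :
    dist (posT Γ c z) (posT Γ c w) = dist (c z.1) (γ • c w.1) := by
  rw [posT, posT, ← dist_smul z.2, smul_inv_smul, smul_smul, h, mul_inv_cancel_right]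

theorem finite_posT {o : X} (ho : ∀ R : ℝ, {g : Γ | dist o (g • o) ≤ R}.Finite) (c : I → X)
    {F : Set I} (hF : F.Finite) {B : Set X} (hB : Bornology.IsBounded B) :
    {w : Tw I Γ | w.1 ∈ F ∧ posT Γ c w ∈ B}.Finite := by
  obtain ⟨R, hR⟩ := hB.subset_closedBall o
  have h1 : ∀ b : I, ((fun g : Γ => ((b, g) : Tw I Γ)) ''
      {g | dist o (g • o) ≤ dist o (c b) + R}).Finite := fun b => (ho _).image _
  refine (hF.biUnion fun b _ => h1 b).subset fun w hw => Set.mem_biUnion hw.1 ⟨w.2, ?_, rfl⟩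
  have h2 : dist (w.2⁻¹ • c w.1) o ≤ R := hR hw.2
  rw [← dist_smul w.2, smul_inv_smul] at h2
  exact (dist_triangle _ (c w.1) _).trans (add_le_add le_rfl h2)

theorem mem_D0_tw {o : X} (ho : ∀ R : ℝ, {g : Γ | dist o (g • o) ≤ R}.Finite) {c : I → X} {γ : Γ}
    {T : E I} {y : Op (Tw I Γ)} (hT : Bnd T) (hd : Disp c γ T) (hy : IsTw2 γ T y) :
    y ∈ D0 Γ (posT Γ c) (posT Γ c) := by
  obtain ⟨C, M, h1, h2⟩ := hT
  obtain ⟨⟨r, hr⟩, hd⟩ := hd
  have hy' := isTw2_iff.1 hy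
  have hp : PropLE (posT Γ c) (posT Γ c) y r := fun z w h => by
    by_contra h0
    rw [hy'] at h0
    obtain ⟨h3, h4⟩ := ker_ne h0
    rw [dist_posT c h3] at h
    exact h.not_ge (hr _ _ h4)
  refine ⟨invR_tw hy, ⟨r, hp⟩, psR_of_band y M (max C 0) r (le_max_right _ _) (fun z => ?_)
    (fun w s => ?_) hp fun δ hδ B hB => ?_⟩
  · simpa only [hy'] using ker_rows γ h2 z
  · simpa only [hy'] using (ker_cols γ T w s).trans ((h1 _).trans (le_max_left _ _))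
  · refine (finite_posT ho c (eventually_cofinite.1 (hd (δ / 2) (half_pos hδ))) hB).subset ?_
    rintro w ⟨h3, z, h4, h5⟩
    refine ⟨fun h6 => ?_, h3⟩
    rw [hy'] at h4
    obtain ⟨h7, h8⟩ := ker_ne h4
    rw [dist_posT c h7] at h5
    linarith [h6 _ h8]

end TW

theorem stTW : St_TW := by
  intro Γ I X _ _ _ _ o ho
  refine ⟨TW.exists_tw, fun γ T x y hx hy => entry_ext fun z w => ?_, TW.tw_one,
    fun γ T T' x y r hx hy => ⟨fun a b g g' => ?_, fun a b g g' => ?_, fun a b g g' => ?_⟩,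
    fun _ _ _ _ _ _ => TW.tw_mul, fun c γ T y hT hd hy =>
      mem_Dstar_iff.2 (D0_le_DR (TW.mem_D0_tw ho hT hd hy))⟩
  · rw [TW.isTw2_iff.1 hx, TW.isTw2_iff.1 hy]
  · rw [entry_add, hx, hy]
    split_ifs <;> simp
  · rw [entry_sub, hx, hy]
    split_ifs <;> simp
  · rw [entry_smul, hx]
    split_ifs <;> simp

end Pool.Agent.Lib.BCH
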