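import Pool.Agent.Lib.BCH.Mu
import Pool.Agent.Lib.BCH.Blue4
import Pool.Agent.Lib.BCH.AS
import Pool.Agent.Lib.BCH.CR
import Pool.Agent.Lib.BCH.END
import Pool.Agent.Lib.BCH.HOM
import Pool.Agent.Lib.BCH.KER
import Pool.Agent.Lib.BCH.L1
import Pool.Agent.Lib.BCH.RED
import Pool.Agent.Lib.BCH.REP
import Pool.Agent.Lib.BCH.SDK
import Pool.Agent.Lib.BCH.SPLIT
import Pool.Agent.Lib.BCH.SW
import Pool.Agent.Lib.BCH.TR
import Pool.Agent.Lib.BCH.TW
import Pool.Agent.Lib.BCH.PAIR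
import Pool.Agent.Lib.BCC.Main

/-! Assembly of the blocks. -/

open scoped ZeroAtInfty

namespace Pool.Agent.Lib.BCH

variable {Γ X Z : Type} [Group Γ] [MetricSpace X] [ProperSpace X] [MulAction Γ X]
  [IsIsometricSMul Γ X] [MulAction Γ Z] {o : X} {pos : Z → X}

theorem vanish (hG : Geom Γ o)
    (hS : SD.SubexpDecay fun r => {g : Γ | dist o (g • o) ≤ r}) (hZ : IsAmple Γ pos) :
    Vanish Γ pos := by
  obtain ⟨z, hz⟩ := stCR stAS stSDK BCC.stCD (stREP stTW) stTW
    (stEND (stL1 stHOM stKER) stTR stKER stTW (stREP stTW) (stPAIR stKER stTW)) stSW Γ X Z o pos hG hS hZ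
  exact stRED Γ X Z o pos z hG hZ hz

open OnePoint in
theorem boundary_onto {J B Q : Type}
    [NonUnitalNormedRing J] [NormedSpace ℝ J] [IsScalarTower ℝ J J] [SMulCommClass ℝ J J]
    [NormedRing B] [NormedAlgebra ℝ B]
    [NonUnitalNormedRing Q] [NormedSpace ℝ Q] [IsScalarTower ℝ Q Q] [SMulCommClass ℝ Q Q]
    [CompleteSpace B] [CompleteSpace Q] (E : Ext J B Q) (hi : Isometry E.ι) (hp : Continuous E.π)
    (n : ℕ) (h : ∀ (k : ℕ) (c : Matrix (Fin k) (Fin k) ℝ)
      (e : Matrix (Fin k) (Fin k) C(OnePoint (EuclideanSpace ℝ (Fin n)), B)), e * e = e →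
      c * c = c → (∀ i j y, ∃ a, e i j y = c i j • 1 + E.ι a) →
      cls e = cls (c.map fun r => (r • 1 : C(OnePoint (EuclideanSpace ℝ (Fin n)), B)))) :
    Function.Surjective (E.boundary n hi hp) :=
  Ext.bdry_surjective _ _ fun x hx =>
    SPLIT.fin (EuclideanSpace ℝ (Fin n)) B (E.susp hi hp n).ι (fun k c a e he hc h1 h2 =>
      h k c e he hc fun i j y => by
        induction y using OnePoint.rec with
        | infty => exact ⟨0, by rw [map_zero, add_zero]; exact h1 i j⟩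
        | coe t => exact ⟨a i j t, h2 i j t⟩) x hx

omit [ProperSpace X] [MulAction Γ X] [IsIsometricSMul Γ X] in
theorem onto_of_vanish (h : Vanish Γ pos) (n : ℕ) : Function.Surjective (assembly Γ pos n) := by
  have k0 := boundary_onto (J := Cstar Γ pos) (B := Dstar Γ pos) (Q := Dstar Γ pos ⧸ Cid Γ pos)
  have k1 := k0 (roeExt Γ pos)
  have k2 := k1 (roeExt_isometry Γ pos) (roeExt_continuous Γ pos) n
  have k3 := k2 fun k c e he hc h1 =>
    h (OnePoint (EuclideanSpace ℝ (Fin n))) (Fin k) c e he hc fun i j y => by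
      obtain ⟨a, ha⟩ := h1 i j y
      have h3 : (e i j y : Op Z) = c i j • (1 : Op Z) + (a : Op Z) := congrArg Subtype.val ha
      rw [h3, add_sub_cancel_left]
      exact a.2
  exact k3

theorem factor_onto {A B C : Type} {f : A → B} {g : C → B} (hf : Function.Surjective f)
    (hg : Function.Bijective g) : ∃ μ : A → C, (∀ x, g (μ x) = f x) ∧ Function.Surjective μ := by
  refine ⟨fun x => Function.surjInv hg.2 (f x), fun x => Function.surjInv_eq hg.2 _, fun y => ?_⟩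
  obtain ⟨x, hx⟩ := hf (g y)
  exact ⟨x, hg.1 ((Function.surjInv_eq hg.2 _).trans hx)⟩

omit [ProperSpace X] [MulAction Γ X] [IsIsometricSMul Γ X] in
theorem mu_of {z : Z} {n : ℕ} (h : Function.Surjective (assembly Γ pos n))
    (hM : CornerIso Γ pos z n) : ∃ μ, IsAssembly Γ pos z n μ ∧ Function.Surjective μ := by
  obtain ⟨θ, hθ, h1, h2⟩ := hM
  obtain ⟨μ, h3, h4⟩ := factor_onto h h2
  exact ⟨μ, ⟨θ, hθ, h1, h2, h3⟩, h4⟩

theorem core_of (hM : St_MOR) (hG : Geom Γ o)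
    (hS : SD.SubexpDecay fun r => {g : Γ | dist o (g • o) ≤ r}) (hZ : IsAmple Γ pos) (z : Z)
    (n : ℕ) : ∃ μ, IsAssembly Γ pos z n μ ∧ Function.Surjective μ :=
  mu_of (onto_of_vanish (vanish hG hS hZ) n) (hM Γ X Z o pos z n hG hZ)

end Pool.Agent.Lib.BCH
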