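import Mathlib

/-! Equivariant Roe algebras on a module `ℓ²(Z, ℝ)`. -/

noncomputable section

open scoped ZeroAtInfty ENNReal

namespace Pool.Agent.Lib.BCH

/-- The real Hilbert space `ℓ²(Z)`. -/
abbrev H (Z : Type) : Type := lp (fun _ : Z => ℝ) 2

/-- Bounded operators on `ℓ²(Z)`. -/
abbrev Op (Z : Type) : Type := H Z →L[ℝ] H Z

open Classical in
/-- The matrix coefficient `⟨T δ_b, δ_a⟩`. -/
def entry {Z Z' : Type} (T : H Z' →L[ℝ] H Z) (a : Z) (b : Z') : ℝ := T (lp.single 2 b 1) a

theorem memℓp_mul {Z : Type} (f : Z → ℝ) (C : ℝ) (hf : ∀ z, |f z| ≤ C) (ξ : H Z) :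
    Memℓp (fun z => f z * ξ z) 2 :=
  (lp.memℓp (C • ξ)).mono' fun z => by
    have : 0 ≤ C := (abs_nonneg _).trans (hf z)
    simp only [lp.coeFn_smul, Pi.smul_apply, smul_eq_mul, norm_mul, Real.norm_eq_abs,
      abs_of_nonneg this]
    exact mul_le_mul_of_nonneg_right (hf z) (abs_nonneg _)

/-- The operator of multiplication by a function bounded by `C`. -/
def mulOp {Z : Type} (f : Z → ℝ) (C : ℝ) (hf : ∀ z, |f z| ≤ C) : Op Z :=
  LinearMap.mkContinuous
    { toFun := fun ξ => ⟨fun z => f z * ξ z, memℓp_mul f C hf ξ⟩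
      map_add' := fun ξ η => lp.ext (funext fun z => mul_add _ _ _)
      map_smul' := fun c ξ => lp.ext (funext fun z => mul_left_comm _ _ _) } |C| fun ξ => by
    rw [← Real.norm_eq_abs, ← norm_smul]
    refine lp.norm_mono (by simp) fun z => ?_
    have : 0 ≤ C := (abs_nonneg _).trans (hf z)
    change ‖f z * ξ z‖ ≤ ‖C * ξ z‖
    simp only [norm_mul, Real.norm_eq_abs, abs_of_nonneg this]
    exact mul_le_mul_of_nonneg_right (hf z) (abs_nonneg _)

variable (Γ : Type) {X Z : Type} [Group Γ] [MetricSpace X] [MulAction Γ X] [MulAction Γ Z]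

/-- The representation of `C₀(X)` on `ℓ²(Z)` given by a map `pos : Z → X`. -/
def rep (pos : Z → X) (φ : C₀(X, ℝ)) : Op Z :=
  mulOp (fun z => φ (pos z)) ‖φ‖ fun z => φ.toBCF.norm_coe_le_norm (pos z)

/-- `T` commutes with the permutation action of `Γ`. -/
def Invariant (T : Op Z) : Prop := ∀ (g : Γ) (a b : Z), entry T (g • a) (g • b) = entry T a b

/-- `T` has finite propagation. -/
def FinProp (pos : Z → X) (T : Op Z) : Prop :=
  ∃ r : ℝ, ∀ a b : Z, r < dist (pos a) (pos b) → entry T a b = 0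

/-- `T` commutes with `C₀(X)` up to compact operators. -/
def Pseudolocal (pos : Z → X) (T : Op Z) : Prop :=
  ∀ φ : C₀(X, ℝ), IsCompactOperator (T * rep pos φ - rep pos φ * T : Op Z)

/-- `T φ` and `φ T` are compact for all `φ` in `C₀(X)`. -/
def LocCompact (pos : Z → X) (T : Op Z) : Prop :=
  ∀ φ : C₀(X, ℝ), IsCompactOperator (T * rep pos φ : Op Z) ∧
    IsCompactOperator (rep pos φ * T : Op Z)

/-- `D*(X)^Γ`: the closed algebra generated by the invariant pseudolocal operators of finite
propagation. -/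
def Dstar (pos : Z → X) : Subalgebra ℝ (Op Z) :=
  (Algebra.adjoin ℝ {T | Invariant Γ T ∧ FinProp pos T ∧ Pseudolocal pos T}).topologicalClosure

/-- `C*(X)^Γ`: the closed algebra generated by the invariant locally compact operators of finite
propagation. -/
def Cstar (pos : Z → X) : NonUnitalSubalgebra ℝ (Op Z) :=
  (NonUnitalAlgebra.adjoin ℝ
    {T | Invariant Γ T ∧ FinProp pos T ∧ LocCompact pos T}).topologicalClosure

/-- `ℓ²(Z)` is an ample equivariant `X`-module: `Z` is a countable free `Γ`-set with an equivariant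
map to `X` such that every nonempty open set has infinite preimage. -/
structure IsAmple (pos : Z → X) : Prop where
  countable : Countable Z
  free : ∀ (g : Γ) (z : Z), g • z = z → g = 1
  equivariant : ∀ (g : Γ) (z : Z), pos (g • z) = g • pos z
  ample : ∀ U : Set X, IsOpen U → U.Nonempty → (pos ⁻¹' U).Infinite

/-- The quotient of a normed ring by a closed two-sided ideal, with the quotient norm. -/
instance quotNormedRing {A : Type} [NormedRing A] (I : Ideal A) [I.IsTwoSided]
    [IsClosed (I : Set A)] : NormedRing (A ⧸ I) :=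
  { Ideal.Quotient.ring I, Submodule.Quotient.normedAddCommGroup I with
    norm_mul_le := fun x y => le_of_forall_pos_le_add fun ε hε => by
      have := ((Metric.nhds_basis_ball.prod_nhds Metric.nhds_basis_ball).tendsto_iff
        Metric.nhds_basis_ball).mp
        (continuous_mul.tendsto (‖x‖, ‖y‖)) ε hε
      simp only [Set.mem_prod, Metric.mem_ball, and_imp, Prod.forall, Prod.exists] at this
      obtain ⟨ε₁, ε₂, ⟨h₁, h₂⟩, h⟩ := this
      obtain ⟨⟨a, rfl, ha⟩, ⟨b, rfl, hb⟩⟩ :=
        And.intro (Submodule.Quotient.norm_mk_lt x h₁) (Submodule.Quotient.norm_mk_lt y h₂)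
      simp only [dist, abs_sub_lt_iff] at h
      specialize h ‖a‖ ‖b‖ ⟨by linarith, by linarith [Submodule.Quotient.norm_mk_le I a]⟩
        ⟨by linarith, by linarith [Submodule.Quotient.norm_mk_le I b]⟩
      calc _ ≤ ‖a * b‖ := Submodule.Quotient.norm_mk_le I (a * b)
        _ ≤ ‖a‖ * ‖b‖ := norm_mul_le a b
        _ ≤ _ := (sub_lt_iff_lt_add'.mp h.1).le }

/-- The quotient of a normed algebra by a closed two-sided ideal. -/
instance quotNormedAlgebra {A : Type} [NormedRing A] [NormedAlgebra ℝ A] (I : Ideal A)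
    [I.IsTwoSided] [IsClosed (I : Set A)] : NormedAlgebra ℝ (A ⧸ I) :=
  { Submodule.Quotient.normedSpace I ℝ, Ideal.Quotient.algebra ℝ with }

end Pool.Agent.Lib.BCH
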