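import Pool.Agent.Lib.BCH.Sw46

/-! Fundamental domains and approximate units of `C*(X)^Γ`. -/

set_option linter.unusedSectionVars false

noncomputable section

open scoped ZeroAtInfty
open Filter Topology

namespace Pool.Agent.Lib.BCH

namespace Fund

section Cpt

variable {Z Z₁ Z₂ : Type} {α : Type*} {l : Filter α}

/-- A bounded net that tends to zero strongly tends to zero in norm after a compact operator. -/
theorem tendsto_comp_cpt {C : H Z₂ →L[ℝ] H Z₁} (hC : Cpt C) (S : α → Op Z₁)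
    (hS : ∀ t, ‖S t‖ ≤ 1) (h : ∀ ξ, Tendsto (fun t => S t ξ) l (𝓝 0)) :
    Tendsto (fun t => ‖(S t).comp C‖) l (𝓝 0) := by
  obtain ⟨K, hK, hCK⟩ := IsCompactOperator.image_closedBall_subset_compact
    (f := (C : H Z₂ →ₗ[ℝ] H Z₁)) hC 1
  refine Metric.tendsto_nhds.2 fun ε hε => ?_
  have h1 : ∀ᶠ t in l, ∀ η ∈ K, ‖S t η‖ ≤ ε / 2 := by
    refine hK.induction_on (p := fun s => ∀ᶠ t in l, ∀ η ∈ s, ‖S t η‖ ≤ ε / 2) (by simp)
      (fun s s' hs hs' => hs'.mono fun t ht η hη => ht η (hs hη))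
      (fun s s' hs hs' => (hs.and hs').mono fun t ht η hη => hη.elim (ht.1 η) (ht.2 η))
      fun η _ => ?_
    refine ⟨Metric.ball η (ε / 4), mem_nhdsWithin_of_mem_nhds
      (Metric.ball_mem_nhds _ (by positivity)), ?_⟩
    filter_upwards [Metric.tendsto_nhds.1 (h η) (ε / 4) (by positivity)] with t ht η' hη'
    rw [dist_zero_right] at ht
    rw [Metric.mem_ball, dist_eq_norm] at hη'
    have h2 : ‖S t (η' - η)‖ ≤ ‖η' - η‖ :=
      ((S t).le_opNorm _).trans (mul_le_of_le_one_left (norm_nonneg _) (hS t))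
    have h3 : S t η' = S t (η' - η) + S t η := by rw [map_sub, sub_add_cancel]
    rw [h3]
    linarith [norm_add_le (S t (η' - η)) (S t η)]
  filter_upwards [h1] with t ht
  rw [dist_zero_right, norm_norm]
  refine lt_of_le_of_lt (ContinuousLinearMap.opNorm_le_of_unit_norm (by positivity)
    fun ξ hξ => ht _ (hCK ⟨ξ, by simp [hξ], rfl⟩)) (half_lt_self hε)

theorem tendsto_mulOp (q : α → Z → ℝ) (hq : ∀ t z, |q t z| ≤ 1)
    (h : ∀ z, Tendsto (fun t => q t z) l (𝓝 0)) (ξ : H Z) :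
    Tendsto (fun t => mulOp (q t) 1 (hq t) ξ) l (𝓝 0) := by
  refine Metric.tendsto_nhds.2 fun ε hε => ?_
  obtain ⟨s, hs⟩ := (Metric.tendsto_nhds.1 (hasSum_dl ξ) (ε / 2) (by positivity)).exists
  have h1 : Tendsto (fun t => mulOp (q t) 1 (hq t) (∑ b ∈ s, ξ b • dl b)) l (𝓝 0) := by
    have h2 : ∀ t, mulOp (q t) 1 (hq t) (∑ b ∈ s, ξ b • dl b) = ∑ b ∈ s, q t b • ξ b • dl b :=
      fun t => by
        rw [map_sum]
        refine Finset.sum_congr rfl fun b _ => lp.ext (funext fun z => ?_)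
        by_cases hz : z = b
        · subst hz; simp [mul_left_comm]
        · simp [dl_apply, hz]
    simp only [h2]
    simpa using tendsto_finsetSum s fun b _ => (h b).smul_const (ξ b • dl b)
  filter_upwards [Metric.tendsto_nhds.1 h1 (ε / 2) (by positivity)] with t ht
  rw [dist_zero_right] at ht ⊢
  rw [dist_comm, dist_eq_norm] at hs
  have h3 : ‖mulOp (q t) 1 (hq t) (ξ - ∑ b ∈ s, ξ b • dl b)‖ ≤ ‖ξ - ∑ b ∈ s, ξ b • dl b‖ :=
    (ContinuousLinearMap.le_opNorm _ _).trans (mul_le_of_le_one_left (norm_nonneg _)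
      (norm_mulOp_le _ _ _ zero_le_one (hq t)))
  have h4 : mulOp (q t) 1 (hq t) ξ = mulOp (q t) 1 (hq t) (ξ - ∑ b ∈ s, ξ b • dl b) +
      mulOp (q t) 1 (hq t) (∑ b ∈ s, ξ b • dl b) := by rw [map_sub, sub_add_cancel]
  rw [h4]
  linarith [norm_add_le (mulOp (q t) 1 (hq t) (ξ - ∑ b ∈ s, ξ b • dl b))
    (mulOp (q t) 1 (hq t) (∑ b ∈ s, ξ b • dl b))]

theorem tendsto_mulOp_cpt {C : H Z₂ →L[ℝ] H Z₁} (hC : Cpt C) (q : α → Z₁ → ℝ)
    (hq : ∀ t z, |q t z| ≤ 1) (h : ∀ z, Tendsto (fun t => q t z) l (𝓝 0)) :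
    Tendsto (fun t => ‖(mulOp (q t) 1 (hq t)).comp C‖) l (𝓝 0) :=
  tendsto_comp_cpt hC _ (fun t => norm_mulOp_le _ _ _ zero_le_one (hq t)) (tendsto_mulOp q hq h)

theorem norm_adj (T : H Z₂ →L[ℝ] H Z₁) : ‖ContinuousLinearMap.adjoint T‖ = ‖T‖ :=
  LinearIsometryEquiv.norm_map _ _

/-- The adjoint of a compact operator is compact. -/
theorem cpt_adjoint {C : H Z₂ →L[ℝ] H Z₁} (hC : Cpt C) : Cpt (ContinuousLinearMap.adjoint C) := by
  classical
  have hq : ∀ (F : Finset Z₁) z, |if z ∈ F then (0 : ℝ) else 1| ≤ 1 := fun F z => by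
    split_ifs <;> simp
  have h := tendsto_mulOp_cpt (l := atTop) hC _ hq fun z => tendsto_const_nhds.congr' (by
    filter_upwards [eventually_ge_atTop {z}] with F hF
    rw [if_pos (hF (Finset.mem_singleton_self z))])
  refine Cpt.of_approx fun ε hε => ?_
  obtain ⟨F, hF⟩ := (h.eventually (ge_mem_nhds hε)).exists
  refine ⟨ContinuousLinearMap.adjoint C -
    ContinuousLinearMap.adjoint ((mulOp _ 1 (hq F)).comp C), cpt_of_cols F.finite_toSet
      fun b hb a => ?_, by rwa [sub_sub_cancel, norm_adj]⟩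
  rw [entry_sub, entry_adjoint, entry_adjoint, entry_mulOp_comp, if_neg (by simpa using hb), one_mul,
    sub_self]

end Cpt

variable {Γ X Z Z₁ Z₂ I : Type} [Group Γ] [MetricSpace X] [MulAction Γ Z] [MulAction Γ Z₁]
  [MulAction Γ Z₂] {α : Type*} {l : Filter α}

theorem adjoint_mem_C0 {p₁ : Z₁ → X} {p₂ : Z₂ → X} {T : H Z₂ →L[ℝ] H Z₁} (h : T ∈ C0 Γ p₁ p₂) :
    ContinuousLinearMap.adjoint T ∈ C0 Γ p₂ p₁ := by
  obtain ⟨h1, ⟨r, h2⟩, h3⟩ := h
  refine ⟨h1.adjoint, ⟨r, h2.adjoint⟩, fun φ => ⟨?_, ?_⟩⟩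
  · have := cpt_adjoint (h3 φ).2
    rwa [ContinuousLinearMap.adjoint_comp, rep, adjoint_mulOp] at this
  · have := cpt_adjoint (h3 φ).1
    rwa [ContinuousLinearMap.adjoint_comp, rep, adjoint_mulOp] at this

theorem adjoint_mem_Cstar {p : Z → X} {T : Op Z} (h : T ∈ Cstar Γ p) :
    ContinuousLinearMap.adjoint T ∈ Cstar Γ p :=
  mem_Cstar_iff.2 (map_mem_closure (f := fun T : Op Z => ContinuousLinearMap.adjoint T)
    (LinearIsometryEquiv.continuous _) (mem_Cstar_iff.1 h) fun _ h => adjoint_mem_C0 h)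

variable [MulAction Γ X] [IsIsometricSMul Γ X]

variable (Γ) in
/-- A fundamental domain `r : I → Z` with bounded positions for a free action. -/
structure FD (pos : Z → X) (o : X) (r : I → Z) (idx : Z → I) (D : ℝ) : Prop where
  free : ∀ (g : Γ) (z : Z), g • z = z → g = 1
  equivariant : ∀ (g : Γ) (z : Z), pos (g • z) = g • pos z
  proper : ∀ R : ℝ, {g : Γ | dist o (g • o) ≤ R}.Finite
  idx_smul : ∀ (g : Γ) a, idx (g • a) = idx a
  idx_r : ∀ i, idx (r i) = i
  surj : ∀ a, ∃ k : Γ, k⁻¹ • r (idx a) = a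
  bd : ∀ i, dist (pos (r i)) o ≤ D

theorem exists_FD {pos : Z → X} {o : X} (free : ∀ (g : Γ) (z : Z), g • z = z → g = 1)
    (eqv : ∀ (g : Γ) (z : Z), pos (g • z) = g • pos z)
    (proper : ∀ R : ℝ, {g : Γ | dist o (g • o) ≤ R}.Finite)
    (cocpt : ∃ D : ℝ, ∀ x : X, ∃ g : Γ, dist x (g • o) ≤ D) (z : Z) :
    ∃ (I : Type) (r : I → Z) (idx : Z → I) (D : ℝ), FD Γ pos o r idx D ∧ r (idx z) = z := by
  classical
  obtain ⟨D, hD⟩ := cocpt
  have h : ∀ i : Quotient (MulAction.orbitRel Γ Z), ∃ a : Z, Quotient.mk _ a = i ∧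
      dist (pos a) o ≤ max D (dist (pos z) o) ∧ (i = Quotient.mk _ z → a = z) := fun i => by
    by_cases hi : i = Quotient.mk _ z
    · exact ⟨z, hi.symm, le_max_right _ _, fun _ => rfl⟩
    · obtain ⟨a, rfl⟩ := Quotient.exists_rep i
      obtain ⟨g, hg⟩ := hD (pos a)
      refine ⟨g⁻¹ • a, Quotient.sound ⟨g⁻¹, rfl⟩, le_trans ?_ (le_max_left _ _),
        fun h => absurd h hi⟩
      rwa [eqv, ← dist_smul g, smul_inv_smul]
  choose r h1 h2 h3 using h
  refine ⟨_, r, Quotient.mk _, _, ⟨free, eqv, proper, fun g a => Quotient.sound ⟨g, rfl⟩, h1,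
    fun a => ?_, h2⟩, h3 _ rfl⟩
  obtain ⟨g, hg⟩ := Quotient.exact (h1 (Quotient.mk _ a))
  exact ⟨g, inv_smul_eq_iff.2 hg.symm⟩

variable {pos : Z → X} {o : X} {r : I → Z} {idx : Z → I} {D : ℝ}

theorem free_inj (free : ∀ (g : Γ) (z : Z), g • z = z → g = 1) {g g' : Γ} {a : Z}
    (h : g • a = g' • a) : g = g' :=
  (inv_mul_eq_one.1 (free (g'⁻¹ * g) a (by rw [mul_smul, h, inv_smul_smul]))).symm

theorem FD.inj (h : FD Γ pos o r idx D) {g g' : Γ} {i i' : I} (e : g • r i = g' • r i') :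
    i = i' ∧ g = g' := by
  have h1 : i = i' := by rw [← h.idx_r i, ← h.idx_smul g, e, h.idx_smul, h.idx_r]
  subst h1
  exact ⟨rfl, free_inj h.free e⟩

theorem FD.r_inj (h : FD Γ pos o r idx D) : Function.Injective r := fun i i' e => by
  rw [← h.idx_r i, e, h.idx_r]

theorem FD.dist_le (h : FD Γ pos o r idx D) (k k' : Γ) (i i' : I) :
    dist o ((k * k'⁻¹) • o) ≤ dist (pos (k⁻¹ • r i)) (pos (k'⁻¹ • r i')) + 2 * D := by
  have h1 := h.bd i
  have h2 := h.bd i'
  rw [← dist_smul k⁻¹, ← mul_smul, inv_mul_cancel_left]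
  rw [← dist_smul k⁻¹, ← h.equivariant] at h1
  rw [← dist_smul k'⁻¹, ← h.equivariant] at h2
  have h3 := dist_triangle4 (k⁻¹ • o) (pos (k⁻¹ • r i)) (pos (k'⁻¹ • r i')) (k'⁻¹ • o)
  rw [dist_comm] at h1
  linarith

/-- The norm of an invariant operator of finite propagation is controlled on the fundamental
domain. -/
theorem FD.norm_le (h : FD Γ pos o r idx D) (R : ℝ) : ∃ M : ℝ, ∀ S : Op Z, InvR Γ S →
    PropLE pos pos S R → ‖S‖ ≤ M * ‖S.comp (iso r h.r_inj)‖ := by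
  classical
  refine ⟨(h.proper (R + 2 * D)).toFinset.card, fun S hi hp => ?_⟩
  have he : ∀ g : Γ, Function.Injective fun x : I × Γ => (g * x.2)⁻¹ • r x.1 := fun g x y e =>
    Prod.ext (h.inj e).1 (mul_left_cancel (inv_injective (h.inj e).2))
  have he' : Function.Injective fun x : I × Γ => x.2⁻¹ • r x.1 := fun x y e =>
    Prod.ext (h.inj e).1 (inv_injective (h.inj e).2)
  have hf : ∀ g : Γ, Function.Injective fun i : I => g⁻¹ • r i := fun g x y e => (h.inj e).1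
  have hS : S = ∑ g ∈ (h.proper (R + 2 * D)).toFinset, (iso _ (he g)).comp
      ((ampN Γ ((res _ (hf g)).comp (S.comp (iso r h.r_inj)))).comp (res _ he')) := by
    refine entry_ext fun a b => ?_
    obtain ⟨k, hk⟩ := h.surj a
    obtain ⟨k', hk'⟩ := h.surj b
    generalize idx a = i at hk
    generalize idx b = i' at hk'
    subst hk hk'
    have h1 : ∀ g : Γ, entry ((iso _ (he g)).comp ((ampN Γ ((res _ (hf g)).comp
        (S.comp (iso r h.r_inj)))).comp (res _ he'))) (k⁻¹ • r i) (k'⁻¹ • r i') =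
        if k * k'⁻¹ = g then entry S (k⁻¹ • r i) (k'⁻¹ • r i') else 0 := fun g => by
      have h2 := entry_iso_comp _ (he g) ((ampN Γ ((res _ (hf g)).comp
        (S.comp (iso r h.r_inj)))).comp (res _ he')) (i, g⁻¹ * k) (k'⁻¹ • r i')
      have h3 := entry_comp_res _ he' (ampN Γ ((res _ (hf g)).comp
        (S.comp (iso r h.r_inj)))) (i, g⁻¹ * k) (i', k')
      simp only [mul_inv_cancel_left] at h2
      rw [h2, h3, entry_ampN, entry_res_comp, entry_comp_iso]
      by_cases h4 : k * k'⁻¹ = g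
      · subst h4
        rw [if_pos (by simp), if_pos rfl, ← hi k'⁻¹, ← mul_smul]
        simp
      · rw [if_neg h4, if_neg fun h5 => h4 (by rw [← show g⁻¹ * k = k' from h5]; simp)]
    rw [entry_sum, Finset.sum_congr rfl fun g _ => h1 g, Finset.sum_ite_eq]
    split_ifs with h5
    · rfl
    · refine hp _ _ ?_
      have h6 := h.dist_le k k' i i'
      rw [Set.Finite.mem_toFinset, Set.mem_ofPred_eq, not_le] at h5
      linarith
  refine (le_of_eq (congrArg norm hS)).trans ((norm_sum_le _ _).trans ?_)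
  rw [← nsmul_eq_mul]
  refine Finset.sum_le_card_nsmul _ _ _ fun g _ => ?_
  refine (ContinuousLinearMap.opNorm_comp_le _ _).trans
    ((mul_le_of_le_one_left (norm_nonneg _) (norm_iso_le _ _)).trans ?_)
  refine (ContinuousLinearMap.opNorm_comp_le _ _).trans
    ((mul_le_of_le_one_right (norm_nonneg _) (norm_res_le _ _)).trans ((norm_ampN_le _).trans ?_))
  exact (ContinuousLinearMap.opNorm_comp_le _ _).trans
    (mul_le_of_le_one_left (norm_nonneg _) (norm_res_le _ _))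

theorem FD.cpt [ProperSpace X] (h : FD Γ pos o r idx D) {K : Op Z} (hK : LcR pos pos K) :
    Cpt (K.comp (iso r h.r_inj)) := by
  obtain ⟨f, f1, -, f2, -⟩ := exists_continuous_one_zero_of_isCompact (isCompact_closedBall o D)
    isClosed_empty (Set.disjoint_empty _)
  have := (hK ⟨f, f2.is_zero_at_infty⟩).1.comp_right (iso r h.r_inj)
  convert this using 1
  refine entry_ext fun a i => ?_
  rw [entry_comp_iso, entry_comp_iso, entry_comp_rep]
  exact ((congrArg _ (f1 (h.bd i))).trans (mul_one _)).symm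

/-- Invariant multipliers that tend to zero pointwise kill `C*` in norm, on the left. -/
theorem FD.tendsto_left [ProperSpace X] (h : FD Γ pos o r idx D) (q : α → Z → ℝ)
    (hq : ∀ t z, |q t z| ≤ 1) (hi : ∀ t (g : Γ) z, q t (g • z) = q t z)
    (h0 : ∀ z, Tendsto (fun t => q t z) l (𝓝 0)) {K : Op Z} (hK : K ∈ Cstar Γ pos) :
    Tendsto (fun t => ‖mulOp (q t) 1 (hq t) * K‖) l (𝓝 0) := by
  refine Metric.tendsto_nhds.2 fun ε hε => ?_
  obtain ⟨K₀, ⟨h1, ⟨R, h2⟩, h3⟩, h4⟩ := Metric.mem_closure_iff.1 (mem_CR.1 (mem_Cstar_iff.1 hK))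
    (ε / 2) (by positivity)
  obtain ⟨M, hM⟩ := h.norm_le R
  have h5 := (tendsto_mulOp_cpt (h.cpt h3) q hq h0).const_mul M
  rw [mul_zero] at h5
  filter_upwards [h5.eventually (gt_mem_nhds (half_pos hε))] with t ht
  have h6 := hM ((mulOp (q t) 1 (hq t)).comp K₀)
    (fun g a b => by rw [entry_mulOp_comp, entry_mulOp_comp, hi, h1])
    fun a b hab => by rw [entry_mulOp_comp, h2 a b hab, mul_zero]
  rw [dist_zero_right, norm_norm]
  rw [dist_eq_norm] at h4
  have h7 : ‖mulOp (q t) 1 (hq t) * (K - K₀)‖ ≤ ‖K - K₀‖ := (norm_mul_le _ _).trans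
    (mul_le_of_le_one_left (norm_nonneg _) (norm_mulOp_le _ _ _ zero_le_one (hq t)))
  have h8 : mulOp (q t) 1 (hq t) * K = mulOp (q t) 1 (hq t) * (K - K₀) +
      (mulOp (q t) 1 (hq t)).comp K₀ := by
    rw [mul_sub]; exact (sub_add_cancel _ _).symm
  rw [h8]
  have h9 := h6.trans_lt ht
  linarith [norm_add_le (mulOp (q t) 1 (hq t) * (K - K₀)) ((mulOp (q t) 1 (hq t)).comp K₀)]

/-- Invariant multipliers that tend to zero pointwise kill `C*` in norm, on the right. -/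
theorem FD.tendsto_right [ProperSpace X] (h : FD Γ pos o r idx D) (q : α → Z → ℝ)
    (hq : ∀ t z, |q t z| ≤ 1) (hi : ∀ t (g : Γ) z, q t (g • z) = q t z)
    (h0 : ∀ z, Tendsto (fun t => q t z) l (𝓝 0)) {K : Op Z} (hK : K ∈ Cstar Γ pos) :
    Tendsto (fun t => ‖K * mulOp (q t) 1 (hq t)‖) l (𝓝 0) := by
  refine (h.tendsto_left q hq hi h0 (adjoint_mem_Cstar hK)).congr fun t => ?_
  rw [← norm_adj (K * _), ContinuousLinearMap.mul_def K, ContinuousLinearMap.adjoint_comp,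
    adjoint_mulOp]
  rfl

end Fund

end Pool.Agent.Lib.BCH
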