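import Pool.Agent.Lib.BCH.MORBlue
import Pool.Agent.Lib.BCH.RED
import Pool.Agent.Lib.BCH.Fund60

/-! The matrix units of the Roe algebra. -/

set_option linter.unusedSectionVars false

noncomputable section

open Filter Topology BCO

namespace Pool.Agent.Lib.BCH

namespace MORD

open RED

theorem Cred_eq (Γ : Type) [Group Γ] : Cred Γ = Cr Γ := by
  unfold Cred Cr
  congr 2
  ext T
  constructor
  · rintro ⟨g, hg⟩
    refine ⟨g, entry_ext fun a b => ?_⟩
    rw [entry_lam, hg]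
    exact ite_cg ⟨fun h => by rw [h]; group, fun h => by rw [h]; group⟩
  · rintro ⟨g, rfl⟩
    refine ⟨g, fun a b => ?_⟩
    rw [entry_lam]
    exact ite_cg ⟨fun h => by rw [h]; group, fun h => by rw [h]; group⟩

variable {Γ X Z Q : Type} [Group Γ] [MetricSpace X] [MulAction Γ X] [IsIsometricSMul Γ X]
  [MulAction Γ Z] {o : X} {pos : Z → X} {m : Z → Q} {rp : Q → Z} {ρ : Z → Γ} {D : ℝ}

theorem V_mem (h : RED.Fund Γ o pos m rp ρ D) (w : Z) : h.V w ∈ CR Γ pos (pG Γ o) :=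
  C0_le_CR (mem_C0_of_finite_right (iso_mem_D0 _ (jw_smul w) (h.slow w)).1
    (iso_mem_D0 _ (jw_smul w) (h.slow w)).2.1 (fin_pG h.proper))

/-- The corner embedding. -/
def th (h : RED.Fund Γ o pos m rp ρ D) (z : Z) : Cred Γ →ₙₐ[ℝ] Cstar Γ pos where
  toFun T := ⟨(h.V z).comp ((T.1 : Op (RG Γ)).comp (h.W z)), mem_Cstar_iff.2
    (CR_comp_DR (V_mem h z) (DR_comp (Z₂ := RG Γ) (Z₁ := RG Γ)
      (Cr_le h.proper ((Cred_eq Γ).le T.2)) (h.W_mem z)))⟩
  map_smul' c _ := Subtype.ext (ContinuousLinearMap.ext fun _ => map_smul (h.V z) c _)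
  map_zero' := Subtype.ext (ContinuousLinearMap.ext fun _ => map_zero (h.V z))
  map_add' _ _ := Subtype.ext (ContinuousLinearMap.ext fun _ => map_add (h.V z) _ _)
  map_mul' S _ := Subtype.ext (ContinuousLinearMap.ext fun _ =>
    congrArg (fun η => h.V z (S.1 η)) (h.WV z _).symm)

theorem cont_th (h : RED.Fund Γ o pos m rp ρ D) (z : Z) : Continuous (th h z) :=
  Continuous.subtype_mk (f := fun T : Cred Γ => (h.V z).comp ((T.1 : Op (RG Γ)).comp (h.W z)))
    (continuous_const.clm_comp (continuous_subtype_val.clm_comp continuous_const)) _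

/-- The matrix unit between two orbits. -/
def U (h : RED.Fund Γ o pos m rp ρ D) (w w' : Z) : Cstar Γ pos :=
  ⟨(h.V w).comp (h.W w'), mem_Cstar_iff.2 (CR_comp_DR (V_mem h w) (h.W_mem w'))⟩

theorem U_mul (h : RED.Fund Γ o pos m rp ρ D) (a b c : Z) : U h a b * U h b c = U h a c :=
  Subtype.ext (ContinuousLinearMap.ext fun _ => congrArg (h.V a) (h.WV b _))

theorem U_mul_zero (h : RED.Fund Γ o pos m rp ρ D) (a c : Z) {b b' : Z} (hb : m b ≠ m b') :
    U h a b * U h b' c = 0 := by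
  have h1 : (h.W b).comp (h.V b') = 0 := res_comp_iso_of_disjoint _ _ _ _ fun k k' e =>
    hb ((h.m_smul _ b).symm.trans ((congrArg m e).trans (h.m_smul _ b')))
  refine Subtype.ext (ContinuousLinearMap.ext fun ξ => ?_)
  exact (congrArg (fun A : Op (RG Γ) => h.V a (A (h.W c ξ))) h1).trans (map_zero (h.V a))

/-- The block of an operator on an orbit. -/
def sg (h : RED.Fund Γ o pos m rp ρ D) (z : Z) : Cstar Γ pos →L[ℝ] Cred Γ where
  toFun T := ⟨((h.W z).comp (T.1.comp (h.V z)) : Op (RG Γ)), (Cred_eq Γ).ge (mem_Cr_of h.proper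
    (DR_comp (h.W_mem z) (DR_comp (mem_Dstar_iff.1 (Dstar_of_Cstar T.2)) (h.V_mem z))))⟩
  map_add' _ _ := Subtype.ext (ContinuousLinearMap.ext fun _ => map_add (h.W z) _ _)
  map_smul' c _ := Subtype.ext (ContinuousLinearMap.ext fun _ => map_smul (h.W z) c _)
  cont := Continuous.subtype_mk (f := fun T : Cstar Γ pos => (h.W z).comp (T.1.comp (h.V z)))
    (continuous_const.clm_comp (continuous_subtype_val.clm_comp continuous_const)) _

theorem sum_U (h : RED.Fund Γ o pos m rp ρ D) (z : Z) (F : Finset Q) :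
    ((∑ i ∈ F, U h (rp i) z * U h z (rp i) : Cstar Γ pos) : Op Z) = ind {a | m a ∈ F} := by
  have h1 := congrArg Subtype.val (h.sum_U z F)
  rw [AddSubmonoidClass.coe_finsetSum] at h1 ⊢
  exact h1

theorem lim_left [ProperSpace X] (h : RED.Fund Γ o pos m rp ρ D) {T : Op Z}
    (hT : T ∈ Cstar Γ pos) :
    Tendsto (fun F : Finset Q => ind {a | m a ∈ F} * T) atTop (𝓝 T) := by
  refine tendsto_iff_norm_sub_tendsto_zero.2 (squeeze_zero (fun _ => norm_nonneg _) (fun F => ?_)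
    (tendsto_iff_norm_sub_tendsto_zero.1 (h.tendsto_Cstar hT)))
  have h1 : ind {a | m a ∈ F} * ind {a | m a ∈ F} = ind {a | m a ∈ F} :=
    congrArg Subtype.val (h.P_idem F)
  have h2 : ind {a | m a ∈ F} * T - T =
      ind {a | m a ∈ F}ᶜ * (ind {a | m a ∈ F} * T * ind {a | m a ∈ F} - T) := by
    rw [ind_compl, sub_mul, one_mul, mul_sub, ← mul_assoc, ← mul_assoc, h1]
    abel
  rw [h2]
  exact (norm_mul_le _ _).trans (mul_le_of_le_one_left (norm_nonneg _) (norm_ind_le _))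

theorem lim_right [ProperSpace X] (h : RED.Fund Γ o pos m rp ρ D) {T : Op Z}
    (hT : T ∈ Cstar Γ pos) :
    Tendsto (fun F : Finset Q => T * ind {a | m a ∈ F}) atTop (𝓝 T) := by
  refine tendsto_iff_norm_sub_tendsto_zero.2 (squeeze_zero (fun _ => norm_nonneg _) (fun F => ?_)
    (tendsto_iff_norm_sub_tendsto_zero.1 (h.tendsto_Cstar hT)))
  have h1 : ind {a | m a ∈ F} * ind {a | m a ∈ F} = ind {a | m a ∈ F} :=
    congrArg Subtype.val (h.P_idem F)
  have h2 : T * ind {a | m a ∈ F} - T =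
      (ind {a | m a ∈ F} * T * ind {a | m a ∈ F} - T) * ind {a | m a ∈ F}ᶜ := by
    rw [ind_compl, mul_sub, mul_one, sub_mul, mul_assoc (_ * T), h1]
    abel
  rw [h2]
  exact (norm_mul_le _ _).trans (mul_le_of_le_one_right (norm_nonneg _) (norm_ind_le _))

/-- The system of matrix units. -/
def data [ProperSpace X] (h : RED.Fund Γ o pos m rp ρ D) (i0 : Q) :
    MorData (R := Cred Γ) (J := Cstar Γ pos) Q (th h (rp i0)) where
  i0 := i0
  v i := U h (rp i) (rp i0)
  w i := U h (rp i0) (rp i)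
  σ := sg h (rp i0)
  σθ T := Subtype.ext (ContinuousLinearMap.ext fun ξ =>
    (h.WV _ _).trans (congrArg T.1 (h.WV _ ξ)))
  θσ _ := rfl
  w0 := rfl
  wv _ := U_mul h _ _ _
  wv' i j hij := U_mul_zero h _ _ (by rwa [h.m_rp, h.m_rp])
  vp _ := U_mul h _ _ _
  pw _ := U_mul h _ _ _
  bd F := (congrArg norm (sum_U h (rp i0) F)).trans_le (norm_ind_le _)
  liml x := tendsto_subtype_rng.2 ((lim_left h x.2).congr fun F =>
    (congrArg (· * x.1) (sum_U h (rp i0) F)).symm)
  limr x := tendsto_subtype_rng.2 ((lim_right h x.2).congr fun F =>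
    (congrArg (x.1 * ·) (sum_U h (rp i0) F)).symm)

end MORD

theorem stMDATA : St_MDATA := by
  intro Γ X Z _ _ _ _ _ _ o pos z hG hA
  obtain ⟨I, r, idx, D, h, hz⟩ := Fund.exists_FD hA.free hA.equivariant hG.proper hG.cocpt z
  choose k hk using h.surj
  have h' : RED.Fund Γ o pos idx r (fun a => (k a)⁻¹) D :=
    ⟨h.free, h.equivariant, h.proper, h.idx_smul, h.idx_r, hk, h.bd⟩
  refine ⟨I, MORD.th h' z, MORD.cont_th h' z,
    fun T => h'.cor_th z ⟨T.1, (MORD.Cred_eq Γ).le T.2⟩, ?_⟩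
  have := MORD.data h' (idx z)
  rw [hz] at this
  exact ⟨this⟩

end Pool.Agent.Lib.BCH
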