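import Pool.Agent.Lib.BCH.MORBlue

/-! Abstract stability of `K0` for algebras without unit. -/

set_option linter.unusedSectionVars false

noncomputable section

open Matrix Function BCK Filter Topology
open scoped ZeroAtInfty

namespace Pool.Agent.Lib.BCH

namespace MOR

section Flat

variable {R S T κ : Type} [Ring R] [Ring S] [Ring T] [Fintype κ] [DecidableEq κ]

theorem idem_comp {ι : Type} [Fintype ι] {e : Matrix ι ι (Matrix κ κ R)} (he : e * e = e) :
    comp ι ι κ κ R e * comp ι ι κ κ R e = comp ι ι κ κ R e := by rw [comp_mul, he]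

/-- The entrywise map of matrix rings. -/
def mm (κ : Type) [Fintype κ] [DecidableEq κ] (φ : R →ₙ+* S) : Matrix κ κ R →ₙ+* Matrix κ κ S where
  toFun x := x.map φ
  map_mul' _ _ := Matrix.map_mul
  map_zero' := Matrix.map_zero _ (map_zero φ)
  map_add' x y := Matrix.map_add _ (map_add φ) x y

theorem flatten_mm (φ : R →ₙ+* S) (x : K0 (Matrix κ κ R)) :
    flatten κ (K0.map (mm κ φ) x) = K0.map φ (flatten κ x) := by
  have : (flatten κ).comp (K0.map (mm κ φ)) = (K0.map φ).comp (flatten κ) :=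
    K0.hom_ext fun k e he => by
      rw [AddMonoidHom.comp_apply, AddMonoidHom.comp_apply, map_cls _ he,
        flatten_cls (idem_map he _), flatten_cls he, map_cls _ (idem_comp he)]
      rfl
  exact DFunLike.congr_fun this x

/-- The corner embedding. -/
def cor (R : Type) [Ring R] (k : κ) : R →ₙ+* Matrix κ κ R where
  toFun x := single k k x
  map_mul' x y := (single_mul_single_same x k k k y).symm
  map_zero' := single_zero k k
  map_add' x y := single_add k k x y

theorem flatten_cor (k : κ) (x : K0 R) : flatten κ (K0.map (cor R k) x) = x := by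
  have : (flatten κ).comp (K0.map (cor R k)) = AddMonoidHom.id _ :=
    K0.hom_ext fun n e he => by
      rw [AddMonoidHom.comp_apply, map_cls _ he, flatten_cls (idem_map he _),
        AddMonoidHom.id_apply]
      have h1 : ∀ i j, ∑ l, e i l * e l j = e i j := fun i j => by rw [← mul_apply, he]
      refine cls_mvn (idem_comp (idem_map he _)) he
        (of fun a j => if a.2 = k then e a.1 j else 0)
        (of fun i a => if a.2 = k then e i a.1 else 0) ?_ ?_
      · ext ⟨i, a⟩ ⟨j, b⟩
        change _ = single k k (e i j) a b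
        by_cases ha : k = a <;> by_cases hb : k = b <;>
          simp [mul_apply, single, ha, hb, h1, eq_comm]
      · ext i j
        simp [mul_apply, Fintype.sum_prod_type, h1]
  exact DFunLike.congr_fun this x

theorem flatten_path {U : Type} [NormedRing U] [CompleteSpace U] (φ : ℝ → R →ₙ+* Matrix κ κ U)
    (h : ∀ x k l, Continuous fun t => φ t x k l) (s t : ℝ) (x : K0 R) :
    flatten κ (K0.map (φ s) x) = flatten κ (K0.map (φ t) x) := by
  have : (flatten κ).comp (K0.map (φ s)) = (flatten κ).comp (K0.map (φ t)) :=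
    K0.hom_ext fun n e he => by
      rw [AddMonoidHom.comp_apply, AddMonoidHom.comp_apply, map_cls _ he, map_cls _ he,
        flatten_cls (idem_map he _), flatten_cls (idem_map he _)]
      exact cls_path (e := fun t => comp _ _ κ κ U (e.map (φ t)))
        (continuous_matrix fun a b => h _ _ _) (fun t => idem_comp (idem_map he _)) s t
  exact DFunLike.congr_fun this x

/-- The scalar multiples of an idempotent. -/
def scal {M : Type} [Ring M] [Algebra ℝ M] (q : M) (hq : q * q = q) : ℝ →ₙ+* M where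
  toFun r := r • q
  map_mul' r s := by rw [smul_mul_smul_comm, hq]
  map_zero' := zero_smul _ _
  map_add' r s := add_smul r s q

/-- A homomorphism that is a corner embedding up to scalars. -/
theorem flatten_split [Algebra ℝ T] (χ : S →ₙ+* Matrix κ κ T) (ε : S →ₙ+* ℝ) (φ : S →ₙ+* T) (k : κ)
    (h : ∀ x, χ x = single k k (φ x) + ε x • (1 - single k k (1 : T))) (x : K0 S)
    (hx : K0.map ε x = 0) : flatten κ (K0.map χ x) = K0.map φ x := by
  have h1 : single k k (1 : T) * single k k (1 : T) = single k k 1 := by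
    rw [single_mul_single_same, one_mul]
  rw [map_eq_add (φ := (cor T k).comp φ) (ψ := (scal _ (idem_one_sub h1)).comp ε) (χ := χ) h,
    ← map_map, ← map_map, hx, map_zero, add_zero, flatten_cor]
  · intro r s
    change single k k (φ r) * (ε s • (1 - single k k (1 : T))) = 0
    rw [mul_smul_comm, mul_sub, single_mul_single_same]
    simp
  · intro r s
    change (ε r • (1 - single k k (1 : T))) * single k k (φ s) = 0
    rw [smul_mul_assoc, sub_mul, single_mul_single_same]
    simp

end Flat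

section Un

variable (B : Type) [NonUnitalNormedRing B] [NormedSpace ℝ B] [IsScalarTower ℝ B B]
  [SMulCommClass ℝ B B]

/-- The unitization with the `ℓ¹` norm. -/
def Un : Type := Unitization ℝ B

instance : NormedRing (Un B) :=
  NormedRing.induced (Unitization ℝ B) (WithLp 1 (Unitization ℝ B))
    (WithLp.unitizationAlgEquiv ℝ).symm (WithLp.unitizationAlgEquiv ℝ).symm.injective

instance : NormedAlgebra ℝ (Un B) :=
  { (inferInstanceAs (Algebra ℝ (Unitization ℝ B)) : Algebra ℝ (Un B)) with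
    norm_smul_le := fun r x =>
      norm_smul_le r ((WithLp.unitizationAlgEquiv ℝ).symm x : WithLp 1 (Unitization ℝ B)) }

instance [CompleteSpace B] : CompleteSpace (Un B) :=
  (@completeSpace_congr (Un B) (WithLp 1 (Unitization ℝ B)) _ _
    (WithLp.equiv 1 (Unitization ℝ B)).symm
    (Isometry.isUniformEmbedding (α := Un B) (fun _ _ => rfl))).2 inferInstance

/-- The scalar part. -/
def fs : Un B →ₙ+* ℝ := (Unitization.fstHom ℝ B : Unitization ℝ B →ₙ+* ℝ)

variable {B}

/-- The part in `B`. -/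
def sn : Un B →ₗ[ℝ] B := Unitization.sndHom ℝ ℝ B

/-- The inclusion of `B`. -/
def ir : B →ₗ[ℝ] Un B := Unitization.inrHom ℝ ℝ B

theorem norm_un (x : Un B) : ‖x‖ = ‖fs B x‖ + ‖sn x‖ := WithLp.unitization_norm_def _

theorem sn_mul (x y : Un B) : sn (x * y) = fs B x • sn y + fs B y • sn x + sn x * sn y := rfl

theorem ir_mul (x y : B) : ir (x * y) = ir x * ir y := Unitization.inr_mul ℝ x y

theorem fs_add_sn (x : Un B) : fs B x • (1 : Un B) + ir (sn x) = x :=
  Unitization.ext (by change fs B x * 1 + 0 = fs B x; simp)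
    (by change fs B x • (0 : B) + sn x = sn x; simp)

theorem continuous_sn : Continuous (sn : Un B → B) :=
  AddMonoidHomClass.continuous_of_bound sn 1 fun x => by
    rw [norm_un, one_mul]
    exact le_add_of_nonneg_left (norm_nonneg _)

theorem continuous_ir : Continuous (ir : B → Un B) :=
  AddMonoidHomClass.continuous_of_bound ir 1 fun x => by
    rw [norm_un, one_mul]
    change ‖(0 : ℝ)‖ + ‖x‖ ≤ _
    simp

/-- The unital subalgebra generated by a subalgebra. -/
def Sp (S : NonUnitalSubalgebra ℝ B) : Subalgebra ℝ (Un B) where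
  carrier := {x | sn x ∈ S}
  mul_mem' {x y} hx hy := by
    change sn (x * y) ∈ S
    rw [sn_mul]
    exact add_mem (add_mem (S.smul_mem' _ hy) (S.smul_mem' _ hx)) (mul_mem hx hy)
  add_mem' hx hy := add_mem (S := NonUnitalSubalgebra ℝ B) hx hy
  algebraMap_mem' _ := zero_mem S

/-- The inclusion of a subring. -/
def inc (S : Subring (Un B)) : S →ₙ+* Un B := NonUnitalRingHomClass.toNonUnitalRingHom S.subtype

/-- The homomorphism `r + b ↦ r + G b`. -/
def HH {M : Type} [Ring M] [Algebra ℝ M] (S : NonUnitalSubalgebra ℝ B) (G : B →ₗ[ℝ] M)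
    (hG : ∀ x ∈ S, ∀ y ∈ S, G (x * y) = G x * G y) : (Sp S).toSubring →ₙ+* M where
  toFun x := fs B x.1 • 1 + G (sn x.1)
  map_mul' x y := by
    change fs B (x.1 * y.1) • 1 + G (sn (x.1 * y.1)) = _
    rw [map_mul, sn_mul, map_add, map_add, map_smul, map_smul, hG _ x.2 _ y.2]
    simp only [add_mul, mul_add, smul_mul_assoc, mul_smul_comm, one_mul, mul_one, smul_smul,
      smul_add, mul_comm]
    abel
  map_zero' := by
    change fs B 0 • (1 : M) + G (sn 0) = 0
    simp
  map_add' x y := by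
    change fs B (x.1 + y.1) • (1 : M) + G (sn (x.1 + y.1)) = _
    rw [map_add, map_add, add_smul, map_add]
    abel

/-- The matrix of linear maps, weighted and seen in the unitization. -/
def GM {A κ : Type} [NonUnitalNormedRing A] [NormedSpace ℝ A] [IsScalarTower ℝ A A]
    [SMulCommClass ℝ A A] (c : κ → ℝ) (g : κ → κ → B →ₗ[ℝ] A) : B →ₗ[ℝ] Matrix κ κ (Un A) where
  toFun b := of fun k l => (c k * c l) • ir (g k l b)
  map_add' x y := by ext1 k l; simp
  map_smul' r x := by ext1 k l; simp [smul_comm r]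

end Un

section Main

variable {A B : Type}
  [NonUnitalNormedRing A] [NormedSpace ℝ A] [IsScalarTower ℝ A A] [SMulCommClass ℝ A A]
  [NonUnitalNormedRing B] [NormedSpace ℝ B] [IsScalarTower ℝ B B] [SMulCommClass ℝ B B]

/-- `S` is a matrix algebra over `A` with corner embedding `φ`, by multipliers of `B`. -/
def Cor (φ : A →ₙₐ[ℝ] B) (S : NonUnitalSubalgebra ℝ B) : Prop :=
  ∃ (ι : Type) (_ : Fintype ι) (_ : DecidableEq ι) (i0 : ι)
    (g : Option ι → Option ι → B →ₗ[ℝ] B) (γ : ι → ι → B →ₗ[ℝ] A),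
    (∀ x ∈ S, ∀ y ∈ S, ∀ k m, g k none x * g none m y = g k m (x * y) ∧
      ∑ i, g k (some i) x * g (some i) m y = g k m (x * y)) ∧
    (∀ x ∈ S, g none none x = x) ∧ (∀ i j x, φ (γ i j x) = g (some i) (some j) x) ∧
    ∀ i j a, γ i j (φ a) = if i0 = i ∧ i0 = j then a else 0

/-- The unital extension. -/
def um (φ : A →ₙₐ[ℝ] B) : Un A →ₙ+* Un B := (unitMap φ : Unitization ℝ A →ₙ+* Unitization ℝ B)

theorem fs_um (φ : A →ₙₐ[ℝ] B) (x : Un A) : fs B (um φ x) = fs A x := unitMap_fst φ x

theorem sn_um (φ : A →ₙₐ[ℝ] B) (x : Un A) : sn (um φ x) = φ (sn x) := unitMap_snd φ x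

theorem um_ir (φ : A →ₙₐ[ℝ] B) (x : A) : um φ (ir x) = ir (φ x) := unitMap_inr φ x

theorem um_smul (φ : A →ₙₐ[ℝ] B) (r : ℝ) (x : Un A) : um φ (r • x) = r • um φ x :=
  map_smul (unitMap φ) r x

theorem um_one (φ : A →ₙₐ[ℝ] B) : um φ 1 = 1 := map_one (unitMap φ)

/-- The unital extension with values in the subalgebra. -/
def umS (φ : A →ₙₐ[ℝ] B) (S : NonUnitalSubalgebra ℝ B) (h : ∀ a, φ a ∈ S) :
    Un A →ₙ+* (Sp S).toSubring where
  toFun x := ⟨um φ x, by change sn (um φ x) ∈ S; rw [sn_um]; exact h _⟩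
  map_mul' x y := Subtype.ext (map_mul _ x y)
  map_zero' := Subtype.ext (map_zero _)
  map_add' x y := Subtype.ext (map_add _ x y)

theorem exists_inv [CompleteSpace B] {φ : A →ₙₐ[ℝ] B} (hφ : Injective φ)
    {S : NonUnitalSubalgebra ℝ B} (h : ∀ a, φ a ∈ S) (hS : Cor φ S) :
    ∃ ψ : K0 (Sp S).toSubring →+ K0 (Un A),
      (∀ x, K0.map (fs A) x = 0 → ψ (K0.map (umS φ S h) x) = x) ∧
      ∀ y, K0.map (fs B) (K0.map (inc _) y) = 0 →
        K0.map (fs A) (ψ y) = 0 ∧ K0.map (um φ) (ψ y) = K0.map (inc _) y := by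
  obtain ⟨ι, _, _, i0, g, γ, h1, h2, h3, h4⟩ := hS
  let c : ℝ → Option ι → ℝ := fun t k => k.elim (Real.cos t) fun _ => Real.sin t
  have hm : ∀ t, ∀ x ∈ S, ∀ y ∈ S, GM (c t) g (x * y) = GM (c t) g x * GM (c t) g y := by
    intro t x hx y hy
    ext1 k m
    change (c t k * c t m) • ir (g k m (x * y)) =
      ∑ l, (c t k * c t l) • ir (g k l x) * (c t l * c t m) • ir (g l m y)
    have e1 : ∀ i, (c t k * c t (some i)) • ir (g k (some i) x) *
        (c t (some i) * c t m) • ir (g (some i) m y) =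
        (c t k * c t m * Real.sin t ^ 2) • ir (g k (some i) x * g (some i) m y) := fun i => by
      rw [smul_mul_smul_comm, ir_mul]
      congr 1
      change c t k * Real.sin t * (Real.sin t * c t m) = _
      ring
    rw [Fintype.sum_option, Finset.sum_congr rfl fun i _ => e1 i, ← Finset.smul_sum, ← map_sum,
      (h1 x hx y hy k m).2, smul_mul_smul_comm, ← ir_mul, (h1 x hx y hy k m).1, ← add_smul]
    congr 1
    change _ = c t k * Real.cos t * (Real.cos t * c t m) + _
    linear_combination (-(c t k * c t m)) * Real.cos_sq_add_sin_sq t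
  let γ' : Option ι → Option ι → B →ₗ[ℝ] A := fun k l => k.elim 0 fun i => l.elim 0 (γ i)
  have hu : Injective (um φ) := unitMap_injective hφ
  have hc : ∀ x, mm (Option ι) (um φ) (GM (fun _ => 1) γ' x) = GM (c (Real.pi / 2)) g x := by
    intro x
    ext1 k l
    change um φ (((1 : ℝ) * 1) • ir (γ' k l x)) = (c _ k * c _ l) • ir (g k l x)
    rw [um_smul, um_ir]
    rcases k with _ | i <;> rcases l with _ | j <;> simp [c, γ', h3]
  have hm' : ∀ x ∈ S, ∀ y ∈ S,
      GM (fun _ => 1) γ' (x * y) = GM (fun _ => 1) γ' x * GM (fun _ => 1) γ' y :=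
    fun x hx y hy => by
      have : mm (Option ι) (um φ) (GM (fun _ => 1) γ' (x * y)) =
          mm (Option ι) (um φ) (GM (fun _ => 1) γ' x * GM (fun _ => 1) γ' y) := by
        refine Eq.trans ?_ ((mm (Option ι) (um φ)).map_mul' _ _).symm
        exact (hc _).trans ((hm _ x hx y hy).trans (congrArg₂ (· * ·) (hc x) (hc y)).symm)
      exact Matrix.map_injective hu this
  refine ⟨(flatten (Option ι)).comp (K0.map (HH S _ hm')), fun x hx => ?_, fun y hy => ⟨?_, ?_⟩⟩
  · rw [AddMonoidHom.comp_apply, map_map,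
      flatten_split _ (fs A) (NonUnitalRingHom.id _) (some i0) _ x hx, map_id]
    intro z
    change fs B (um φ z) • 1 + GM _ γ' (sn (um φ z)) = single _ _ z + _
    rw [fs_um, sn_um]
    conv_rhs => rw [← fs_add_sn z, single_add, ← smul_single, fs_add_sn, smul_sub]
    have : GM (fun _ => 1) γ' (φ (sn z)) = single (some i0) (some i0) (ir (sn z)) := by
      ext1 k l
      change ((1 : ℝ) * 1) • ir (γ' k l (φ (sn z))) = _
      rcases k with _ | i <;> rcases l with _ | j <;> simp [γ', h4, single, apply_ite ir]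
    rw [this]
    abel
  · rw [AddMonoidHom.comp_apply, ← flatten_mm, map_map,
      map_congr (ψ := (scal 1 (one_mul 1)).comp ((fs B).comp (inc _))), ← map_map, ← map_map, hy,
      map_zero, map_zero]
    intro z
    ext k l
    change fs A (fs B z.1 • (1 : Matrix _ _ (Un A)) k l + ((1 : ℝ) * 1) • ir (γ' k l (sn z.1))) =
      fs B z.1 • (1 : Matrix _ _ ℝ) k l
    rw [one_apply, one_apply]
    split_ifs
    · change fs B z.1 * 1 + 1 * 1 * 0 = fs B z.1 * 1
      simp
    · change fs B z.1 * 0 + 1 * 1 * 0 = fs B z.1 * 0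
      simp
  · rw [map_map] at hy
    rw [AddMonoidHom.comp_apply, ← flatten_mm, map_map,
      map_congr (ψ := HH S _ (hm (Real.pi / 2))),
      flatten_path (fun t => HH S _ (hm t)) _ (Real.pi / 2) 0,
      flatten_split _ ((fs B).comp (inc _)) (inc _) none _ y hy]
    · intro z
      change fs B z.1 • 1 + GM _ g (sn z.1) = single _ _ z.1 + fs B z.1 • _
      conv_rhs => rw [← fs_add_sn z.1, single_add, ← smul_single, fs_add_sn, smul_sub]
      have : GM (c 0) g (sn z.1) = single none none (ir (sn z.1)) := by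
        ext1 k l
        change (c 0 k * c 0 l) • ir (g k l (sn z.1)) = _
        rcases k with _ | i <;> rcases l with _ | j <;> simp [c, single, h2 _ z.2]
      rw [this]
      abel
    · intro z k l
      change Continuous fun t => fs B z.1 • (1 : Matrix _ _ (Un B)) k l +
        (c t k * c t l) • ir (g k l (sn z.1))
      rcases k with _ | i <;> rcases l with _ | j <;> simp only [c, Option.elim] <;> fun_prop
    · intro z
      change mm _ (um φ) (fs B z.1 • 1 + GM _ γ' (sn z.1)) = fs B z.1 • 1 + GM _ g (sn z.1)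
      rw [map_add, hc]
      congr 1
      ext1 k l
      change um φ (fs B z.1 • (1 : Matrix _ _ (Un A)) k l) = fs B z.1 • (1 : Matrix _ _ (Un B)) k l
      rw [um_smul, one_apply, one_apply, apply_ite (um φ), um_one, map_zero]

theorem bij_abs [CompleteSpace B] {φ : A →ₙₐ[ℝ] B} (hφ : Injective φ) {Λ : Type} [Nonempty Λ]
    (S : Λ → NonUnitalSubalgebra ℝ B) (hd : Directed (· ≤ ·) S)
    (hc : ∀ F, IsClosed (S F : Set B)) (hden : ∀ b, b ∈ closure (⋃ F, (S F : Set B)))
    (h : ∀ F a, φ a ∈ S F) (hS : ∀ F, Cor φ (S F)) : Bijective (K0r.map φ) := by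
  have hd' : Directed (· ≤ ·) fun F => Sp (S F) := fun F G =>
    let ⟨K, h1, h2⟩ := hd F G; ⟨K, fun _ hx => h1 hx, fun _ hx => h2 hx⟩
  have hc' : ∀ F, IsClosed (Sp (S F) : Set (Un B)) := fun F => (hc F).preimage continuous_sn
  have hden' : ∀ x, x ∈ closure (⋃ F, (Sp (S F) : Set (Un B))) := fun x => by
    rw [← fs_add_sn x]
    refine map_mem_closure (f := fun b => fs B x • (1 : Un B) + ir b)
      (continuous_const.add continuous_ir) (hden _) fun b hb => ?_
    obtain ⟨F, hF⟩ := Set.mem_iUnion.1 hb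
    exact Set.mem_iUnion.2 ⟨F, add_mem (Subalgebra.smul_mem _ (one_mem _) _) hF⟩
  constructor
  · intro x₁ x₂ hx
    have h0 : K0.map (um φ) (x₁.1 - x₂.1) = 0 :=
      (map_sub _ _ _).trans (sub_eq_zero.2 (congrArg Subtype.val hx))
    have h1 : K0.map (fs A) (x₁.1 - x₂.1) = 0 := (K0r A).sub_mem x₁.2 x₂.2
    refine Subtype.ext (sub_eq_zero.1 ?_)
    obtain ⟨k, l, e, f, he, hf, hxe⟩ := K0.exists_sub (R := Un A) (x₁.1 - x₂.1)
    rw [hxe, map_sub, sub_eq_zero, map_cls _ he, map_cls _ hf] at h0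
    obtain ⟨F⟩ := ‹Nonempty Λ›
    have h2 := congrArg (K0.map (NonUnitalRingHomClass.toNonUnitalRingHom
      (Subring.topEquiv (R := Un B)).symm)) h0
    rw [map_cls_rcls _ (idem_map he _), map_cls_rcls _ (idem_map hf _)] at h2
    obtain ⟨G, -, h3⟩ := rcls_inj_dense (fun F => Sp (S F)) hd' hc' ⊤ (fun x _ => hden' x) (i := F)
      (idem_map he (um φ)) (idem_map hf (um φ)) (fun i j => (umS φ _ (h F) (e i j)).2)
      (fun i j => (umS φ _ (h F) (f i j)).2) (fun _ _ => trivial) (fun _ _ => trivial) h2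
    obtain ⟨ψ, h4, -⟩ := exists_inv hφ (h G) (hS G)
    refine (h4 _ h1).symm.trans ?_
    rw [hxe, map_sub, map_cls_rcls _ he, map_cls_rcls _ hf]
    exact (congrArg ψ (sub_eq_zero.2 h3)).trans (map_zero ψ)
  · intro y
    obtain ⟨k, l, e, he, hye⟩ := K0.exists_sub_one (R := Un B) y.1
    obtain ⟨F, f, hf, hfS, hef⟩ := surj_dense (fun F => (Sp (S F)).toNonUnitalSubalgebra)
      (fun F G => hd' F G) hc' ⊤ isClosed_univ (fun _ => le_top) (fun x _ => hden' x) he
      (fun _ _ => trivial)
    obtain ⟨ψ, -, h4⟩ := exists_inv hφ (h F) (hS F)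
    have h5 : K0.map (inc (Sp (S F)).toSubring) (rcls (Sp (S F)).toSubring f -
        rcls (Sp (S F)).toSubring (1 : Matrix (Fin l) (Fin l) (Un B))) = y.1 := by
      rw [map_sub, hye, cls_eqvIn he hf hef]
      exact congrArg₂ (· - ·) (map_subtype_rcls hf hfS) (map_subtype_rcls (one_mul 1) ent_one)
    obtain ⟨h6, h7⟩ := h4 _ (h5 ▸ y.2)
    exact ⟨⟨_, h6⟩, Subtype.ext (h7.trans h5)⟩

end Main

section Fun

variable {E R J : Type} [TopologicalSpace E]
  [NonUnitalNormedRing R] [NormedSpace ℝ R] [IsScalarTower ℝ R R] [SMulCommClass ℝ R R]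
  [NonUnitalNormedRing J] [NormedSpace ℝ J] [IsScalarTower ℝ J J] [SMulCommClass ℝ J J]

variable (E) in
/-- Composition with a bounded linear map. -/
def postL (T : J →L[ℝ] R) : C₀(E, J) →ₗ[ℝ] C₀(E, R) where
  toFun f := ⟨⟨fun x => T (f x), T.continuous.comp (map_continuous f)⟩, by
    simpa [comp_def] using (T.continuous.tendsto 0).comp (zero_at_infty f)⟩
  map_add' f g := ZeroAtInftyContinuousMap.ext fun x => map_add T (f x) (g x)
  map_smul' c f := ZeroAtInftyContinuousMap.ext fun x => map_smul T c (f x)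

variable (E) in
/-- Evaluation at a point. -/
def ev (J : Type) [NonUnitalNormedRing J] [NormedSpace ℝ J] (t : E) : C₀(E, J) →L[ℝ] J :=
  LinearMap.mkContinuous ⟨⟨fun f => f t, fun _ _ => rfl⟩, fun _ _ => rfl⟩ 1 fun f => by
    rw [one_mul]; exact c0_apply_le f t

variable (E) in
/-- The functions with values in the corner of `p`. -/
def cn (p : J) : NonUnitalSubalgebra ℝ C₀(E, J) where
  carrier := {f | ∀ t, p * f t = f t ∧ f t * p = f t}
  add_mem' {f g} hf hg t := by
    change p * (f t + g t) = f t + g t ∧ (f t + g t) * p = f t + g t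
    rw [mul_add, add_mul, (hf t).1, (hf t).2, (hg t).1, (hg t).2]
    exact ⟨rfl, rfl⟩
  zero_mem' _ := ⟨mul_zero _, zero_mul _⟩
  mul_mem' {f g} hf hg t := by
    change p * (f t * g t) = f t * g t ∧ (f t * g t) * p = f t * g t
    rw [← mul_assoc, (hf t).1, mul_assoc, (hg t).2]
    exact ⟨rfl, rfl⟩
  smul_mem' r f hf t := by
    change p * (r • f t) = r • f t ∧ (r • f t) * p = r • f t
    rw [mul_smul_comm, smul_mul_assoc, (hf t).1, (hf t).2]
    exact ⟨rfl, rfl⟩

theorem isClosed_cn (p : J) : IsClosed (cn E p : Set C₀(E, J)) := by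
  have : (cn E p : Set C₀(E, J)) = ⋂ t, ev E J t ⁻¹' {x | p * x = x ∧ x * p = x} :=
    Set.ext fun f => ⟨fun h => Set.mem_iInter.2 h, fun h => Set.mem_iInter.1 h⟩
  rw [this]
  exact isClosed_iInter fun t => ((isClosed_eq (by fun_prop) continuous_id).inter
    (isClosed_eq (by fun_prop) continuous_id)).preimage (ev E J t).continuous

theorem tendsto_postL {Λ : Type} {l : Filter Λ} (T : Λ → J →L[ℝ] J) (hb : ∀ F, ‖T F‖ ≤ 1)
    (h : ∀ x, Tendsto (fun F => T F x) l (𝓝 x)) (f : C₀(E, J)) :
    Tendsto (fun F => postL E (T F) f) l (𝓝 f) := by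
  refine Metric.tendsto_nhds.2 fun ε hε => ?_
  have hK := (zero_at_infty f).isCompact_insert_range_of_cocompact (map_continuous f)
  have h1 : ∀ᶠ F in l, ∀ y ∈ insert 0 (Set.range f), ‖T F y - y‖ ≤ ε / 2 := by
    refine hK.induction_on (p := fun s => ∀ᶠ F in l, ∀ y ∈ s, ‖T F y - y‖ ≤ ε / 2) (by simp)
      (fun s t hst ht => ht.mono fun F h y hy => h y (hst hy))
      (fun s t hs ht => (hs.and ht).mono fun F h y hy => hy.elim (h.1 y) (h.2 y)) fun y _ => ?_
    refine ⟨Metric.ball y (ε / 6), mem_nhdsWithin_of_mem_nhds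
      (Metric.ball_mem_nhds _ (by positivity)), ?_⟩
    filter_upwards [Metric.tendsto_nhds.1 (h y) (ε / 6) (by positivity)] with F h1 y' h2
    rw [Metric.mem_ball, dist_eq_norm] at h2
    rw [dist_eq_norm] at h1
    have h3 : ‖T F (y' - y)‖ ≤ ‖y' - y‖ := ((T F).le_opNorm _).trans
      (mul_le_of_le_one_left (norm_nonneg _) (hb F))
    have h4 : T F y' - y' = T F (y' - y) + (T F y - y) - (y' - y) := by rw [map_sub]; abel
    rw [h4]
    linarith [norm_sub_le (T F (y' - y) + (T F y - y)) (y' - y),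
      norm_add_le (T F (y' - y)) (T F y - y)]
  filter_upwards [h1] with F hF
  rw [dist_eq_norm]
  exact (c0_norm_le _ (by positivity) fun t => hF _ (Or.inr ⟨t, rfl⟩)).trans_lt (half_lt_self hε)

variable {I : Type} {θ : R →ₙₐ[ℝ] J} (D : MorData I θ)

/-- The finite projections. -/
def PP (F : Finset I) : J := ∑ i ∈ F, D.v i * D.w i

theorem PP_v {F : Finset I} {i : I} (h : i ∈ F) : PP D F * D.v i = D.v i := by
  rw [PP, Finset.sum_mul, Finset.sum_eq_single_of_mem i h fun j _ hj => by
    rw [mul_assoc, D.wv' j i hj, mul_zero], mul_assoc, D.wv, D.vp]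

theorem w_PP {F : Finset I} {i : I} (h : i ∈ F) : D.w i * PP D F = D.w i := by
  rw [PP, Finset.mul_sum, Finset.sum_eq_single_of_mem i h fun j _ hj => by
    rw [← mul_assoc, D.wv' i j hj.symm, zero_mul], ← mul_assoc, D.wv, D.pw]

theorem PP_mono {F G : Finset I} (h : F ⊆ G) :
    PP D G * PP D F = PP D F ∧ PP D F * PP D G = PP D F :=
  ⟨(Finset.mul_sum _ _ _).trans (Finset.sum_congr rfl fun i hi => by
      rw [← mul_assoc, PP_v D (h hi)]),
    (Finset.sum_mul _ _ _).trans (Finset.sum_congr rfl fun i hi => by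
      rw [mul_assoc, w_PP D (h hi)])⟩

theorem cn_mono {F G : Finset I} (h : F ⊆ G) : cn E (PP D F) ≤ cn E (PP D G) := fun f hf t =>
  ⟨by rw [← (hf t).1, ← mul_assoc, (PP_mono D h).1],
    by rw [← (hf t).2, mul_assoc, (PP_mono D h).2]⟩

theorem p_theta (r : R) : D.v D.i0 * θ r = θ r ∧ θ r * D.v D.i0 = θ r := by
  have h : θ r = D.v D.i0 * θ r * D.v D.i0 := by rw [← D.θσ, D.σθ]
  exact ⟨by rw [h, ← mul_assoc, ← mul_assoc, D.vp], by rw [h, mul_assoc, D.vp]⟩

theorem cor_cn (hθ : Continuous θ) {F : Finset I} (h : D.i0 ∈ F) :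
    Cor (postC0 E θ hθ) (cn E (PP D F)) := by
  classical
  let v' : Option F → J := fun k => k.elim (PP D F) fun i => D.v i
  let w' : Option F → J := fun k => k.elim (PP D F) fun i => D.w i
  refine ⟨F, inferInstance, inferInstance, ⟨_, h⟩,
    fun k l => postL E (ContinuousLinearMap.mulLeftRight ℝ J (w' k) (v' l)),
    fun i j => postL E (D.σ.comp (ContinuousLinearMap.mulLeftRight ℝ J (D.w i) (D.v j))),
    fun x hx y hy k m => ⟨ZeroAtInftyContinuousMap.ext fun t => ?_,
      ZeroAtInftyContinuousMap.ext fun t => ?_⟩,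
    fun x hx => ZeroAtInftyContinuousMap.ext fun t => ?_,
    fun i j x => ZeroAtInftyContinuousMap.ext fun t => ?_,
    fun i j a => ZeroAtInftyContinuousMap.ext fun t => ?_⟩
  · change w' k * x t * PP D F * (PP D F * y t * v' m) = w' k * (x t * y t) * v' m
    rw [mul_assoc _ (x t), (hx t).2, (hy t).1]
    simp only [mul_assoc]
  · refine (map_sum (ev E J t) _ _).trans ?_
    change ∑ i : F, w' k * x t * D.v i * (D.w i * y t * v' m) = w' k * (x t * y t) * v' m
    have : ∀ i, w' k * x t * D.v i * (D.w i * y t * v' m) =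
        w' k * x t * (D.v i * D.w i) * (y t * v' m) := fun i => by simp only [mul_assoc]
    rw [Finset.sum_coe_sort F fun i => w' k * x t * D.v i * (D.w i * y t * v' m),
      Finset.sum_congr rfl fun i _ => this i, ← Finset.sum_mul, ← Finset.mul_sum]
    change w' k * x t * PP D F * _ = _
    rw [mul_assoc _ (x t), (hx t).2]
    simp only [mul_assoc]
  · change PP D F * x t * PP D F = x t
    rw [(hx t).1, (hx t).2]
  · change θ (D.σ (D.w i * x t * D.v j)) = D.w i * x t * D.v j
    rw [D.θσ, ← mul_assoc, ← mul_assoc, D.pw, mul_assoc, D.vp]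
  · change D.σ (D.w i * θ (a t) * D.v j) = _
    have h1 : D.w i * θ (a t) * D.v j = D.w i * D.v D.i0 * θ (a t) * (D.w D.i0 * D.v j) := by
      rw [D.w0, mul_assoc (D.w i) (D.v _), (p_theta D _).1, ← mul_assoc, mul_assoc (D.w i) (θ _)
        (D.v D.i0), (p_theta D _).2]
    rw [h1]
    split_ifs with h2
    · rw [← h2.1, ← h2.2, D.wv, ← D.θσ, D.σθ, D.σθ]
    · rcases not_and_or.1 h2 with h3 | h3
      · rw [D.wv' _ _ fun h4 => h3 (Subtype.ext h4.symm), zero_mul, zero_mul, map_zero]; rfl
      · rw [D.wv' _ _ fun h4 => h3 (Subtype.ext h4), mul_zero, map_zero]; rfl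

include D in
theorem bij_c0 [CompleteSpace J] (hθ : Continuous θ) : Bijective (K0r.map (postC0 E θ hθ)) := by
  classical
  refine bij_abs (fun f g h => ZeroAtInftyContinuousMap.ext fun t => ?_)
    (fun F : Finset I => cn E (PP D (insert D.i0 F)))
    (fun F G => ⟨F ∪ G, cn_mono D (Finset.insert_subset_insert _ Finset.subset_union_left),
      cn_mono D (Finset.insert_subset_insert _ Finset.subset_union_right)⟩)
    (fun F => isClosed_cn _) (fun f => ?_) (fun F a t => ?_)
    fun F => cor_cn D hθ (Finset.mem_insert_self _ _)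
  · rw [← D.σθ (f t), ← D.σθ (g t)]
    exact congrArg D.σ (DFunLike.congr_fun h t)
  · refine mem_closure_of_tendsto (tendsto_postL (l := atTop)
      (fun F => ContinuousLinearMap.mulLeftRight ℝ J (PP D F) (PP D F))
      (fun F => (ContinuousLinearMap.opNorm_mulLeftRight_apply_apply_le ℝ J _ _).trans
        (mul_le_one₀ (D.bd F) (norm_nonneg _) (D.bd F))) (fun x => ?_) f)
      (Eventually.of_forall fun F => Set.mem_iUnion.2 ⟨F, cn_mono D (Finset.subset_insert _ _)
        fun t => ?_⟩)
    · have h1 : Tendsto (fun F => (PP D F * x - x) * PP D F) atTop (𝓝 0) :=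
        squeeze_zero_norm (fun F => (norm_mul_le _ _).trans
          (mul_le_of_le_one_right (norm_nonneg _) (D.bd F)))
          (tendsto_iff_norm_sub_tendsto_zero.1 (D.liml x))
      have h2 := h1.add (D.limr x)
      rw [zero_add] at h2
      refine h2.congr fun F => ?_
      change (PP D F * x - x) * PP D F + x * PP D F = PP D F * x * PP D F
      rw [sub_mul, sub_add_cancel]
    · change PP D F * (PP D F * f t * PP D F) = PP D F * f t * PP D F ∧
        PP D F * f t * PP D F * PP D F = PP D F * f t * PP D F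
      rw [← mul_assoc, ← mul_assoc, (PP_mono D subset_rfl).1, mul_assoc _ (PP D F),
        (PP_mono D subset_rfl).1]
      exact ⟨rfl, rfl⟩
  · change PP D _ * θ (a t) = θ (a t) ∧ θ (a t) * PP D _ = θ (a t)
    have h1 := Finset.mem_insert_self D.i0 F
    exact ⟨by rw [← (p_theta D _).1, ← mul_assoc, PP_v D h1],
      by rw [← (p_theta D _).2, ← D.w0, mul_assoc, w_PP D h1]⟩

end Fun

end MOR

theorem stSTAB : St_STAB := fun _ _ _ _ _ _ _ _ _ _ _ _ _ hθ _ D => MOR.bij_c0 D hθ

end Pool.Agent.Lib.BCH
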