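import Pool.Agent.Lib.BCH.Core
import Pool.Agent.Lib.BCH.Onto
import Pool.Agent.Lib.BCH.MORa
import Pool.Agent.Lib.BCH.MORData
import Pool.Agent.Lib.PD.Ample

/-! The main theorem. -/

namespace Pool.Agent.Lib.BCH

variable {Γ X Z : Type} [Group Γ] [MetricSpace X] [ProperSpace X] [MulAction Γ X]
  [IsIsometricSMul Γ X] [MulAction Γ Z] {o : X} {pos : Z → X}

theorem stMOR' : St_MOR := stMOR_of stSTAB stMDATA

theorem core (hG : Geom Γ o) (hS : SD.SubexpDecay fun r => {g : Γ | dist o (g • o) ≤ r})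
    (hZ : IsAmple Γ pos) (z : Z) (n : ℕ) :
    ∃ μ, IsAssembly Γ pos z n μ ∧ Function.Surjective μ := core_of stMOR' hG hS hZ z n

theorem assemblyOnto (hG : Geom Γ o)
    (hS : SD.SubexpDecay fun r => {g : Γ | dist o (g • o) ≤ r}) : AssemblyOnto Γ := by
  have := PD.countable_of_proper o hG.proper
  have : Nonempty X := ⟨o⟩
  obtain ⟨Z, _, pos, hZ⟩ := PD.exists_ample Γ X
  obtain ⟨z, -⟩ := (hZ.ample Set.univ isOpen_univ ⟨o, trivial⟩).nonempty
  exact ⟨X, _, ‹_›, _, ‹_›, o, Z, _, pos, z, hG.cn, hG.proper, hG.cocpt, hZ,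
    fun n => core hG hS hZ z n⟩

end Pool.Agent.Lib.BCH
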