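import Pool.Agent.Lib.BCH.RoeDefs
import Pool.Agent.Lib.SD.CATDefs

/-! Interface between the geometric chain complex and the analysis. -/

noncomputable section

open Filter Finset

namespace Pool.Agent.Lib.BCH

/-- A proper cobounded action on a space with Bruhat-Tits midpoints. -/
structure Geom (Γ : Type) {X : Type} [Group Γ] [MetricSpace X] [MulAction Γ X] (o : X) : Prop where
  cn : SD.HasCNMidpoints X
  proper : ∀ R : ℝ, {g : Γ | dist o (g • o) ≤ R}.Finite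
  cocpt : ∃ D : ℝ, ∀ x : X, ∃ g : Γ, dist x (g • o) ≤ D

/-- Endomorphisms of finitely supported chains. -/
abbrev En (S : Type) : Type := Module.End ℝ (S →₀ ℝ)

/-- The column of `T` at `σ`. -/
def col {S : Type} (T : En S) (σ : S) : S →₀ ℝ := T (Finsupp.single σ 1)

/-- The weighted `ℓ¹` norm. -/
def wn {S : Type} (w : S → ℝ) (t : ℝ) (ξ : S →₀ ℝ) : ℝ :=
  ∑ σ ∈ ξ.support, |ξ σ| * Real.exp (t * w σ)

/-- The `ℓ¹` norm. -/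
def n1 {S : Type} (ξ : S →₀ ℝ) : ℝ := ∑ σ ∈ ξ.support, |ξ σ|

/-- The signed permutation operator. -/
def spi {Γ S : Type} [Group Γ] [MulAction Γ S] (sgn : Γ → S → ℝ) (g : Γ) : En S :=
  Finsupp.linearCombination ℝ fun σ => Finsupp.single (g • σ) (sgn g σ)

/-- The diagonal operator. -/
def dg {S : Type} (f : S → ℝ) : En S :=
  Finsupp.linearCombination ℝ fun σ => Finsupp.single σ (f σ)

/-- Bounded entries, boundedly many nonzero entries in each row and in each column. -/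
def Band {S : Type} (T : En S) : Prop :=
  ∃ (C : ℝ) (M : ℕ), (∀ τ σ, |col T σ τ| ≤ C) ∧ (∀ σ, (col T σ).support.card ≤ M) ∧
    ∀ τ, ∃ F : Finset S, F.card ≤ M ∧ ∀ σ, col T σ τ ≠ 0 → σ ∈ F

/-- The chain data: an augmented complex with basis `S`, weight `w σ = dist o (q 0 σ)`. -/
structure CD (Γ : Type) {X : Type} (S : Type) [Group Γ] [MetricSpace X] [MulAction Γ X]
    [MulAction Γ S] (o : X) where
  w : S → ℝ
  emp : S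
  par : S → Bool
  sgn : Γ → S → ℝ
  d : En S
  h : En S
  i : En S
  J : En S
  q : ℕ → S → X
  N : ℝ
  t0 : ℝ
  w_eq : ∀ σ, w σ = dist o (q 0 σ)
  w_fin : ∀ D : ℝ, {σ | w σ ≤ D}.Finite
  w_lip : ∀ (g : Γ) (σ : S), |w (g • σ) - w σ| ≤ dist o (g • o)
  q_emp : ∀ n, q n emp = o
  smul_emp : ∀ g : Γ, g • emp = emp
  par_smul : ∀ (g : Γ) (σ : S), par (g • σ) = par σ
  par_emp : par emp = true
  sgn_abs : ∀ g σ, |sgn g σ| = 1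
  sgn_mul : ∀ (g g' : Γ) (σ : S), sgn (g * g') σ = sgn g (g' • σ) * sgn g' σ
  sgn_emp : ∀ g, sgn g emp = 1
  d_pi : ∀ g : Γ, d * spi sgn g = spi sgn g * d
  dd : d * d = 0
  hh : h * h = 0
  dJ : d * J + J * d = 1
  hi : h * i + i * h = 1
  odd_d : ∀ τ σ, col d σ τ ≠ 0 → par τ ≠ par σ
  odd_h : ∀ τ σ, col h σ τ ≠ 0 → par τ ≠ par σ
  odd_i : ∀ τ σ, col i σ τ ≠ 0 → par τ ≠ par σ
  odd_J : ∀ τ σ, col J σ τ ≠ 0 → par τ ≠ par σ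
  d_col : ∀ σ, n1 (col d σ) ≤ N
  d_w : ∀ τ σ, col d σ τ ≠ 0 → w τ ≤ w σ
  J_w : ∃ D : ℝ, ∀ τ σ, col J σ τ ≠ 0 → w τ ≤ w σ + D
  J_bd : ∀ t : ℝ, 0 < t → ∃ C : ℝ, ∀ σ, wn w t (col J σ) ≤ C * Real.exp (t * w σ)
  band_h : Band h
  band_i : Band i
  h_q : ∀ τ σ, col h σ τ ≠ 0 → q 0 τ = q 0 σ
  i_q : ∀ τ σ, col i σ τ ≠ 0 → q 0 τ = q 0 σ
  t0_pos : 0 < t0
  K_bd : ∀ σ, wn w t0 (col (1 - (d * h + h * d)) σ) ≤ 1 / 2 * Real.exp (t0 * w σ)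
  so : ∀ (g : Γ) (ε : ℝ), 0 < ε → ∀ᶠ σ in cofinite, ∀ τ, col d σ τ ≠ 0 →
    τ = emp ∨ |w (g • τ) - w (g • σ) - (w τ - w σ)| ≤ ε
  h_pi : ∀ (g : Γ) (ε : ℝ), 0 < ε → ∀ᶠ σ in cofinite, ∀ τ,
    |col (h * spi sgn g - spi sgn g * h) σ τ| ≤ ε
  shift_bd : ∃ C : ℝ, ∀ n σ, dist (q (n + 1) σ) (q n σ) ≤ C
  shift_lim : ∀ ε : ℝ, 0 < ε → ∀ᶠ x : S × ℕ in cofinite, dist (q (x.2 + 1) x.1) (q x.2 x.1) ≤ ε
  smul_bd : ∀ g : Γ, ∃ C : ℝ, ∀ n σ, dist (q n (g • σ)) (g • q n σ) ≤ C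
  smul_lim : ∀ (g : Γ) (ε : ℝ), 0 < ε → ∀ᶠ x : S × ℕ in cofinite, x.1 ≠ emp →
    dist (q x.2 (g • x.1)) (g • q x.2 x.1) ≤ ε

/-- Existence of the chain data. -/
def St_CH : Prop :=
  ∀ (Γ X : Type) [Group Γ] [MetricSpace X] [CompleteSpace X] [MulAction Γ X]
    [IsIsometricSMul Γ X] (o : X), Geom Γ o →
    ∃ (S : Type) (_ : MulAction Γ S), Nonempty (CD Γ S o)

end Pool.Agent.Lib.BCH
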