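import Pool.Agent.Lib.BCH.KDefs
import Pool.Agent.Lib.BCH.Roe46

/-! The extension `0 → C*(X)^Γ → D*(X)^Γ → D*(X)^Γ / C*(X)^Γ → 0`. -/

noncomputable section

namespace Pool.Agent.Lib.BCH

variable (Γ : Type) {X Z : Type} [Group Γ] [MetricSpace X] [MulAction Γ Z] (pos : Z → X)

/-- `C*(X)^Γ` as an ideal of `D*(X)^Γ`. -/
def Cid : Ideal (Dstar Γ pos) where
  carrier := {T | T.1 ∈ Cstar Γ pos}
  add_mem' h h' := (Cstar Γ pos).add_mem h h'
  zero_mem' := (Cstar Γ pos).zero_mem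
  smul_mem' S _ h := Cstar_mul_left S.2 h

instance : (Cid Γ pos).IsTwoSided := ⟨fun S h => Cstar_mul_right h S.2⟩

instance : IsClosed (Cid Γ pos : Set (Dstar Γ pos)) :=
  isClosed_Cstar.preimage continuous_subtype_val

/-- The extension `0 → C* → D* → D* / C* → 0`. -/
def roeExt : Ext (Cstar Γ pos) (Dstar Γ pos) (Dstar Γ pos ⧸ Cid Γ pos) where
  ι :=
    { toFun := fun T => ⟨T.1, Dstar_of_Cstar T.2⟩
      map_smul' := fun _ _ => rfl
      map_zero' := rfl
      map_add' := fun _ _ => rfl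
      map_mul' := fun _ _ => rfl }
  π := Ideal.Quotient.mkₐ ℝ (Cid Γ pos)
  inj _ _ h := Subtype.ext (congrArg (fun T : Dstar Γ pos => T.1) h)
  exact T := Ideal.Quotient.eq_zero_iff_mem.trans ⟨fun h => ⟨⟨T.1, h⟩, rfl⟩, fun ⟨S, h⟩ => h ▸ S.2⟩
  surj := Ideal.Quotient.mk_surjective

theorem roeExt_isometry : Isometry (roeExt Γ pos).ι := fun _ _ => rfl

theorem roeExt_continuous : Continuous (roeExt Γ pos).π := continuous_quot_mk

instance instCompleteD : CompleteSpace (Dstar Γ pos) := isClosed_Dstar.completeSpace_coe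

instance instCompleteC : CompleteSpace (Cstar Γ pos) := isClosed_Cstar.completeSpace_coe

instance instCompleteQ : CompleteSpace (Dstar Γ pos ⧸ Cid Γ pos) :=
  Submodule.Quotient.completeSpace (Cid Γ pos)

end Pool.Agent.Lib.BCH
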