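import Pool.Agent.Lib.BCH.Blue2
import Pool.Agent.Lib.BCH.ExtDefs

/-! Blueprint of the ending. -/

noncomputable section

open scoped ZeroAtInfty

namespace Pool.Agent.Lib.BCH

/-- Vanishing over the sphere gives vanishing for the suspensions. -/
def St_SPLIT : Prop :=
  ∀ (Γ X Z : Type) [Group Γ] [MetricSpace X] [MulAction Γ Z] (pos : Z → X) (n : ℕ),
    Vanish Γ pos →
    ∀ ι : C₀(EuclideanSpace ℝ (Fin n), Cstar Γ pos) →ₙₐ[ℝ]
        C₀(EuclideanSpace ℝ (Fin n), Dstar Γ pos),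
      (∀ f t, ((ι f t : Dstar Γ pos) : Op Z) = (f t : Op Z)) →
      ∀ x ∈ K0r C₀(EuclideanSpace ℝ (Fin n), Cstar Γ pos),
        K0.map (S := Unitization ℝ C₀(EuclideanSpace ℝ (Fin n), Dstar Γ pos))
          (NonUnitalRingHomClass.toNonUnitalRingHom (unitMap ι)) x = 0

end Pool.Agent.Lib.BCH
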