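import Pool.Agent.Lib.BCH.Fil
import Pool.Agent.Lib.BCH.KApi
import Pool.Agent.Lib.BCH.Alg24

/-! Calculus of the functor `B ↦ M_ν(C(Y, B))`. -/

noncomputable section

open Filter Topology BCK BCA
open scoped Matrix.Norms.Operator

namespace Pool.Agent.Lib.BCH

variable {ν Y A B B' : Type} [Fintype ν] [DecidableEq ν] [TopologicalSpace Y] [CompactSpace Y]
  [NormedRing A] [NormedAlgebra ℝ A] [NormedRing B] [NormedAlgebra ℝ B] [NormedRing B']
  [NormedAlgebra ℝ B']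

set_option linter.unusedSectionVars false

/-! ### Values -/

/-- The underlying matrix. -/
def FF.mat (M : FF ν Y B) : Matrix ν ν C(Y, B) := M

theorem FF.ext {M N : FF ν Y B} (h : ∀ i j y, M i j y = N i j y) : M = N :=
  Matrix.ext fun i j => ContinuousMap.ext fun y => h i j y

theorem cmap_apply (φ : A →ₙ+* B) (hφ : Continuous φ) (f : C(Y, A)) (y : Y) :
    cmap Y φ hφ f y = φ (f y) := rfl

theorem FF.map_apply (φ : A →ₙ+* B) (hφ : Continuous φ) (M : FF ν Y A) (i j : ν) (y : Y) :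
    FF.map ν Y φ hφ M i j y = φ (M i j y) := rfl

theorem FF.zero_apply (i j : ν) (y : Y) : (0 : FF ν Y B) i j y = 0 := rfl

theorem FF.add_apply (M N : FF ν Y B) (i j : ν) (y : Y) : (M + N) i j y = M i j y + N i j y := rfl

theorem FF.neg_apply (M : FF ν Y B) (i j : ν) (y : Y) : (-M) i j y = -M i j y := rfl

theorem FF.sub_apply (M N : FF ν Y B) (i j : ν) (y : Y) : (M - N) i j y = M i j y - N i j y := rfl

theorem FF.smul_apply (r : ℝ) (M : FF ν Y B) (i j : ν) (y : Y) :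
    (r • M) i j y = r • M i j y := rfl

theorem FF.mul_apply (M N : FF ν Y B) (i j : ν) (y : Y) :
    (M * N) i j y = ∑ k, M i k y * N k j y := by
  change (∑ k, M.mat i k * N.mat k j) y = _
  rw [ContinuousMap.coe_sum, Finset.sum_apply]
  rfl

theorem FF.const_apply (b : B) (i j : ν) (y : Y) :
    FF.const ν Y b i j y = if i = j then b else 0 := by
  change (if i = j then ContinuousMap.const Y b else 0) y = _
  split_ifs <;> rfl

theorem FF.one_apply (i j : ν) (y : Y) : (1 : FF ν Y B) i j y = if i = j then 1 else 0 := by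
  rw [← map_one (FF.const ν Y : B →+* FF ν Y B), FF.const_apply]

theorem FF.const_mul_apply (x : B) (M : FF ν Y B) (i j : ν) (y : Y) :
    (FF.const ν Y x * M) i j y = x * M i j y := by
  simp [FF.mul_apply, FF.const_apply]

theorem FF.mul_const_apply (x : B) (M : FF ν Y B) (i j : ν) (y : Y) :
    (M * FF.const ν Y x) i j y = M i j y * x := by
  simp [FF.mul_apply, FF.const_apply]

theorem FF.const_smul (r : ℝ) (b : B) : FF.const ν Y (r • b) = r • FF.const ν Y b :=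
  FF.ext fun i j y => by rw [FF.smul_apply, FF.const_apply, FF.const_apply]; split_ifs <;> simp

theorem FF.algebraMap_eq (r : ℝ) :
    algebraMap ℝ (FF ν Y B) r = FF.const ν Y (algebraMap ℝ B r) := by
  rw [Algebra.algebraMap_eq_smul_one, Algebra.algebraMap_eq_smul_one, FF.const_smul, map_one]

theorem FF.algebraMap_apply (r : ℝ) (i j : ν) (y : Y) :
    algebraMap ℝ (FF ν Y B) r i j y = if i = j then algebraMap ℝ B r else 0 := by
  rw [FF.algebraMap_eq, FF.const_apply]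

variable (ν Y B) in
/-- `FF.const` as a homomorphism of algebras. -/
def FF.constAlg : B →ₐ[ℝ] FF ν Y B :=
  { FF.const ν Y with commutes' := fun r => (FF.algebraMap_eq r).symm }

theorem FF.constAlg_apply (b : B) : FF.constAlg ν Y B b = FF.const ν Y b := rfl

/-! ### Functoriality -/

theorem FF.map_const (φ : A →ₙ+* B) (hφ : Continuous φ) (a : A) :
    FF.map ν Y φ hφ (FF.const ν Y a) = FF.const ν Y (φ a) :=
  FF.ext fun i j y => by
    rw [FF.map_apply, FF.const_apply, FF.const_apply]; split_ifs <;> simp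

theorem FF.map_map (φ : A →ₙ+* B) (hφ : Continuous φ) (ψ : B →ₙ+* B') (hψ : Continuous ψ)
    (M : FF ν Y A) :
    FF.map ν Y ψ hψ (FF.map ν Y φ hφ M) = FF.map ν Y (ψ.comp φ) (hψ.comp hφ) M := rfl

theorem FF.map_map' {φ : A →ₙ+* B} (hφ : Continuous φ) {ψ : B →ₙ+* B'} (hψ : Continuous ψ)
    {χ : A →ₙ+* B'} (hχ : Continuous χ) (h : ∀ a, ψ (φ a) = χ a) (M : FF ν Y A) :
    FF.map ν Y ψ hψ (FF.map ν Y φ hφ M) = FF.map ν Y χ hχ M :=
  FF.ext fun _ _ _ => h _

theorem FF.map_congr {φ ψ : A →ₙ+* B} (hφ : Continuous φ) (hψ : Continuous ψ)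
    (h : ∀ a, φ a = ψ a) (M : FF ν Y A) : FF.map ν Y φ hφ M = FF.map ν Y ψ hψ M :=
  FF.ext fun _ _ _ => h _

theorem FF.map_id {φ : A →ₙ+* A} (hφ : Continuous φ) (h : ∀ a, φ a = a) (M : FF ν Y A) :
    FF.map ν Y φ hφ M = M := FF.ext fun _ _ _ => h _

theorem FF.map_one {φ : A →ₙ+* B} (hφ : Continuous φ) (h : φ 1 = 1) :
    FF.map ν Y φ hφ 1 = 1 := by
  rw [← _root_.map_one (FF.const ν Y : A →+* FF ν Y A), FF.map_const, h, _root_.map_one]

theorem FF.map_smul {φ : A →ₙ+* B} (hφ : Continuous φ) (h : ∀ (r : ℝ) a, φ (r • a) = r • φ a)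
    (r : ℝ) (M : FF ν Y A) : FF.map ν Y φ hφ (r • M) = r • FF.map ν Y φ hφ M :=
  FF.ext fun _ _ _ => h _ _

theorem FF.map_algebraMap (φ : A →ₐ[ℝ] B) (hφ : Continuous φ) (r : ℝ) :
    FF.map ν Y (φ : A →ₙ+* B) hφ (algebraMap ℝ (FF ν Y A) r) = algebraMap ℝ (FF ν Y B) r := by
  rw [FF.algebraMap_eq, FF.algebraMap_eq, FF.map_const]
  exact congrArg _ (φ.commutes r)

theorem FF.map_one_alg (φ : A →ₐ[ℝ] B) (hφ : Continuous φ) :
    FF.map ν Y (φ : A →ₙ+* B) hφ 1 = 1 := FF.map_one hφ (_root_.map_one φ)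

variable (ν Y) in
/-- `FF.map` for a unital homomorphism of algebras. -/
def FF.mapAlg (φ : A →ₐ[ℝ] B) (hφ : Continuous φ) : FF ν Y A →ₐ[ℝ] FF ν Y B :=
  { FF.map ν Y (φ : A →ₙ+* B) hφ with
    map_one' := FF.map_one_alg φ hφ
    commutes' := FF.map_algebraMap φ hφ }

theorem FF.mapAlg_apply (φ : A →ₐ[ℝ] B) (hφ : Continuous φ) (M : FF ν Y A) :
    FF.mapAlg ν Y φ hφ M = FF.map ν Y (φ : A →ₙ+* B) hφ M := rfl

variable (ν Y) in
/-- `FF.map` for a homomorphism of algebras that need not be unital. -/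
def FF.mapN (φ : A →ₙₐ[ℝ] B) (hφ : Continuous φ) : FF ν Y A →ₙₐ[ℝ] FF ν Y B :=
  { FF.map ν Y (φ : A →ₙ+* B) hφ with
    map_smul' := FF.map_smul hφ (_root_.map_smul φ) }

theorem FF.mapN_apply (φ : A →ₙₐ[ℝ] B) (hφ : Continuous φ) (M : FF ν Y A) :
    FF.mapN ν Y φ hφ M = FF.map ν Y (φ : A →ₙ+* B) hφ M := rfl

theorem FF.map_scalar {n : Type} (φ : A →ₐ[ℝ] B) (hφ : Continuous φ) (c : Matrix n n ℝ) :
    (c.map (algebraMap ℝ (FF ν Y A))).map (FF.map ν Y (φ : A →ₙ+* B) hφ) =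
      c.map (algebraMap ℝ (FF ν Y B)) :=
  Matrix.ext fun _ _ => FF.map_algebraMap φ hφ _

theorem FF.map_mul_const {Φ Ψ : A →ₙ+* B} (hΦ : Continuous Φ) (hΨ : Continuous Ψ) {x : B}
    (h : ∀ a, Φ a * x = Ψ a) (p : FF ν Y A) :
    FF.map ν Y Φ hΦ p * FF.const ν Y x = FF.map ν Y Ψ hΨ p :=
  FF.ext fun i j y => by rw [FF.mul_const_apply]; exact h _

theorem FF.const_mul_map {Φ Ψ : A →ₙ+* B} (hΦ : Continuous Φ) (hΨ : Continuous Ψ) {x : B}
    (h : ∀ a, x * Φ a = Ψ a) (p : FF ν Y A) :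
    FF.const ν Y x * FF.map ν Y Φ hΦ p = FF.map ν Y Ψ hΨ p :=
  FF.ext fun i j y => by rw [FF.const_mul_apply]; exact h _

theorem FF.const_mul_map_comm {Φ Ψ : A →ₙ+* B} (hΦ : Continuous Φ) (hΨ : Continuous Ψ) {x z : B}
    (h : ∀ a, x * Φ a = Ψ a * z) (p : FF ν Y A) :
    FF.const ν Y x * FF.map ν Y Φ hΦ p = FF.map ν Y Ψ hΨ p * FF.const ν Y z :=
  FF.ext fun i j y => by rw [FF.const_mul_apply, FF.mul_const_apply]; exact h _

theorem FF.const_mul_map_mul_const {Φ Ψ : A →ₙ+* B} (hΦ : Continuous Φ) (hΨ : Continuous Ψ)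
    {x z : B} (h : ∀ a, x * Φ a * z = Ψ a) (p : FF ν Y A) :
    FF.const ν Y x * FF.map ν Y Φ hΦ p * FF.const ν Y z = FF.map ν Y Ψ hΨ p :=
  FF.ext fun i j y => by rw [FF.mul_const_apply, FF.const_mul_apply]; exact h _

theorem FF.map_add_map {Φ Ψ χ : A →ₙ+* B} (hΦ : Continuous Φ) (hΨ : Continuous Ψ)
    (hχ : Continuous χ) (h : ∀ a, χ a = Φ a + Ψ a) (p : FF ν Y A) :
    FF.map ν Y χ hχ p = FF.map ν Y Φ hΦ p + FF.map ν Y Ψ hΨ p :=
  FF.ext fun _ _ _ => h _

theorem FF.odd_const {ε x : B} (h : Odd ε x) : Odd (FF.const ν Y ε) (FF.const ν Y x) := by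
  unfold BCA.Odd at h ⊢
  rw [← map_mul, h, map_mul, map_sub, _root_.map_one]

/-! ### Norms and continuity -/

theorem FF.norm_entry_le (M : FF ν Y B) (i j : ν) : ‖M i j‖ ≤ ‖M‖ := BCK.norm_entry_le M.mat i j

theorem FF.norm_apply_le (M : FF ν Y B) (i j : ν) (y : Y) : ‖M i j y‖ ≤ ‖M‖ :=
  ((M i j).norm_coe_le_norm y).trans (M.norm_entry_le i j)

theorem FF.norm_le_sum (M : FF ν Y B) : ‖M‖ ≤ ∑ i, ∑ j, ‖M i j‖ := BCK.norm_le_sum M.mat

theorem FF.norm_le_of_entry {M : FF ν Y A} {N : FF ν Y B} {C : ℝ} (hC : 0 ≤ C)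
    (h : ∀ i j, ‖N i j‖ ≤ C * ‖M i j‖) : ‖N‖ ≤ C * ‖M‖ := by
  lift C to NNReal using hC
  have h2 : ‖N.mat‖₊ ≤ C * ‖M.mat‖₊ := by
    rw [Matrix.linfty_opNNNorm_def, Matrix.linfty_opNNNorm_def]
    refine Finset.sup_le fun i _ => ?_
    refine le_trans ?_ (mul_le_mul_right
      (Finset.le_sup (f := fun i => ∑ j, ‖M.mat i j‖₊) (Finset.mem_univ i)) C)
    rw [Finset.mul_sum]
    exact Finset.sum_le_sum fun j _ => h i j
  exact h2

theorem FF.norm_map_le' {φ : A →ₙ+* B} (hφ : Continuous φ) {C : ℝ} (hC : 0 ≤ C)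
    (h : ∀ a, ‖φ a‖ ≤ C * ‖a‖) (M : FF ν Y A) : ‖FF.map ν Y φ hφ M‖ ≤ C * ‖M‖ :=
  FF.norm_le_of_entry hC fun i j => (ContinuousMap.norm_le _ (by positivity)).2 fun y =>
    (h _).trans (mul_le_mul_of_nonneg_left ((M i j).norm_coe_le_norm y) hC)

theorem FF.norm_map_le {φ : A →ₙ+* B} (hφ : Continuous φ) (h : ∀ a, ‖φ a‖ ≤ ‖a‖)
    (M : FF ν Y A) : ‖FF.map ν Y φ hφ M‖ ≤ ‖M‖ := by
  simpa using FF.norm_map_le' hφ zero_le_one (by simpa using h) M

theorem FF.norm_const_le (b : B) : ‖FF.const ν Y b‖ ≤ ‖b‖ := by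
  change ‖Matrix.diagonal fun _ : ν => ContinuousMap.const Y b‖ ≤ _
  rw [Matrix.linfty_opNorm_diagonal]
  exact (pi_norm_le_iff_of_nonneg (norm_nonneg _)).2 fun _ =>
    (ContinuousMap.norm_le _ (norm_nonneg _)).2 fun _ => le_rfl

theorem FF.continuous_const : Continuous (FF.const ν Y : B → FF ν Y B) :=
  AddMonoidHomClass.continuous_of_bound (FF.const ν Y : B →+* FF ν Y B) 1 fun b => by
    simpa using FF.norm_const_le b

theorem FF.continuous_entry (i j : ν) : Continuous fun M : FF ν Y B => M i j :=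
  (continuous_id (X := Matrix ν ν C(Y, B))).matrix_elem i j

theorem FF.continuous_apply (i j : ν) (y : Y) : Continuous fun M : FF ν Y B => M i j y :=
  (continuous_eval_const y).comp (FF.continuous_entry i j)

theorem FF.tendsto_iff {T : Type*} {l : Filter T} {f : T → FF ν Y B} {M : FF ν Y B} :
    Tendsto f l (𝓝 M) ↔ ∀ i j, Tendsto (fun t => f t i j) l (𝓝 (M i j)) :=
  (tendsto_pi_nhds (f := fun t => (f t : ν → ν → C(Y, B)))).trans
    (forall_congr' fun _ => tendsto_pi_nhds)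

theorem continuous_cmap (φ : A →ₙ+* B) (hφ : Continuous φ) : Continuous (cmap Y φ hφ) :=
  ContinuousMap.continuous_postcomp ⟨φ, hφ⟩

theorem FF.continuous_map (φ : A →ₙ+* B) (hφ : Continuous φ) : Continuous (FF.map ν Y φ hφ) :=
  continuous_iff_continuousAt.2 fun M => FF.tendsto_iff.2 fun i j =>
    ((continuous_cmap φ hφ).comp (FF.continuous_entry i j)).tendsto M

/-- Pointwise convergence of uniformly Lipschitz maps is uniform along a compact parameter. -/
theorem tendsto_cm_of_lip {T : Type*} {l : Filter T} {f : T → A → B} {g : A → B} {C : ℝ}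
    (hg : Continuous g) (hb : ∀ᶠ t in l, ∀ a a', ‖f t a - f t a'‖ ≤ C * ‖a - a'‖)
    (u : C(Y, A)) (hp : ∀ y, Tendsto (fun t => f t (u y)) l (𝓝 (g (u y))))
    {F : T → C(Y, B)} {G : C(Y, B)} (hF : ∀ t y, F t y = f t (u y)) (hG : ∀ y, G y = g (u y)) :
    Tendsto F l (𝓝 G) := by
  refine Metric.tendsto_nhds.2 fun ε hε => ?_
  have hK : (0 : ℝ) < |C| + 1 := by positivity
  have key : ∀ y : Y, ∀ᶠ z : T × Y in l ×ˢ 𝓝 y, dist (F z.1 z.2) (G z.2) < ε / 2 := by
    intro y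
    have h1 : ∀ᶠ y' in 𝓝 y, dist (u y') (u y) < ε / 8 / (|C| + 1) :=
      Metric.tendsto_nhds.1 (u.continuous.tendsto y) _ (by positivity)
    have h2 : ∀ᶠ y' in 𝓝 y, dist (g (u y')) (g (u y)) < ε / 8 :=
      Metric.tendsto_nhds.1 ((hg.comp u.continuous).tendsto y) _ (by positivity)
    have h3 := Metric.tendsto_nhds.1 (hp y) (ε / 8) (by positivity)
    filter_upwards [(hb.and h3).prod_mk (h1.and h2)] with z hz
    obtain ⟨⟨h4, h5⟩, h6, h7⟩ := hz
    rw [hF, hG]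
    have h8 : dist (f z.1 (u z.2)) (f z.1 (u y)) ≤ ε / 8 := by
      rw [dist_eq_norm] at h6 ⊢
      have h9 := (lt_div_iff₀ hK).1 h6
      have h10 : C * ‖u z.2 - u y‖ ≤ ‖u z.2 - u y‖ * (|C| + 1) := by
        nlinarith [le_abs_self C, norm_nonneg (u z.2 - u y)]
      linarith [h4 (u z.2) (u y)]
    linarith [dist_triangle4 (f z.1 (u z.2)) (f z.1 (u y)) (g (u y)) (g (u z.2)),
      dist_comm (g (u y)) (g (u z.2))]
  have h : ∀ᶠ t in l, ∀ y ∈ Set.univ, dist (F t y) (G y) < ε / 2 := by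
    refine (isCompact_univ (X := Y)).induction_on
      (p := fun K => ∀ᶠ t in l, ∀ y ∈ K, dist (F t y) (G y) < ε / 2) (by simp)
      (fun s t hst h => h.mono fun x hx y hy => hx y (hst hy))
      (fun s t hs ht => (hs.and ht).mono fun x hx y hy => hy.elim (hx.1 y) (hx.2 y)) fun y _ => ?_
    obtain ⟨pa, ha, pb, hb, hab⟩ := eventually_prod_iff.1 (key y)
    exact ⟨{y | pb y}, mem_nhdsWithin_of_mem_nhds hb, ha.mono fun x hx y hy => hab hx hy⟩
  filter_upwards [h] with t ht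
  exact ((ContinuousMap.dist_le (by positivity)).2 fun y => (ht y trivial).le).trans_lt
    (half_lt_self hε)

theorem FF.tendsto_map {T : Type*} {l : Filter T} {Φ : T → A →ₙ+* B} (hΦ : ∀ t, Continuous (Φ t))
    {Ψ : A →ₙ+* B} (hΨ : Continuous Ψ) {C : ℝ} (hb : ∀ᶠ t in l, ∀ a, ‖Φ t a‖ ≤ C * ‖a‖)
    (hp : ∀ a, Tendsto (fun t => Φ t a) l (𝓝 (Ψ a))) (p : FF ν Y A) :
    Tendsto (fun t => FF.map ν Y (Φ t) (hΦ t) p) l (𝓝 (FF.map ν Y Ψ hΨ p)) :=
  FF.tendsto_iff.2 fun i j => tendsto_cm_of_lip (f := fun t a => Φ t a) (C := C) hΨ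
    (hb.mono fun t ht a a' => by rw [← map_sub]; exact ht _) (p i j) (fun _ => hp _)
    (fun _ _ => rfl) fun _ => rfl

theorem FF.continuousOn_map {T : Type*} [TopologicalSpace T] {S : Set T} {Φ : T → A →ₙ+* B}
    (hΦ : ∀ t, Continuous (Φ t)) {C : ℝ} (hb : ∀ t ∈ S, ∀ a, ‖Φ t a‖ ≤ C * ‖a‖)
    (hp : ∀ a, ContinuousOn (fun t => Φ t a) S) (p : FF ν Y A) :
    ContinuousOn (fun t => FF.map ν Y (Φ t) (hΦ t) p) S := fun t ht =>
  FF.tendsto_map hΦ (hΦ t) (eventually_nhdsWithin_of_forall hb) (fun a => hp a t ht) p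

theorem FF.continuous_map_par {T : Type*} [TopologicalSpace T] {Φ : T → A →ₙ+* B}
    (hΦ : ∀ t, Continuous (Φ t)) {C : ℝ} (hb : ∀ t a, ‖Φ t a‖ ≤ C * ‖a‖)
    (hp : ∀ a, Continuous fun t => Φ t a) (p : FF ν Y A) :
    Continuous fun t => FF.map ν Y (Φ t) (hΦ t) p :=
  continuousOn_univ.1 (FF.continuousOn_map hΦ (fun t _ => hb t) (fun a => (hp a).continuousOn) p)

/-- Pointwise continuity of a uniformly bounded family may be checked on a set with dense span. -/
theorem continuousOn_of_dense {T : Type*} [TopologicalSpace T] {S : Set T} {Φ : T → A →ₙₐ[ℝ] B}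
    {C : ℝ} (hb : ∀ t ∈ S, ∀ a, ‖Φ t a‖ ≤ C * ‖a‖) {ι : Type*} {δ : ι → A}
    (hd : ∀ U : Submodule ℝ A, IsClosed (U : Set A) → (∀ g, δ g ∈ U) → ∀ a, a ∈ U)
    (hp : ∀ g, ContinuousOn (fun t => Φ t (δ g)) S) (a : A) :
    ContinuousOn (fun t => Φ t a) S := by
  let U : Submodule ℝ A :=
    { carrier := {a | ContinuousOn (fun t => Φ t a) S}
      add_mem' := fun {a b} ha hb => by
        simpa only [Set.mem_ofPred_eq, map_add] using ContinuousOn.fun_add ha hb
      zero_mem' := by simpa only [Set.mem_ofPred_eq, map_zero] using continuousOn_const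
      smul_mem' := fun r a ha => by
        simpa only [Set.mem_ofPred_eq, _root_.map_smul] using ContinuousOn.fun_const_smul ha r }
  refine hd U (isClosed_of_closure_subset fun a ha => ?_) hp a
  refine continuousOn_of_uniform_approx_of_continuousOn fun V hV => ?_
  obtain ⟨ε, hε, hV⟩ := Metric.mem_uniformity_dist.1 hV
  have hK : (0 : ℝ) < |C| + 1 := by positivity
  obtain ⟨b, hb1, hb2⟩ := Metric.mem_closure_iff.1 ha (ε / (|C| + 1)) (by positivity)
  refine ⟨fun t => Φ t b, hb1, fun t ht => hV ?_⟩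
  rw [dist_eq_norm] at hb2 ⊢
  rw [← map_sub]
  have h9 := (lt_div_iff₀ hK).1 hb2
  nlinarith [hb t ht (a - b), le_abs_self C, norm_nonneg (a - b)]

/-! ### Ideals -/

theorem FF.mem_set {S : Set B} {M : FF ν Y B} : M ∈ FF.set ν Y S ↔ ∀ i j y, M i j y ∈ S := Iff.rfl

theorem FF.set_mono {S S' : Set B} (h : S ⊆ S') : FF.set ν Y S ⊆ FF.set ν Y S' :=
  fun _ hM i j y => h (hM i j y)

theorem FF.isClosed_set {S : Set B} (hS : IsClosed S) : IsClosed (FF.set ν Y S) := by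
  simp only [FF.set, Set.ofPred_forall]
  exact isClosed_iInter fun i => isClosed_iInter fun j => isClosed_iInter fun y =>
    hS.preimage (FF.continuous_apply i j y)

theorem FF.map_mem_set {φ : A →ₙ+* B} (hφ : Continuous φ) {S : Set A} {S' : Set B}
    (h : ∀ a ∈ S, φ a ∈ S') {M : FF ν Y A} (hM : M ∈ FF.set ν Y S) :
    FF.map ν Y φ hφ M ∈ FF.set ν Y S' := fun i j y => h _ (hM i j y)

theorem FF.const_mem_set {S : Set B} (h0 : (0 : B) ∈ S) {b : B} (hb : b ∈ S) :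
    FF.const ν Y b ∈ FF.set ν Y S := fun i j y => by
  rw [FF.const_apply]; split_ifs; exacts [hb, h0]

variable (ν Y) in
/-- The ideal of the elements with values in `I`. -/
def FF.ideal (I : TwoSidedIdeal B) : TwoSidedIdeal (FF ν Y B) :=
  TwoSidedIdeal.mk' (FF.set ν Y I) (fun _ _ _ => I.zero_mem)
    (fun hx hy i j y => I.add_mem (hx i j y) (hy i j y)) (fun hx i j y => I.neg_mem (hx i j y))
    (fun {x z} hz i j y => by
      rw [FF.mul_apply]; exact sum_mem fun k _ => I.mul_mem_left _ _ (hz k j y))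
    fun {x z} hx i j y => by
      rw [FF.mul_apply]; exact sum_mem fun k _ => I.mul_mem_right _ _ (hx i k y)

theorem FF.mem_ideal {I : TwoSidedIdeal B} {M : FF ν Y B} :
    M ∈ FF.ideal ν Y I ↔ ∀ i j y, M i j y ∈ I := TwoSidedIdeal.mem_mk' _ _ _ _ _ _ _

theorem FF.coe_ideal (I : TwoSidedIdeal B) :
    (FF.ideal ν Y I : Set (FF ν Y B)) = FF.set ν Y I := Set.ext fun _ => FF.mem_ideal

theorem FF.isClosed_ideal {I : TwoSidedIdeal B} (hI : IsClosed (I : Set B)) :
    IsClosed (FF.ideal ν Y I : Set (FF ν Y B)) := by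
  rw [FF.coe_ideal]; exact FF.isClosed_set hI

theorem FF.const_mem_ideal {I : TwoSidedIdeal B} {b : B} (hb : b ∈ I) :
    FF.const ν Y b ∈ FF.ideal ν Y I := FF.mem_ideal.2 (FF.const_mem_set I.zero_mem hb)

theorem FF.comm_mem_ideal {I : TwoSidedIdeal B} {Φ : A →ₙ+* B} (hΦ : Continuous Φ) {x : B}
    (h : ∀ a, x * Φ a - Φ a * x ∈ I) (p : FF ν Y A) :
    FF.const ν Y x * FF.map ν Y Φ hΦ p - FF.map ν Y Φ hΦ p * FF.const ν Y x ∈ FF.ideal ν Y I :=
  FF.mem_ideal.2 fun i j y => by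
    rw [FF.sub_apply, FF.const_mul_apply, FF.mul_const_apply]; exact h _

theorem FF.map_sub_mem_ideal {I : TwoSidedIdeal B} {Φ Ψ : A →ₙ+* B} (hΦ : Continuous Φ)
    (hΨ : Continuous Ψ) (h : ∀ a, Φ a - Ψ a ∈ I) (p : FF ν Y A) :
    FF.map ν Y Φ hΦ p - FF.map ν Y Ψ hΨ p ∈ FF.ideal ν Y I :=
  FF.mem_ideal.2 fun _ _ _ => h _

/-- A commutator condition modulo a closed ideal may be checked on a set with dense span. -/
theorem comm_mem_of_dense {I : TwoSidedIdeal B} (hI : IsClosed (I : Set B)) {Φ : A →ₙₐ[ℝ] B}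
    (hΦ : Continuous Φ) {x : B} {ι : Type*} {δ : ι → A}
    (hd : ∀ U : Submodule ℝ A, IsClosed (U : Set A) → (∀ g, δ g ∈ U) → ∀ a, a ∈ U)
    (h : ∀ g, x * Φ (δ g) - Φ (δ g) * x ∈ I) (a : A) : x * Φ a - Φ a * x ∈ I := by
  let U : Submodule ℝ A :=
    { carrier := {a | x * Φ a - Φ a * x ∈ I}
      add_mem' := fun {a b} ha hb => by
        have := I.add_mem ha hb
        change x * Φ (a + b) - Φ (a + b) * x ∈ I
        convert this using 1
        rw [map_add]; noncomm_ring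
      zero_mem' := by simp
      smul_mem' := fun r a ha => by
        have := I.mul_mem_left (algebraMap ℝ B r) _ ha
        change x * Φ (r • a) - Φ (r • a) * x ∈ I
        rwa [_root_.map_smul, mul_smul_comm, smul_mul_assoc, ← smul_sub, Algebra.smul_def] }
  exact hd U (hI.preimage (f := fun a => x * Φ a - Φ a * x) (by fun_prop)) h a

/-- An identity `x * Φ a = Ψ a * z` may be checked on a set with dense span. -/
theorem mul_eq_of_dense {Φ Ψ : A →ₙₐ[ℝ] B} (hΦ : Continuous Φ) (hΨ : Continuous Ψ) {x z : B}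
    {ι : Type*} {δ : ι → A}
    (hd : ∀ U : Submodule ℝ A, IsClosed (U : Set A) → (∀ g, δ g ∈ U) → ∀ a, a ∈ U)
    (h : ∀ g, x * Φ (δ g) = Ψ (δ g) * z) (a : A) : x * Φ a = Ψ a * z := by
  let U : Submodule ℝ A :=
    { carrier := {a | x * Φ a = Ψ a * z}
      add_mem' := fun {a b} (ha : _ = _) (hb : _ = _) => by
        change x * Φ (a + b) = Ψ (a + b) * z
        rw [map_add, map_add, mul_add, add_mul, ha, hb]
      zero_mem' := by simp
      smul_mem' := fun r a (ha : _ = _) => by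
        change x * Φ (r • a) = Ψ (r • a) * z
        rw [_root_.map_smul, _root_.map_smul, mul_smul_comm, smul_mul_assoc, ha] }
  exact hd U (isClosed_eq (by fun_prop) (by fun_prop)) h a

/-! ### Filtrations -/

section Filt

variable {Λ : Type} [SemilatticeSup Λ] [Nonempty Λ] {P : Λ → B}

theorem IsFilt.const (hP : IsFilt P) : IsFilt fun F => FF.const ν Y (P F) where
  mono F G h := by
    rw [← map_mul, ← map_mul, (hP.mono F G h).1, (hP.mono F G h).2]; exact ⟨rfl, rfl⟩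
  bd F := (FF.norm_const_le _).trans (hP.bd F)

theorem FF.set_KK_subset (hP : IsFilt P) :
    FF.set ν Y (KK P) ⊆ KK fun F => FF.const ν Y (P F) := fun M hM =>
  ⟨FF.tendsto_iff.2 fun i j => tendsto_cm_of_lip (f := fun F a => P F * a) (g := id) (C := 1)
      continuous_id (Eventually.of_forall fun F a a' => by simpa using hP.left F a a') (M i j)
      (fun y => (hM i j y).1) (fun F y => FF.const_mul_apply _ _ _ _ _) fun _ => rfl,
    FF.tendsto_iff.2 fun i j => tendsto_cm_of_lip (f := fun F a => a * P F) (g := id) (C := 1)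
      continuous_id (Eventually.of_forall fun F a a' => by simpa using hP.right F a a') (M i j)
      (fun y => (hM i j y).2) (fun F y => FF.mul_const_apply _ _ _ _ _) fun _ => rfl⟩

theorem FF.KK_subset_set : (KK fun F => FF.const ν Y (P F)) ⊆ FF.set ν Y (KK P) :=
  fun M hM i j y =>
  ⟨by simpa only [Function.comp_def, FF.const_mul_apply] using
      ((FF.continuous_apply i j y).tendsto M).comp hM.1,
    by simpa only [Function.comp_def, FF.mul_const_apply] using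
      ((FF.continuous_apply i j y).tendsto M).comp hM.2⟩

theorem FF.KK_const (hP : IsFilt P) : (KK fun F => FF.const ν Y (P F)) = FF.set ν Y (KK P) :=
  FF.KK_subset_set.antisymm (FF.set_KK_subset hP)

theorem FF.Loc_const (hP : IsFilt P) : (Loc fun F => FF.const ν Y (P F)) = FF.set ν Y (Loc P) := by
  ext M
  simp only [Loc, FF.KK_const hP, Set.mem_ofPred_eq, FF.mem_set, FF.const_mul_apply,
    FF.mul_const_apply]
  exact ⟨fun h i j y G => ⟨(h G).1 i j y, (h G).2 i j y⟩,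
    fun h G => ⟨fun i j y => (h i j y G).1, fun i j y => (h i j y G).2⟩⟩

theorem FF.coe_ideal_kk (hP : IsFilt P) (hl : ∀ S : B, S ∈ Loc P) :
    (FF.ideal ν Y (kkIdeal hP hl) : Set (FF ν Y B)) = FF.set ν Y (KK P) := by
  rw [FF.coe_ideal]
  exact congrArg _ (Set.ext fun _ => mem_kkIdeal hP hl)

theorem isClosed_kkIdeal (hP : IsFilt P) (hl : ∀ S : B, S ∈ Loc P) :
    IsClosed (kkIdeal hP hl : Set B) := by
  have : (kkIdeal hP hl : Set B) = KK P := Set.ext fun _ => mem_kkIdeal hP hl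
  rw [this]; exact hP.isClosed_KK

end Filt

/-! ### Classes -/

section Cls

variable {R S : Type} [Ring R] [Ring S]

theorem idem_unit {p : R} (hp : p * p = p) :
    (Matrix.of fun _ _ : Unit => p) * (Matrix.of fun _ _ : Unit => p) = Matrix.of fun _ _ => p := by
  ext _ _; simp [Matrix.mul_apply, hp]

theorem map_cls1 (φ : R →ₙ+* S) {p : R} (hp : p * p = p) : K0.map φ (cls1 p) = cls1 (φ p) :=
  map_cls φ (idem_unit hp)

theorem cls1_zero : cls1 (0 : R) = 0 := cls_zero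

theorem cls1_add {p q : R} (hp : p * p = p) (hq : q * q = q) (h1 : p * q = 0) (h2 : q * p = 0) :
    cls1 (p + q) = cls1 p + cls1 q :=
  cls_add (idem_unit hp) (idem_unit hq) (by ext _ _; simp [Matrix.mul_apply, h1])
    (by ext _ _; simp [Matrix.mul_apply, h2])

theorem cls1_add_one_sub {p : R} (hp : p * p = p) : cls1 p + cls1 (1 - p) = cls1 (1 : R) := by
  rw [← cls1_add hp (by rw [mul_sub, sub_mul, sub_mul, hp]; simp) (by rw [mul_sub, hp]; simp)
    (by rw [sub_mul, hp]; simp)]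
  simp

theorem cls1_mvn {p q : R} (hp : p * p = p) (hq : q * q = q) (x y : R) (h1 : x * y = p)
    (h2 : y * x = q) : cls1 p = cls1 q :=
  cls_mvn (idem_unit hp) (idem_unit hq) (Matrix.of fun _ _ => x) (Matrix.of fun _ _ => y)
    (by ext _ _; simp [Matrix.mul_apply, h1]) (by ext _ _; simp [Matrix.mul_apply, h2])

theorem cls_diag2 {a b : R} (ha : a * a = a) (hb : b * b = b) :
    cls !![a, 0; 0, b] = cls1 a + cls1 b := by
  rw [cls1, cls1, ← cls_fromBlocks (idem_unit ha) (idem_unit hb),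
    ← cls_submatrix_equiv _ (show Unit ⊕ Unit ≃ Fin 2 from
      (Equiv.boolEquivPUnitSumPUnit.symm.trans finTwoEquiv.symm))]
  congr 1
  ext (i | i) (j | j) <;> rfl

theorem cls_one_zero : cls (!![1, 0; 0, 0] : Matrix (Fin 2) (Fin 2) R) = cls1 1 := by
  rw [cls_diag2 (one_mul 1) (mul_zero 0), cls1_zero, add_zero]

theorem cls_ee {a b : R} (ha : a * a = a) (hb : b * b = b) :
    cls (ee a b) = cls1 a + cls1 (1 - b) := by
  have hb' : (1 - b) * (1 - b) = 1 - b := by rw [mul_sub, sub_mul, sub_mul, hb]; simp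
  rw [← cls_diag2 ha hb']
  refine cls_conj ?_ _ _ (rr_sq hb)
  ext i j
  fin_cases i <;> fin_cases j <;> simp [Matrix.mul_apply, Fin.sum_univ_two, ha, hb']

/-- If `ee a b` has the class of `1 ⊕ 0` then `a` and `b` have the same class. -/
theorem cls1_eq_of_ee {a b : R} (ha : a * a = a) (hb : b * b = b)
    (h : cls (ee a b) = cls (!![1, 0; 0, 0] : Matrix (Fin 2) (Fin 2) R)) : cls1 a = cls1 b := by
  rw [cls_ee ha hb, cls_one_zero, ← cls1_add_one_sub hb] at h
  exact add_right_cancel h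

theorem ee_map (φ : R →+* S) (a b : R) : (ee a b).map φ = ee (φ a) (φ b) := by
  ext i j
  fin_cases i <;> fin_cases j <;> simp [ee, rr, Matrix.mul_apply, Fin.sum_univ_two]

theorem one_zero_map_algebraMap [Algebra ℝ R] :
    (!![1, 0; 0, 0] : Matrix (Fin 2) (Fin 2) ℝ).map (algebraMap ℝ R) = !![1, 0; 0, 0] := by
  ext i j
  fin_cases i <;> fin_cases j <;> simp

end Cls

variable (ν Y B) in
/-- The map `K0 (M_ν(C(Y, B))) → K0 (C(Y, B))`. -/
def FF.flat : K0 (FF ν Y B) →+ K0 C(Y, B) := flatten ν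

theorem FF.flat_cls1 {M : FF ν Y B} (hM : M * M = M) : FF.flat ν Y B (cls1 M) = cls M.mat :=
  flatten_cls1 (p := M.mat) hM

theorem FF.flat_cls {ι : Type} [Fintype ι] {e : Matrix ι ι (FF ν Y B)} (he : e * e = e) :
    FF.flat ν Y B (cls e) = cls (Matrix.comp ι ι ν ν C(Y, B) e) :=
  flatten_cls (e := (e : Matrix ι ι (Matrix ν ν C(Y, B)))) he

theorem FF.flat_map (φ : A →ₙ+* B) (hφ : Continuous φ) (x : K0 (FF ν Y A)) :
    FF.flat ν Y B (K0.map (FF.map ν Y φ hφ) x) = K0.map (cmap Y φ hφ) (FF.flat ν Y A x) := by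
  have : (FF.flat ν Y B).comp (K0.map (FF.map ν Y φ hφ)) =
      (K0.map (cmap Y φ hφ)).comp (FF.flat ν Y A) := K0.hom_ext fun k e he => by
    rw [AddMonoidHom.comp_apply, AddMonoidHom.comp_apply, map_cls _ he,
      FF.flat_cls (idem_map he _), FF.flat_cls he, map_cls]
    · rfl
    · exact (comp_mul (R := C(Y, A)) e e).trans (congrArg _ he)
  exact DFunLike.congr_fun this x

/-- The class of the image of an idempotent, seen through `FF`. -/
theorem FF.map_cmap_cls (φ : A →ₙ+* B) (hφ : Continuous φ) {p : FF ν Y A} (hp : p * p = p) :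
    K0.map (cmap Y φ hφ) (cls p.mat) = FF.flat ν Y B (cls1 (FF.map ν Y φ hφ p)) := by
  rw [← map_cls1 _ hp, FF.flat_map, FF.flat_cls1 hp]

/-- Two homomorphisms induce the same map on `K0 (C(Y, ·))` if the classes agree in `FF`. -/
theorem map_cmap_eq_of_cls1 {φ ψ : A →ₙ+* B} (hφ : Continuous φ) (hψ : Continuous ψ)
    (h : ∀ (k : ℕ) (p : FF (Fin k) Y A), p * p = p →
      cls1 (FF.map (Fin k) Y φ hφ p) = cls1 (FF.map (Fin k) Y ψ hψ p)) :
    K0.map (cmap Y φ hφ) = K0.map (cmap Y ψ hψ) :=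
  K0.hom_ext fun k e he => by
    have h1 := FF.map_cmap_cls (ν := Fin k) φ hφ (p := e) he
    have h2 := FF.map_cmap_cls (ν := Fin k) ψ hψ (p := e) he
    rw [h k e he] at h1
    exact h1.trans h2.symm

end Pool.Agent.Lib.BCH
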