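import Mathlib

/-! Real K-theory of Banach algebras: `K0`, `K1` and the data of the index map. -/

noncomputable section

open Matrix Function
open scoped ZeroAtInfty

namespace Pool.Agent.Lib.BCH

/-- The block sum of two square matrices. -/
def bsum {R : Type} [Zero R] {k l : ℕ} (a : Matrix (Fin k) (Fin k) R)
    (b : Matrix (Fin l) (Fin l) R) : Matrix (Fin (k + l)) (Fin (k + l)) R :=
  reindex finSumFinEquiv finSumFinEquiv (fromBlocks a 0 0 b)

section K0

variable (R : Type) [Ring R]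

/-- Idempotent `k × k` matrices. -/
abbrev Idem (k : ℕ) : Type := {e : Matrix (Fin k) (Fin k) R // e * e = e}

/-- The relations `[x y] = [y x]` and `[e ⊕ f] = [e] + [f]`. -/
def K0Rel : Set (FreeAbelianGroup (Σ k, Idem R k)) :=
  {z | (∃ (k l : ℕ) (e : Idem R k) (f : Idem R l) (x : Matrix (Fin k) (Fin l) R)
        (y : Matrix (Fin l) (Fin k) R), x * y = e.1 ∧ y * x = f.1 ∧
        z = .of ⟨k, e⟩ - .of ⟨l, f⟩) ∨
      (∃ (k l : ℕ) (e : Idem R k) (f : Idem R l) (g : Idem R (k + l)), g.1 = bsum e.1 f.1 ∧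
        z = .of ⟨k + l, g⟩ - .of ⟨k, e⟩ - .of ⟨l, f⟩)}

/-- `K0` of a unital ring: the Grothendieck group of equivalence classes of idempotent matrices. -/
def K0 : Type := FreeAbelianGroup (Σ k, Idem R k) ⧸ AddSubgroup.closure (K0Rel R)

instance : AddCommGroup (K0 R) :=
  inferInstanceAs (AddCommGroup (_ ⧸ AddSubgroup.closure (K0Rel R)))

variable {R}

/-- The class of an idempotent matrix. -/
def K0.mk {k : ℕ} (e : Idem R k) : K0 R := QuotientAddGroup.mk (FreeAbelianGroup.of ⟨k, e⟩)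

/-- Additive maps out of `K0`. -/
def K0.lift {G : Type} [AddCommGroup G] (c : ∀ k, Idem R k → G)
    (h₁ : ∀ (k l : ℕ) (e : Idem R k) (f : Idem R l) (x : Matrix (Fin k) (Fin l) R)
      (y : Matrix (Fin l) (Fin k) R), x * y = e.1 → y * x = f.1 → c k e = c l f)
    (h₂ : ∀ (k l : ℕ) (e : Idem R k) (f : Idem R l) (g : Idem R (k + l)), g.1 = bsum e.1 f.1 →
      c (k + l) g = c k e + c l f) : K0 R →+ G :=
  QuotientAddGroup.lift _ (FreeAbelianGroup.lift fun e : Σ k, Idem R k => c e.1 e.2) (by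
    refine (AddSubgroup.closure_le (AddMonoidHom.ker _)).2 ?_
    rintro z (⟨k, l, e, f, x, y, h, h', rfl⟩ | ⟨k, l, e, f, g, h, rfl⟩)
    · simp [h₁ k l e f x y h h']
    · simp [h₂ k l e f g h])

theorem K0.mk_eq {k l : ℕ} (e : Idem R k) (f : Idem R l) (x : Matrix (Fin k) (Fin l) R)
    (y : Matrix (Fin l) (Fin k) R) (h : x * y = e.1) (h' : y * x = f.1) : K0.mk e = K0.mk f :=
  QuotientAddGroup.eq_iff_sub_mem.2
    (AddSubgroup.subset_closure (Or.inl ⟨k, l, e, f, x, y, h, h', rfl⟩))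

theorem K0.mk_bsum {k l : ℕ} (e : Idem R k) (f : Idem R l) (g : Idem R (k + l))
    (h : g.1 = bsum e.1 f.1) : K0.mk g = K0.mk e + K0.mk f :=
  QuotientAddGroup.eq_iff_sub_mem.2
    (AddSubgroup.subset_closure (Or.inr ⟨k, l, e, f, g, h, by rw [sub_sub]⟩))

/-- The map on `K0` induced by an additive and multiplicative map. -/
def K0.map {S : Type} [Ring S] (φ : R →ₙ+* S) : K0 R →+ K0 S :=
  K0.lift (fun _ e => K0.mk ⟨e.1.map φ, by rw [← Matrix.map_mul, e.2]⟩)
    (fun _ _ _ _ x y h h' => K0.mk_eq _ _ (x.map φ) (y.map φ)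
      (by rw [← Matrix.map_mul, h]) (by rw [← Matrix.map_mul, h']))
    (fun _ _ e f g h => K0.mk_bsum _ _ _ (by
      simp only [h, bsum, reindex_apply]
      rw [← submatrix_map, fromBlocks_map]
      simp))

open Classical in
/-- The class of an idempotent matrix indexed by any finite type (zero if not idempotent). -/
def cls {ι : Type} [Fintype ι] (e : Matrix ι ι R) : K0 R :=
  if h : e * e = e then
    K0.mk ⟨e.submatrix (Fintype.equivFin ι).symm (Fintype.equivFin ι).symm, by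
      rw [submatrix_mul_equiv, h]⟩
  else 0

end K0

section Nonunital

variable (J : Type) [NonUnitalRing J] [Module ℝ J] [IsScalarTower ℝ J J] [SMulCommClass ℝ J J]

/-- `K0` of a real algebra without unit: the kernel of `K0 (J⁺) → K0 ℝ`. -/
def K0r : AddSubgroup (K0 (Unitization ℝ J)) :=
  (K0.map (Unitization.fstHom ℝ J : Unitization ℝ J →ₙ+* ℝ)).ker

end Nonunital

section K1

variable (J : Type) [NonUnitalRing J] [TopologicalSpace J]

/-- The invertible matrices `1 + a` over the unitization, recorded by `a`. -/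
abbrev GLq (k : ℕ) : Type := {a : Matrix (Fin k) (Fin k) J // IsQuasiregular a}

/-- The relations: homotopy, `[1] = 0`, and `[u ⊕ v] = [u] + [v]`. -/
def K1Rel : Set (FreeAbelianGroup (Σ k, GLq J k)) :=
  {z | (∃ (k : ℕ) (a b : GLq J k), Joined a b ∧ z = .of ⟨k, a⟩ - .of ⟨k, b⟩) ∨
      (∃ (k : ℕ) (a : GLq J k), a.1 = 0 ∧ z = .of ⟨k, a⟩) ∨
      (∃ (k l : ℕ) (a : GLq J k) (b : GLq J l) (c : GLq J (k + l)), c.1 = bsum a.1 b.1 ∧
        z = .of ⟨k + l, c⟩ - .of ⟨k, a⟩ - .of ⟨l, b⟩)}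

/-- Topological `K1`: stable homotopy classes of invertible matrices congruent to `1`. -/
def K1 : Type := FreeAbelianGroup (Σ k, GLq J k) ⧸ AddSubgroup.closure (K1Rel J)

instance : AddCommGroup (K1 J) :=
  inferInstanceAs (AddCommGroup (_ ⧸ AddSubgroup.closure (K1Rel J)))

variable {J}

/-- The class of an invertible matrix. -/
def K1.mk {k : ℕ} (a : GLq J k) : K1 J := QuotientAddGroup.mk (FreeAbelianGroup.of ⟨k, a⟩)

/-- Additive maps out of `K1`. -/
def K1.lift {G : Type} [AddCommGroup G] (c : ∀ k, GLq J k → G)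
    (h₁ : ∀ (k : ℕ) (a b : GLq J k), Joined a b → c k a = c k b)
    (h₂ : ∀ (k : ℕ) (a : GLq J k), a.1 = 0 → c k a = 0)
    (h₃ : ∀ (k l : ℕ) (a : GLq J k) (b : GLq J l) (d : GLq J (k + l)), d.1 = bsum a.1 b.1 →
      c (k + l) d = c k a + c l b) : K1 J →+ G :=
  QuotientAddGroup.lift _ (FreeAbelianGroup.lift fun a : Σ k, GLq J k => c a.1 a.2) (by
    refine (AddSubgroup.closure_le (AddMonoidHom.ker _)).2 ?_
    rintro z (⟨k, a, b, h, rfl⟩ | ⟨k, a, h, rfl⟩ | ⟨k, l, a, b, d, h, rfl⟩)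
    · simp [h₁ k a b h]
    · simp [h₂ k a h]
    · simp [h₃ k l a b d h])

end K1

section Index

/-- The standard invertible lift of `diag (u, u⁻¹)` built from lifts `u`, `v` of `u`, `u⁻¹`. -/
def Wm {R ι : Type} [Ring R] [Fintype ι] [DecidableEq ι] (u v : Matrix ι ι R) :
    Matrix (ι ⊕ ι) (ι ⊕ ι) R :=
  fromBlocks (u + u - u * v * u) (u * v - 1) (1 - v * u) v

/-- The inverse of `Wm u v`. -/
def Wi {R ι : Type} [Ring R] [Fintype ι] [DecidableEq ι] (u v : Matrix ι ι R) :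
    Matrix (ι ⊕ ι) (ι ⊕ ι) R :=
  fromBlocks v (1 - v * u) (u * v - 1) (u + u - u * v * u)

/-- The idempotent `1 ⊕ 0`. -/
def p10 (R ι : Type) [Ring R] [DecidableEq ι] : Matrix (ι ⊕ ι) (ι ⊕ ι) R := fromBlocks 1 0 0 0

variable (J A Q : Type)
  [NonUnitalRing J] [Module ℝ J] [IsScalarTower ℝ J J] [SMulCommClass ℝ J J]
  [NonUnitalRing A] [Module ℝ A] [IsScalarTower ℝ A A] [SMulCommClass ℝ A A]
  [NonUnitalRing Q] [Module ℝ Q] [IsScalarTower ℝ Q Q] [SMulCommClass ℝ Q Q]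

/-- A short exact sequence `0 → J → A → Q → 0` of real algebras. -/
structure Ext where
  ι : J →ₙₐ[ℝ] A
  π : A →ₙₐ[ℝ] Q
  inj : Injective ι
  exact : Exact ι π
  surj : Surjective π

variable {J A Q}

/-- The unital extension `J⁺ → A⁺` of a homomorphism. -/
def unitMap (φ : J →ₙₐ[ℝ] A) : Unitization ℝ J →ₐ[ℝ] Unitization ℝ A :=
  Unitization.lift ((Unitization.inrNonUnitalAlgHom ℝ A).comp φ)

/-- The matrix `1 + ã` over `A⁺`, where `ã` is a lift of `a`. -/
def Ext.up (E : Ext J A Q) {k : ℕ} (a : Matrix (Fin k) (Fin k) Q) :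
    Matrix (Fin k) (Fin k) (Unitization ℝ A) :=
  1 + a.map fun q => Unitization.inr (surjInv E.surj q)

/-- The matrix `b` with `(1 + a)⁻¹ = 1 + b`. -/
def qinv {k : ℕ} (a : GLq Q k) : Matrix (Fin k) (Fin k) Q := (isQuasiregular_iff.1 a.2).choose

/-- The index class `[W (1 ⊕ 0) W⁻¹] - [1 ⊕ 0]` in `K0 (J⁺)`, where `W` lifts `diag (u, u⁻¹)`,
`u = 1 + a`; the entries of `W (1 ⊕ 0) W⁻¹` lie in the image of `J⁺` in `A⁺`. -/
def Ext.indexOf (E : Ext J A Q) {k : ℕ} (a : GLq Q k) : K0 (Unitization ℝ J) :=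
  cls ((Wm (E.up a.1) (E.up (qinv a)) * p10 _ (Fin k) * Wi (E.up a.1) (E.up (qinv a))).map
    (invFun (unitMap E.ι))) - cls (p10 (Unitization ℝ J) (Fin k))

end Index

end Pool.Agent.Lib.BCH
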