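import Pool.Agent.Lib.BCH.KApi

/-! The difference class of two idempotent matrices that agree modulo an ideal. -/

noncomputable section

open Matrix Function BCK

namespace Pool.Agent.Lib.BCH

variable {B S : Type} [Ring B] [Ring S] {ι : Type} [Fintype ι] [DecidableEq ι]

/-- The involution attached to an idempotent matrix. -/
def Rm (b : Matrix ι ι B) : Matrix (ι ⊕ ι) (ι ⊕ ι) B := fromBlocks b (1 - b) (1 - b) b

/-- The difference idempotent. -/
def Ediff (a b : Matrix ι ι B) : Matrix (ι ⊕ ι) (ι ⊕ ι) B :=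
  Rm b * fromBlocks a 0 0 (1 - b) * Rm b

theorem Rm_mul_Rm {b : Matrix ι ι B} (hb : b * b = b) : Rm b * Rm b = 1 := by
  have h1 : b * (1 - b) = 0 := by rw [mul_sub, hb]; simp
  have h2 : (1 - b) * b = 0 := by rw [sub_mul, hb]; simp
  rw [Rm, fromBlocks_multiply, hb, h1, h2, idem_one_sub hb, ← fromBlocks_one]
  simp

theorem Rm_conj_mul {b : Matrix ι ι B} (hb : b * b = b) (x y : Matrix (ι ⊕ ι) (ι ⊕ ι) B) :
    Rm b * x * Rm b * (Rm b * y * Rm b) = Rm b * (x * y) * Rm b := by
  rw [mul_assoc (Rm b) y, mul_assoc (Rm b * x), ← mul_assoc (Rm b) (Rm b), Rm_mul_Rm hb, one_mul]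
  simp only [mul_assoc]

theorem Ediff_idem {a b : Matrix ι ι B} (ha : a * a = a) (hb : b * b = b) :
    Ediff a b * Ediff a b = Ediff a b := by
  rw [Ediff, Rm_conj_mul hb, idem_fromBlocks ha (idem_one_sub hb)]

theorem Ediff_self {b : Matrix ι ι B} (hb : b * b = b) : Ediff b b = p10 B ι := by
  have h1 : b * (1 - b) = 0 := by rw [mul_sub, hb]; simp
  have h2 : (1 - b) * b = 0 := by rw [sub_mul, hb]; simp
  rw [Ediff, Rm, fromBlocks_multiply, fromBlocks_multiply, p10]
  simp [hb, h1, h2, idem_one_sub hb]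

theorem Ediff_add (a q b : Matrix ι ι B) :
    Ediff (a + q) b = Ediff a b + Rm b * fromBlocks q 0 0 0 * Rm b := by
  rw [Ediff, Ediff, ← add_mul, ← mul_add, fromBlocks_add]; simp

theorem Ediff_eq {b : Matrix ι ι B} (hb : b * b = b) (a : Matrix ι ι B) :
    Ediff a b = p10 B ι + Rm b * fromBlocks (a - b) 0 0 0 * Rm b := by
  rw [← Ediff_self hb, ← Ediff_add, add_sub_cancel]

omit [Fintype ι] in
theorem p10_ent {σ : Type*} [SetLike σ B] [SubringClass σ B] {A : σ} :
    Ent (A : Set B) (p10 B ι) := ent_fromBlocks ent_one ent_zero ent_zero ent_zero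

theorem p10_idem : p10 B ι * p10 B ι = p10 B ι := idem_fromBlocks (one_mul 1) (mul_zero 0)

section Ideal
variable {κ μ ν : Type} [Fintype κ] {I : TwoSidedIdeal B}

omit [Fintype ι] [DecidableEq ι] in
theorem ent_mul_left (x : Matrix μ κ B) {y : Matrix κ ν B} (hy : Ent (I : Set B) y) :
    Ent (I : Set B) (x * y) := fun i j => by
  rw [mul_apply]
  exact sum_mem (S := I) fun k _ => I.mul_mem_left _ _ (hy k j)

omit [Fintype ι] [DecidableEq ι] in
theorem ent_mul_right {x : Matrix μ κ B} (hx : Ent (I : Set B) x) (y : Matrix κ ν B) :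
    Ent (I : Set B) (x * y) := fun i j => by
  rw [mul_apply]
  exact sum_mem (S := I) fun k _ => I.mul_mem_right _ _ (hx i k)

theorem Ediff_sub_ent {a b : Matrix ι ι B} (hb : b * b = b) (h : Ent (I : Set B) (a - b)) :
    Ent (I : Set B) (Ediff a b - p10 B ι) := by
  rw [Ediff_eq hb, add_sub_cancel_left]
  exact ent_mul_right (ent_mul_left _ (ent_fromBlocks h ent_zero ent_zero ent_zero)) _

theorem Ediff_ent {A : Subring B} (hIA : (I : Set B) ⊆ A) {a b : Matrix ι ι B} (hb : b * b = b)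
    (h : Ent (I : Set B) (a - b)) : Ent (A : Set B) (Ediff a b) := by
  have := ((Ediff_sub_ent hb h).mono hIA).add p10_ent
  rwa [sub_add_cancel] at this

/-- Adding an orthogonal idempotent `q` over the ideal adds its class. -/
theorem rcls_Ediff_add {A : Subring B} (hIA : (I : Set B) ⊆ A) {a q b : Matrix ι ι B}
    (ha : a * a = a) (hq : q * q = q) (hb : b * b = b) (h1 : a * q = 0) (h2 : q * a = 0)
    (hab : Ent (I : Set B) (a - b)) (hqI : Ent (I : Set B) q) :
    rcls A (Ediff (a + q) b) = rcls A (Ediff a b) + rcls A q := by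
  have hQ : fromBlocks q 0 0 (0 : Matrix ι ι B) * fromBlocks q 0 0 0 = fromBlocks q 0 0 0 :=
    idem_fromBlocks hq (mul_zero 0)
  have hQI : Ent (I : Set B) (fromBlocks q 0 0 (0 : Matrix ι ι B)) :=
    ent_fromBlocks hqI ent_zero ent_zero ent_zero
  have h3 : Rm b * fromBlocks q 0 0 0 * Rm b * (Rm b * fromBlocks q 0 0 0 * Rm b) =
      Rm b * fromBlocks q 0 0 0 * Rm b := by rw [Rm_conj_mul hb, hQ]
  rw [Ediff_add, rcls_add (Ediff_idem ha hb) h3 _ _ (Ediff_ent hIA hb hab)
    ((ent_mul_right (ent_mul_left _ hQI) _).mono hIA)]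
  · congr 1
    have h4 : rcls A (fromBlocks q 0 0 (0 : Matrix ι ι B)) = rcls A q := by
      rw [rcls_fromBlocks hq (mul_zero 0) (hqI.mono hIA) ent_zero, rcls_zero, add_zero]
    rw [← h4]
    refine rcls_eq_of_EqvIn h3 hQ ⟨Rm b * fromBlocks q 0 0 0, fromBlocks q 0 0 0 * Rm b,
      (ent_mul_left _ hQI).mono hIA, (ent_mul_right hQI _).mono hIA, ?_, ?_⟩
    · rw [mul_assoc, ← mul_assoc (fromBlocks q 0 0 0), hQ, mul_assoc]
    · rw [mul_assoc, ← mul_assoc (Rm b), Rm_mul_Rm hb, one_mul, hQ]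
  · rw [Ediff, Rm_conj_mul hb, fromBlocks_multiply]; simp [h1]
  · rw [Ediff, Rm_conj_mul hb, fromBlocks_multiply]; simp [h2]

end Ideal

omit [Fintype ι] in
theorem Rm_ent {A : Subring B} {b : Matrix ι ι B} (hb : Ent (A : Set B) b) :
    Ent (A : Set B) (Rm b) := ent_fromBlocks hb (ent_one.sub hb) (ent_one.sub hb) hb

theorem Ediff_ent' {A : Subring B} {a b : Matrix ι ι B} (ha : Ent (A : Set B) a)
    (hb : Ent (A : Set B) b) : Ent (A : Set B) (Ediff a b) :=
  ((Rm_ent hb).mul (ent_fromBlocks ha ent_zero ent_zero (ent_one.sub hb))).mul (Rm_ent hb)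

theorem eqvIn_Ediff {A : Subring B} {a b : Matrix ι ι B} (ha : a * a = a) (hb : b * b = b)
    (haA : Ent (A : Set B) a) (hbA : Ent (A : Set B) b) :
    EqvIn (A : Set B) (Ediff a b) (fromBlocks a 0 0 (1 - b)) := by
  have hD := idem_fromBlocks ha (idem_one_sub hb)
  have hDA : Ent (A : Set B) (fromBlocks a 0 0 (1 - b)) :=
    ent_fromBlocks haA ent_zero ent_zero (ent_one.sub hbA)
  refine ⟨Rm b * fromBlocks a 0 0 (1 - b), fromBlocks a 0 0 (1 - b) * Rm b, (Rm_ent hbA).mul hDA,
    hDA.mul (Rm_ent hbA), ?_, ?_⟩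
  · rw [mul_assoc, ← mul_assoc (fromBlocks a 0 0 (1 - b)), hD, Ediff, mul_assoc]
  · rw [mul_assoc, ← mul_assoc (Rm b), Rm_mul_Rm hb, one_mul, hD]

/-- Over a subring containing `a` and `b` the difference class is `[a] + [1 - b]`. -/
theorem rcls_Ediff {A : Subring B} {a b : Matrix ι ι B} (ha : a * a = a) (hb : b * b = b)
    (haA : Ent (A : Set B) a) (hbA : Ent (A : Set B) b) :
    rcls A (Ediff a b) = rcls A a + rcls A (1 - b) := by
  rw [rcls_eq_of_EqvIn (Ediff_idem ha hb) (idem_fromBlocks ha (idem_one_sub hb))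
    (eqvIn_Ediff ha hb haA hbA), rcls_fromBlocks ha (idem_one_sub hb) haA (ent_one.sub hbA)]

theorem rcls_Ediff_sub {A : Subring B} {a b : Matrix ι ι B} (ha : a * a = a) (hb : b * b = b)
    (haA : Ent (A : Set B) a) (hbA : Ent (A : Set B) b) :
    rcls A (Ediff a b) - rcls A (p10 B ι) = rcls A a - rcls A b := by
  rw [rcls_Ediff ha hb haA hbA, ← Ediff_self hb, rcls_Ediff hb hb hbA hbA]; abel

theorem cls_Ediff {a b : Matrix ι ι B} (ha : a * a = a) (hb : b * b = b) :
    cls (Ediff a b) = cls a + cls (1 - b) := by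
  rw [cls_eqvIn (Ediff_idem ha hb) (idem_fromBlocks ha (idem_one_sub hb))
    (eqvIn_Ediff (A := ⊤) ha hb (fun _ _ => trivial) fun _ _ => trivial),
    cls_fromBlocks ha (idem_one_sub hb)]

/-- The image of the difference class under a homomorphism defined on a subring `A` that contains
`a` and `b`. -/
theorem map_Ediff_sub {A : Subring B} (φ : A →ₙ+* S) (ψ : B → S) (h : ∀ x : A, φ x = ψ x)
    {a b : Matrix ι ι B} (ha : a * a = a) (hb : b * b = b) (haA : Ent (A : Set B) a)
    (hbA : Ent (A : Set B) b) :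
    cls ((Ediff a b).map ψ) - cls ((p10 B ι).map ψ) = cls (a.map ψ) - cls (b.map ψ) := by
  rw [← map_rcls φ ψ h (Ediff_idem ha hb) (Ediff_ent' haA hbA), ← map_rcls φ ψ h p10_idem p10_ent,
    ← map_rcls φ ψ h ha haA, ← map_rcls φ ψ h hb hbA, ← map_sub, ← map_sub,
    rcls_Ediff_sub ha hb haA hbA]

omit [Fintype ι] in
theorem Rm_map (φ : B →+* S) (b : Matrix ι ι B) : (Rm b).map φ = Rm (b.map φ) := by
  have : (1 - b).map φ = 1 - b.map φ := by
    rw [Matrix.map_sub _ (map_sub φ), Matrix.map_one _ (map_zero φ) (map_one φ)]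
  rw [Rm, fromBlocks_map, this, Rm]

theorem Ediff_map (φ : B →+* S) (a b : Matrix ι ι B) :
    (Ediff a b).map φ = Ediff (a.map φ) (b.map φ) := by
  have : (1 - b).map φ = 1 - b.map φ := by
    rw [Matrix.map_sub _ (map_sub φ), Matrix.map_one _ (map_zero φ) (map_one φ)]
  rw [Ediff, Matrix.map_mul, Matrix.map_mul, Rm_map, fromBlocks_map, this, Ediff]
  simp

omit [Fintype ι] in
theorem p10_map (φ : B →+* S) : (p10 B ι).map φ = p10 S ι := by
  rw [p10, fromBlocks_map, Matrix.map_one _ (map_zero φ) (map_one φ), p10]; simp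

section Banach
variable {C : Type} [NormedRing C] {X : Type*} [TopologicalSpace X]

theorem continuous_Ediff {a b : X → Matrix ι ι C} (ha : Continuous a) (hb : Continuous b) :
    Continuous fun x => Ediff (a x) (b x) := by
  have h1 : Continuous fun x => 1 - b x := continuous_const.sub hb
  have h2 : Continuous fun x => Rm (b x) := hb.matrix_fromBlocks h1 h1 hb
  exact (h2.matrix_mul (ha.matrix_fromBlocks continuous_const continuous_const h1)).matrix_mul h2

/-- Homotopy invariance of the difference class. -/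
theorem rcls_Ediff_path [CompleteSpace C] [PreconnectedSpace X] {a b : X → Matrix ι ι C}
    (ha : Continuous a) (hb : Continuous b) (hai : ∀ x, a x * a x = a x)
    (hbi : ∀ x, b x * b x = b x) (I : TwoSidedIdeal C) (A : Subring C) (hIA : (I : Set C) ⊆ A)
    (h : ∀ x, Ent (I : Set C) (a x - b x)) (x y : X) :
    rcls A (Ediff (a x) (b x)) = rcls A (Ediff (a y) (b y)) := by
  refine rcls_path_ideal (continuous_Ediff ha hb) (fun x => Ediff_idem (hai x) (hbi x)) I A hIA
    (fun x y => ?_) x y (Ediff_ent hIA (hbi x) (h x))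
  have := (Ediff_sub_ent (hbi x) (h x)).sub (Ediff_sub_ent (hbi y) (h y))
  rwa [sub_sub_sub_cancel_right] at this

/-- The same along a real interval. -/
theorem rcls_Ediff_Icc [CompleteSpace C] {a b : ℝ → Matrix ι ι C} {s t : ℝ}
    (ha : ContinuousOn a (Set.uIcc s t)) (hb : ContinuousOn b (Set.uIcc s t))
    (hai : ∀ x ∈ Set.uIcc s t, a x * a x = a x) (hbi : ∀ x ∈ Set.uIcc s t, b x * b x = b x)
    (I : TwoSidedIdeal C) (A : Subring C) (hIA : (I : Set C) ⊆ A)
    (h : ∀ x ∈ Set.uIcc s t, Ent (I : Set C) (a x - b x)) :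
    rcls A (Ediff (a s) (b s)) = rcls A (Ediff (a t) (b t)) := by
  have : PreconnectedSpace (Set.uIcc s t) := Subtype.preconnectedSpace isPreconnected_uIcc
  exact rcls_Ediff_path (X := Set.uIcc s t) ha.domRestrict hb.domRestrict (fun x => hai x x.2)
    (fun x => hbi x x.2) I A hIA (fun x => h x x.2) ⟨s, Set.left_mem_uIcc⟩ ⟨t, Set.right_mem_uIcc⟩

end Banach

end Pool.Agent.Lib.BCH
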