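import Pool.Agent.Lib.BCH.Blue2

/-! Extension of operators on finitely supported chains to `ℓ¹` and `ℓ²`. -/

set_option linter.unusedSectionVars false

noncomputable section

open Filter Finset Topology
open scoped ENNReal

namespace BCR

open Pool.Agent.Lib.BCC
open Pool.Agent.Lib.BCH hiding col CD

variable {S : Type}

section Col

theorem apply_apply (T : E S) (ξ : S →₀ ℝ) (τ : S) :
    T ξ τ = ∑ σ ∈ ξ.support, ξ σ * col T σ τ := by
  rw [apply_eq_sum, Finsupp.finsetSum_apply]; rfl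

theorem en_ext {T U : E S} (h : ∀ σ τ, col T σ τ = col U σ τ) : T = U :=
  ext_col fun σ => Finsupp.ext (h σ)

theorem col_mul_apply (T U : E S) (σ τ : S) :
    col (T * U) σ τ = ∑ ρ ∈ (col U σ).support, col U σ ρ * col T ρ τ :=
  apply_apply T (col U σ) τ

@[simp] theorem col_neg (T : E S) (σ : S) : col (-T) σ = -col T σ := rfl
theorem col_dgl_mul (f : S → ℝ) (T : E S) (σ τ : S) : col (dgl f * T) σ τ = f τ * col T σ τ :=
  dgl_apply _ _ _

theorem col_mul_dgl' (f : S → ℝ) (T : E S) (σ : S) : col (T * dgl f) σ = f σ • col T σ := by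
  rw [col_mul, col_dgl, apply_single]

theorem col_mul_dgl (f : S → ℝ) (T : E S) (σ τ : S) : col (T * dgl f) σ τ = f σ * col T σ τ := by
  rw [col_mul_dgl']; rfl

theorem dgl_add (f g : S → ℝ) : dgl f + dgl g = dgl fun σ => f σ + g σ :=
  ext_col fun σ => by rw [col_add, col_dgl, col_dgl, col_dgl, Finsupp.single_add]

theorem dgl_sub (f g : S → ℝ) : dgl f - dgl g = dgl fun σ => f σ - g σ :=
  ext_col fun σ => by rw [col_sub, col_dgl, col_dgl, col_dgl, Finsupp.single_sub]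

theorem dgl_smul (c : ℝ) (f : S → ℝ) : c • dgl f = dgl fun σ => c * f σ :=
  ext_col fun σ => by rw [col_smul, col_dgl, col_dgl, Finsupp.smul_single, smul_eq_mul]

theorem dgl_comm (f g : S → ℝ) : dgl f * dgl g = dgl g * dgl f := by simp only [dgl_mul, mul_comm]

/-- Intertwining of diagonal operators. -/
theorem dgl_comm_of {f g : S → ℝ} {T : E S} (h : ∀ σ τ, col T σ τ ≠ 0 → f τ = g σ) :
    dgl f * T = T * dgl g := en_ext fun σ τ => by
  rw [col_dgl_mul, col_mul_dgl]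
  by_cases h0 : col T σ τ = 0
  · simp [h0]
  · rw [h σ τ h0]

theorem ms_eq (ξ : S →₀ ℝ) {F : Finset S} (h : ξ.support ⊆ F) : ms ξ = ∑ σ ∈ F, |ξ σ| :=
  sum_subset h fun _ _ hx => by rw [Finsupp.notMem_support_iff.1 hx, abs_zero]

theorem sum_le_ms (ξ : S →₀ ℝ) (F : Finset S) : ∑ σ ∈ F, |ξ σ| ≤ ms ξ := by
  classical
  rw [ms_eq ξ (F := ξ.support ∪ F) subset_union_left]
  exact sum_le_sum_of_subset_of_nonneg subset_union_right fun _ _ _ => abs_nonneg _

theorem ms_le_of {ξ η : S →₀ ℝ} {C : ℝ} (hC : 0 ≤ C) (h : ∀ σ, |ξ σ| ≤ C * |η σ|) :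
    ms ξ ≤ C * ms η :=
  (sum_le_sum fun σ _ => h σ).trans (by
    rw [← mul_sum]; exact mul_le_mul_of_nonneg_left (sum_le_ms _ _) hC)

theorem ms_single (σ : S) (c : ℝ) : ms (Finsupp.single σ c) = |c| := by
  rw [ms_eq _ Finsupp.support_single_subset]; simp

theorem ms_le_card {ξ : S →₀ ℝ} {C : ℝ} {M : ℕ} (hC : 0 ≤ C) (h : ∀ σ, |ξ σ| ≤ C)
    (hM : ξ.support.card ≤ M) : ms ξ ≤ M * C :=
  (sum_le_card_nsmul _ _ C fun σ _ => h σ).trans (by
    rw [nsmul_eq_mul]; exact mul_le_mul_of_nonneg_right (by exact_mod_cast hM) hC)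

theorem mono_apply {T : E S} {e : S → S} (he : Function.Injective e) {f : S → ℝ}
    (h : ∀ σ, col T σ = Finsupp.single (e σ) (f σ)) (ξ : S →₀ ℝ) (τ : S) :
    T ξ (e τ) = f τ * ξ τ := by
  classical
  simp only [apply_apply, h, Finsupp.single_apply, he.eq_iff, mul_ite, mul_zero, sum_ite_eq']
  split_ifs with h
  · exact mul_comm _ _
  · rw [Finsupp.notMem_support_iff.1 h, mul_zero]

theorem sum_apply' {ι : Type*} (s : Finset ι) (f : ι → E S) (ξ : S →₀ ℝ) :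
    (∑ i ∈ s, f i) ξ = ∑ i ∈ s, f i ξ := LinearMap.sum_apply s (fun i => (f i).lin) ξ

end Col

section Ext

variable (p : ℝ≥0∞)

/-- The space `ℓᵖ(S)`. -/
abbrev Lp (S : Type) (p : ℝ≥0∞) : Type := lp (fun _ : S => ℝ) p

/-- Finitely supported chains as elements of `ℓᵖ`. -/
def emb : (S →₀ ℝ) →ₗ[ℝ] Lp S p where
  toFun ξ := ⟨fun σ => ξ σ, (memℓp_zero ξ.hasFiniteSupport).of_exponent_ge zero_le⟩
  map_add' _ _ := rfl
  map_smul' _ _ := rfl

@[simp] theorem emb_apply (ξ : S →₀ ℝ) (σ : S) : emb p ξ σ = ξ σ := rfl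

open Classical in
theorem emb_single (σ : S) (c : ℝ) : emb p (Finsupp.single σ c) = lp.single p σ c :=
  lp.ext (funext fun τ => by
    rw [emb_apply, lp.single_apply, Finsupp.single_apply, Pi.single_apply]; simp only [eq_comm])

theorem emb_injective : Function.Injective (emb (S := S) p) := fun _ _ h =>
  Finsupp.ext fun σ => congrArg (fun η : Lp S p => η σ) h

variable [Fact (1 ≤ p)]

theorem dense_emb (hp : p ≠ ⊤) : DenseRange (emb (S := S) p) := fun ξ => by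
  classical
  refine mem_closure_of_tendsto (lp.hasSum_single hp ξ) (Eventually.of_forall fun t => ?_)
  refine ⟨∑ σ ∈ t, Finsupp.single σ (ξ σ), ?_⟩
  rw [map_sum]
  exact sum_congr rfl fun σ _ => by convert emb_single p σ (ξ σ)

/-- `T` is bounded for the `ℓᵖ` norm. -/
def Bd (T : E S) : Prop := ∃ C : ℝ, ∀ ξ, ‖emb p (T ξ)‖ ≤ C * ‖emb p ξ‖

/-- The extension of `T` to `ℓᵖ`. -/
def ext (T : E S) : Lp S p →L[ℝ] Lp S p := ((emb p).comp T.lin).extendOfNorm (emb p)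

variable {p} [hp : Fact (p ≠ ⊤)]

instance : Fact ((1 : ℝ≥0∞) ≠ ⊤) := ⟨by simp⟩
instance : Fact ((2 : ℝ≥0∞) ≠ ⊤) := ⟨by simp⟩

theorem ext_emb {T : E S} (h : Bd p T) (ξ : S →₀ ℝ) : ext p T (emb p ξ) = emb p (T ξ) :=
  LinearMap.extendOfNorm_eq (f := (emb p).comp T.lin) (dense_emb p hp.out) h ξ

theorem norm_ext_le {T : E S} {C : ℝ} (hC : 0 ≤ C) (h : ∀ ξ, ‖emb p (T ξ)‖ ≤ C * ‖emb p ξ‖) :
    ‖ext p T‖ ≤ C := LinearMap.opNorm_extendOfNorm_le (dense_emb p hp.out) hC h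

theorem ext_of_emb {W : Type*} [AddCommMonoid W] [Module ℝ W] [TopologicalSpace W] [T2Space W]
    {A B : Lp S p →L[ℝ] W} (h : ∀ ξ, A (emb p ξ) = B (emb p ξ)) : A = B :=
  ContinuousLinearMap.ext fun ξ =>
    congrFun ((dense_emb p hp.out).equalizer A.continuous B.continuous (funext h)) ξ

theorem ext_of_single {W : Type*} [AddCommMonoid W] [Module ℝ W] [TopologicalSpace W] [T2Space W]
    {A B : Lp S p →L[ℝ] W}
    (h : ∀ σ, A (emb p (Finsupp.single σ 1)) = B (emb p (Finsupp.single σ 1))) : A = B :=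
  ext_of_emb fun ξ => by
    have : ξ = ∑ σ ∈ ξ.support, ξ σ • Finsupp.single σ 1 := apply_eq_sum 1 ξ
    rw [this]
    simp only [map_sum, map_smul, h]

/-- A bounded operator that restricts to `T`. -/
theorem bd_of_eq {T : E S} (A : Lp S p →L[ℝ] Lp S p) (h : ∀ ξ, A (emb p ξ) = emb p (T ξ)) :
    Bd p T := ⟨‖A‖, fun ξ => h ξ ▸ A.le_opNorm _⟩

theorem ext_eq {T : E S} (A : Lp S p →L[ℝ] Lp S p) (h : ∀ ξ, A (emb p ξ) = emb p (T ξ)) :
    ext p T = A := ext_of_emb fun ξ => by rw [ext_emb (bd_of_eq A h), h]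

theorem Bd.one : Bd p (1 : E S) := bd_of_eq 1 fun _ => rfl
theorem ext_one : ext p (1 : E S) = 1 := ext_eq 1 fun _ => rfl
theorem Bd.zero : Bd p (0 : E S) := bd_of_eq 0 fun _ => rfl
theorem ext_zero : ext p (0 : E S) = 0 := ext_eq 0 fun _ => rfl

variable {T U : E S}

theorem mul_emb (hT : Bd p T) (hU : Bd p U) (ξ : S →₀ ℝ) :
    (ext p T * ext p U) (emb p ξ) = emb p ((T * U) ξ) := by
  rw [mul_apply_eq_comp, ext_emb hU, ext_emb hT]; rfl

theorem add_emb (hT : Bd p T) (hU : Bd p U) (ξ : S →₀ ℝ) :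
    (ext p T + ext p U) (emb p ξ) = emb p ((T + U) ξ) := by
  rw [_root_.add_apply, ext_emb hU, ext_emb hT]; rfl

theorem smul_emb (c : ℝ) (hT : Bd p T) (ξ : S →₀ ℝ) :
    (c • ext p T) (emb p ξ) = emb p ((c • T) ξ) := by
  rw [_root_.smul_apply, ext_emb hT]; rfl

theorem Bd.mul (hT : Bd p T) (hU : Bd p U) : Bd p (T * U) := bd_of_eq _ (mul_emb hT hU)
theorem Bd.add (hT : Bd p T) (hU : Bd p U) : Bd p (T + U) := bd_of_eq _ (add_emb hT hU)
theorem Bd.smul (c : ℝ) (hT : Bd p T) : Bd p (c • T) := bd_of_eq _ (smul_emb c hT)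
theorem ext_mul (hT : Bd p T) (hU : Bd p U) : ext p (T * U) = ext p T * ext p U :=
  ext_eq _ (mul_emb hT hU)
theorem ext_add (hT : Bd p T) (hU : Bd p U) : ext p (T + U) = ext p T + ext p U :=
  ext_eq _ (add_emb hT hU)
theorem ext_smul (c : ℝ) (hT : Bd p T) : ext p (c • T) = c • ext p T := ext_eq _ (smul_emb c hT)
theorem Bd.neg (hT : Bd p T) : Bd p (-T) := neg_one_smul ℝ T ▸ hT.smul (-1)
theorem ext_neg (hT : Bd p T) : ext p (-T) = -ext p T := by
  rw [← neg_one_smul ℝ T, ext_smul _ hT, neg_one_smul]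
theorem Bd.sub (hT : Bd p T) (hU : Bd p U) : Bd p (T - U) := sub_eq_add_neg T U ▸ hT.add hU.neg
theorem ext_sub (hT : Bd p T) (hU : Bd p U) : ext p (T - U) = ext p T - ext p U := by
  rw [sub_eq_add_neg T, ext_add hT hU.neg, ext_neg hU, sub_eq_add_neg]

variable (S p) in
/-- The algebra of bounded chain operators. -/
def BdA : Subalgebra ℝ (E S) where
  carrier := {T | Bd p T}
  mul_mem' := Bd.mul
  add_mem' := Bd.add
  algebraMap_mem' c := by rw [Algebra.algebraMap_eq_smul_one]; exact Bd.one.smul c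

variable (S p) in
/-- Extension as an algebra homomorphism. -/
def extA : BdA S p →ₐ[ℝ] Lp S p →L[ℝ] Lp S p :=
  AlgHom.ofLinearMap
    { toFun := fun T => ext p T.1
      map_add' := fun T U => ext_add T.2 U.2
      map_smul' := fun c T => ext_smul c T.2 } ext_one fun T U => ext_mul T.2 U.2

theorem Bd.sum {ι : Type*} {s : Finset ι} {f : ι → E S} (h : ∀ i ∈ s, Bd p (f i)) :
    Bd p (∑ i ∈ s, f i) := sum_mem (S := BdA S p) h

theorem ext_sum {ι : Type*} {s : Finset ι} {f : ι → E S} (h : ∀ i ∈ s, Bd p (f i)) :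
    ext p (∑ i ∈ s, f i) = ∑ i ∈ s, ext p (f i) := ext_eq _ fun ξ => by
  rw [_root_.sum_apply, sum_apply', map_sum]
  exact sum_congr rfl fun i hi => ext_emb (h i hi) ξ

theorem ext_single (hT : Bd p T) (σ τ : S) :
    ext p T (emb p (Finsupp.single σ 1)) τ = col T σ τ := by rw [ext_emb hT]; rfl

theorem ext_inj (hT : Bd p T) (hU : Bd p U) (h : ext p T = ext p U) : T = U :=
  en_ext fun σ τ => by rw [← ext_single hT, h, ext_single hU]

theorem dgl_bound {f : S → ℝ} {C : ℝ} (h : ∀ σ, |f σ| ≤ C) (ξ : S →₀ ℝ) :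
    ‖emb p (dgl f ξ)‖ ≤ |C| * ‖emb p ξ‖ := by
  rw [← Real.norm_eq_abs, ← norm_smul]
  refine lp.norm_mono (zero_lt_one.trans_le Fact.out).ne' fun σ => ?_
  change ‖dgl f ξ σ‖ ≤ ‖C * ξ σ‖
  rw [dgl_apply, norm_mul, norm_mul]
  exact mul_le_mul_of_nonneg_right ((h σ).trans (le_abs_self _)) (norm_nonneg _)

theorem bd_dgl {f : S → ℝ} {C : ℝ} (h : ∀ σ, |f σ| ≤ C) : Bd p (dgl f) := ⟨_, dgl_bound h⟩

theorem norm_ext_dgl {f : S → ℝ} {C : ℝ} (hC : 0 ≤ C) (h : ∀ σ, |f σ| ≤ C) :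
    ‖ext p (dgl f)‖ ≤ C := norm_ext_le hC fun ξ => by simpa [abs_of_nonneg hC] using dgl_bound h ξ

theorem ext_dgl_apply {f : S → ℝ} {C : ℝ} (h : ∀ σ, |f σ| ≤ C) (ξ : Lp S p) (σ : S) :
    ext p (dgl f) ξ σ = f σ * ξ σ := by
  have : (lp.evalCLM ℝ (fun _ : S => ℝ) p σ).comp (ext p (dgl f)) =
      f σ • lp.evalCLM ℝ (fun _ : S => ℝ) p σ := ext_of_emb fun η => by
    change ext p (dgl f) (emb p η) σ = f σ * η σ
    rw [ext_emb (bd_dgl h), emb_apply, dgl_apply]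
  exact congrArg (fun A : Lp S p →L[ℝ] ℝ => A ξ) this

theorem norm_emb_rpow (ξ : S →₀ ℝ) {F : Finset S} (h : ξ.support ⊆ F) :
    ‖emb p ξ‖ ^ p.toReal = ∑ σ ∈ F, |ξ σ| ^ p.toReal := by
  have h0 : 0 < p.toReal := ENNReal.toReal_pos (zero_lt_one.trans_le Fact.out).ne' hp.out
  rw [lp.norm_rpow_eq_tsum h0, tsum_eq_sum (s := F) fun σ hσ => by
    rw [emb_apply, Finsupp.notMem_support_iff.1 fun e => hσ (h e), norm_zero,
      Real.zero_rpow h0.ne']]
  rfl

theorem norm_emb_single (σ : S) (c : ℝ) : ‖emb p (Finsupp.single σ c)‖ = |c| := by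
  classical
  rw [emb_single, lp.norm_single (zero_lt_one.trans_le Fact.out), Real.norm_eq_abs]

theorem abs_col_le (hT : Bd p T) (σ τ : S) : |col T σ τ| ≤ ‖ext p T‖ := by
  rw [← ext_single hT]
  refine (lp.norm_apply_le_norm (zero_lt_one.trans_le Fact.out).ne' _ τ).trans
    (((ext p T).le_opNorm _).trans ?_)
  rw [norm_emb_single, abs_one, mul_one]

theorem norm_emb_mono {e : S ≃ S} {f : S → ℝ} (hf : ∀ σ, |f σ| = 1)
    (h : ∀ σ, col T σ = Finsupp.single (e σ) (f σ)) (ξ : S →₀ ℝ) :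
    ‖emb p (T ξ)‖ = ‖emb p ξ‖ := by
  have h0 : 0 < p.toReal := ENNReal.toReal_pos (zero_lt_one.trans_le Fact.out).ne' hp.out
  rw [lp.norm_eq_tsum_rpow h0, lp.norm_eq_tsum_rpow h0, ← e.tsum_eq]
  simp only [emb_apply, mono_apply e.injective h, norm_mul, Real.norm_eq_abs, hf, one_mul]

open Classical in
variable (p) in
/-- `x` has the matrix `T`. -/
def IsExt (T : E S) (x : Lp S p →L[ℝ] Lp S p) : Prop :=
  ∀ σ τ, x (lp.single p σ 1) τ = col T σ τ

theorem IsExt.emb {x : Lp S p →L[ℝ] Lp S p} (h : IsExt p T x) (ξ : S →₀ ℝ) :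
    x (emb p ξ) = emb p (T ξ) := by
  have h1 : ξ = ∑ σ ∈ ξ.support, ξ σ • Finsupp.single σ 1 := apply_eq_sum 1 ξ
  rw [apply_eq_sum, map_sum]
  conv_lhs => rw [h1, map_sum, map_sum]
  refine sum_congr rfl fun σ _ => ?_
  rw [map_smul, map_smul, map_smul, emb_single]
  exact congrArg _ (lp.ext (funext (h σ)))

theorem IsExt.bd {x : Lp S p →L[ℝ] Lp S p} (h : IsExt p T x) : Bd p T := bd_of_eq x h.emb

theorem IsExt.eq {x : Lp S p →L[ℝ] Lp S p} (h : IsExt p T x) : x = ext p T :=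
  (ext_eq x h.emb).symm

theorem Bd.isExt (hT : Bd p T) : IsExt p T (ext p T) := fun σ τ => by
  rw [← ext_single hT, emb_single]

open Classical in
/-- The indicator function of a set. -/
def ind (F : Set S) : S → ℝ := fun σ => if σ ∈ F then 1 else 0

theorem ind_of_mem {F : Set S} {σ : S} (h : σ ∈ F) : ind F σ = 1 := if_pos h
theorem ind_of_notMem {F : Set S} {σ : S} (h : σ ∉ F) : ind F σ = 0 := if_neg h
theorem abs_ind_le (F : Set S) (σ : S) : |ind F σ| ≤ 1 := by unfold ind; split_ifs <;> simp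

theorem ind_mul (F G : Set S) (σ : S) : ind F σ * ind G σ = ind (F ∩ G) σ := by
  by_cases h : σ ∈ F <;> by_cases h' : σ ∈ G <;> simp [ind, h, h']

theorem one_sub_ind (F : Set S) (σ : S) : 1 - ind F σ = ind Fᶜ σ := by
  by_cases h : σ ∈ F <;> simp [ind, h]

theorem dgl_ind_compl (F : Set S) : dgl (ind Fᶜ) = 1 - dgl (ind F) := by
  rw [← dgl_one, dgl_sub]; simp only [one_sub_ind]

theorem bd_ind (F : Set S) : Bd p (dgl (ind F)) := bd_dgl (abs_ind_le F)

variable (p) in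
/-- The coordinate projection. -/
def pr (F : Set S) : Lp S p →L[ℝ] Lp S p := ext p (dgl (ind F))

theorem pr_apply (F : Set S) (ξ : Lp S p) (σ : S) : pr p F ξ σ = ind F σ * ξ σ :=
  ext_dgl_apply (abs_ind_le F) ξ σ

theorem norm_pr_le (F : Set S) : ‖pr p F‖ ≤ 1 := norm_ext_dgl zero_le_one (abs_ind_le F)

theorem pr_mul (F G : Set S) : pr p F * pr p G = pr p (F ∩ G) := by
  rw [pr, pr, ← ext_mul (bd_ind F) (bd_ind G), dgl_mul]; simp only [ind_mul]; rfl

theorem pr_idem (F : Set S) : pr p F * pr p F = pr p F := by rw [pr_mul, Set.inter_self]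

theorem pr_compl (F : Set S) : pr p Fᶜ = 1 - pr p F := by
  rw [pr, dgl_ind_compl, ext_sub Bd.one (bd_ind F), ext_one, pr]

theorem norm_one_sub_pr_le (F : Set S) : ‖1 - pr p F‖ ≤ 1 := pr_compl (p := p) F ▸ norm_pr_le _

/-- Cutting off the range of an operator with finitely many nonzero columns. -/
theorem compl_mul_eq_zero (hT : Bd p T) (G : Finset S) :
    ∀ᶠ F : Finset S in atTop, (1 - pr p (F : Set S)) * ext p T * pr p (G : Set S) = 0 := by
  classical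
  filter_upwards [eventually_ge_atTop (G.biUnion fun σ => (col T σ).support)] with F hF
  rw [← pr_compl, pr, pr, ← ext_mul (bd_ind _) hT, ← ext_mul ((bd_ind _).mul hT) (bd_ind _),
    ← ext_zero]
  congr 1
  refine en_ext fun σ τ => ?_
  rw [col_mul_dgl, col_dgl_mul]
  by_cases h : σ ∈ G
  · by_cases h' : col T σ τ = 0
    · simp [h']
    · rw [ind_of_notMem (F := (F : Set S)ᶜ) (σ := τ) fun e =>
        e (hF (mem_biUnion.2 ⟨σ, h, Finsupp.mem_support_iff.2 h'⟩))]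
      simp
  · rw [ind_of_notMem (σ := σ) h]; simp

/-- Cutting off the source of an operator with finite rows. -/
theorem mul_compl_eq_zero (hT : Bd p T) (hr : ∀ τ, {σ | col T σ τ ≠ 0}.Finite) (G : Finset S) :
    ∀ᶠ F : Finset S in atTop, pr p (G : Set S) * ext p T * (1 - pr p (F : Set S)) = 0 := by
  classical
  filter_upwards [eventually_ge_atTop (G.biUnion fun τ => (hr τ).toFinset)] with F hF
  rw [← pr_compl, pr, pr, ← ext_mul (bd_ind _) hT, ← ext_mul ((bd_ind _).mul hT) (bd_ind _),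
    ← ext_zero]
  congr 1
  refine en_ext fun σ τ => ?_
  rw [col_mul_dgl, col_dgl_mul]
  by_cases h : τ ∈ G
  · by_cases h' : col T σ τ = 0
    · simp [h']
    · rw [ind_of_notMem (F := (F : Set S)ᶜ) (σ := σ) fun e =>
        e (hF (mem_biUnion.2 ⟨τ, h, (hr τ).mem_toFinset.2 h'⟩))]
      simp
  · rw [ind_of_notMem (σ := τ) h]; simp

/-- If the columns are small at infinity then so are the rows. -/
theorem tendsto_compl_mul (hT : Bd p T)
    (h : Tendsto (fun F : Finset S => ext p T * (1 - pr p (F : Set S))) atTop (𝓝 0)) :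
    Tendsto (fun F : Finset S => (1 - pr p (F : Set S)) * ext p T) atTop (𝓝 0) := by
  rw [NormedAddGroup.tendsto_nhds_zero] at h ⊢
  intro ε hε
  obtain ⟨G, hG⟩ := (h ε hε).exists
  filter_upwards [compl_mul_eq_zero hT G] with F hF
  have : (1 - pr p (F : Set S)) * ext p T =
      (1 - pr p (F : Set S)) * (ext p T * (1 - pr p (G : Set S))) := by
    rw [mul_sub (ext p T), mul_one, mul_sub (1 - pr p (F : Set S)), ← mul_assoc, hF, sub_zero]
  rw [this]
  exact ((norm_mul_le _ _).trans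
    (mul_le_of_le_one_left (norm_nonneg _) (norm_one_sub_pr_le _))).trans_lt hG

end Ext

section One

variable {T : E S}

theorem norm_emb1 (ξ : S →₀ ℝ) : ‖emb 1 ξ‖ = ms ξ := by
  simpa [ms] using norm_emb_rpow (p := 1) ξ subset_rfl

theorem ms_add_le (ξ η : S →₀ ℝ) : ms (ξ + η) ≤ ms ξ + ms η := by
  simp only [← norm_emb1, map_add, norm_add_le]

theorem ms_sub_le (ξ η : S →₀ ℝ) : ms (ξ - η) ≤ ms ξ + ms η := by
  simp only [← norm_emb1, map_sub, norm_sub_le]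

theorem ms_smul (c : ℝ) (ξ : S →₀ ℝ) : ms (c • ξ) = |c| * ms ξ := by
  simp only [← norm_emb1, map_smul, norm_smul, Real.norm_eq_abs]

theorem ms_sum_le {ι : Type*} (s : Finset ι) (f : ι → S →₀ ℝ) :
    ms (∑ i ∈ s, f i) ≤ ∑ i ∈ s, ms (f i) := by
  simp only [← norm_emb1, map_sum, norm_sum_le]

theorem ms_apply_le {C : ℝ} (h : ∀ σ, ms (col T σ) ≤ C) (ξ : S →₀ ℝ) : ms (T ξ) ≤ C * ms ξ := by
  rw [apply_eq_sum, ms, ← ms, ms.eq_1 ξ, mul_sum]
  refine (ms_sum_le _ _).trans (sum_le_sum fun σ _ => ?_)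
  rw [ms_smul, mul_comm]
  exact mul_le_mul_of_nonneg_right (h σ) (abs_nonneg _)

theorem bd1_of {C : ℝ} (h : ∀ σ, ms (col T σ) ≤ C) : Bd 1 T :=
  ⟨C, fun ξ => by rw [norm_emb1, norm_emb1]; exact ms_apply_le h ξ⟩

theorem norm_ext1_le {C : ℝ} (hC : 0 ≤ C) (h : ∀ σ, ms (col T σ) ≤ C) : ‖ext 1 T‖ ≤ C :=
  norm_ext_le hC fun ξ => by rw [norm_emb1, norm_emb1]; exact ms_apply_le h ξ

theorem ms_col_le (hT : Bd 1 T) (σ : S) : ms (col T σ) ≤ ‖ext 1 T‖ := by
  have := (ext 1 T).le_opNorm (emb 1 (Finsupp.single σ 1))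
  rwa [ext_emb hT, norm_emb1, norm_emb_single, abs_one, mul_one] at this

theorem norm_ext1_mul_pr (hT : Bd 1 T) {F : Set S} {C : ℝ} (hC : 0 ≤ C)
    (h : ∀ σ ∈ F, ms (col T σ) ≤ C) : ‖ext 1 T * pr 1 F‖ ≤ C := by
  rw [pr, ← ext_mul hT (bd_ind _)]
  refine norm_ext1_le hC fun σ => ?_
  rw [col_mul_dgl', ms_smul]
  by_cases hσ : σ ∈ F
  · rw [ind_of_mem hσ, abs_one, one_mul]; exact h σ hσ
  · rw [ind_of_notMem hσ, abs_zero, zero_mul]; exact hC

theorem eventually_compl {q : S → Prop} (h : ∀ᶠ σ in cofinite, q σ) :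
    ∀ᶠ F : Finset S in atTop, ∀ σ ∈ (F : Set S)ᶜ, q σ := by
  filter_upwards [eventually_ge_atTop (eventually_cofinite.1 h).toFinset] with F hF σ hσ
  by_contra h1
  exact hσ (hF ((eventually_cofinite.1 h).mem_toFinset.2 h1))

/-- Columns that tend to zero in `ℓ¹`. -/
theorem tendsto1_mul_compl (hT : Bd 1 T)
    (h : ∀ ε : ℝ, 0 < ε → ∀ᶠ σ in cofinite, ms (col T σ) ≤ ε) :
    Tendsto (fun F : Finset S => ext 1 T * (1 - pr 1 (F : Set S))) atTop (𝓝 0) := by
  rw [NormedAddGroup.tendsto_nhds_zero]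
  intro ε hε
  filter_upwards [eventually_compl (h _ (half_pos hε))] with F hF
  rw [← pr_compl]
  exact (norm_ext1_mul_pr hT (half_pos hε).le hF).trans_lt (half_lt_self hε)

/-- Rows that tend to zero entrywise. -/
theorem tendsto1_row (hT : Bd 1 T) (h : ∀ τ, Tendsto (fun σ => col T σ τ) cofinite (𝓝 0))
    (G : Finset S) : Tendsto (fun F : Finset S => pr 1 (G : Set S) * ext 1 T *
      (1 - pr 1 (F : Set S))) atTop (𝓝 0) := by
  rw [pr, ← ext_mul (bd_ind _) hT]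
  refine tendsto1_mul_compl ((bd_ind _).mul hT) fun ε hε => ?_
  have h1 : Tendsto (fun σ => ∑ τ ∈ G, |col T σ τ|) cofinite (𝓝 0) := by
    simpa using tendsto_finsetSum G fun τ _ => (h τ).abs
  filter_upwards [h1.eventually (ge_mem_nhds hε)] with σ hσ
  rw [ms_eq _ (F := G) fun τ hτ => by
    by_contra h2
    rw [Finsupp.mem_support_iff, col_dgl_mul, ind_of_notMem (σ := τ) h2, zero_mul] at hτ
    exact hτ rfl]
  refine le_trans (le_of_eq (sum_congr rfl fun τ hτ => ?_)) hσ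
  rw [col_dgl_mul, ind_of_mem (σ := τ) hτ, one_mul]

end One

section Two

variable {T : E S}

theorem sq_norm_emb2 (ξ : S →₀ ℝ) {F : Finset S} (h : ξ.support ⊆ F) :
    ‖emb 2 ξ‖ ^ 2 = ∑ σ ∈ F, ξ σ ^ 2 := by
  simpa using norm_emb_rpow (p := 2) ξ h

/-- The Schur test. -/
theorem schur {A B : ℝ} (hA : 0 ≤ A) (hB : 0 ≤ B) (hc : ∀ σ, ms (col T σ) ≤ A)
    (hr : ∀ τ (F : Finset S), ∑ σ ∈ F, |col T σ τ| ≤ B) (ξ : S →₀ ℝ) :
    ‖emb 2 (T ξ)‖ ≤ √(A * B) * ‖emb 2 ξ‖ := by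
  refine abs_le_of_sq_le_sq' ?_ (by positivity) |>.2
  rw [mul_pow, Real.sq_sqrt (by positivity), sq_norm_emb2 _ subset_rfl, sq_norm_emb2 _ subset_rfl]
  calc ∑ τ ∈ (T ξ).support, T ξ τ ^ 2
      ≤ ∑ τ ∈ (T ξ).support, B * ∑ σ ∈ ξ.support, |col T σ τ| * ξ σ ^ 2 := by
        refine sum_le_sum fun τ _ => ?_
        rw [apply_apply, ← sq_abs]
        refine le_trans (pow_le_pow_left₀ (abs_nonneg _) (abs_sum_le_sum_abs _ _) 2)
          ((sum_sq_le_sum_mul_sum_of_sq_le_mul _ (f := fun σ => |col T σ τ|)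
            (g := fun σ => |col T σ τ| * ξ σ ^ 2) (fun _ _ => abs_nonneg _)
            (fun _ _ => by positivity) fun σ _ => le_of_eq ?_).trans
            (mul_le_mul_of_nonneg_right (hr _ _) (sum_nonneg fun _ _ => by positivity)))
        rw [abs_mul, mul_pow, sq_abs]; ring
    _ = B * ∑ σ ∈ ξ.support, (∑ τ ∈ (T ξ).support, |col T σ τ|) * ξ σ ^ 2 := by
        rw [← mul_sum, sum_comm]; simp only [sum_mul]
    _ ≤ B * ∑ σ ∈ ξ.support, A * ξ σ ^ 2 := by
        gcongr with σ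
        exact (sum_le_ms _ _).trans (hc σ)
    _ = _ := by rw [← mul_sum]; ring

theorem row_le {C : ℝ} {M : ℕ} (hC : 0 ≤ C) (h : ∀ τ σ, |col T σ τ| ≤ C)
    (hr : ∀ τ, ∃ F : Finset S, F.card ≤ M ∧ ∀ σ, col T σ τ ≠ 0 → σ ∈ F) (τ : S) (F : Finset S) :
    ∑ σ ∈ F, |col T σ τ| ≤ M * C := by
  classical
  obtain ⟨G, hG, h1⟩ := hr τ
  rw [← sum_filter_ne_zero]
  refine (sum_le_sum_of_subset_of_nonneg (t := G) (fun σ hσ => h1 σ (abs_ne_zero.1
    (mem_filter.1 hσ).2)) fun _ _ _ => abs_nonneg _).trans ((sum_le_card_nsmul _ _ C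
    fun σ _ => h τ σ).trans ?_)
  rw [nsmul_eq_mul]; exact mul_le_mul_of_nonneg_right (by exact_mod_cast hG) hC

theorem bnd_bound {C : ℝ} {M : ℕ} (hC : 0 ≤ C) (hc : ∀ σ, ms (col T σ) ≤ C)
    (hr : ∀ τ, ∃ F : Finset S, F.card ≤ M ∧ ∀ σ, col T σ τ ≠ 0 → σ ∈ F) (ξ : S →₀ ℝ) :
    ‖emb 2 (T ξ)‖ ≤ √M * C * ‖emb 2 ξ‖ := by
  have := schur hC (by positivity) hc (row_le hC (fun τ σ => (abs_le_ms _ τ).trans (hc σ)) hr) ξ
  rwa [mul_left_comm, Real.sqrt_mul (by positivity), Real.sqrt_mul_self hC] at this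

theorem norm_ext2_le {C : ℝ} {M : ℕ} (hC : 0 ≤ C) (hc : ∀ σ, ms (col T σ) ≤ C)
    (hr : ∀ τ, ∃ F : Finset S, F.card ≤ M ∧ ∀ σ, col T σ τ ≠ 0 → σ ∈ F) :
    ‖ext 2 T‖ ≤ √M * C := norm_ext_le (by positivity) (bnd_bound hC hc hr)

theorem bnd_bd2 (h : Bnd T) : Bd 2 T := by
  obtain ⟨C, M, h1, h2⟩ := h
  exact ⟨_, bnd_bound (abs_nonneg C) (fun σ => (h1 σ).trans (le_abs_self _)) h2⟩

theorem bnd_bd1 (h : Bnd T) : Bd 1 T := by
  obtain ⟨C, M, h1, -⟩ := h
  exact bd1_of h1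

theorem bnd_row_finite (h : Bnd T) (τ : S) : {σ | col T σ τ ≠ 0}.Finite := by
  obtain ⟨C, M, -, h3⟩ := h
  obtain ⟨F, -, hF⟩ := h3 τ
  exact F.finite_toSet.subset hF

theorem bnd_row_tendsto (h : Bnd T) (τ : S) : Tendsto (fun σ => col T σ τ) cofinite (𝓝 0) :=
  tendsto_const_nhds.congr' (eventually_cofinite.2 ((bnd_row_finite h τ).subset
    fun _ hσ e => hσ e.symm))

theorem entry_ext2 (hT : Bd 2 T) (a b : S) : entry (ext 2 T) a b = col T b a := by
  rw [← ext_single hT, emb_single]; rfl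

theorem ext2_dgl {f : S → ℝ} {C : ℝ} (h : ∀ σ, |f σ| ≤ C) : ext 2 (dgl f) = mulOp f C h :=
  ContinuousLinearMap.ext fun ξ => lp.ext (funext (ext_dgl_apply h ξ))

/-- Columns that tend to zero, for an operator with short rows. -/
theorem tendsto2_mul_compl (hT : Bnd T) (h : Small T) :
    Tendsto (fun F : Finset S => ext 2 T * (1 - pr 2 (F : Set S))) atTop (𝓝 0) := by
  rw [NormedAddGroup.tendsto_nhds_zero]
  intro ε hε
  have hb := bnd_bd2 hT
  obtain ⟨C, M, -, h3⟩ := hT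
  have hδ : 0 < ε / (√M + 1) := by positivity
  filter_upwards [eventually_compl (h.eventually (ge_mem_nhds hδ))] with F hF
  rw [← pr_compl, pr, ← ext_mul hb (bd_ind _)]
  refine (norm_ext2_le (M := M) hδ.le (fun σ => ?_) fun τ => ?_).trans_lt ?_
  · rw [col_mul_dgl', ms_smul]
    by_cases hσ : σ ∈ (F : Set S)ᶜ
    · rw [ind_of_mem hσ, abs_one, one_mul]; exact hF σ hσ
    · rw [ind_of_notMem hσ, abs_zero, zero_mul]; exact hδ.le
  · obtain ⟨G, hG, h4⟩ := h3 τ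
    exact ⟨G, hG, fun σ hσ => h4 σ (by rw [col_mul_dgl] at hσ; exact right_ne_zero_of_mul hσ)⟩
  · rw [← mul_div_assoc, div_lt_iff₀ (by positivity)]; nlinarith

variable {U : E S}

theorem bnd_add (hT : Bnd T) (hU : Bnd U) : Bnd (T + U) := by
  classical
  obtain ⟨C, M, h1, h3⟩ := hT
  obtain ⟨C', M', h1', h3'⟩ := hU
  refine ⟨C + C', M + M', fun σ => (ms_add_le _ _).trans (add_le_add (h1 σ) (h1' σ)), fun τ => ?_⟩
  obtain ⟨F, hF, h4⟩ := h3 τ
  obtain ⟨F', hF', h4'⟩ := h3' τ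
  refine ⟨F ∪ F', (card_union_le _ _).trans (add_le_add hF hF'), fun σ hσ => ?_⟩
  by_cases h : col T σ τ = 0
  · exact mem_union_right _ (h4' σ (by simpa [h] using hσ))
  · exact mem_union_left _ (h4 σ h)

theorem bnd_of_le (hT : Bnd T) {C : ℝ} (h : ∀ σ τ, |col U σ τ| ≤ C * |col T σ τ|) : Bnd U := by
  obtain ⟨C', M, h1, h3⟩ := hT
  refine ⟨|C| * C', M, fun σ => (ms_le_of (abs_nonneg C) fun τ => (h σ τ).trans
    (mul_le_mul_of_nonneg_right (le_abs_self _) (abs_nonneg _))).trans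
    (mul_le_mul_of_nonneg_left (h1 σ) (abs_nonneg _)), fun τ => ?_⟩
  obtain ⟨F, hF, h4⟩ := h3 τ
  exact ⟨F, hF, fun σ hσ => h4 σ fun e => hσ (by simpa [e] using h σ τ)⟩

theorem bnd_smul (c : ℝ) (hT : Bnd T) : Bnd (c • T) :=
  bnd_of_le hT (C := |c|) fun _ _ => (abs_mul _ _).le

theorem bnd_neg (hT : Bnd T) : Bnd (-T) := neg_one_smul ℝ T ▸ bnd_smul (-1) hT

theorem bnd_sub (hT : Bnd T) (hU : Bnd U) : Bnd (T - U) :=
  sub_eq_add_neg T U ▸ bnd_add hT (bnd_neg hU)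

theorem bnd_mul (hT : Bnd T) (hU : Bnd U) : Bnd (T * U) := by
  classical
  obtain ⟨C, M, h1, h3⟩ := hT
  obtain ⟨C', M', h1', h3'⟩ := hU
  choose F hF h4 using h3
  choose F' hF' h4' using h3'
  refine ⟨|C| * C', M * M', fun σ => ?_, fun τ => ⟨(F τ).biUnion F', ?_, fun σ hσ => ?_⟩⟩
  · exact (ms_apply_le (fun ρ => (h1 ρ).trans (le_abs_self C)) _).trans
      (mul_le_mul_of_nonneg_left (h1' σ) (abs_nonneg _))
  · exact (card_biUnion_le_card_mul _ _ M' fun ρ _ => hF' ρ).trans (Nat.mul_le_mul_right _ (hF τ))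
  · rw [col_mul_apply] at hσ
    obtain ⟨ρ, -, h5⟩ := exists_ne_zero_of_sum_ne_zero hσ
    exact mem_biUnion.2 ⟨ρ, h4 τ ρ (right_ne_zero_of_mul h5), h4' ρ σ (left_ne_zero_of_mul h5)⟩

theorem bnd_of_single (e : S → S) (he : Function.Injective e) (f : S → ℝ) {C : ℝ}
    (hf : ∀ σ, |f σ| ≤ C) (h : ∀ σ, col T σ = Finsupp.single (e σ) (f σ)) : Bnd T := by
  refine ⟨C, 1, fun σ => by rw [h, ms_single]; exact hf σ, fun τ => ?_⟩
  by_cases h1 : ∃ σ, e σ = τ
  · obtain ⟨σ, rfl⟩ := h1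
    refine ⟨{σ}, by simp, fun ρ hρ => mem_singleton.2 (he ?_)⟩
    rw [h] at hρ
    exact (Finsupp.single_apply_ne_zero.1 hρ).1.symm
  · refine ⟨∅, by simp, fun ρ hρ => (h1 ⟨ρ, ?_⟩).elim⟩
    rw [h] at hρ
    exact (Finsupp.single_apply_ne_zero.1 hρ).1.symm

theorem bnd_dgl {f : S → ℝ} {C : ℝ} (hf : ∀ σ, |f σ| ≤ C) : Bnd (dgl f) :=
  bnd_of_single id Function.injective_id f hf (col_dgl f)

theorem bnd_one : Bnd (1 : E S) := dgl_one (I := S) ▸ bnd_dgl (C := 1) fun _ => by simp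

/-- A monomial matrix with entries bounded by `C` has norm at most `C` on `ℓ²`. -/
theorem norm_ext2_single (e : S → S) (he : Function.Injective e) (f : S → ℝ) {C : ℝ} (hC : 0 ≤ C)
    (hf : ∀ σ, |f σ| ≤ C) (h : ∀ σ, col T σ = Finsupp.single (e σ) (f σ)) : ‖ext 2 T‖ ≤ C := by
  have := norm_ext2_le (T := T) (M := 1) hC (fun σ => by rw [h, ms_single]; exact hf σ) fun τ => by
    by_cases h1 : ∃ σ, e σ = τ
    · obtain ⟨σ, rfl⟩ := h1
      refine ⟨{σ}, by simp, fun ρ hρ => mem_singleton.2 (he ?_)⟩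
      rw [h] at hρ
      exact (Finsupp.single_apply_ne_zero.1 hρ).1.symm
    · refine ⟨∅, by simp, fun ρ hρ => (h1 ⟨ρ, ?_⟩).elim⟩
      rw [h] at hρ
      exact (Finsupp.single_apply_ne_zero.1 hρ).1.symm
  simpa using this

theorem small_add (hT : Small T) (hU : Small U) : Small (T + U) :=
  squeeze_zero (fun _ => ms_nonneg _) (fun σ => ms_add_le (col T σ) (col U σ))
    (by simpa using hT.add hU)

theorem small_sub (hT : Small T) (hU : Small U) : Small (T - U) :=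
  squeeze_zero (fun _ => ms_nonneg _) (fun σ => ms_sub_le (col T σ) (col U σ))
    (by simpa using hT.add hU)

theorem small_mul_left {C : ℝ} (hT : ∀ σ, ms (col T σ) ≤ C) (hU : Small U) : Small (T * U) :=
  squeeze_zero (fun _ => ms_nonneg _) (fun σ => ms_apply_le hT (col U σ))
    (by simpa using hU.const_mul C)

end Two

section Inc

theorem norm_two_le (ξ : E1 S) :
    ‖lp.linearMapOfLE ℝ (fun _ : S => ℝ) (one_le_two : (1 : ℝ≥0∞) ≤ 2) ξ‖ ≤ 1 * ‖ξ‖ := by
  rw [one_mul]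
  refine lp.norm_le_of_forall_sum_le (by simp) (norm_nonneg _) fun s => ?_
  have h := lp.sum_rpow_le_norm_rpow (p := 1) (by simp) ξ s
  simp only [ENNReal.toReal_one, Real.rpow_one, ENNReal.toReal_ofNat, Real.rpow_ofNat,
    lp.coe_linearMapOfLE_apply] at h ⊢
  exact (sum_sq_le_sq_sum_of_nonneg fun _ _ => norm_nonneg _).trans
    (pow_le_pow_left₀ (sum_nonneg fun _ _ => norm_nonneg _) h 2)

variable (S) in
/-- The inclusion of `ℓ¹` in `ℓ²`. -/
def inc : E1 S →L[ℝ] H S :=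
  (lp.linearMapOfLE ℝ (fun _ : S => ℝ) one_le_two).mkContinuous 1 norm_two_le

@[simp] theorem inc_apply (ξ : E1 S) (σ : S) : inc S ξ σ = ξ σ := rfl

theorem inc_emb (ξ : S →₀ ℝ) : inc S (emb 1 ξ) = emb 2 ξ := rfl

theorem norm_inc_le : ‖inc S‖ ≤ 1 := LinearMap.mkContinuous_norm_le _ zero_le_one _

theorem inc_injective : Function.Injective (inc S) := fun _ _ h =>
  lp.ext (funext fun σ => congrArg (fun η : H S => η σ) h)

theorem inc_comp_ext {T : E S} (h1 : Bd 1 T) (h2 : Bd 2 T) :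
    (inc S).comp (ext 1 T) = (ext 2 T).comp (inc S) := ext_of_emb fun ξ => by
  rw [ContinuousLinearMap.comp_apply, ContinuousLinearMap.comp_apply, ext_emb h1, inc_emb, inc_emb,
    ext_emb h2]

/-- Restriction to a finite set, as a map from `ℓ²` to `ℓ¹`. -/
def dn (F : Finset S) : H S →L[ℝ] E1 S :=
  ∑ σ ∈ F, (lp.evalCLM ℝ (fun _ : S => ℝ) 2 σ).smulRight (emb 1 (Finsupp.single σ 1))

theorem dn_apply (F : Finset S) (ξ : H S) (τ : S) : dn F ξ τ = ind (F : Set S) τ * ξ τ := by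
  classical
  rw [dn, _root_.sum_apply, lp.coeFn_sum, Finset.sum_apply]
  change ∑ σ ∈ F, ξ σ * (Finsupp.single σ (1 : ℝ) : S →₀ ℝ) τ = _
  simp only [Finsupp.single_apply, mul_ite, mul_one, mul_zero, sum_ite_eq', ind, mem_coe, ite_mul,
    one_mul, zero_mul]

theorem inc_comp_dn (F : Finset S) : (inc S).comp (dn F) = pr 2 (F : Set S) :=
  ContinuousLinearMap.ext fun ξ => lp.ext (funext fun τ => (dn_apply F ξ τ).trans
    (pr_apply _ _ _).symm)

theorem dn_comp_inc (F : Finset S) : (dn F).comp (inc S) = pr 1 (F : Set S) :=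
  ContinuousLinearMap.ext fun ξ => lp.ext (funext fun τ => (dn_apply F (inc S ξ) τ).trans
    (pr_apply _ ξ τ).symm)

theorem inc_comp_pr (F : Set S) : (inc S).comp (pr 1 F) = (pr 2 F).comp (inc S) :=
  inc_comp_ext (bd_ind F) (bd_ind F)

theorem dn_comp_pr (F : Finset S) (G : Set S) : (dn F).comp (pr 2 G) = (pr 1 G).comp (dn F) :=
  ContinuousLinearMap.ext fun ξ => lp.ext (funext fun τ => by
    rw [ContinuousLinearMap.comp_apply, ContinuousLinearMap.comp_apply, dn_apply, pr_apply,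
      pr_apply, dn_apply, mul_left_comm])

theorem dn_comp_pr_self (F : Finset S) : (dn F).comp (pr 2 (F : Set S)) = dn F := by
  rw [dn_comp_pr]
  exact ContinuousLinearMap.ext fun ξ => lp.ext (funext fun τ => by
    rw [ContinuousLinearMap.comp_apply, pr_apply, dn_apply, ← mul_assoc, ind_mul, Set.inter_self])

theorem pr_comp_dn_self (F : Finset S) : (pr 1 (F : Set S)).comp (dn F) = dn F := by
  rw [← dn_comp_pr, dn_comp_pr_self]

end Inc

section Filt

variable [DecidableEq S] {p : ℝ≥0∞} [Fact (1 ≤ p)] [Fact (p ≠ ⊤)] {T : E S}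

variable (S p) in
/-- The filtration by finite sets of coordinates. -/
def PF (F : Finset S) : Lp S p →L[ℝ] Lp S p := pr p (F : Set S)

theorem isFilt_PF : IsFilt (PF S p) where
  mono F G h := by
    rw [PF, PF, pr_mul, pr_mul, Set.inter_eq_left.2 (coe_subset.2 h),
      Set.inter_eq_right.2 (coe_subset.2 h)]
    exact ⟨rfl, rfl⟩
  bd _ := norm_pr_le _

theorem tendsto_neg_iff_aux {ι W : Type} [NormedAddCommGroup W] {l : Filter ι} {f : ι → W} :
    Tendsto (fun i => -f i) l (𝓝 0) ↔ Tendsto f l (𝓝 0) :=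
  ⟨fun h => by simpa using h.neg, fun h => by simpa using h.neg⟩

theorem mem_KK_iff {x : Lp S p →L[ℝ] Lp S p} : x ∈ KK (PF S p) ↔
    Tendsto (fun F : Finset S => (1 - pr p (F : Set S)) * x) atTop (𝓝 0) ∧
      Tendsto (fun F : Finset S => x * (1 - pr p (F : Set S))) atTop (𝓝 0) := by
  refine and_congr ?_ ?_ <;> rw [← tendsto_sub_nhds_zero_iff, ← tendsto_neg_iff_aux] <;>
    simp only [sub_mul, mul_sub, one_mul, mul_one, neg_sub, PF]

theorem mem_KK_of (hT : Bd p T)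
    (h : Tendsto (fun F : Finset S => ext p T * (1 - pr p (F : Set S))) atTop (𝓝 0)) :
    ext p T ∈ KK (PF S p) := mem_KK_iff.2 ⟨tendsto_compl_mul hT h, h⟩

theorem mem_Loc_of (hT : Bd p T) (h : ∀ G : Finset S, Tendsto (fun F : Finset S =>
    pr p (G : Set S) * ext p T * (1 - pr p (F : Set S))) atTop (𝓝 0)) :
    ext p T ∈ Loc (PF S p) := fun G => by
  refine ⟨mem_KK_iff.2 ⟨tendsto_const_nhds.congr' ?_, ?_⟩, mem_KK_iff.2 ⟨?_, h G⟩⟩
  · filter_upwards [compl_mul_eq_zero hT G] with F hF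
    rw [← mul_assoc, PF, hF]
  · simpa only [mul_assoc, mul_zero] using
      (mem_KK_iff.1 (isFilt_PF.P_mem G)).2.const_mul (ext p T)
  · simpa only [mul_assoc, zero_mul] using
      (mem_KK_iff.1 (isFilt_PF.P_mem G)).1.mul_const (ext p T)

theorem mem_Loc_of_finite (hT : Bd p T) (hr : ∀ τ, {σ | col T σ τ ≠ 0}.Finite) :
    ext p T ∈ Loc (PF S p) := mem_Loc_of hT fun G =>
  tendsto_const_nhds.congr' ((mul_compl_eq_zero hT hr G).mono fun _ h => h.symm)

theorem mem_KK1 (hT : Bd 1 T) (h : Small T) :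
    ext 1 T ∈ KK (PF S 1) :=
  mem_KK_of hT (tendsto1_mul_compl hT fun _ hε => h.eventually (ge_mem_nhds hε))

theorem mem_Loc1 (hT : Bd 1 T) (h : ∀ τ, Tendsto (fun σ => col T σ τ) cofinite (𝓝 0)) :
    ext 1 T ∈ Loc (PF S 1) := mem_Loc_of hT (tendsto1_row hT h)

theorem mem_KK2 (hT : Bnd T) (h : Small T) : ext 2 T ∈ KK (PF S 2) :=
  mem_KK_of (bnd_bd2 hT) (tendsto2_mul_compl hT h)

theorem bnd_loc1 (hT : Bnd T) : ext 1 T ∈ Loc (PF S 1) :=
  mem_Loc_of_finite (bnd_bd1 hT) (bnd_row_finite hT)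

theorem bnd_loc2 (hT : Bnd T) : ext 2 T ∈ Loc (PF S 2) :=
  mem_Loc_of_finite (bnd_bd2 hT) (bnd_row_finite hT)

omit [DecidableEq S] in
theorem prj1_eq (F : Finset S) : prj1 F = PF S 1 F :=
  ContinuousLinearMap.ext fun ξ => lp.ext (funext fun σ => by
    rw [prj1_apply, PF, pr_apply]
    by_cases h : σ ∈ F
    · rw [if_pos h, ind_of_mem (σ := σ) h, one_mul]
    · rw [if_neg h, ind_of_notMem (σ := σ) h, zero_mul])

omit [DecidableEq S] in
theorem ext1_iff {x : E1 S →L[ℝ] E1 S} : Ext1 T x ↔ Bd 1 T ∧ x = ext 1 T :=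
  ⟨fun h => ⟨IsExt.bd h, IsExt.eq h⟩, fun h => h.2 ▸ h.1.isExt⟩

end Filt

section Conj

variable {w : S → ℝ} {T : E S}

theorem cj_smul (t c : ℝ) (T : E S) : cj w t (c • T) = c • cj w t T := by
  simp only [cj, mul_smul_comm, smul_mul_assoc]

theorem cj_cj (s t : ℝ) (T : E S) : cj w s (cj w t T) = cj w (s + t) T := en_ext fun σ τ => by
  rw [col_cj, col_cj, col_cj, ← mul_assoc, ← Real.exp_add, add_mul]

theorem cj_dgl (t : ℝ) (f : S → ℝ) : cj w t (dgl f) = dgl f := by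
  classical
  refine cj_of_eq (fun σ τ h => ?_) t
  rw [col_dgl] at h
  rw [(Finsupp.single_apply_ne_zero.1 h).1]

theorem col_cj_ne {t : ℝ} {σ τ : S} (h : col (cj w t T) σ τ ≠ 0) : col T σ τ ≠ 0 := by
  rw [col_cj] at h; exact right_ne_zero_of_mul h

variable (w) in
/-- Conjugation by the weight as an algebra homomorphism. -/
def cjA (t : ℝ) : E S →ₐ[ℝ] E S :=
  AlgHom.ofLinearMap ⟨⟨cj w t, cj_add w t⟩, cj_smul t⟩ (cj_one w t) (cj_mul w t)

@[simp] theorem cjA_apply (t : ℝ) (T : E S) : cjA w t T = cj w t T := rfl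

theorem ms_cj_le {t c : ℝ} {σ : S} (h : ∀ τ, col T σ τ ≠ 0 → t * (w τ - w σ) ≤ c) :
    ms (col (cj w t T) σ) ≤ Real.exp c * ms (col T σ) :=
  ms_le_of (Real.exp_pos c).le fun τ => by
    rw [col_cj, abs_mul, Real.abs_exp]
    by_cases h0 : col T σ τ = 0
    · simp [h0]
    · exact mul_le_mul_of_nonneg_right (Real.exp_le_exp.2 (h τ h0)) (abs_nonneg _)

theorem abs_exp_sub_one_le {l : ℝ} (hl : |l| ≤ 1) (y : ℝ) :
    |Real.exp (l * y) - 1| ≤ |l| * (Real.exp y + Real.exp (-y)) := by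
  wlog h : 0 ≤ l generalizing l y
  · have := this (l := -l) (by rwa [abs_neg]) (-y) (by linarith)
    rwa [neg_mul_neg, abs_neg, neg_neg, add_comm] at this
  rw [abs_of_nonneg h] at hl ⊢
  have h1 := convexOn_exp.2 (Set.mem_univ y) (Set.mem_univ 0) h (sub_nonneg.2 hl) (by ring)
  simp only [smul_eq_mul, mul_zero, add_zero, Real.exp_zero, mul_one] at h1
  have h2 := Real.add_one_le_exp (l * y)
  have h3 := Real.add_one_le_exp (-y)
  have h4 := Real.exp_pos y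
  have h5 := Real.exp_pos (-y)
  rw [abs_le]
  constructor <;> nlinarith

theorem ms_cj_sub_le {t δ l A B : ℝ} (hl : |l| ≤ 1) {σ : S} (hA : ms (col (cj w (t + δ) T) σ) ≤ A)
    (hB : ms (col (cj w (t - δ) T) σ) ≤ B) :
    ms (col (cj w (t + l * δ) T - cj w t T) σ) ≤ |l| * (A + B) := by
  refine le_trans (sum_le_sum (g := fun τ => |l| * (|col (cj w (t + δ) T) σ τ| +
    |col (cj w (t - δ) T) σ τ|)) fun τ _ => ?_) ?_
  · have h := abs_exp_sub_one_le hl (δ * (w τ - w σ))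
    rw [col_sub, Finsupp.sub_apply, col_cj, col_cj, col_cj, col_cj, add_mul t, add_mul t,
      sub_mul t, sub_eq_add_neg (t * _), Real.exp_add, Real.exp_add, Real.exp_add, ← sub_mul,
      ← mul_sub_one, mul_assoc l]
    simp only [abs_mul, Real.abs_exp]
    have := mul_le_mul_of_nonneg_right (mul_le_mul_of_nonneg_left h
      (Real.exp_pos (t * (w τ - w σ))).le) (abs_nonneg (col T σ τ))
    linarith
  · rw [← mul_sum, sum_add_distrib]
    exact mul_le_mul_of_nonneg_left (add_le_add ((sum_le_ms _ _).trans hA)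
      ((sum_le_ms _ _).trans hB)) (abs_nonneg _)

/-- Norm continuity in the exponent. -/
theorem continuousOn_ext_cj {U : Set ℝ} (hU : IsOpen U)
    (h : ∀ t ∈ U, ∃ A : ℝ, ∀ σ, ms (col (cj w t T) σ) ≤ A) :
    ContinuousOn (fun t => ext 1 (cj w t T)) U := fun t ht => by
  refine ContinuousAt.continuousWithinAt ?_
  obtain ⟨r, hr, hb⟩ := Metric.isOpen_iff.1 hU t ht
  have hδ : 0 < r / 2 := half_pos hr
  obtain ⟨A, hA⟩ := h (t + r / 2) (hb (by simp [abs_of_pos hr, hr]))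
  obtain ⟨B, hB⟩ := h (t - r / 2) (hb (by simp [abs_of_pos hr, hr]))
  refine tendsto_iff_norm_sub_tendsto_zero.2 (squeeze_zero' (g := fun s => |(s - t) / (r / 2)| *
    (|A| + |B|)) (Eventually.of_forall fun _ => norm_nonneg _) ?_ ?_)
  · filter_upwards [Metric.ball_mem_nhds t hδ] with s hs
    obtain ⟨C, hC⟩ := h s (hb (Metric.ball_subset_ball (by linarith) hs))
    obtain ⟨D, hD⟩ := h t ht
    rw [← ext_sub (bd1_of hC) (bd1_of hD)]
    refine norm_ext1_le (by positivity) fun σ => ?_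
    have := ms_cj_sub_le (l := (s - t) / (r / 2)) (by
      rw [abs_div, abs_of_pos hδ, div_le_one hδ]; exact le_of_lt hs)
      ((hA σ).trans (le_abs_self _)) ((hB σ).trans (le_abs_self _))
    rwa [div_mul_cancel₀ _ hδ.ne', add_sub_cancel] at this
  · have : Continuous fun s : ℝ => |(s - t) / (r / 2)| * (|A| + |B|) := by fun_prop
    simpa using this.tendsto t

/-- The rows tend to zero when a smaller exponent is bounded too. -/
theorem tendsto_row_cj (hw : ∀ W : ℝ, {σ | w σ ≤ W}.Finite) {s t A : ℝ} (hst : s < t)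
    (hA : ∀ σ, ms (col (cj w s T) σ) ≤ A) (τ : S) :
    Tendsto (fun σ => col (cj w t T) σ τ) cofinite (𝓝 0) := by
  have h1 : Tendsto w cofinite atTop := tendsto_atTop.2 fun W =>
    eventually_cofinite.2 ((hw W).subset fun σ hσ => (not_le.1 hσ).le)
  have h2 : Tendsto (fun σ => Real.exp ((t - s) * (w τ - w σ)) * A) cofinite (𝓝 0) := by
    simpa [sub_eq_add_neg (w τ)] using (Real.tendsto_exp_atBot.comp ((tendsto_atBot_add_const_left _ (w τ)
      (tendsto_neg_atTop_atBot.comp h1)).const_mul_atBot (sub_pos.2 hst))).mul_const A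
  refine squeeze_zero_norm (fun σ => ?_) h2
  rw [← sub_add_cancel t s, ← cj_cj, col_cj, norm_mul, Real.norm_eq_abs, Real.abs_exp,
    sub_add_cancel]
  exact mul_le_mul_of_nonneg_left ((abs_le_ms _ _).trans (hA σ)) (Real.exp_pos _).le

end Conj

section Curry

open BCO

variable {G : Type} [Group G]

theorem summable_unc (ξ : V G (H S)) :
    Summable fun x : G × S => ‖ξ x.1 x.2‖ ^ (2 : ℝ≥0∞).toReal := by
  refine (summable_prod_of_nonneg fun _ => by positivity).2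
    ⟨fun g => (lp.memℓp (ξ g)).summable (by simp), ?_⟩
  simp only [← lp.norm_rpow_eq_tsum (p := 2) (by simp)]
  exact (lp.memℓp ξ).summable (by simp)

/-- A function on `G` with values in `ℓ²(S)` as a function on `S × G`. -/
def unc : V G (H S) →ₗᵢ[ℝ] H (S × G) where
  toFun ξ := ⟨fun x => ξ x.2 x.1, memℓp_gen (summable_unc ξ).prod_symm⟩
  map_add' _ _ := rfl
  map_smul' _ _ := rfl
  norm_map' ξ := by
    rw [lp.norm_eq_tsum_rpow (by simp), lp.norm_eq_tsum_rpow (by simp)]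
    congr 1
    rw [← (Equiv.prodComm G S).tsum_eq]
    refine (summable_unc ξ).tsum_prod.trans ?_
    simp only [← lp.norm_rpow_eq_tsum (p := 2) (by simp)]

theorem unc_surjective : Function.Surjective (unc : V G (H S) → H (S × G)) := fun η => by
  have h := (summable_prod_of_nonneg (f := fun x : G × S => ‖η x.swap‖ ^ (2 : ℝ≥0∞).toReal)
    fun _ => by positivity).1 ((lp.memℓp η).summable (by simp)).prod_symm
  refine ⟨⟨fun g => ⟨fun σ => η (σ, g), memℓp_gen (h.1 g)⟩, memℓp_gen ?_⟩, rfl⟩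
  simp only [lp.norm_rpow_eq_tsum (p := 2) (by simp)]
  exact h.2

variable (G S) in
/-- The isometry `ℓ²(G, ℓ²(S)) = ℓ²(S × G)`. -/
def curry : V G (H S) ≃ₗᵢ[ℝ] H (S × G) := LinearIsometryEquiv.ofSurjective unc unc_surjective

@[simp] theorem curry_apply (ξ : V G (H S)) (σ : S) (g : G) : curry S G ξ (σ, g) = ξ g σ := rfl

@[simp] theorem curry_symm_apply (η : H (S × G)) (σ : S) (g : G) :
    (curry S G).symm η g σ = η (σ, g) := by
  rw [← curry_apply, LinearIsometryEquiv.apply_symm_apply]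

variable (G S) in
/-- Operators on `ℓ²(G, ℓ²(S))` as operators on `ℓ²(S × G)`. -/
def cur : (V G (H S) →L[ℝ] V G (H S)) ≃A[ℝ] Op (S × G) :=
  (curry S G).toContinuousLinearEquiv.conjContinuousAlgEquiv

theorem cur_apply (A : V G (H S) →L[ℝ] V G (H S)) (η : H (S × G)) (σ : S) (g : G) :
    cur S G A η (σ, g) = A ((curry S G).symm η) g σ := rfl

theorem norm_cur (A : V G (H S) →L[ℝ] V G (H S)) : ‖cur S G A‖ = ‖A‖ :=
  ((curry S G).toLinearIsometry.norm_toContinuousLinearMap_comp).trans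
    (A.opNorm_comp_linearIsometryEquiv (curry S G).symm)

open Classical in
theorem entry_cur_tw (g : G) (T : Op S) (σ τ : S) (x y : G) :
    entry (cur S G (tw g T)) (σ, x) (τ, y) = if x = g * y then entry T σ τ else 0 := by
  rw [entry, cur_apply, tw_apply]
  split_ifs with h
  · refine congrArg (fun ζ : H S => T ζ σ) (lp.ext (funext fun ρ => ?_))
    rw [curry_symm_apply, h, inv_mul_cancel_left, ← emb_single, ← emb_single, emb_apply, emb_apply]
    simp [Finsupp.single_apply]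
  · refine (congrArg (fun ζ : H S => T ζ σ) (a₂ := 0) (lp.ext (funext fun ρ => ?_))).trans ?_
    · rw [curry_symm_apply, ← emb_single, emb_apply]
      exact Finsupp.single_eq_of_ne fun e => h (inv_mul_eq_iff_eq_mul.1 (congrArg Prod.snd e))
    · simp

theorem cur_amp_dgl {f : S → ℝ} {C : ℝ} (h : ∀ σ, |f σ| ≤ C) :
    cur S G (amp G (ext 2 (dgl f))) = mulOp (fun x => f x.1) C fun x => h x.1 :=
  ContinuousLinearMap.ext fun η => lp.ext (funext fun ⟨σ, g⟩ => by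
    rw [cur_apply, amp_apply, ext_dgl_apply h, curry_symm_apply]; rfl)

/-- The operator `T ⊗ λ(γ)` exists as soon as `T` is bounded on `ℓ²`. -/
theorem isTw2_cur (γ : G) {T : E S} (hT : Bd 2 T) : IsTw2 γ T (cur S G (tw γ (ext 2 T))) :=
  fun a b g g' => (entry_cur_tw γ (ext 2 T) a b g g').trans (by rw [entry_ext2 hT])

theorem op_eq_of_entry {Z Z' : Type} {x y : H Z' →L[ℝ] H Z} (h : ∀ a b, entry x a b = entry y a b) :
    x = y := ext_of_single fun b => lp.ext (funext fun a => by rw [emb_single]; exact h a b)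

theorem IsTw2.eq {γ : G} {T : E S} (hT : Bd 2 T) {y : Op (Tw S G)} (h : IsTw2 γ T y) :
    y = cur S G (tw γ (ext 2 T)) :=
  op_eq_of_entry fun a b => (h a.1 b.1 a.2 b.2).trans (isTw2_cur γ hT a.1 b.1 a.2 b.2).symm

theorem IsTw1.eq {γ : G} {T : E S} {b : Op1 G S} (h : IsTw1 γ T b) :
    Bd 1 T ∧ b = tw γ (ext 1 T) := by
  obtain ⟨x, hx, rfl⟩ := h
  exact ⟨(ext1_iff.1 hx).1, by rw [(ext1_iff.1 hx).2]⟩

theorem isTw1_ext (γ : G) {T : E S} (hT : Bd 1 T) : IsTw1 γ T (tw γ (ext 1 T)) :=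
  ⟨_, ext1_iff.2 ⟨hT, rfl⟩, rfl⟩

end Curry

section Chain

variable {Γ X : Type} [Group Γ] [MetricSpace X] [MulAction Γ X] {o : X} (c : CD Γ X o)

theorem abs_sg (g : Γ) (σ : c.Δ) : |c.sg g σ| = 1 := by
  rcases c.sg_sq g σ with h | h <;> simp [h]

theorem bnd_pi (g : Γ) : Bnd (c.π g) :=
  bnd_of_single _ (MulAction.injective g) _ (fun σ => (abs_sg c g σ).le) (c.π_col g)

theorem bnd_of_keep {T : E c.Δ} {C : ℝ} (h : ∀ σ, ms (col T σ) ≤ C)
    (hp : ∀ σ τ, col T σ τ ≠ 0 → c.p τ = c.p σ) : Bnd T :=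
  ⟨C, c.N, h, fun τ => let ⟨F, h1, h2⟩ := c.p_fib (c.p τ); ⟨F, h1, fun σ e => h2 σ (hp σ τ e).symm⟩⟩

theorem bnd_h : Bnd c.h := bnd_of_keep c c.h_ms fun σ τ e => (c.h_sup σ τ e).2

theorem bnd_i : Bnd c.i := bnd_of_keep c c.i_ms fun σ τ e => (c.i_sup σ τ e).2

theorem cj_h (t : ℝ) : cj c.w t c.h = c.h :=
  cj_of_eq (fun σ τ e => by rw [c.w_eq, c.w_eq, (c.h_sup σ τ e).2]) t

theorem cj_i (t : ℝ) : cj c.w t c.i = c.i :=
  cj_of_eq (fun σ τ e => by rw [c.w_eq, c.w_eq, (c.i_sup σ τ e).2]) t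

theorem ms_cj_d {t : ℝ} (ht : 0 ≤ t) (σ : c.Δ) : ms (col (cj c.w t c.d) σ) ≤ c.N := by
  have := ms_cj_le (w := c.w) (T := c.d) (t := t) (c := 0) (σ := σ) fun τ e =>
    mul_nonpos_of_nonneg_of_nonpos ht (sub_nonpos.2 (c.d_sup σ τ e).2)
  rw [Real.exp_zero, one_mul] at this
  exact this.trans (c.d_ms σ)

theorem ms_cj_pi (u : ℝ) (g : Γ) (σ : c.Δ) :
    ms (col (cj c.w u (c.π g)) σ) ≤ Real.exp (|u| * dist o (g • o)) := by
  have := ms_cj_le (w := c.w) (T := c.π g) (t := u) (c := |u| * dist o (g • o)) (σ := σ)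
    fun τ e => by
      rw [c.π_col] at e
      rw [(Finsupp.single_apply_ne_zero.1 e).1]
      exact (le_abs_self _).trans ((abs_mul _ _).le.trans
        (mul_le_mul_of_nonneg_left (c.w_smul g σ) (abs_nonneg _)))
  rwa [c.π_col, ms_single, abs_sg, mul_one] at this

theorem bnd_cj_pi (u : ℝ) (g : Γ) : Bnd (cj c.w u (c.π g)) :=
  bnd_of_le (bnd_pi c g) (C := Real.exp (|u| * dist o (g • o))) fun σ τ => by
    rw [col_cj, abs_mul, Real.abs_exp]
    by_cases e : col (c.π g) σ τ = 0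
    · simp [e]
    · refine mul_le_mul_of_nonneg_right (Real.exp_le_exp.2 ?_) (abs_nonneg _)
      rw [c.π_col] at e
      rw [(Finsupp.single_apply_ne_zero.1 e).1]
      exact (le_abs_self _).trans ((abs_mul _ _).le.trans
        (mul_le_mul_of_nonneg_left (c.w_smul g σ) (abs_nonneg _)))

theorem continuous_ext_pi (g : Γ) : Continuous fun u => ext 1 (cj c.w u (c.π g)) :=
  continuousOn_univ.1 (continuousOn_ext_cj isOpen_univ fun u _ => ⟨_, ms_cj_pi c u g⟩)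

theorem continuousOn_ext_d : ContinuousOn (fun t => ext 1 (cj c.w t c.d)) (Set.Ioi 0) :=
  continuousOn_ext_cj isOpen_Ioi fun _ ht => ⟨_, ms_cj_d c (le_of_lt ht)⟩

theorem continuousOn_ext_J : ContinuousOn (fun t => ext 1 (cj c.w t c.J)) (Set.Ioi 0) :=
  continuousOn_ext_cj isOpen_Ioi c.J_ms

theorem row_cj_d {t : ℝ} (ht : 0 < t) (τ : c.Δ) :
    Tendsto (fun σ => col (cj c.w t c.d) σ τ) cofinite (𝓝 0) :=
  tendsto_row_cj c.w_fin ht (ms_cj_d c le_rfl) τ

theorem row_cj_J {t : ℝ} (ht : 0 < t) (τ : c.Δ) :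
    Tendsto (fun σ => col (cj c.w t c.J) σ τ) cofinite (𝓝 0) :=
  let ⟨_, hA⟩ := c.J_ms _ (half_pos ht); tendsto_row_cj c.w_fin (half_lt_self ht) hA τ

theorem abs_evn (σ : c.Δ) : |evn c σ| ≤ 1 := by unfold evn; split_ifs <;> simp

theorem evn_idem : dgl (evn c) * dgl (evn c) = dgl (evn c) := by
  rw [dgl_mul]; congr 1; funext σ; unfold evn; split_ifs <;> simp

theorem evn_comm {T : E c.Δ} (h : ∀ σ τ, col T σ τ ≠ 0 → c.deg τ = c.deg σ) :
    dgl (evn c) * T = T * dgl (evn c) := dgl_comm_of fun σ τ e => by rw [evn, evn, h σ τ e]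

theorem evn_pi (u : ℝ) (g : Γ) :
    dgl (evn c) * cj c.w u (c.π g) = cj c.w u (c.π g) * dgl (evn c) := evn_comm c fun σ τ e => by
  have e := col_cj_ne e
  rw [c.π_col] at e
  rw [(Finsupp.single_apply_ne_zero.1 e).1, c.deg_smul]

theorem evn_odd {T : E c.Δ}
    (h : ∀ σ τ, col T σ τ ≠ 0 → c.deg τ + 1 = c.deg σ ∨ c.deg τ = c.deg σ + 1) :
    dgl (evn c) * T = T * (1 - dgl (evn c)) := by
  rw [← dgl_one, dgl_sub]
  refine dgl_comm_of fun σ τ e => ?_
  unfold evn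
  rcases h σ τ e with h | h
  · rw [← h]; by_cases h1 : Even (c.deg τ) <;> simp [Nat.even_add_one, h1]
  · rw [h]; by_cases h1 : Even (c.deg σ) <;> simp [Nat.even_add_one, h1]

end Chain

end BCR
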