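import Pool.Agent.Lib.BCH.MORa
import Pool.Agent.Lib.BCH.MORData

/-! Stability: the corner embedding induces a bijection on `KO_n`. -/

namespace Pool.Agent.Lib.BCH

theorem stMOR : St_MOR := stMOR_of stSTAB stMDATA

end Pool.Agent.Lib.BCH
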