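import Pool.Agent.Lib.BCH.Blue4

/-! Blueprint of the stability theorem. -/

noncomputable section

open Filter Topology

namespace Pool.Agent.Lib.BCH

/-- A system of matrix units in `J` over the corner `θ R = p J p`, `p = v i0`. -/
structure MorData {R J : Type} (I : Type)
    [NonUnitalNormedRing R] [NormedSpace ℝ R] [IsScalarTower ℝ R R] [SMulCommClass ℝ R R]
    [NonUnitalNormedRing J] [NormedSpace ℝ J] [IsScalarTower ℝ J J] [SMulCommClass ℝ J J]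
    (θ : R →ₙₐ[ℝ] J) where
  i0 : I
  v : I → J
  w : I → J
  σ : J →L[ℝ] R
  σθ : ∀ r, σ (θ r) = r
  θσ : ∀ x, θ (σ x) = v i0 * x * v i0
  w0 : w i0 = v i0
  wv : ∀ i, w i * v i = v i0
  wv' : ∀ i j, i ≠ j → w i * v j = 0
  vp : ∀ i, v i * v i0 = v i
  pw : ∀ i, v i0 * w i = w i
  bd : ∀ F : Finset I, ‖∑ i ∈ F, v i * w i‖ ≤ 1
  liml : ∀ x, Tendsto (fun F : Finset I => (∑ i ∈ F, v i * w i) * x) atTop (𝓝 x)
  limr : ∀ x, Tendsto (fun F : Finset I => x * ∑ i ∈ F, v i * w i) atTop (𝓝 x)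

/-- Abstract stability. -/
def St_STAB : Prop :=
  ∀ (R J I : Type)
    [NonUnitalNormedRing R] [NormedSpace ℝ R] [IsScalarTower ℝ R R] [SMulCommClass ℝ R R]
    [NonUnitalNormedRing J] [NormedSpace ℝ J] [IsScalarTower ℝ J J] [SMulCommClass ℝ J J]
    [CompleteSpace J] (θ : R →ₙₐ[ℝ] J) (hθ : Continuous θ) (n : ℕ), MorData I θ →
    Function.Bijective (KO.map n θ hθ)

/-- The matrix units of the Roe algebra. -/
def St_MDATA : Prop :=
  ∀ (Γ X Z : Type) [Group Γ] [MetricSpace X] [ProperSpace X] [MulAction Γ X]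
    [IsIsometricSMul Γ X] [MulAction Γ Z] (o : X) (pos : Z → X) (z : Z), Geom Γ o →
    IsAmple Γ pos → ∃ (I : Type) (θ : Cred Γ →ₙₐ[ℝ] Cstar Γ pos), Continuous θ ∧
      (∀ T, IsCorner z T.1 (θ T).1) ∧ Nonempty (MorData (R := Cred Γ) (J := Cstar Γ pos) I θ)

theorem stMOR_of (h1 : St_STAB) (h2 : St_MDATA) : St_MOR := by
  intro Γ X Z _ _ _ _ _ _ o pos z n hG hA
  obtain ⟨I, θ, hθ, hc, ⟨D⟩⟩ := h2 Γ X Z o pos z hG hA
  have h3 := h1 (Cred Γ) (Cstar Γ pos) I θ hθ n D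
  exact ⟨θ, hθ, hc, h3⟩

end Pool.Agent.Lib.BCH
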