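import Pool.Agent.Lib.BCH.Defs

/-! The assembly map with values in the K-theory of the reduced group algebra. -/

namespace Pool.Agent.Lib.BCH

variable (Γ : Type) {X Z : Type} [Group Γ] [MetricSpace X] [MulAction Γ Z]

/-- `μ` is the Baum-Connes assembly map `KO_(n+1) (D*(X)^Γ / C*(X)^Γ) → KO_n (C*_r Γ)`: the
boundary map followed by the inverse of the bijection induced by the corner embedding of
`C*_r Γ` in `C*(X)^Γ` along the orbit of `z`. -/
def IsAssembly (pos : Z → X) (z : Z) (n : ℕ)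
    (μ : KOsucc n (Dstar Γ pos ⧸ Cid Γ pos) → KO n (Cred Γ)) : Prop :=
  ∃ (θ : Cred Γ →ₙₐ[ℝ] Cstar Γ pos) (hθ : Continuous θ), (∀ T, IsCorner z T.1 (θ T).1) ∧
    Function.Bijective (KO.map n θ hθ) ∧ ∀ x, KO.map n θ hθ (μ x) = assembly Γ pos n x

end Pool.Agent.Lib.BCH
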