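import Pool.Agent.Lib.BCH.Blue2
import Pool.Agent.Lib.BCH.Roe46

/-! The algebra of compatible pairs of operators. -/

set_option linter.unusedSectionVars false

noncomputable section

open Filter Topology Finset BCO
open scoped Classical

namespace Pool.Agent.Lib.BCH

open Pool.Agent.Lib.BCC (E ms ofCol)

namespace PAIR

theorem sq_le_two {Z : Type} {W : Type} [NormedAddCommGroup W] (ξ : lp (fun _ : Z => W) 2)
    (s : Finset Z) : ∑ z ∈ s, ‖ξ z‖ ^ 2 ≤ ‖ξ‖ ^ 2 := by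
  simpa using lp.sum_rpow_le_norm_rpow (p := 2) (by norm_num) ξ s

theorem sq_le_one {S : Type} (v : E1 S) (s : Finset S) : ∑ z ∈ s, ‖v z‖ ^ 2 ≤ ‖v‖ ^ 2 := by
  have h : ∑ z ∈ s, ‖v z‖ ≤ ‖v‖ := by
    simpa using lp.sum_rpow_le_norm_rpow (p := 1) (by norm_num) v s
  calc ∑ z ∈ s, ‖v z‖ ^ 2 ≤ ∑ z ∈ s, ‖v‖ * ‖v z‖ := sum_le_sum fun z _ => by
        rw [sq]
        exact mul_le_mul_of_nonneg_right (lp.norm_apply_le_norm (by norm_num) v z) (norm_nonneg _)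
    _ ≤ ‖v‖ ^ 2 := by
        rw [← mul_sum, sq]; exact mul_le_mul_of_nonneg_left h (norm_nonneg _)

/-- Each row has at most `M` nonzero entries. -/
def Rows {Z : Type} (M : ℕ) (y : Op Z) : Prop :=
  ∀ a, ∃ F : Finset Z, F.card ≤ M ∧ ∀ b, entry y a b ≠ 0 → b ∈ F

theorem Rows.mono {Z : Type} {M : ℕ} {y y' : Op Z} (h : Rows M y)
    (h' : ∀ a b, entry y a b = 0 → entry y' a b = 0) : Rows M y' := fun a => by
  obtain ⟨F, h1, h2⟩ := h a
  exact ⟨F, h1, fun b hb => h2 b fun h0 => hb (h' a b h0)⟩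

theorem schur {Z : Type} {M : ℕ} {y : Op Z} (h : Rows M y) {ε : ℝ} (hε : 0 ≤ ε)
    (hc : ∀ b, ‖y (dl b)‖ ≤ ε) : ‖y‖ ≤ √M * ε := by
  choose F h1 h2 using h
  refine y.opNorm_le_bound (by positivity) fun η => ?_
  refine lp.norm_le_of_forall_sum_le (by norm_num) (by positivity) fun A => ?_
  simp only [ENNReal.toReal_ofNat, Real.rpow_ofNat, Real.norm_eq_abs, sq_abs]
  rw [mul_pow, mul_pow, Real.sq_sqrt (Nat.cast_nonneg M)]
  calc ∑ a ∈ A, y η a ^ 2 ≤ ∑ a ∈ A, (M : ℝ) * ∑ b ∈ A.biUnion F, (entry y a b * η b) ^ 2 := by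
        refine sum_le_sum fun a ha => ?_
        rw [(hasSum_apply y η a).unique (hasSum_sum_of_ne_finset_zero (s := F a) fun b hb => by
          rw [not_not.1 fun h0 => hb (h2 a b h0), zero_mul])]
        refine sq_sum_le_card_mul_sum_sq.trans (mul_le_mul (by exact_mod_cast h1 a)
          (sum_le_sum_of_subset_of_nonneg (subset_biUnion_of_mem F ha) fun _ _ _ => sq_nonneg _)
          (sum_nonneg fun _ _ => sq_nonneg _) (Nat.cast_nonneg M))
    _ ≤ M * (ε ^ 2 * ‖η‖ ^ 2) := by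
        rw [← mul_sum, sum_comm]
        refine mul_le_mul_of_nonneg_left ?_ (Nat.cast_nonneg M)
        refine le_trans (sum_le_sum fun b _ => ?_) ((mul_sum _ _ _).symm.trans_le
          (mul_le_mul_of_nonneg_left (sq_le_two η (A.biUnion F)) (sq_nonneg ε)))
        simp only [mul_pow, ← sum_mul, Real.norm_eq_abs, sq_abs]
        refine mul_le_mul_of_nonneg_right ?_ (sq_nonneg _)
        have := sq_le_two (y (dl b)) A
        simp only [Real.norm_eq_abs, sq_abs] at this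
        exact this.trans (pow_le_pow_left₀ (norm_nonneg _) (hc b) 2)
    _ = M * ε ^ 2 * ‖η‖ ^ 2 := by ring

variable {Γ S : Type} [Group Γ]

theorem inc_bd (ξ : V Γ (E1 S)) (t : Finset (Tw S Γ)) :
    ∑ z ∈ t, ‖ξ z.2 z.1‖ ^ (2 : ENNReal).toReal ≤ ‖ξ‖ ^ (2 : ENNReal).toReal := by
  simp only [ENNReal.toReal_ofNat, Real.rpow_ofNat]
  calc ∑ z ∈ t, ‖ξ z.2 z.1‖ ^ 2
      ≤ ∑ z ∈ (t.image Prod.fst) ×ˢ (t.image Prod.snd), ‖ξ z.2 z.1‖ ^ 2 :=
        sum_le_sum_of_subset_of_nonneg subset_product fun _ _ _ => sq_nonneg _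
    _ ≤ ∑ g ∈ t.image Prod.snd, ‖ξ g‖ ^ 2 := by
        rw [sum_product_right]
        exact sum_le_sum fun g _ => sq_le_one (ξ g) _
    _ ≤ ‖ξ‖ ^ 2 := sq_le_two ξ _

/-- The inclusion `ℓ²(Γ; ℓ¹(S)) → ℓ²(S × Γ)`. -/
def inc : V Γ (E1 S) →L[ℝ] H (Tw S Γ) :=
  LinearMap.mkContinuous
    ⟨⟨fun ξ => ⟨fun z => ξ z.2 z.1, memℓp_gen' (inc_bd ξ)⟩, fun _ _ => rfl⟩, fun _ _ => rfl⟩ 1
    fun ξ => by
      rw [one_mul]
      exact lp.norm_le_of_forall_sum_le (by norm_num) (norm_nonneg ξ) (inc_bd ξ)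

theorem inc_apply (ξ : V Γ (E1 S)) (z : Tw S Γ) : inc ξ z = ξ z.2 z.1 := rfl

theorem norm_inc (ξ : V Γ (E1 S)) : ‖inc ξ‖ ≤ ‖ξ‖ :=
  lp.norm_le_of_forall_sum_le (by norm_num) (norm_nonneg ξ) (inc_bd ξ)

/-- The basis vectors. -/
def bv (g : Γ) (s : S) : V Γ (E1 S) := lp.single 2 g (lp.single 1 s 1)

theorem bv_apply (g g' : Γ) (s : S) : bv g s g' = if g' = g then lp.single 1 s 1 else 0 := by
  rw [bv, lp.single_apply, Pi.single_apply]

theorem norm_bv (g : Γ) (s : S) : ‖bv g s‖ = 1 := by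
  rw [bv, lp.norm_single (by norm_num), lp.norm_single (by norm_num), norm_one]

theorem inc_bv (z : Tw S Γ) : inc (bv z.2 z.1) = dl z :=
  lp.ext (funext fun a => by
    rw [inc_apply, bv_apply, dl_apply]
    by_cases h : a.2 = z.2
    · rw [if_pos h, lp.single_apply, Pi.single_apply]
      exact ite_cg ⟨fun e => Prod.ext e h, fun e => congrArg Prod.fst e⟩
    · have e : ¬a = z := fun e => h (congrArg Prod.snd e)
      rw [if_neg h, if_neg e]
      rfl)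

theorem bv_ext {W : Type} [NormedAddCommGroup W] [NormedSpace ℝ W] {A B : V Γ (E1 S) →L[ℝ] W}
    (h : ∀ g s, A (bv g s) = B (bv g s)) : A = B :=
  lp.ext_continuousLinearMap (by norm_num) fun g =>
    lp.ext_continuousLinearMap (by norm_num) fun s => ContinuousLinearMap.ext_ring (h g s)

/-- `y` extends `x`. -/
def Cmp (x : Op1 Γ S) (y : Op (Tw S Γ)) : Prop := y.comp inc = inc.comp x

theorem Cmp.app {x : Op1 Γ S} {y : Op (Tw S Γ)} (h : Cmp x y) (ξ : V Γ (E1 S)) :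
    y (inc ξ) = inc (x ξ) := congrArg (fun A : V Γ (E1 S) →L[ℝ] H (Tw S Γ) => A ξ) h

theorem Cmp.mul {x x' : Op1 Γ S} {y y' : Op (Tw S Γ)} (h : Cmp x y) (h' : Cmp x' y') :
    Cmp (x * x') (y * y') := ContinuousLinearMap.ext fun ξ => by
  change y (y' (inc ξ)) = inc (x (x' ξ))
  rw [h'.app, h.app]

theorem Cmp.add {x x' : Op1 Γ S} {y y' : Op (Tw S Γ)} (h : Cmp x y) (h' : Cmp x' y') :
    Cmp (x + x') (y + y') := ContinuousLinearMap.ext fun ξ => by
  change y (inc ξ) + y' (inc ξ) = inc (x ξ + x' ξ)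
  rw [h'.app, h.app, map_add]

theorem Cmp.sub {x x' : Op1 Γ S} {y y' : Op (Tw S Γ)} (h : Cmp x y) (h' : Cmp x' y') :
    Cmp (x - x') (y - y') := ContinuousLinearMap.ext fun ξ => by
  change y (inc ξ) - y' (inc ξ) = inc (x ξ - x' ξ)
  rw [h'.app, h.app, map_sub]

theorem Cmp.norm_le {x : Op1 Γ S} {y : Op (Tw S Γ)} (h : Cmp x y) {M : ℕ} (hM : Rows M y) :
    ‖y‖ ≤ √M * ‖x‖ :=
  schur hM (norm_nonneg _) fun z => by
    rw [← inc_bv, h.app]
    simpa only [norm_bv, mul_one] using (norm_inc _).trans (x.le_opNorm (bv z.2 z.1))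

theorem tw_bv {T : E S} {x : E1 S →L[ℝ] E1 S} (hx : Ext1 T x) (γ g g' : Γ) (a b : S) :
    inc (tw γ x (bv g' b)) ((a, g) : Tw S Γ) = if g = γ * g' then BCC.col T b a else 0 := by
  rw [inc_apply, tw_apply, bv_apply]
  by_cases h : g = γ * g'
  · rw [if_pos h, if_pos (by rw [h]; simp)]; exact hx b a
  · rw [if_neg h, if_neg fun e => h (inv_mul_eq_iff_eq_mul.1 e), map_zero]; rfl

theorem cmp_iff {T : E S} {x : E1 S →L[ℝ] E1 S} (hx : Ext1 T x) (γ : Γ) (y : Op (Tw S Γ)) :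
    Cmp (tw γ x) y ↔ IsTw2 γ T y := by
  refine ⟨fun h a b g g' => ?_, fun h => bv_ext fun g' b => lp.ext (funext fun ⟨a, g⟩ => ?_)⟩
  · rw [← tw_bv hx, ← h.app]
    exact congrArg (fun η => y η (a, g)) (inc_bv ((b, g') : Tw S Γ)).symm
  · change y (inc (bv g' b)) (a, g) = inc (tw γ x (bv g' b)) (a, g)
    rw [tw_bv hx, ← h a b g g']
    exact congrArg (fun η => y η (a, g)) (inc_bv ((b, g') : Tw S Γ))

theorem ind_le (F : Finset S) (z : Tw S Γ) : |if z.1 ∈ F then (1 : ℝ) else 0| ≤ 1 := by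
  split_ifs <;> simp

variable (Γ) in
/-- The filtration of the Hilbert space. -/
def P2 (F : Finset S) : Op (Tw S Γ) := mulOp (fun z => if z.1 ∈ F then 1 else 0) 1 (ind_le F)

theorem P2_apply (F : Finset S) (η : H (Tw S Γ)) (z : Tw S Γ) :
    P2 Γ F η z = if z.1 ∈ F then η z else 0 := by
  rw [P2, mulOp_apply]; split_ifs <;> simp

theorem isFilt_P2 : IsFilt (P2 Γ : Finset S → Op (Tw S Γ)) where
  mono F G h := by
    constructor <;> refine ContinuousLinearMap.ext fun ξ => lp.ext (funext fun z => ?_)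
    · change P2 Γ F (P2 Γ G ξ) z = P2 Γ F ξ z
      by_cases hz : z.1 ∈ F <;> simp [P2_apply, hz, @h z.1]
    · change P2 Γ G (P2 Γ F ξ) z = P2 Γ F ξ z
      by_cases hz : z.1 ∈ F <;> simp [P2_apply, hz, @h z.1]
  bd F := norm_mulOp_le _ _ _ zero_le_one (ind_le F)

theorem cmp_P (F : Finset S) : Cmp (P1 Γ F) (P2 Γ F) :=
  ContinuousLinearMap.ext fun ξ => lp.ext (funext fun z => by
    change P2 Γ F (inc ξ) z = prj1 F (ξ z.2) z.1
    rw [P2_apply, prj1_apply, inc_apply])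

theorem rows_left {M : ℕ} {y : Op (Tw S Γ)} (h : Rows M y) (F : Finset S) :
    Rows M (P2 Γ F * y) := h.mono fun a b h0 =>
  (entry_mulOp_comp _ _ _ y a b).trans (by rw [h0, mul_zero])

theorem rows_right {M : ℕ} {y : Op (Tw S Γ)} (h : Rows M y) (F : Finset S) :
    Rows M (y * P2 Γ F) := h.mono fun a b h0 =>
  (entry_comp_mulOp _ _ _ y a b).trans (by rw [h0, zero_mul])

theorem kk_of {x : Op1 Γ S} {y : Op (Tw S Γ)} (h : Cmp x y) {M : ℕ} (hM : Rows M y)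
    (hx : x ∈ KK (P1 Γ : Finset S → Op1 Γ S)) : y ∈ KK (P2 Γ : Finset S → Op (Tw S Γ)) := by
  constructor <;> rw [tendsto_iff_norm_sub_tendsto_zero]
  · refine squeeze_zero (fun _ => norm_nonneg _) (fun F => (((cmp_P F).mul h).sub h).norm_le
      (hM.mono fun a b h0 => ?_))
      (by simpa using (tendsto_iff_norm_sub_tendsto_zero.1 hx.1).const_mul √M)
    rw [entry_sub, h0, sub_zero]
    exact (entry_mulOp_comp _ _ _ y a b).trans (by rw [h0, mul_zero])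
  · refine squeeze_zero (fun _ => norm_nonneg _) (fun F => ((h.mul (cmp_P F)).sub h).norm_le
      (hM.mono fun a b h0 => ?_))
      (by simpa using (tendsto_iff_norm_sub_tendsto_zero.1 hx.2).const_mul √M)
    rw [entry_sub, h0, sub_zero]
    exact (entry_comp_mulOp _ _ _ y a b).trans (by rw [h0, zero_mul])

theorem rows_of {T : E S} (hT : Bnd T) {γ : Γ} {y : Op (Tw S Γ)} (hy : IsTw2 γ T y) :
    ∃ M, Rows M y := by
  obtain ⟨-, M, -, h⟩ := hT
  refine ⟨M, fun ⟨a, g⟩ => ?_⟩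
  obtain ⟨F, h1, h2⟩ := h a
  refine ⟨F.image fun b => ((b, γ⁻¹ * g) : Tw S Γ), card_image_le.trans h1, fun ⟨b, g'⟩ hb => ?_⟩
  rw [hy] at hb
  split_ifs at hb with e
  · exact mem_image.2 ⟨b, h2 b hb, by rw [e, inv_mul_cancel_left]⟩
  · exact absurd rfl hb

variable (Γ) in
/-- A right inverse of the inclusion on a finite corner. -/
def rs (F : Finset S) : H (Tw S Γ) →L[ℝ] V Γ (E1 S) :=
  ∑ s ∈ F, (amp Γ (lp.singleContinuousLinearMap ℝ (fun _ : S => ℝ) 1 s)).comp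
    (res (fun g : Γ => ((s, g) : Tw S Γ)) fun _ _ h => congrArg Prod.snd h)

theorem rs_apply (F : Finset S) (η : H (Tw S Γ)) (g : Γ) (a : S) :
    rs Γ F η g a = if a ∈ F then η ((a, g) : Tw S Γ) else 0 := by
  rw [rs, _root_.sum_apply, lp.coeFn_sum, Finset.sum_apply, lp.coeFn_sum, Finset.sum_apply,
    ← sum_ite_eq F a fun s => η ((s, g) : Tw S Γ)]
  refine sum_congr rfl fun s _ => ?_
  change lp.single (E := fun _ : S => ℝ) 1 s (η ((s, g) : Tw S Γ)) a = _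
  rw [lp.single_apply, Pi.single_apply]

theorem rs_inc (F : Finset S) (ξ : V Γ (E1 S)) : rs Γ F (inc ξ) = P1 Γ F ξ :=
  lp.ext (funext fun g => lp.ext (funext fun a => by
    rw [rs_apply]; exact (prj1_apply F (ξ g) a).symm))

theorem inc_rs (F : Finset S) (η : H (Tw S Γ)) : inc (rs Γ F η) = P2 Γ F η :=
  lp.ext (funext fun z => by rw [inc_apply, rs_apply, P2_apply]; rfl)

variable (Γ) in
/-- The transfer of a corner. -/
def tau (F : Finset S) : Op1 Γ S →L[ℝ] Op (Tw S Γ) :=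
  ((ContinuousLinearMap.compL ℝ _ _ _).flip (rs Γ F)).comp
    (ContinuousLinearMap.compL ℝ _ _ _ (inc.comp (P1 Γ F)))

theorem tau_apply (F : Finset S) (x : Op1 Γ S) (η : H (Tw S Γ)) :
    tau Γ F x η = inc (P1 Γ F (x (rs Γ F η))) := rfl

theorem cmp_tau (F : Finset S) (x : Op1 Γ S) : Cmp (P1 Γ F * x * P1 Γ F) (tau Γ F x) :=
  ContinuousLinearMap.ext fun ξ => by
    change tau Γ F x (inc ξ) = inc (P1 Γ F (x (P1 Γ F ξ)))
    rw [tau_apply, rs_inc]

theorem tau_of_cmp (F : Finset S) {x : Op1 Γ S} {y : Op (Tw S Γ)} (h : Cmp x y) :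
    tau Γ F x = P2 Γ F * y * P2 Γ F := ContinuousLinearMap.ext fun η => by
  change _ = P2 Γ F (y (P2 Γ F η))
  rw [tau_apply, ← (cmp_P F).app, ← h.app, inc_rs]

theorem cmp_unique {x : Op1 Γ S} {y y' : Op (Tw S Γ)} (h : Cmp x y) (h' : Cmp x y') : y = y' :=
  entry_ext fun a z => by rw [entry_eq, entry_eq, ← inc_bv, h.app, h'.app]

theorem tau_corner (F : Finset S) (x : Op1 Γ S) : tau Γ F x = P2 Γ F * tau Γ F x * P2 Γ F := by
  refine cmp_unique (cmp_tau F x) ?_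
  have h := ((cmp_P F).mul (cmp_tau F x)).mul (cmp_P F)
  have e := ((isFilt_P1 Γ S).mono F F le_rfl).1
  rwa [← mul_assoc, ← mul_assoc, e, mul_assoc _ (P1 Γ F), e] at h

theorem cmp_one : Cmp (1 : Op1 Γ S) 1 := ContinuousLinearMap.ext fun _ => rfl

theorem tau_one (F : Finset S) : tau Γ F 1 = P2 Γ F := by
  rw [tau_of_cmp F cmp_one, mul_one, (isFilt_P2.mono F F le_rfl).1]

/-- The finite corner of the matrix of an operator. -/
def cor (F : Finset S) (x : E1 S →L[ℝ] E1 S) : E S :=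
  ofCol fun σ => Finsupp.onFinset F (fun τ => (prj1 F * x * prj1 F) (lp.single 1 σ 1) τ)
    fun τ h => by
      by_contra h'
      exact h ((prj1_apply F _ τ).trans (if_neg h'))

theorem ext_cor (F : Finset S) (x : E1 S →L[ℝ] E1 S) : Ext1 (cor F x) (prj1 F * x * prj1 F) :=
  fun σ τ => by rw [cor, BCC.col_ofCol]; rfl

theorem cor_ne {F : Finset S} {x : E1 S →L[ℝ] E1 S} {σ τ : S} (h : BCC.col (cor F x) σ τ ≠ 0) :
    σ ∈ F ∧ τ ∈ F := by
  rw [← ext_cor F x σ τ] at h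
  refine ⟨by_contra fun h' => h ?_, by_contra fun h' => h ((prj1_apply F _ τ).trans (if_neg h'))⟩
  have : prj1 F (lp.single 1 σ 1) = 0 := lp.ext (funext fun a => by
    rw [prj1_apply]
    split_ifs with ha
    · exact lp.single_apply_ne 1 σ _ fun e => h' (e ▸ ha)
    · rfl)
  change prj1 F (x (prj1 F (lp.single 1 σ 1))) τ = 0
  rw [this, map_zero, map_zero]; rfl

theorem bnd_cor (F : Finset S) (x : E1 S →L[ℝ] E1 S) : Bnd (cor F x) := by
  refine ⟨∑ σ ∈ F, ms (BCC.col (cor F x) σ), F.card, fun σ => ?_,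
    fun τ => ⟨F, le_rfl, fun σ h => (cor_ne h).1⟩⟩
  by_cases h : σ ∈ F
  · exact single_le_sum (f := fun σ => ms (BCC.col (cor F x) σ)) (fun _ _ => BCC.ms_nonneg _) h
  · rw [show BCC.col (cor F x) σ = 0 from Finsupp.ext fun τ => by_contra fun e => h (cor_ne e).1]
    exact (show ms (0 : S →₀ ℝ) = 0 by simp [ms]).trans_le (sum_nonneg fun _ _ => BCC.ms_nonneg _)

variable {X : Type} [MetricSpace X] [MulAction Γ X]

theorem disp_cor (c : S → X) (γ : Γ) (F : Finset S) (x : E1 S →L[ℝ] E1 S) :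
    Disp c γ (cor F x) := by
  refine ⟨⟨∑ z ∈ F ×ˢ F, dist (c z.2) (γ • c z.1), fun σ τ h => ?_⟩, fun ε _ => ?_⟩
  · exact single_le_sum (f := fun z : S × S => dist (c z.2) (γ • c z.1)) (a := (σ, τ))
      (fun _ _ => dist_nonneg) (mem_product.2 (cor_ne h))
  · filter_upwards [F.eventually_cofinite_notMem] with σ hσ τ h
    exact absurd (cor_ne h).1 hσ

theorem tau_mem {c : S → X} (hT : ∀ (γ : Γ) (T : E S) (y), Bnd T → Disp c γ T → IsTw2 γ T y →
    y ∈ Dstar Γ (posT Γ c)) (F : Finset S) {x : Op1 Γ S} (hx : x ∈ RA Γ (E1 S)) :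
    tau Γ F x ∈ Dstar Γ (posT Γ c) := by
  refine RR_map (tau Γ F) (Dstar Γ (posT Γ c)).toSubmodule
    (Subalgebra.isClosed_topologicalClosure _) (fun γ T => ?_) hx
  refine hT γ _ _ (bnd_cor F T) (disp_cor c γ F T) ((cmp_iff (ext_cor F T) γ _).1 ?_)
  have h := cmp_tau F (tw γ T)
  rwa [P1, amp_mul_tw, tw_mul_amp] at h

variable (Γ) in
/-- The algebra of compatible pairs. -/
def BB (c : S → X) : Subalgebra ℝ (B1 Γ S × Dstar Γ (posT Γ c)) where
  carrier := {b | Cmp b.1.1 b.2.1 ∧ b.2.1 ∈ locAlg (isFilt_P2 (Γ := Γ) (S := S))}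
  mul_mem' h h' := ⟨h.1.mul h'.1, mul_mem h.2 h'.2⟩
  add_mem' h h' := ⟨h.1.add h'.1, add_mem h.2 h'.2⟩
  algebraMap_mem' r := ⟨ContinuousLinearMap.ext fun ξ => (map_smul inc r ξ).symm,
    Subalgebra.algebraMap_mem _ r⟩

theorem isClosed_BB (c : S → X) : IsClosed (BB Γ c : Set (B1 Γ S × Dstar Γ (posT Γ c))) := by
  refine IsClosed.inter (isClosed_eq ?_ ?_) (isFilt_P2.isClosed_loc.preimage ?_)
  · exact (continuous_subtype_val.comp continuous_snd).clm_comp continuous_const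
  · exact continuous_const.clm_comp (continuous_subtype_val.comp continuous_fst)
  · exact continuous_subtype_val.comp continuous_snd

theorem tendsto_BB {c : S → X} {l : Filter (Finset S)} {f : Finset S → BB Γ c} {b : BB Γ c}
    (h1 : Tendsto (fun F => (f F).1.1.1) l (𝓝 b.1.1.1))
    (h2 : Tendsto (fun F => (f F).1.2.1) l (𝓝 b.1.2.1)) : Tendsto f l (𝓝 b) :=
  tendsto_subtype_rng.2 ((tendsto_subtype_rng.2 h1).prodMk_nhds (tendsto_subtype_rng.2 h2))

section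

variable {c : S → X} (hT : ∀ (γ : Γ) (T : E S) (y), Bnd T → Disp c γ T → IsTw2 γ T y →
    y ∈ Dstar Γ (posT Γ c))

/-- The filtration of the algebra of pairs. -/
def PP (F : Finset S) : BB Γ c :=
  ⟨(P1' Γ F, ⟨P2 Γ F, by rw [← tau_one]; exact tau_mem hT F (one_mem _)⟩), cmp_P F,
    isFilt_P2.KK_loc (isFilt_P2.P_mem F)⟩

theorem isFilt_PP : IsFilt (PP hT) where
  mono F G h :=
    ⟨Subtype.ext (Prod.ext (Subtype.ext ((isFilt_P1 Γ S).mono F G h).1)
      (Subtype.ext (isFilt_P2.mono F G h).1)),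
    Subtype.ext (Prod.ext (Subtype.ext ((isFilt_P1 Γ S).mono F G h).2)
      (Subtype.ext (isFilt_P2.mono F G h).2))⟩
  bd F := max_le ((isFilt_P1 Γ S).bd F) (isFilt_P2.bd F)

theorem kk_PP {b : BB Γ c} (h1 : b.1.1.1 ∈ KK (P1 Γ : Finset S → Op1 Γ S))
    (h2 : b.1.2.1 ∈ KK (P2 Γ : Finset S → Op (Tw S Γ))) : b ∈ KK (PP hT) :=
  ⟨tendsto_BB h1.1 h2.1, tendsto_BB h1.2 h2.2⟩

/-- The sections of the corners. -/
def sg (F : Finset S) : B1 Γ S →L[ℝ] BB Γ c where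
  toFun x := ⟨(P1' Γ F * x * P1' Γ F, ⟨tau Γ F x.1, tau_mem hT F x.2.1⟩), cmp_tau F x.1,
    isFilt_P2.KK_loc (by
      change tau Γ F x.1 ∈ _
      rw [tau_corner]
      exact isFilt_P2.corner_mem F F _)⟩
  map_add' x y := Subtype.ext (Prod.ext (by change _ * (x + y) * _ = _ + _; rw [mul_add, add_mul])
    (Subtype.ext (map_add (tau Γ F) x.1 y.1)))
  map_smul' r x := Subtype.ext (Prod.ext
    (by change _ * (r • x) * _ = r • _; rw [mul_smul_comm, smul_mul_assoc])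
    (Subtype.ext (map_smul (tau Γ F) r x.1)))
  cont := Continuous.subtype_mk (Continuous.prodMk (by fun_prop)
    (((tau Γ F).continuous.comp continuous_subtype_val).subtype_mk _)) _

end

end PAIR

open PAIR in
theorem stPAIR (hK : St_KER) (hT : St_TW) : St_PAIR := by
  intro Γ S X _ _ _ _ o c hp
  obtain ⟨k1, -, -, -, -, k2, k3, -⟩ := hK Γ S
  obtain ⟨-, -, -, -, -, t⟩ := hT Γ S X o hp
  refine ⟨BB Γ c, inferInstance, inferInstance, (isClosed_BB c).completeSpace_coe, PP (t c), ?_⟩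
  refine ⟨(AlgHom.fst ℝ _ _).comp (BB Γ c).val, ?_⟩
  refine ⟨(AlgHom.snd ℝ _ _).comp (BB Γ c).val, ?_⟩
  refine ⟨sg (t c), ?_⟩
  refine ⟨isFilt_PP _, ?_, ?_, ?_, ?_, ?_, ?_, ?_, fun γ T y h1 h2 => ?_⟩
  · exact fun b G => ⟨kk_PP _ (b.1.1.2.2 G).1 (b.2.2 G).1, kk_PP _ (b.1.1.2.2 G).2 (b.2.2 G).2⟩
  · exact continuous_fst.comp continuous_subtype_val
  · exact continuous_snd.comp continuous_subtype_val
  · exact fun b => le_rfl
  · exact fun F => rfl
  · exact fun F x => rfl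
  · exact fun F x => Subtype.ext (Prod.ext rfl (Subtype.ext (tau_of_cmp F x.2.1)))
  obtain ⟨M, hM⟩ := rows_of h1 h2
  obtain ⟨C, M', h3, h4⟩ := h1
  obtain ⟨x, hx⟩ := k1 T C h3
  have h5 : tw γ x ∈ B1 Γ S := k2 T x γ hx fun τ => by
    obtain ⟨F, -, hF⟩ := h4 τ
    refine tendsto_const_nhds.congr' ?_
    filter_upwards [F.eventually_cofinite_notMem] with σ hσ
    exact (not_not.1 fun h => hσ (hF σ h)).symm
  have h6 := (cmp_iff hx γ y.1).2 h2
  have h7 : y.1 ∈ Loc (P2 Γ : Finset S → Op (Tw S Γ)) := fun G =>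
    ⟨kk_of (h6.mul (cmp_P G)) (rows_right hM G) (h5.2 G).1,
      kk_of ((cmp_P G).mul h6) (rows_left hM G) (h5.2 G).2⟩
  have h8 : ((⟨_, h5⟩, y) : B1 Γ S × Dstar Γ (posT Γ c)) ∈ BB Γ c := ⟨h6, h7⟩
  refine ⟨⟨_, h8⟩, ⟨x, hx, rfl⟩, rfl, fun hs => ?_⟩
  exact kk_PP _ (k3 T x γ hx hs) (kk_of h6 hM (k3 T x γ hx hs))

end Pool.Agent.Lib.BCH
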