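import Pool.Agent.Lib.BCH.Roe46
import Pool.Agent.Lib.BCH.KApi

/-! Amplification, the shift, the Eilenberg swindle and embeddings into ample modules. -/

set_option linter.unusedSectionVars false

noncomputable section

open scoped ZeroAtInfty ENNReal
open Filter Topology

namespace Pool.Agent.Lib.BCH

section Alg

variable {A R : Type} [Ring A] [Ring R]

/-- The swindle for homomorphisms. -/
theorem map_swindle (θ θ₀ : A →ₙ+* R) (s t : R) (h : t * s = 1) (hs : ∀ a, s * θ a = θ a * s)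
    (ht : ∀ a, t * θ a = θ a * t) (h0 : ∀ a, θ₀ a = (1 - s * t) * θ a) (x : K0 A) :
    K0.map θ₀ x = 0 := by
  let θ₁ : A →ₙ+* R :=
    { toFun := fun a => s * θ a * t
      map_mul' := fun a b => by
        rw [map_mul]
        calc s * (θ a * θ b) * t = s * θ a * (t * s) * θ b * t := by rw [h]; noncomm_ring
          _ = _ := by noncomm_ring
      map_zero' := by simp
      map_add' := fun a b => by simp [mul_add, add_mul] }
  have e1 : ∀ a, θ₁ a = s * t * θ a := fun a => by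
    change s * θ a * t = _
    rw [mul_assoc, ← ht, mul_assoc]
  have e2 : ∀ a, θ₁ a = θ a * (s * t) := fun a => by
    change s * θ a * t = _
    rw [hs, mul_assoc]
  have e3 : ∀ a, θ₀ a = θ a * (1 - s * t) := fun a => by
    rw [h0, sub_mul, mul_sub, ← e1, ← e2, one_mul, mul_one]
  have hi : s * t * (s * t) = s * t := by rw [mul_assoc, ← mul_assoc t, h, one_mul]
  have h1 := map_eq_add (φ := θ₀) (ψ := θ₁) (χ := θ) (fun a => by rw [h0, e1]; noncomm_ring)
    (fun a b => by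
      rw [e3, e1, mul_assoc, ← mul_assoc (1 - s * t), sub_mul, hi]; simp)
    (fun a b => by
      rw [e2, h0, mul_assoc, ← mul_assoc (s * t), mul_sub, hi]; simp) x
  have h2 := map_eq_of_conj (φ := θ₁) (ψ := θ) s t (fun _ => rfl) (fun a => by rw [h, one_mul]) x
  rw [h2] at h1
  exact right_eq_add.1 h1

end Alg

section Amp

variable {Z Z₁ Z₂ Z₃ N : Type}

/-- The inclusion of a level. -/
def lev (Z : Type) (n : N) : Z → Z × N := fun a => (a, n)

theorem lev_inj (n : N) : Function.Injective (lev Z n) := fun _ _ h => congrArg Prod.fst h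

/-- Restriction to a level. -/
def sl (n : N) : H (Z × N) →L[ℝ] H Z := res (lev Z n) (lev_inj n)

theorem sum_sq_le (ξ : H Z) (s : Finset Z) : ∑ a ∈ s, ξ a ^ 2 ≤ ‖ξ‖ ^ 2 := by
  simpa using lp.sum_rpow_le_norm_rpow (p := 2) (by norm_num) ξ s

theorem hasSum_sq (ξ : H Z) : HasSum (fun a => ξ a ^ 2) (‖ξ‖ ^ 2) := by
  simpa using lp.hasSum_norm (p := 2) (by norm_num) ξ

theorem sum_sl_le (ξ : H (Z × N)) (s : Finset N) : ∑ n ∈ s, ‖sl n ξ‖ ^ 2 ≤ ‖ξ‖ ^ 2 := by
  have h := (hasSum_sq ξ)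
  rw [← (Equiv.prodComm N Z).hasSum_iff] at h
  have h2 : HasSum (fun n => ‖sl n ξ‖ ^ 2) (‖ξ‖ ^ 2) :=
    h.prod_fiberwise fun n => hasSum_sq (sl n ξ)
  exact sum_le_hasSum s (fun _ _ => sq_nonneg _) h2

theorem amp_sum_le (T : H Z₂ →L[ℝ] H Z₁) (ξ : H (Z₂ × N)) (s : Finset (Z₁ × N)) :
    ∑ x ∈ s, T (sl x.2 ξ) x.1 ^ 2 ≤ (‖T‖ * ‖ξ‖) ^ 2 := by
  classical
  calc ∑ x ∈ s, T (sl x.2 ξ) x.1 ^ 2
      ≤ ∑ x ∈ s.image Prod.fst ×ˢ s.image Prod.snd, T (sl x.2 ξ) x.1 ^ 2 :=
        Finset.sum_le_sum_of_subset_of_nonneg Finset.subset_product fun _ _ _ => sq_nonneg _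
    _ = ∑ n ∈ s.image Prod.snd, ∑ a ∈ s.image Prod.fst, T (sl n ξ) a ^ 2 :=
        Finset.sum_product_right _ _ _
    _ ≤ ∑ n ∈ s.image Prod.snd, ‖T‖ ^ 2 * ‖sl n ξ‖ ^ 2 := Finset.sum_le_sum fun n _ =>
        (sum_sq_le _ _).trans (by
          rw [← mul_pow]
          exact pow_le_pow_left₀ (norm_nonneg _) (T.le_opNorm _) 2)
    _ ≤ _ := by
        rw [← Finset.mul_sum, mul_pow]
        exact mul_le_mul_of_nonneg_left (sum_sl_le ξ _) (sq_nonneg _)

theorem memℓp_amp (T : H Z₂ →L[ℝ] H Z₁) (ξ : H (Z₂ × N)) :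
    Memℓp (fun x : Z₁ × N => T (sl x.2 ξ) x.1) 2 :=
  memℓp_gen' (C := (‖T‖ * ‖ξ‖) ^ 2) fun s => by simpa using amp_sum_le T ξ s

variable (N) in
/-- The amplification `T ⊗ 1`. -/
def ampN (T : H Z₂ →L[ℝ] H Z₁) : H (Z₂ × N) →L[ℝ] H (Z₁ × N) :=
  LinearMap.mkContinuous
    { toFun := fun ξ => ⟨fun x => T (sl x.2 ξ) x.1, memℓp_amp T ξ⟩
      map_add' := fun ξ η => lp.ext (funext fun x => by
        change T (sl x.2 (ξ + η)) x.1 = T (sl x.2 ξ) x.1 + T (sl x.2 η) x.1
        simp)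
      map_smul' := fun c ξ => lp.ext (funext fun x => by
        change T (sl x.2 (c • ξ)) x.1 = c * T (sl x.2 ξ) x.1
        simp) } ‖T‖ fun ξ =>
    lp.norm_le_of_forall_sum_le (by norm_num) (by positivity) fun s => by
      simpa using amp_sum_le T ξ s

theorem ampN_apply (T : H Z₂ →L[ℝ] H Z₁) (ξ : H (Z₂ × N)) (x : Z₁ × N) :
    ampN N T ξ x = T (sl x.2 ξ) x.1 := rfl

theorem norm_ampN_le (T : H Z₂ →L[ℝ] H Z₁) : ‖ampN N T‖ ≤ ‖T‖ :=
  LinearMap.mkContinuous_norm_le _ (norm_nonneg _) _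

open Classical in
theorem entry_ampN (T : H Z₂ →L[ℝ] H Z₁) (x : Z₁ × N) (y : Z₂ × N) :
    entry (ampN N T) x y = if x.2 = y.2 then entry T x.1 y.1 else 0 := by
  rw [entry_eq, ampN_apply]
  obtain ⟨b, m⟩ := y
  split_ifs with h
  · rw [h]
    exact congrArg (fun η => T η x.1) (res_dl (lev Z₂ m) (lev_inj m) b)
  · rw [sl, res_dl_of_not_mem, map_zero]
    · rfl
    · rintro ⟨a, ha⟩
      exact h (congrArg Prod.snd ha)

theorem sl_ampN (T : H Z₂ →L[ℝ] H Z₁) (ξ : H (Z₂ × N)) (n : N) :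
    sl n (ampN N T ξ) = T (sl n ξ) := rfl

theorem ampN_comp (S : H Z₂ →L[ℝ] H Z₁) (T : H Z₃ →L[ℝ] H Z₂) :
    ampN N (S.comp T) = (ampN N S).comp (ampN N T) := rfl

variable (N) in
/-- Amplification as a continuous linear map. -/
def ampNL : (H Z₂ →L[ℝ] H Z₁) →L[ℝ] H (Z₂ × N) →L[ℝ] H (Z₁ × N) :=
  LinearMap.mkContinuous ⟨⟨ampN N, fun _ _ => rfl⟩, fun _ _ => rfl⟩ 1 fun T => by
    rw [one_mul]; exact norm_ampN_le T

theorem continuous_ampN : Continuous (ampN N : (H Z₂ →L[ℝ] H Z₁) → _) := (ampNL N).continuous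

variable (N) in
/-- Amplification as an algebra homomorphism. -/
def ampNA : Op Z →ₐ[ℝ] Op (Z × N) :=
  AlgHom.ofLinearMap (ampNL N).toLinearMap rfl fun _ _ => rfl

@[simp] theorem ampNA_apply (T : Op Z) : ampNA N T = ampN N T := rfl

/-- The shift of levels. -/
def up (Z : Type) : Z × ℕ → Z × ℕ := fun x => (x.1, x.2 + 1)

theorem up_inj : Function.Injective (up Z) := fun _ _ h =>
  Prod.ext (congrArg Prod.fst h :) (Nat.succ_injective (congrArg Prod.snd h :))

/-- The shift as an isometry. -/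
def shU (Z : Type) : Op (Z × ℕ) := iso (up Z) up_inj

/-- The adjoint of the shift. -/
def shD (Z : Type) : Op (Z × ℕ) := res (up Z) up_inj

theorem shD_mul_shU : shD Z * shU Z = 1 := res_comp_iso _ _

theorem shD_ampN (T : Op Z) : shD Z * ampN ℕ T = ampN ℕ T * shD Z := rfl

theorem shU_ampN (T : Op Z) : shU Z * ampN ℕ T = ampN ℕ T * shU Z := by
  refine entry_ext fun x y => ?_
  have e : entry (ampN ℕ T * shU Z) x y = entry (ampN ℕ T) x (up Z y) := entry_comp_iso _ _ _ _ _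
  rw [e, entry_ampN]
  obtain ⟨a, _ | n⟩ := x
  · rw [if_neg fun h => Nat.succ_ne_zero _ h.symm]
    refine entry_iso_comp_of_not_mem _ _ _ ?_ _
    rintro ⟨z, hz⟩
    exact Nat.succ_ne_zero _ (congrArg Prod.snd hz)
  · refine (entry_iso_comp (up Z) up_inj (ampN ℕ T) (a, n) y).trans ?_
    rw [entry_ampN]
    by_cases h : n = y.2
    · rw [if_pos h]
      exact (if_pos (congrArg Nat.succ h)).symm
    · rw [if_neg h]
      exact (if_neg fun h' => h (Nat.succ_injective h')).symm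

theorem level_zero (T : Op Z) : (iso (lev Z 0) (lev_inj 0)).comp (T.comp (sl 0)) =
    (1 - shU Z * shD Z) * ampN ℕ T := by
  ext1 ξ
  refine lp.ext (funext fun x => ?_)
  change iso (lev Z 0) (lev_inj 0) (T (sl 0 ξ)) x =
    ampN ℕ T ξ x - iso (up Z) up_inj (shD Z (ampN ℕ T ξ)) x
  obtain ⟨a, _ | n⟩ := x
  · rw [iso_apply_of_not_mem (up Z), sub_zero]
    · exact iso_apply (lev Z 0) (lev_inj 0) _ a
    · rintro ⟨z, hz⟩
      exact Nat.succ_ne_zero _ (congrArg Prod.snd hz)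
  · rw [iso_apply_of_not_mem (lev Z 0)]
    · exact (sub_eq_zero.2 (iso_apply (up Z) up_inj (shD Z (ampN ℕ T ξ)) (a, n)).symm).symm
    · rintro ⟨z, hz⟩
      exact Nat.succ_ne_zero _ (congrArg Prod.snd hz).symm

/-- The amplification of a pull back. -/
theorem ampN_res (j : Z₂ → Z) (hj : Function.Injective j) :
    ampN N (res j hj) = res (Prod.map j id) (hj.prodMap Function.injective_id) := rfl

theorem ampN_iso (j : Z₂ → Z) (hj : Function.Injective j) :
    ampN N (iso j hj) = iso (Prod.map j id) (hj.prodMap Function.injective_id) :=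
  entry_ext fun x y => by
    rw [entry_ampN, entry_iso, entry_iso]
    by_cases h : x.2 = y.2
    · rw [if_pos h]
      exact ite_cg ⟨fun h' => Prod.ext (x := (j y.1, y.2)) h' h.symm, fun h' => congrArg Prod.fst h'⟩
    · rw [if_neg h, if_neg fun h' => h (congrArg Prod.snd h').symm]

theorem ampN_mulOp (f : Z → ℝ) (C : ℝ) (hf : ∀ z, |f z| ≤ C) :
    ampN N (mulOp f C hf) = mulOp (fun x => f x.1) C fun x => hf x.1 := rfl

end Amp

section Supp

variable {Γ X Z Z₂ : Type} [Group Γ] [MetricSpace X] [MulAction Γ Z] [MulAction Γ Z₂]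
  {p : Z → X} {p₂ : Z₂ → X}

/-- A weighted injection whose displacement is controlled on the support of the weight. -/
theorem wop_mem_D0' {j : Z₂ → Z} (hj : Function.Injective j)
    (he : ∀ (g : Γ) b, j (g • b) = g • j b) (s : Z₂ → ℝ) (C : ℝ) (hs : ∀ b, |s b| ≤ C)
    (hi : ∀ (g : Γ) b, s (g • b) = s b) {r : ℝ} (hr : ∀ b, s b ≠ 0 → dist (p (j b)) (p₂ b) ≤ r)
    (hf : ∀ ε > 0, ∀ B : Set X, Bornology.IsBounded B →
      {b | s b ≠ 0 ∧ p₂ b ∈ B ∧ ε ≤ dist (p (j b)) (p₂ b)}.Finite) :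
    wop j hj s C hs ∈ D0 Γ p p₂ := by
  let Z₃ := {b // s b ≠ 0}
  let _ : MulAction Γ Z₃ :=
    { smul := fun g b => ⟨g • b.1, by rw [hi]; exact b.2⟩
      one_smul := fun b => Subtype.ext (one_smul Γ b.1)
      mul_smul := fun g g' b => Subtype.ext (mul_smul g g' b.1) }
  have h1 : Slow p (fun b : Z₃ => p₂ b.1) (j ∘ Subtype.val) :=
    ⟨⟨r, fun b => hr b.1 b.2⟩, fun ε hε B hB =>
      ((hf ε hε B hB).preimage Subtype.val_injective.injOn).subset fun b hb => ⟨b.2, hb⟩⟩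
  have h2 : Slow p₂ (fun b : Z₃ => p₂ b.1) Subtype.val :=
    ⟨⟨0, fun b => by simp⟩, fun ε hε B _ => Set.finite_empty.subset fun b hb => by
      have := hb.2
      rw [dist_self] at this
      exact absurd this hε.not_ge⟩
  have h3 := D0_comp (iso_mem_D0 (Γ := Γ) (Z₂ := Z₃) (hj.comp Subtype.val_injective)
    (fun g b => he g b.1) h1)
    (D0_comp (res_mem_D0 (Γ := Γ) (Z₂ := Z₃) Subtype.val_injective (fun _ _ => rfl) h2)
      (mulOp_mem_D0 (p := p₂) s C hs hi))
  convert h3 using 1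
  refine entry_ext fun a b => ?_
  rw [entry_wop, ← ContinuousLinearMap.comp_assoc, entry_comp_mulOp]
  by_cases hb : s b = 0
  · simp [hb]
  · rw [show b = (⟨b, hb⟩ : Z₃).1 from rfl, entry_comp_res, entry_iso]
    split_ifs with h4 h5 h5
    · simp
    · exact absurd h4 h5
    · exact absurd h5 h4
    · simp

end Supp

section Embed

variable {Γ X Z S : Type} [Group Γ] [MetricSpace X] [MulAction Γ X] [IsIsometricSMul Γ X]
  [MulAction Γ Z]

theorem finite_orbit {o : X} (hp : ∀ R : ℝ, {g : Γ | dist o (g • o) ≤ R}.Finite) (x : X)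
    {B : Set X} (hB : Bornology.IsBounded B) : {g : Γ | g • x ∈ B}.Finite := by
  obtain ⟨r, hr⟩ := hB.subset_closedBall o
  refine (hp (r + dist x o)).subset fun g hg => ?_
  have h1 : dist (g • x) o ≤ r := hr hg
  have h2 := dist_triangle_left o (g • o) (g • x)
  rw [dist_smul] at h2
  change dist o (g • o) ≤ _
  linarith

theorem exists_new {pos : Z → X} (hZ : IsAmple Γ pos) {o : X}
    (hp : ∀ R : ℝ, {g : Γ | dist o (g • o) ≤ R}.Finite) (x : X) {ε : ℝ} (hε : 0 < ε)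
    (F : Finset Z) : ∃ z, dist (pos z) x < ε ∧ ∀ y ∈ F, ∀ g : Γ, g • y ≠ z := by
  have h1 : (⋃ y ∈ F, (fun g : Γ => g • y) '' {g : Γ | g • pos y ∈ Metric.ball x ε}).Finite :=
    F.finite_toSet.biUnion fun y _ => (finite_orbit hp _ Metric.isBounded_ball).image _
  obtain ⟨z, hz, hz'⟩ := (hZ.ample _ Metric.isOpen_ball ⟨x, Metric.mem_ball_self hε⟩).exists_notMem_finite h1
  refine ⟨z, hz, fun y hy g hg => hz' ?_⟩
  refine Set.mem_biUnion hy ⟨g, ?_, hg⟩
  rw [Set.mem_ofPred_eq, ← hZ.equivariant, hg]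
  exact hz

/-- Points in distinct orbits approximating a countable family. -/
theorem exists_embed [Countable S] {pos : Z → X} (hZ : IsAmple Γ pos) {o : X}
    (hp : ∀ R : ℝ, {g : Γ | dist o (g • o) ≤ R}.Finite) (q : S → X) (F : Finset Z) :
    ∃ z : S → Z, (∀ s s' (g : Γ), g • z s = z s' → s = s' ∧ g = 1) ∧
      (∀ s, ∀ y ∈ F, ∀ g : Γ, g • y ≠ z s) ∧ (∀ s, dist (pos (z s)) (q s) ≤ 1) ∧
      ∀ ε > 0, {s | ε ≤ dist (pos (z s)) (q s)}.Finite := by
  classical
  obtain ⟨k, hk⟩ := exists_injective_nat S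
  let x : ℕ → X := fun n => if h : ∃ s, k s = n then q h.choose else o
  have hx : ∀ s, x (k s) = q s := fun s => by
    have h : ∃ s', k s' = k s := ⟨s, rfl⟩
    simp only [x, dif_pos h, hk h.choose_spec]
  choose f hf hf' using fun (n : ℕ) (F : Finset Z) =>
    exists_new hZ hp (x n) (Nat.one_div_pos_of_nat (n := n)) F
  let A : ℕ → Finset Z := fun n => Nat.rec F (fun n B => insert (f n B) B) n
  have hA : Monotone A := monotone_nat_of_le_succ fun n => Finset.subset_insert _ _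
  have hm : ∀ {m n}, m < n → f m (A m) ∈ A n := fun {m n} h =>
    hA (Nat.succ_le_of_lt h) (Finset.mem_insert_self _ _)
  refine ⟨fun s => f (k s) (A (k s)), fun s s' g h => ?_, fun s y hy g =>
    hf' _ _ y (hA (Nat.zero_le _) hy) g, fun s => ?_, fun ε hε => ?_⟩
  · have : s = s' := by
      refine hk ?_
      rcases lt_trichotomy (k s) (k s') with h1 | h1 | h1
      · exact absurd h (hf' _ _ _ (hm h1) g)
      · exact h1
      · exact absurd (inv_smul_eq_iff.2 h.symm) (hf' _ _ _ (hm h1) g⁻¹)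
    subst this
    exact ⟨rfl, hZ.free _ _ h⟩
  · rw [← hx]
    refine (hf _ _).le.trans ?_
    rw [div_le_one (by positivity)]
    simp
  · obtain ⟨n, hn⟩ := exists_nat_one_div_lt hε
    refine ((Set.finite_lt_nat n).preimage hk.injOn).subset fun s hs => ?_
    by_contra h
    have h1 := hf (k s) (A (k s))
    rw [hx] at h1
    have h2 : (1 : ℝ) / ((k s : ℝ) + 1) ≤ 1 / ((n : ℝ) + 1) := Nat.one_div_le_one_div (not_lt.1 h)
    have h3 : ε ≤ dist (pos (f (k s) (A (k s)))) (q s) := hs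
    linarith

end Embed

end Pool.Agent.Lib.BCH
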